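import Pool.Agent.Helper39.SP.Merten
import Pool.Agent.Helper83.HLC.Defs

/-!
# SP-20: the majorant

PROOF. Let `n ≤ X`, `GG a n ≠ 0`: every `n + a i` is a power of a prime `p_i`, `GG a n ≤ (log (2 X)) ^ k` for `X ≥ max a`.
If all `p_i > z` then `nuA a 0 z n = (VV 0 z)⁻¹ ^ k ≥ (log z) ^ k` (`VV_log_le`), and `X < (z + 1) ^ s ≤ z ^ (2 s)` (`z ≥ 2`, `z + 1 ≤ z ^ 2`), so
`log (2 X) ≤ 2 log X ≤ 4 s log z` and `GG a n ≤ (4 s) ^ k nuA a 0 z n`; `nuA_mul` (`N ≤ z` for large `X`).
The other `n` have some `n + a i = p ^ j ≤ 2 X` with `p ≤ z`: at most `k z (Nat.log 2 (2 X) + 1)` integers, which contribute at most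
`4 (log (2 X)) ^ k k z (Nat.log 2 (2 X) + 1) ≤ η X` for `X ≥ X0`, as `z ≤ X ^ (1/4)` (`z ^ 4 ≤ z ^ s ≤ X`).
-/

set_option autoImplicit false

namespace Pool.Agent.Helper39.SP

open Finset
open Pool.Agent.Helper40.DB (PP VV DD)
open Pool.Agent.Helper83.HLC (GG)

private theorem VV_pos' (N z : ℕ) : 0 < VV N z := by
  unfold VV
  refine Finset.prod_pos fun p hp => ?_
  have h2 : 2 ≤ p := (Finset.mem_filter.1 hp).2.two_le
  have h3 : (2 : ℝ) ≤ p := by exact_mod_cast h2
  have h4 : 1 / (p : ℝ) ≤ 1 / 2 := one_div_le_one_div_of_le (by norm_num) h3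
  linarith

private theorem GG_le_log {k : ℕ} (a : Fin k → ℕ) (X n : ℕ) (hn : n ∈ Icc 1 X) (hX : ∑ i, a i ≤ X) :
    GG a n ≤ Real.log (2 * X) ^ k := by
  have hn' := Finset.mem_Icc.1 hn
  unfold Pool.Agent.Helper83.HLC.GG
  calc ∏ i, ArithmeticFunction.vonMangoldt (n + a i)
      ≤ ∏ _i : Fin k, Real.log (2 * X) := by
        refine Finset.prod_le_prod (fun i _ => ArithmeticFunction.vonMangoldt_nonneg) fun i _ => ?_
        refine le_trans ArithmeticFunction.vonMangoldt_le_log ?_
        have h1 : a i ≤ ∑ i, a i := Finset.single_le_sum (f := a) (fun _ _ => Nat.zero_le _) (Finset.mem_univ i)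
        have h2 : n + a i ≤ 2 * X := by omega
        refine Real.log_le_log ?_ (by exact_mod_cast h2)
        have : 0 < n + a i := by omega
        exact_mod_cast this
    _ = _ := by simp

private theorem lit (k : ℕ) (η : ℝ) (hη : 0 < η) :
    ∀ᶠ y : ℝ in Filter.atTop, 32 * k * Real.log y ^ (k + 1) ≤ η / 2 * Real.sqrt y := by
  have h := isLittleO_log_rpow_rpow_atTop ((k : ℝ) + 1) (show (0 : ℝ) < 1 / 2 by norm_num)
  have hc : 0 < η / 2 / (32 * k + 1) := by positivity
  filter_upwards [h.def hc, Filter.eventually_ge_atTop 1] with y hy hy1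
  have hl : 0 ≤ Real.log y := Real.log_nonneg hy1
  have e1 : Real.log y ^ ((k : ℝ) + 1) = Real.log y ^ (k + 1) := by
    rw [← Real.rpow_natCast]; push_cast; rfl
  rw [e1, ← Real.sqrt_eq_rpow, Real.norm_of_nonneg (pow_nonneg hl _), Real.norm_of_nonneg (Real.sqrt_nonneg _)] at hy
  have h0 : (0 : ℝ) < 32 * k + 1 := by positivity
  calc 32 * k * Real.log y ^ (k + 1) ≤ (32 * k + 1) * Real.log y ^ (k + 1) := by
        have := pow_nonneg hl (k + 1)
        nlinarith
    _ ≤ (32 * k + 1) * (η / 2 / (32 * k + 1) * Real.sqrt y) := by gcongr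
    _ = _ := by field_simp

theorem majorant {k : ℕ} (a : Fin k → ℕ) (s N : ℕ) (hs : 4 ≤ s) (η : ℝ) (hη : 0 < η) :
    ∃ X0 : ℕ, ∀ X : ℕ, X0 ≤ X → ∀ z : ℕ, z ^ s ≤ X → X < (z + 1) ^ s → ∀ F : ℕ → ℝ,
    (∀ n, 0 ≤ F n ∧ F n ≤ 4) →
    ∑ n ∈ Icc 1 X, GG a n * F n ≤
      (4 * s) ^ k * ∑ n ∈ Icc 1 X, nuA a 0 N n * nuA a N z n * F n + η * X := by
  classical
  obtain ⟨z0, hz0⟩ := VV_log_le
  obtain ⟨Y, hY⟩ := Filter.eventually_atTop.1 (lit k η hη)
  refine ⟨max (max (∑ i, a i + 2) ((max (max z0 N) 2 + 1) ^ s)) ⌈Y⌉₊, fun X hX z hz1 hz2 F hF => ?_⟩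
  have hX1 : ∑ i, a i + 2 ≤ X := le_trans (le_trans (le_max_left _ _) (le_max_left _ _)) hX
  have hX2 : (max (max z0 N) 2 + 1) ^ s ≤ X := le_trans (le_trans (le_max_right _ _) (le_max_left _ _)) hX
  have hX3 : Y ≤ X := le_trans (Nat.le_ceil Y) (by exact_mod_cast le_trans (le_max_right _ _) hX)
  have hXr : (2 : ℝ) ≤ X := by exact_mod_cast (show 2 ≤ X by omega)
  have hz : max (max z0 N) 2 ≤ z := by
    by_contra h
    push Not at h
    have h1 : (z + 1) ^ s ≤ (max (max z0 N) 2 + 1) ^ s := Nat.pow_le_pow_left (by omega) s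
    omega
  have hzz0 : z0 ≤ z := le_trans (le_trans (le_max_left _ _) (le_max_left _ _)) hz
  have hzN : N ≤ z := le_trans (le_trans (le_max_right _ _) (le_max_left _ _)) hz
  have hz22 : 2 ≤ z := le_trans (le_max_right _ _) hz
  have hzr : (2 : ℝ) ≤ z := by exact_mod_cast hz22
  have hlz : 0 < Real.log z := Real.log_pos (by linarith)
  have hl2X : 0 ≤ Real.log (2 * X) := Real.log_nonneg (by linarith)
  -- the logarithm of 2 X
  have hlog : Real.log (2 * X) ≤ 4 * s * Real.log z := by
    have h1 : (X : ℝ) ≤ ((z : ℝ) ^ 2) ^ s := by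
      have h2 : X ≤ (z ^ 2) ^ s := by
        refine le_trans hz2.le (Nat.pow_le_pow_left ?_ s)
        nlinarith
      exact_mod_cast h2
    have h3 : Real.log X ≤ 2 * s * Real.log z := by
      have h4 := Real.log_le_log (by linarith) h1
      rw [Real.log_pow, Real.log_pow] at h4
      push_cast at h4
      linarith
    have h5 : Real.log (2 * X) = Real.log 2 + Real.log X := Real.log_mul (by norm_num) (by linarith)
    have h6 : Real.log 2 ≤ Real.log X := Real.log_le_log (by norm_num) hXr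
    rw [h5]
    linarith
  have hVV : Real.log z ≤ (VV 0 z)⁻¹ := by
    have h1 := hz0 z hzz0
    have h2 := VV_pos' 0 z
    rw [← one_div, le_div_iff₀ h2]
    linarith
  set Q : ℕ → Prop := fun n => ∀ p ∈ PP 0 z, ∀ i, ¬ p ∣ n + a i with hQ
  rw [← Finset.sum_filter_add_sum_filter_not (Icc 1 X) Q]
  refine add_le_add ?_ ?_
  · -- good integers
    rw [Finset.mul_sum]
    calc ∑ n ∈ (Icc 1 X).filter Q, GG a n * F n
        ≤ ∑ n ∈ (Icc 1 X).filter Q, (4 * s) ^ k * (nuA a 0 N n * nuA a N z n * F n) := by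
          refine Finset.sum_le_sum fun n hn => ?_
          obtain ⟨hn1, hn2⟩ := Finset.mem_filter.1 hn
          rw [nuA_mul a N z n hzN]
          have h1 : nuA a 0 z n = (VV 0 z)⁻¹ ^ k := by
            unfold nuA
            exact if_pos hn2
          rw [h1, ← mul_assoc]
          refine mul_le_mul_of_nonneg_right ?_ (hF n).1
          calc GG a n ≤ Real.log (2 * X) ^ k := GG_le_log a X n hn1 (by omega)
            _ ≤ (4 * s * (VV 0 z)⁻¹) ^ k := by
                refine pow_le_pow_left₀ hl2X (le_trans hlog ?_) k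
                exact mul_le_mul_of_nonneg_left hVV (by positivity)
            _ = _ := by rw [mul_pow]
      _ ≤ _ := by
          refine Finset.sum_le_sum_of_subset_of_nonneg (Finset.filter_subset _ _) fun n _ _ => ?_
          have h1 := nuA_nonneg a 0 N n
          have h2 := nuA_nonneg a N z n
          have h3 := (hF n).1
          positivity
  · -- bad integers
    have hbad : ((Icc 1 X).filter fun n => ¬ Q n).filter (fun n => GG a n ≠ 0) ⊆
        ((univ : Finset (Fin k)) ×ˢ (range (z + 1) ×ˢ range (Nat.log 2 (2 * X) + 1))).image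
          (fun t : Fin k × ℕ × ℕ => t.2.1 ^ t.2.2 - a t.1) := by
      intro n hn
      obtain ⟨hn1, hn3⟩ := Finset.mem_filter.1 hn
      obtain ⟨hn1, hn2⟩ := Finset.mem_filter.1 hn1
      have hn1' := Finset.mem_Icc.1 hn1
      simp only [hQ] at hn2
      push Not at hn2
      obtain ⟨p, hp, i, hpi⟩ := hn2
      have hpp : p.Prime := (Finset.mem_filter.1 hp).2
      have hpz : p ≤ z := (Finset.mem_Ioc.1 (Finset.mem_filter.1 hp).1).2
      have h1 : ArithmeticFunction.vonMangoldt (n + a i) ≠ 0 := by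
        intro h
        apply hn3
        unfold Pool.Agent.Helper83.HLC.GG
        exact Finset.prod_eq_zero (Finset.mem_univ i) h
      rw [ArithmeticFunction.vonMangoldt_ne_zero_iff, isPrimePow_nat_iff] at h1
      obtain ⟨q, j, hq, hj, hqj⟩ := h1
      have hpq : p = q := by
        rw [← hqj] at hpi
        exact (Nat.prime_dvd_prime_iff_eq hpp hq).1 (hpp.dvd_of_dvd_pow hpi)
      subst hpq
      have h2 : a i ≤ ∑ i, a i := Finset.single_le_sum (f := a) (fun _ _ => Nat.zero_le _) (Finset.mem_univ i)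
      have h3 : p ^ j ≤ 2 * X := by omega
      have h4 : j ≤ Nat.log 2 (2 * X) := by
        refine Nat.le_log_of_pow_le (by norm_num) (le_trans (Nat.pow_le_pow_left hpp.two_le j) h3)
      refine Finset.mem_image.2 ⟨(i, p, j), ?_, ?_⟩
      · simp only [Finset.mem_product, Finset.mem_univ, Finset.mem_range, true_and]
        omega
      · simp only
        omega
    have hcard : ((((Icc 1 X).filter fun n => ¬ Q n).filter (fun n => GG a n ≠ 0)).card : ℝ) ≤
        k * ((z + 1) * (Nat.log 2 (2 * X) + 1)) := by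
      have h1 := le_trans (Finset.card_le_card hbad) Finset.card_image_le
      rw [Finset.card_product, Finset.card_product, Finset.card_range, Finset.card_range, Finset.card_univ,
        Fintype.card_fin] at h1
      exact_mod_cast h1
    have hlg : ((Nat.log 2 (2 * X) : ℕ) : ℝ) ≤ 2 * Real.log (2 * X) := by
      have h1 : (2 : ℕ) ^ Nat.log 2 (2 * X) ≤ 2 * X := Nat.pow_log_le_self 2 (by omega)
      have h2 : ((2 : ℝ)) ^ Nat.log 2 (2 * X) ≤ 2 * X := by exact_mod_cast h1
      have h3 := Real.log_le_log (by positivity) h2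
      rw [Real.log_pow] at h3
      have h4 : (0.6931471803 : ℝ) < Real.log 2 := Real.log_two_gt_d9
      have h5 : (0 : ℝ) ≤ ((Nat.log 2 (2 * X) : ℕ) : ℝ) := Nat.cast_nonneg _
      nlinarith
    have hlone : (1 : ℝ) ≤ 2 * Real.log (2 * X) := by
      have h1 : Real.log 2 ≤ Real.log (2 * X) := Real.log_le_log (by norm_num) (by linarith)
      have h4 : (0.6931471803 : ℝ) < Real.log 2 := Real.log_two_gt_d9
      linarith
    have hsum : ∑ n ∈ (Icc 1 X).filter (fun n => ¬ Q n), GG a n * F n ≤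
        k * ((z + 1) * (Nat.log 2 (2 * X) + 1)) * (Real.log (2 * X) ^ k * 4) := by
      have h1 : ∑ n ∈ (Icc 1 X).filter (fun n => ¬ Q n), GG a n * F n =
          ∑ n ∈ ((Icc 1 X).filter fun n => ¬ Q n).filter (fun n => GG a n ≠ 0), GG a n * F n := by
        symm
        refine Finset.sum_filter_of_ne fun n _ hn => ?_
        intro h
        exact hn (by rw [h, zero_mul])
      rw [h1]
      refine le_trans (Finset.sum_le_card_nsmul _ _ (Real.log (2 * X) ^ k * 4) fun n hn => ?_) ?_
      · obtain ⟨hn1, hn3⟩ := Finset.mem_filter.1 hn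
        obtain ⟨hn1, hn2⟩ := Finset.mem_filter.1 hn1
        exact mul_le_mul (GG_le_log a X n hn1 (by omega)) (hF n).2 (hF n).1 (pow_nonneg hl2X k)
      · rw [nsmul_eq_mul]
        refine mul_le_mul_of_nonneg_right hcard ?_
        have := pow_nonneg hl2X k
        positivity
    refine le_trans hsum ?_
    have hzX : (z : ℝ) ≤ Real.sqrt X := by
      refine Real.le_sqrt_of_sq_le ?_
      have h1 : z ^ 2 ≤ X := le_trans (Nat.pow_le_pow_right (by omega) (by omega)) hz1
      exact_mod_cast h1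
    have hfin := hY (2 * X) (by linarith)
    have hs2 : Real.sqrt (2 * X) ≤ 2 * Real.sqrt X := by
      refine Real.sqrt_le_iff.2 ⟨by positivity, ?_⟩
      rw [mul_pow, Real.sq_sqrt (by positivity)]
      linarith
    have hL := pow_nonneg hl2X k
    calc (k : ℝ) * ((z + 1) * (Nat.log 2 (2 * X) + 1)) * (Real.log (2 * X) ^ k * 4)
        ≤ k * ((2 * z) * (2 * Real.log (2 * X) + 2 * Real.log (2 * X))) * (Real.log (2 * X) ^ k * 4) := by
          gcongr
          linarith
      _ = (32 * k * Real.log (2 * X) ^ (k + 1)) * z := by ring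
      _ ≤ (η / 2 * Real.sqrt (2 * X)) * Real.sqrt X := by
          refine mul_le_mul hfin hzX (by positivity) (by positivity)
      _ ≤ (η / 2 * (2 * Real.sqrt X)) * Real.sqrt X := by gcongr
      _ = η * (Real.sqrt X * Real.sqrt X) := by ring
      _ = η * X := by rw [Real.mul_self_sqrt (by positivity)]

end Pool.Agent.Helper39.SP
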