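import Pool.Agent.Helper39.SP.Defs
import Pool.Agent.Helper40.DB.Mert
import Pool.Agent.Helper32.M3.Integral

/-!
# SP-19: Mertens

PROOFS. `PP 0 z` is the set of the primes `≤ z`, `VV 0 z = ∏_(p ≤ z) (1 - 1/p)`; `Helper32.M3.mertens_three`: `VV 0 n * log n → exp(-γ)`, `0 < exp(-γ) < 1`
(`γ > 0`: `Real.eulerMascheroniConstant` is `> 1/2` in Mathlib, `Real.one_half_lt_eulerMascheroniConstant`). Hence `VV_log_le` (eventually `≤ 1`), and
`VV_inv_le_log`: `(VV N z)⁻¹ ≤ (VV 0 z)⁻¹ ≤ C log z` for `z ≥ 3` (the finitely many small `z` are absorbed in `C`; `log z > 0`).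
`VV_mul`: `PP 0 z` is the disjoint union of `PP 0 N` and `PP N z`. `nuA_mul`: no prime `≤ z` divides.
-/

set_option autoImplicit false

namespace Pool.Agent.Helper39.SP

open Finset
open Pool.Agent.Helper40.DB (PP VV DD)

private theorem two_le_of_mem {N z p : ℕ} (h : p ∈ PP N z) : (2 : ℝ) ≤ p := by
  exact_mod_cast (mem_filter.1 h).2.two_le

private theorem VV_le_one (N z : ℕ) : VV N z ≤ 1 := by
  unfold VV
  refine Finset.prod_le_one (fun p hp => ?_) fun p hp => ?_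
  · have h := two_le_of_mem hp
    have h1 : 1 / (p : ℝ) ≤ 1 := by
      rw [div_le_one (by linarith)]
      linarith
    linarith
  · have h := two_le_of_mem hp
    have h1 : 0 ≤ 1 / (p : ℝ) := by positivity
    linarith

private theorem VV_mul' (N z : ℕ) (h : N ≤ z) : VV 0 N * VV N z = VV 0 z := by
  unfold VV
  rw [← Finset.prod_union]
  · refine Finset.prod_congr ?_ fun _ _ => rfl
    ext p
    simp only [PP, mem_union, mem_filter, mem_Ioc]
    constructor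
    · rintro (⟨⟨h1, h2⟩, hp⟩ | ⟨⟨h1, h2⟩, hp⟩)
      · exact ⟨⟨h1, by omega⟩, hp⟩
      · exact ⟨⟨by omega, h2⟩, hp⟩
    · rintro ⟨⟨h1, h2⟩, hp⟩
      by_cases h' : p ≤ N
      · exact Or.inl ⟨⟨h1, h'⟩, hp⟩
      · exact Or.inr ⟨⟨by omega, h2⟩, hp⟩
  · rw [Finset.disjoint_left]
    intro p hp hp'
    have h6 := (mem_Ioc.1 (mem_filter.1 hp).1).2
    have h7 := (mem_Ioc.1 (mem_filter.1 hp').1).1
    omega

private theorem VV_anti (N z : ℕ) : VV 0 z ≤ VV N z := by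
  rcases le_or_gt N z with h | h
  · rw [← VV_mul' N z h]
    have h1 := VV_le_one 0 N
    have h2 := Pool.Agent.Helper40.DB.VV_pos N z
    nlinarith
  · have h1 : VV N z = 1 := by
      unfold VV PP
      rw [Finset.Ioc_eq_empty_of_le h.le]
      simp
    rw [h1]
    exact VV_le_one 0 z

private theorem one_le_inv (N z : ℕ) : 1 ≤ (VV N z)⁻¹ :=
  (one_le_inv₀ (Pool.Agent.Helper40.DB.VV_pos N z)).2 (VV_le_one N z)

theorem VV_inv_le_log : ∃ C : ℝ, 0 < C ∧ ∀ N z : ℕ, 3 ≤ z → (VV N z)⁻¹ ≤ C * Real.log z := by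
  have h1 : Filter.Tendsto (fun n : ℕ => (VV 0 n * Real.log n)⁻¹) Filter.atTop
      (nhds (Real.exp (-Real.eulerMascheroniConstant))⁻¹) := by
    refine Filter.Tendsto.inv₀ ?_ (Real.exp_pos _).ne'
    refine Pool.Agent.Helper32.M3.mertens_three.congr fun n => ?_
    congr 1
  obtain ⟨C, hC⟩ := h1.bddAbove_range
  have hC' : ∀ n : ℕ, (VV 0 n * Real.log n)⁻¹ ≤ C := fun n => hC ⟨n, rfl⟩
  refine ⟨max C 1, by positivity, fun N z hz => ?_⟩
  have hz' : (3 : ℝ) ≤ z := by exact_mod_cast hz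
  have hl : 0 < Real.log z := Real.log_pos (by linarith)
  have hv := Pool.Agent.Helper40.DB.VV_pos 0 z
  have h2 : (VV N z)⁻¹ ≤ (VV 0 z)⁻¹ := inv_anti₀ hv (VV_anti N z)
  have h3 : (VV 0 z)⁻¹ = (VV 0 z * Real.log z)⁻¹ * Real.log z := by
    rw [mul_inv, mul_assoc, inv_mul_cancel₀ hl.ne', mul_one]
  rw [h3] at h2
  exact h2.trans (mul_le_mul_of_nonneg_right ((hC' z).trans (le_max_left _ _)) hl.le)

theorem VV_log_le : ∃ z0 : ℕ, ∀ z : ℕ, z0 ≤ z → VV 0 z * Real.log z ≤ 1 := by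
  refine ⟨2, fun z hz => ?_⟩
  have h := Pool.Agent.Helper40.DB.VV_mul_totient 1 z le_rfl (by omega) hz
  have h1 : VV 1 z = VV 0 z := by
    rw [← VV_mul' 1 z (by omega)]
    have : VV 0 1 = 1 := by
      unfold VV PP
      simp [Finset.filter_singleton, Nat.not_prime_one]
    rw [this, one_mul]
  simpa [h1] using h

theorem VV_mul (N z : ℕ) (h : N ≤ z) : VV 0 N * VV N z = VV 0 z := by
  exact VV_mul' N z h

theorem nuA_mul {k : ℕ} (a : Fin k → ℕ) (N z n : ℕ) (h : N ≤ z) : nuA a 0 N n * nuA a N z n = nuA a 0 z n := by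
  classical
  have hiff : (∀ p ∈ PP 0 z, ∀ i, ¬ p ∣ n + a i) ↔
      (∀ p ∈ PP 0 N, ∀ i, ¬ p ∣ n + a i) ∧ (∀ p ∈ PP N z, ∀ i, ¬ p ∣ n + a i) := by
    simp only [PP, mem_filter, mem_Ioc]
    constructor
    · intro H
      exact ⟨fun p hp => H p ⟨⟨hp.1.1, hp.1.2.trans h⟩, hp.2⟩,
        fun p hp => H p ⟨⟨by omega, hp.1.2⟩, hp.2⟩⟩
    · rintro ⟨H1, H2⟩ p hp
      rcases le_or_gt p N with h' | h'
      · exact H1 p ⟨⟨hp.1.1, h'⟩, hp.2⟩
      · exact H2 p ⟨⟨h', hp.1.2⟩, hp.2⟩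
  unfold nuA
  by_cases h1 : ∀ p ∈ PP 0 N, ∀ i, ¬ p ∣ n + a i
  · by_cases h2 : ∀ p ∈ PP N z, ∀ i, ¬ p ∣ n + a i
    · rw [if_pos h1, if_pos h2, if_pos (hiff.2 ⟨h1, h2⟩), ← VV_mul' N z h, ← mul_pow, mul_inv]
    · rw [if_neg h2, if_neg (fun H => h2 (hiff.1 H).2), mul_zero]
  · rw [if_neg h1, if_neg (fun H => h1 (hiff.1 H).1), zero_mul]

theorem nuA_nonneg {k : ℕ} (a : Fin k → ℕ) (N z n : ℕ) : 0 ≤ nuA a N z n := by
  unfold nuA
  have h := Pool.Agent.Helper40.DB.VV_pos N z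
  split_ifs
  · positivity
  · exact le_rfl

theorem nuA_le {k : ℕ} (a : Fin k → ℕ) (N z n : ℕ) : nuA a N z n ≤ (VV N z)⁻¹ ^ k := by
  unfold nuA
  have h := Pool.Agent.Helper40.DB.VV_pos N z
  split_ifs
  · exact le_rfl
  · positivity

theorem abs_phi_le {k : ℕ} (a : Fin k → ℕ) (N z n : ℕ) :
    |phi a N z n| ≤ (VV 0 N)⁻¹ ^ k * (VV N z)⁻¹ ^ k := by
  unfold phi
  rw [abs_mul]
  have h0 := Pool.Agent.Helper40.DB.VV_pos 0 N
  have h1 := nuA_nonneg a 0 N n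
  have h2 := nuA_le a 0 N n
  have h3 := nuA_nonneg a N z n
  have h4 := nuA_le a N z n
  have h5 : 1 ≤ (VV N z)⁻¹ ^ k := one_le_pow₀ (one_le_inv N z)
  refine mul_le_mul ?_ ?_ (abs_nonneg _) (by positivity)
  · rw [abs_of_nonneg h1]
    exact h2
  · rw [abs_le]
    constructor <;> linarith

end Pool.Agent.Helper39.SP
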