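import Pool.Agent.Helper39.SP.Defs

/-!
# SP-01: the autocorrelation

`kap S (fun _ => 1) t = #{(h, h') ∈ S × S | h - h' = t} / |S| ^ 2`.

PROOFS. `kap_one_nonneg`: clear. `abs_kap_le`: triangle inequality, `|e h * e h'| ≤ 1`. `kap_one_le`: for each `h` there is at most
one `h'`, so the number of pairs is at most `|S|` (for `S = ∅` both sides are `0`). `sum_kap_le`: the pairs with different `t` are disjoint
subsets of `S × S` (`Finset.card_biUnion` or `Finset.sum_fiberwise_le`...). `kap_neg`: swap the pairs.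
The statements for `ker` follow (`t ↦ (t : ℤ) - s` is injective).
-/

set_option autoImplicit false

namespace Pool.Agent.Helper39.SP

open Finset

private theorem kap_one_eq (S : Finset ℕ) (t : ℤ) : kap S (fun _ => 1) t =
    (((S ×ˢ S).filter (fun u => (u.1 : ℤ) - u.2 = t)).card : ℝ) / (S.card : ℝ) ^ 2 := by
  unfold kap
  simp

theorem kap_one_nonneg (S : Finset ℕ) (t : ℤ) : 0 ≤ kap S (fun _ => 1) t := by
  rw [kap_one_eq]
  positivity

theorem abs_kap_le (S : Finset ℕ) (e : ℕ → ℝ) (he : ∀ h, |e h| ≤ 1) (t : ℤ) :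
    |kap S e t| ≤ kap S (fun _ => 1) t := by
  unfold kap
  rw [abs_div, abs_of_nonneg (by positivity : (0 : ℝ) ≤ (S.card : ℝ) ^ 2)]
  apply div_le_div_of_nonneg_right _ (by positivity)
  refine (Finset.abs_sum_le_sum_abs _ _).trans (Finset.sum_le_sum fun u _ => ?_)
  rw [abs_mul, one_mul]
  exact mul_le_one₀ (he _) (abs_nonneg _) (he _)

theorem kap_one_le (S : Finset ℕ) (t : ℤ) : kap S (fun _ => 1) t ≤ 1 / S.card := by
  rw [kap_one_eq]
  rcases Nat.eq_zero_or_pos S.card with h0 | h0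
  · have : S = ∅ := Finset.card_eq_zero.mp h0
    subst this
    simp
  have hc : ((S ×ˢ S).filter (fun u => (u.1 : ℤ) - u.2 = t)).card ≤ S.card := by
    apply Finset.card_le_card_of_injOn (fun u => u.1)
    · intro u hu
      simp only [Finset.coe_filter, Finset.mem_product, Set.mem_ofPred_eq] at hu
      exact hu.1.1
    · intro u hu v hv huv
      simp only [Finset.coe_filter, Finset.mem_product, Set.mem_ofPred_eq] at hu hv huv
      have h1 := hu.2
      have h2 := hv.2
      refine Prod.ext huv ?_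
      have : (u.2 : ℤ) = v.2 := by
        have : (u.1 : ℤ) = v.1 := by exact_mod_cast huv
        linarith
      exact_mod_cast this
  have hS : (0 : ℝ) < S.card := by exact_mod_cast h0
  rw [div_le_div_iff₀ (by positivity) hS]
  have : (((S ×ˢ S).filter (fun u => (u.1 : ℤ) - u.2 = t)).card : ℝ) ≤ S.card := by exact_mod_cast hc
  nlinarith

theorem sum_kap_le (S : Finset ℕ) (T : Finset ℤ) : ∑ t ∈ T, kap S (fun _ => 1) t ≤ 1 := by
  simp only [kap_one_eq]
  rw [← Finset.sum_div]
  apply div_le_one_of_le₀ _ (by positivity)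
  have h := Finset.card_eq_sum_card_fiberwise (s := (S ×ˢ S).filter (fun u => (u.1 : ℤ) - u.2 ∈ T)) (t := T)
    (f := fun u => (u.1 : ℤ) - u.2) (by
      intro u hu
      simp only [Finset.coe_filter, Set.mem_ofPred_eq] at hu
      exact hu.2)
  have h2 : ∀ t ∈ T, (((S ×ˢ S).filter (fun u => (u.1 : ℤ) - u.2 ∈ T)).filter (fun u => (u.1 : ℤ) - u.2 = t)).card =
      ((S ×ˢ S).filter (fun u => (u.1 : ℤ) - u.2 = t)).card := by
    intro t ht
    congr 1
    ext u
    simp only [Finset.mem_filter]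
    constructor
    · rintro ⟨⟨h1, _⟩, h3⟩
      exact ⟨h1, h3⟩
    · rintro ⟨h1, h3⟩
      exact ⟨⟨h1, h3 ▸ ht⟩, h3⟩
  rw [Finset.sum_congr rfl h2] at h
  have h3 : ((S ×ˢ S).filter (fun u => (u.1 : ℤ) - u.2 ∈ T)).card ≤ S.card ^ 2 := by
    refine (Finset.card_filter_le _ _).trans ?_
    rw [Finset.card_product, sq]
  rw [h] at h3
  exact_mod_cast h3

theorem kap_neg (S : Finset ℕ) (e : ℕ → ℝ) (t : ℤ) : kap S e (-t) = kap S e t := by
  unfold kap
  congr 1
  refine Finset.sum_nbij' (fun u => (u.2, u.1)) (fun u => (u.2, u.1)) ?_ ?_ ?_ ?_ ?_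
  · intro u hu
    simp only [Finset.mem_filter, Finset.mem_product] at hu ⊢
    exact ⟨⟨hu.1.2, hu.1.1⟩, by linarith [hu.2]⟩
  · intro u hu
    simp only [Finset.mem_filter, Finset.mem_product] at hu ⊢
    exact ⟨⟨hu.1.2, hu.1.1⟩, by linarith [hu.2]⟩
  · intro u _
    rfl
  · intro u _
    rfl
  · intro u _
    exact mul_comm _ _

theorem ker_nonneg (S : Finset ℕ) (s t : ℕ) : 0 ≤ ker S s t := kap_one_nonneg S _

theorem ker_le (S : Finset ℕ) (s t : ℕ) : ker S s t ≤ 1 / S.card := kap_one_le S _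

theorem sum_ker_le (S J : Finset ℕ) (s : ℕ) : ∑ t ∈ J, ker S s t ≤ 1 := by
  have h : ∑ t ∈ J, ker S s t = ∑ u ∈ J.image (fun t : ℕ => (t : ℤ) - s), kap S (fun _ => 1) u := by
    rw [Finset.sum_image]
    · rfl
    · intro a _ b _ hab
      have : (a : ℤ) = b := by
        have h' : (a : ℤ) - s = (b : ℤ) - s := hab
        linarith
      exact_mod_cast this
  rw [h]
  exact sum_kap_le S _

theorem ker_symm (S : Finset ℕ) (s t : ℕ) : ker S s t = ker S t s := by
  unfold ker
  rw [← kap_neg S _ ((t : ℤ) - s), neg_sub]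

end Pool.Agent.Helper39.SP
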