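import Pool.Agent.Helper39.SP.Window
import Pool.Agent.Helper39.SP.Kap

/-!
# SP-08: the average over the windows

PROOF. Let `F = av S e f`, `|F| ≤ B` (`|e h| ≤ 1`, `|f| ≤ B`, so `B ≥ 0`), `N = n + 1`, `Q_y = ∑_(x < H) φ (y + x) F (y + x) ^ 2`.
(1) `∑_(y = 1)^X Q_y = ∑_m w(m) φ(m) F(m) ^ 2`, `w(m) = #{(y, x) | y ∈ [1, X], x < H, y + x = m}`, `0 ≤ w ≤ H`, `w(m) = H` for `H ≤ m ≤ X`, `w(m) = 0`
for `m ≥ X + H` and for `m = 0`. So `|H ∑_(m ≤ X) φ F^2 - ∑_y Q_y| ≤ H * D B^2 * (number of m < H) + H D B^2 * (number of the m in (X, X + H)) ≤ 2 H^2 D B^2`.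
(2) `window` and `|∏ kap| ≤ cyc (ker S) x` (`abs_kap_le`; `ker S (x i) (x (i + 1)) = kap S 1 (x (i + 1) - x i)`):
`∑_y |Q_y| ^ N ≤ (B^2 (2 H + 1))^N ∑_x (∏ kap ..) ∑_y ∏ φ (y + x i) ≤ (B^2 (2 H + 1))^N X ∑_x cyc (ker S) x |(∑_y ∏ φ (y + x i)) / X|
≤ (3 H B^2)^N X η^N`.
(3) Power mean (Mathlib: `inner_le_nnorm_mul_nnorm` is not needed, use `pow_sum_div_card_le_sum_pow`):
`(∑_y |Q_y|)^N ≤ X^(N-1) ∑ |Q_y|^N ≤ (3 H B^2 X η)^N`, so `∑ |Q_y| ≤ 3 H B^2 X η` (`abs_le_of_pow_le_pow_left` / `le_of_pow_le_pow_left₀`).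
Divide (1) by `H`.
-/

set_option autoImplicit false

namespace Pool.Agent.Helper39.SP

open Finset

private theorem avg_tel (g : ℕ → ℝ) (X : ℕ) :
    ∑ y ∈ Icc 1 X, g y - ∑ y ∈ Icc 1 X, g (y + 1) = g 1 - g (X + 1) := by
  induction X with
  | zero => simp
  | succ X ih =>
    rw [Finset.sum_Icc_succ_top (by omega), Finset.sum_Icc_succ_top (by omega)]
    linarith

private theorem avg_shift (g : ℕ → ℝ) (G : ℝ) (hg : ∀ m, |g m| ≤ G) (X x : ℕ) :
    |∑ y ∈ Icc 1 X, g y - ∑ y ∈ Icc 1 X, g (y + x)| ≤ 2 * x * G := by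
  induction x with
  | zero => simp
  | succ x ih =>
    have h1 := avg_tel (fun y => g (y + x)) X
    have h2 : ∑ y ∈ Icc 1 X, g y - ∑ y ∈ Icc 1 X, g (y + (x + 1)) =
        (∑ y ∈ Icc 1 X, g y - ∑ y ∈ Icc 1 X, g (y + x)) + (g (1 + x) - g (X + 1 + x)) := by
      have h3 : ∑ y ∈ Icc 1 X, g (y + (x + 1)) = ∑ y ∈ Icc 1 X, g (y + 1 + x) :=
        Finset.sum_congr rfl fun y _ => by rw [show y + (x + 1) = y + 1 + x by ring]
      rw [h3]
      linarith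
    rw [h2]
    have h4 := abs_add_le (∑ y ∈ Icc 1 X, g y - ∑ y ∈ Icc 1 X, g (y + x)) (g (1 + x) - g (X + 1 + x))
    have h5 := abs_sub (g (1 + x)) (g (X + 1 + x))
    have h6 := hg (1 + x)
    have h7 := hg (X + 1 + x)
    push_cast
    linarith

private theorem avg_pow (Q : ℕ → ℝ) (X n : ℕ) (hX : 1 ≤ X) :
    (∑ y ∈ Icc 1 X, |Q y|) ^ (n + 1) ≤ (X : ℝ) ^ n * ∑ y ∈ Icc 1 X, |Q y| ^ (n + 1) := by
  have h := pow_sum_div_card_le_sum_pow (s := Icc 1 X) (f := fun y => |Q y|)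
    (fun y _ => abs_nonneg _) n
  have hX0 : (0 : ℝ) < (X : ℝ) ^ n := by
    have : (0 : ℝ) < X := by exact_mod_cast hX
    positivity
  rw [Nat.card_Icc, Nat.add_sub_cancel, div_le_iff₀ hX0] at h
  linarith

theorem average (S : Finset ℕ) (H : ℕ) (hS : S ⊆ Icc 1 H) (hH : 1 ≤ H) (e f φ : ℕ → ℝ)
    (he : ∀ h, |e h| ≤ 1) (B D : ℝ) (hf : ∀ n, |f n| ≤ B) (hφ : ∀ n, |φ n| ≤ D) (j n : ℕ)
    (hj : 1 ≤ j) (hn : n + 1 = 2 ^ j) (X : ℕ) (hX : 1 ≤ X) (η : ℝ) (hη : 0 ≤ η)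
    (hw : ∑ x ∈ walks n H, cyc (ker S) x * |(∑ y ∈ Icc 1 X, ∏ i, φ (y + x i)) / X| ≤ η ^ (n + 1)) :
    |∑ m ∈ Icc 1 X, φ m * av S e f m ^ 2| ≤ 3 * B ^ 2 * X * η + 2 * H * D * B ^ 2 := by
  have hB : 0 ≤ B := (abs_nonneg _).trans (hf 0)
  have hD : 0 ≤ D := (abs_nonneg _).trans (hφ 0)
  have hXr : (1 : ℝ) ≤ X := by exact_mod_cast hX
  have hHr : (1 : ℝ) ≤ H := by exact_mod_cast hH
  -- the bound of the average
  have hF : ∀ m, |av S e f m| ≤ B := by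
    intro m
    unfold av
    rcases Nat.eq_zero_or_pos S.card with h0 | h0
    · rw [h0]
      simpa using hB
    · have hc : (0 : ℝ) < S.card := by exact_mod_cast h0
      rw [abs_div, abs_of_pos hc, div_le_iff₀ hc]
      calc |∑ h ∈ S, e h * f (m + h)| ≤ ∑ h ∈ S, |e h * f (m + h)| := abs_sum_le_sum_abs _ _
        _ ≤ ∑ _h ∈ S, B := by
            apply Finset.sum_le_sum
            intro h _
            rw [abs_mul]
            calc |e h| * |f (m + h)| ≤ 1 * B :=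
                  mul_le_mul (he h) (hf _) (abs_nonneg _) zero_le_one
              _ = B := one_mul B
        _ = B * S.card := by rw [Finset.sum_const, nsmul_eq_mul, mul_comm]
  set g : ℕ → ℝ := fun m => φ m * av S e f m ^ 2 with hgdef
  have hg : ∀ m, |g m| ≤ D * B ^ 2 := by
    intro m
    rw [hgdef]
    simp only
    rw [abs_mul, abs_pow]
    exact mul_le_mul (hφ m) (pow_le_pow_left₀ (abs_nonneg _) (hF m) 2) (by positivity) hD
  set Q : ℕ → ℝ := fun y => ∑ x ∈ range H, φ (y + x) * av S e f (y + x) ^ 2 with hQdef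
  -- step one
  have h1 : |(H : ℝ) * ∑ m ∈ Icc 1 X, g m - ∑ y ∈ Icc 1 X, Q y| ≤ 2 * H ^ 2 * (D * B ^ 2) := by
    have h2 : ∑ y ∈ Icc 1 X, Q y = ∑ x ∈ range H, ∑ y ∈ Icc 1 X, g (y + x) := by
      rw [hQdef, Finset.sum_comm]
    have h3 : (H : ℝ) * ∑ m ∈ Icc 1 X, g m = ∑ _x ∈ range H, ∑ m ∈ Icc 1 X, g m := by
      rw [Finset.sum_const, Finset.card_range, nsmul_eq_mul]
    rw [h2, h3, ← Finset.sum_sub_distrib]
    calc |∑ x ∈ range H, (∑ m ∈ Icc 1 X, g m - ∑ y ∈ Icc 1 X, g (y + x))|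
        ≤ ∑ x ∈ range H, |∑ m ∈ Icc 1 X, g m - ∑ y ∈ Icc 1 X, g (y + x)| :=
          abs_sum_le_sum_abs _ _
      _ ≤ ∑ _x ∈ range H, 2 * (H : ℝ) * (D * B ^ 2) := by
          apply Finset.sum_le_sum
          intro x hx
          refine (avg_shift g _ hg X x).trans ?_
          have hx2 : (x : ℝ) ≤ H := by exact_mod_cast (Finset.mem_range.1 hx).le
          have : 0 ≤ D * B ^ 2 := by positivity
          nlinarith
      _ = 2 * H ^ 2 * (D * B ^ 2) := by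
          rw [Finset.sum_const, Finset.card_range, nsmul_eq_mul]
          ring
  -- step two
  have h2 : ∑ y ∈ Icc 1 X, |Q y| ^ (n + 1) ≤ (3 * H * B ^ 2) ^ (n + 1) * (X * η ^ (n + 1)) := by
    have hcyc : ∀ x : Fin (n + 1) → ℕ, |∏ i, kap S e ((x (i + 1) : ℤ) - x i)| ≤ cyc (ker S) x := by
      intro x
      rw [Finset.abs_prod]
      unfold cyc ker
      exact Finset.prod_le_prod (fun i _ => abs_nonneg _) fun i _ => abs_kap_le S e he _
    calc ∑ y ∈ Icc 1 X, |Q y| ^ (n + 1)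
        ≤ ∑ y ∈ Icc 1 X, (B ^ 2 * (2 * H + 1)) ^ (n + 1) * ∑ x ∈ walks n H,
            (∏ i, φ (y + x i)) * ∏ i, kap S e ((x (i + 1) : ℤ) - x i) :=
          Finset.sum_le_sum fun y _ => window S H hS e f φ B hf j n hj hn y
      _ = (B ^ 2 * (2 * H + 1)) ^ (n + 1) * ∑ x ∈ walks n H,
            (∏ i, kap S e ((x (i + 1) : ℤ) - x i)) * ∑ y ∈ Icc 1 X, ∏ i, φ (y + x i) := by
          rw [← Finset.mul_sum, Finset.sum_comm]
          congr 1
          apply Finset.sum_congr rfl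
          intro x _
          rw [Finset.mul_sum]
          exact Finset.sum_congr rfl fun y _ => mul_comm _ _
      _ ≤ (B ^ 2 * (2 * H + 1)) ^ (n + 1) * (X * η ^ (n + 1)) := by
          apply mul_le_mul_of_nonneg_left _ (by positivity)
          calc ∑ x ∈ walks n H, (∏ i, kap S e ((x (i + 1) : ℤ) - x i)) *
                ∑ y ∈ Icc 1 X, ∏ i, φ (y + x i)
              ≤ ∑ x ∈ walks n H, X * (cyc (ker S) x * |(∑ y ∈ Icc 1 X, ∏ i, φ (y + x i)) / X|) := by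
                apply Finset.sum_le_sum
                intro x _
                have hX0 : (X : ℝ) ≠ 0 := by positivity
                have h3 : |(∑ y ∈ Icc 1 X, ∏ i, φ (y + x i)) / (X : ℝ)| =
                    |∑ y ∈ Icc 1 X, ∏ i, φ (y + x i)| / X := by
                  rw [abs_div, abs_of_nonneg (by positivity : (0 : ℝ) ≤ X)]
                rw [h3]
                have h4 : (X : ℝ) * (cyc (ker S) x * (|∑ y ∈ Icc 1 X, ∏ i, φ (y + x i)| / X)) =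
                    cyc (ker S) x * |∑ y ∈ Icc 1 X, ∏ i, φ (y + x i)| := by
                  field_simp
                rw [h4]
                calc _ ≤ |(∏ i, kap S e ((x (i + 1) : ℤ) - x i)) *
                        ∑ y ∈ Icc 1 X, ∏ i, φ (y + x i)| := le_abs_self _
                  _ = |∏ i, kap S e ((x (i + 1) : ℤ) - x i)| *
                        |∑ y ∈ Icc 1 X, ∏ i, φ (y + x i)| := abs_mul _ _
                  _ ≤ _ := mul_le_mul_of_nonneg_right (hcyc x) (abs_nonneg _)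
            _ = X * ∑ x ∈ walks n H, cyc (ker S) x * |(∑ y ∈ Icc 1 X, ∏ i, φ (y + x i)) / X| := by
                rw [Finset.mul_sum]
            _ ≤ X * η ^ (n + 1) := mul_le_mul_of_nonneg_left hw (by positivity)
      _ ≤ (3 * H * B ^ 2) ^ (n + 1) * (X * η ^ (n + 1)) := by
          apply mul_le_mul_of_nonneg_right _ (by positivity)
          apply pow_le_pow_left₀ (by positivity)
          have : 0 ≤ B ^ 2 := by positivity
          nlinarith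
  -- step three
  have h3 : ∑ y ∈ Icc 1 X, |Q y| ≤ 3 * H * B ^ 2 * X * η := by
    have h4 := avg_pow Q X n hX
    have h5 : (∑ y ∈ Icc 1 X, |Q y|) ^ (n + 1) ≤ (3 * H * B ^ 2 * X * η) ^ (n + 1) := by
      refine h4.trans ?_
      calc (X : ℝ) ^ n * ∑ y ∈ Icc 1 X, |Q y| ^ (n + 1)
          ≤ (X : ℝ) ^ n * ((3 * H * B ^ 2) ^ (n + 1) * (X * η ^ (n + 1))) :=
            mul_le_mul_of_nonneg_left h2 (by positivity)
        _ = (3 * H * B ^ 2 * X * η) ^ (n + 1) := by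
            rw [mul_pow, mul_pow]
            ring
    exact le_of_pow_le_pow_left₀ (Nat.succ_ne_zero n) (by positivity) h5
  have h4 : |∑ y ∈ Icc 1 X, Q y| ≤ 3 * H * B ^ 2 * X * η :=
    (abs_sum_le_sum_abs _ _).trans h3
  have h5 : (H : ℝ) * |∑ m ∈ Icc 1 X, g m| ≤ H * (3 * B ^ 2 * X * η + 2 * H * D * B ^ 2) := by
    have h6 : (H : ℝ) * |∑ m ∈ Icc 1 X, g m| = |(H : ℝ) * ∑ m ∈ Icc 1 X, g m| := by
      rw [abs_mul, abs_of_nonneg (by positivity : (0 : ℝ) ≤ H)]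
    rw [h6]
    have h7 : |(H : ℝ) * ∑ m ∈ Icc 1 X, g m| ≤
        |(H : ℝ) * ∑ m ∈ Icc 1 X, g m - ∑ y ∈ Icc 1 X, Q y| + |∑ y ∈ Icc 1 X, Q y| := by
      have := abs_add_le ((H : ℝ) * ∑ m ∈ Icc 1 X, g m - ∑ y ∈ Icc 1 X, Q y) (∑ y ∈ Icc 1 X, Q y)
      rwa [sub_add_cancel] at this
    calc _ ≤ _ := h7
      _ ≤ 2 * H ^ 2 * (D * B ^ 2) + 3 * H * B ^ 2 * X * η := add_le_add h1 h4
      _ = _ := by ring
  exact le_of_mul_le_mul_left h5 (by positivity)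

end Pool.Agent.Helper39.SP
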