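import Pool.Agent.Helper39.SP.Defs2
import Pool.Agent.Helper83.HLC.Final

/-!
# Project SP: the two-point averages
-/

set_option autoImplicit false

namespace Pool.Agent.Helper39.SP

open Finset

/-- `f` is a translate by at most `X` of a centred function. -/
def Cen (X : ℕ) (f : ℕ → ℝ) : Prop :=
  ∃ f' : ℕ → ℝ, ∃ y : ℕ, Helper83.HLC.Centred X f' ∧ y ≤ X ∧ ∀ n, f n = f' (n + y)

/-- The two-point correlations are small on average over intervals of bounded length. -/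
def TwoPt : Prop :=
  ∀ ε : ℝ, 0 < ε → ∃ K X0 : ℕ, ∀ X H : ℕ, X0 ≤ X → K ≤ H → H ≤ X → ∀ f : ℕ → ℝ,
    Cen X f →
    ∑ t ∈ Icc 1 H, |∑ n ∈ Icc 1 X, f n * f (n + t)| ≤ ε * H * X

private theorem Centred_le' {X : ℕ} {f : ℕ → ℝ} (hf : Helper83.HLC.Centred X f) (n : ℕ) : |f n| ≤ 2 := by
  rcases hf with h | ⟨b, hb, h⟩
  · rw [h, abs_pow, abs_neg, abs_one, one_pow]
    norm_num
  · rw [h]
    have h1 : |(∑ m ∈ Icc 1 X, b (ArithmeticFunction.cardFactors m)) / (X : ℝ)| ≤ 1 := by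
      rcases Nat.eq_zero_or_pos X with h0 | h0
      · rw [h0]
        simp
      · have hX : (0 : ℝ) < X := by exact_mod_cast h0
        rw [abs_div, abs_of_pos hX, div_le_one hX]
        calc |∑ m ∈ Icc 1 X, b (ArithmeticFunction.cardFactors m)|
            ≤ ∑ m ∈ Icc 1 X, |b (ArithmeticFunction.cardFactors m)| := abs_sum_le_sum_abs _ _
          _ ≤ ∑ _m ∈ Icc 1 X, (1 : ℝ) := Finset.sum_le_sum fun m _ => hb _
          _ = X := by rw [Finset.sum_const, Nat.card_Icc, nsmul_eq_mul]; simp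
    have h2 := abs_sub (b (ArithmeticFunction.cardFactors n))
      ((∑ m ∈ Icc 1 X, b (ArithmeticFunction.cardFactors m)) / (X : ℝ))
    have h3 := hb (ArithmeticFunction.cardFactors n)
    linarith

theorem Centred_le {X : ℕ} {f : ℕ → ℝ} (hf : Cen X f) (n : ℕ) : |f n| ≤ 2 := by
  obtain ⟨f', y, h, _, hy⟩ := hf
  rw [hy]
  exact Centred_le' h _

theorem abs_av_le (S : Finset ℕ) (e f : ℕ → ℝ) (he : ∀ h, |e h| ≤ 1) (B : ℝ) (hf : ∀ n, |f n| ≤ B) (m : ℕ) :
    |av S e f m| ≤ B := by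
  have hB : 0 ≤ B := (abs_nonneg _).trans (hf 0)
  unfold av
  rcases Nat.eq_zero_or_pos S.card with h0 | h0
  · rw [h0]
    simpa using hB
  · have hc : (0 : ℝ) < S.card := by exact_mod_cast h0
    rw [abs_div, abs_of_pos hc, div_le_iff₀ hc]
    calc |∑ h ∈ S, e h * f (m + h)| ≤ ∑ h ∈ S, |e h * f (m + h)| := abs_sum_le_sum_abs _ _
      _ ≤ ∑ _h ∈ S, B := by
          apply Finset.sum_le_sum
          intro h _
          rw [abs_mul]
          calc |e h| * |f (m + h)| ≤ 1 * B :=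
                mul_le_mul (he h) (hf _) (abs_nonneg _) zero_le_one
            _ = B := one_mul B
      _ = B * S.card := by rw [Finset.sum_const, nsmul_eq_mul, mul_comm]

theorem av_sq_le {X : ℕ} {f : ℕ → ℝ} (hf : Cen X f) (S : Finset ℕ) (e : ℕ → ℝ)
    (he : ∀ h, |e h| ≤ 1) (m : ℕ) : av S e f m ^ 2 ≤ 4 := by
  have h := abs_av_le S e f he 2 (Centred_le hf) m
  rw [← sq_abs]
  have := abs_nonneg (av S e f m)
  nlinarith

end Pool.Agent.Helper39.SP
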