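import Pool.Agent.Helper39.SP.Window
import Pool.Agent.Helper39.SP.Kap
import Pool.Agent.Helper39.SP.Defs3

/-!
# SP-08b: the average over the windows, one-sided

`F = av S e f`, `|F| ≤ B`, `N = n + 1`, `Q_y = ∑_(x < H) φ (y + x) F (y + x) ^ 2`; the sum over `y` of the windows counts every `m ∈ [H, X]` exactly `H` times
and every other `m ∈ [1, X + H]` at most `H` times.
-/

set_option autoImplicit false

namespace Pool.Agent.Helper39.SP

open Finset

private theorem avg_pow2 (Q : ℕ → ℝ) (X n : ℕ) (hX : 1 ≤ X) :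
    (∑ y ∈ Icc 1 X, |Q y|) ^ (n + 1) ≤ (X : ℝ) ^ n * ∑ y ∈ Icc 1 X, |Q y| ^ (n + 1) := by
  have h := pow_sum_div_card_le_sum_pow (s := Icc 1 X) (f := fun y => |Q y|)
    (fun y _ => abs_nonneg _) n
  have hX0 : (0 : ℝ) < (X : ℝ) ^ n := by
    have : (0 : ℝ) < X := by exact_mod_cast hX
    positivity
  rw [Nat.card_Icc, Nat.add_sub_cancel, div_le_iff₀ hX0] at h
  linarith

/-- The sum of the windows. -/
theorem avg_windows (S : Finset ℕ) (H : ℕ) (hS : S ⊆ Icc 1 H) (hH : 1 ≤ H) (e f φ : ℕ → ℝ)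
    (he : ∀ h, |e h| ≤ 1) (B : ℝ) (hf : ∀ n, |f n| ≤ B) (j n : ℕ)
    (hj : 1 ≤ j) (hn : n + 1 = 2 ^ j) (X : ℕ) (hX : 1 ≤ X) (η : ℝ) (hη : 0 ≤ η)
    (hw : ∑ x ∈ walks n H, cyc (ker S) x * |(∑ y ∈ Icc 1 X, ∏ i, φ (y + x i)) / X| ≤ η ^ (n + 1)) :
    ∑ y ∈ Icc 1 X, |∑ x ∈ range H, φ (y + x) * av S e f (y + x) ^ 2| ≤ 3 * H * B ^ 2 * X * η := by
  have hB : 0 ≤ B := (abs_nonneg _).trans (hf 0)
  have hXr : (1 : ℝ) ≤ X := by exact_mod_cast hX
  have hHr : (1 : ℝ) ≤ H := by exact_mod_cast hH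
  set Q : ℕ → ℝ := fun y => ∑ x ∈ range H, φ (y + x) * av S e f (y + x) ^ 2 with hQdef
  have h2 : ∑ y ∈ Icc 1 X, |Q y| ^ (n + 1) ≤ (3 * H * B ^ 2) ^ (n + 1) * (X * η ^ (n + 1)) := by
    have hcyc : ∀ x : Fin (n + 1) → ℕ, |∏ i, kap S e ((x (i + 1) : ℤ) - x i)| ≤ cyc (ker S) x := by
      intro x
      rw [Finset.abs_prod]
      unfold cyc ker
      exact Finset.prod_le_prod (fun i _ => abs_nonneg _) fun i _ => abs_kap_le S e he _
    calc ∑ y ∈ Icc 1 X, |Q y| ^ (n + 1)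
        ≤ ∑ y ∈ Icc 1 X, (B ^ 2 * (2 * H + 1)) ^ (n + 1) * ∑ x ∈ walks n H,
            (∏ i, φ (y + x i)) * ∏ i, kap S e ((x (i + 1) : ℤ) - x i) :=
          Finset.sum_le_sum fun y _ => window S H hS e f φ B hf j n hj hn y
      _ = (B ^ 2 * (2 * H + 1)) ^ (n + 1) * ∑ x ∈ walks n H,
            (∏ i, kap S e ((x (i + 1) : ℤ) - x i)) * ∑ y ∈ Icc 1 X, ∏ i, φ (y + x i) := by
          rw [← Finset.mul_sum, Finset.sum_comm]
          congr 1
          apply Finset.sum_congr rfl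
          intro x _
          rw [Finset.mul_sum]
          exact Finset.sum_congr rfl fun y _ => mul_comm _ _
      _ ≤ (B ^ 2 * (2 * H + 1)) ^ (n + 1) * (X * η ^ (n + 1)) := by
          apply mul_le_mul_of_nonneg_left _ (by positivity)
          calc ∑ x ∈ walks n H, (∏ i, kap S e ((x (i + 1) : ℤ) - x i)) *
                ∑ y ∈ Icc 1 X, ∏ i, φ (y + x i)
              ≤ ∑ x ∈ walks n H, X * (cyc (ker S) x * |(∑ y ∈ Icc 1 X, ∏ i, φ (y + x i)) / X|) := by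
                apply Finset.sum_le_sum
                intro x _
                have hX0 : (X : ℝ) ≠ 0 := by positivity
                have h3 : |(∑ y ∈ Icc 1 X, ∏ i, φ (y + x i)) / (X : ℝ)| =
                    |∑ y ∈ Icc 1 X, ∏ i, φ (y + x i)| / X := by
                  rw [abs_div, abs_of_nonneg (by positivity : (0 : ℝ) ≤ X)]
                rw [h3]
                have h4 : (X : ℝ) * (cyc (ker S) x * (|∑ y ∈ Icc 1 X, ∏ i, φ (y + x i)| / X)) =
                    cyc (ker S) x * |∑ y ∈ Icc 1 X, ∏ i, φ (y + x i)| := by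
                  field_simp
                rw [h4]
                calc _ ≤ |(∏ i, kap S e ((x (i + 1) : ℤ) - x i)) *
                        ∑ y ∈ Icc 1 X, ∏ i, φ (y + x i)| := le_abs_self _
                  _ = |∏ i, kap S e ((x (i + 1) : ℤ) - x i)| *
                        |∑ y ∈ Icc 1 X, ∏ i, φ (y + x i)| := abs_mul _ _
                  _ ≤ _ := mul_le_mul_of_nonneg_right (hcyc x) (abs_nonneg _)
            _ = X * ∑ x ∈ walks n H, cyc (ker S) x * |(∑ y ∈ Icc 1 X, ∏ i, φ (y + x i)) / X| := by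
                rw [Finset.mul_sum]
            _ ≤ X * η ^ (n + 1) := mul_le_mul_of_nonneg_left hw (by positivity)
      _ ≤ (3 * H * B ^ 2) ^ (n + 1) * (X * η ^ (n + 1)) := by
          apply mul_le_mul_of_nonneg_right _ (by positivity)
          apply pow_le_pow_left₀ (by positivity)
          have : 0 ≤ B ^ 2 := by positivity
          nlinarith
  have h4 := avg_pow2 Q X n hX
  have h5 : (∑ y ∈ Icc 1 X, |Q y|) ^ (n + 1) ≤ (3 * H * B ^ 2 * X * η) ^ (n + 1) := by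
    refine h4.trans ?_
    calc (X : ℝ) ^ n * ∑ y ∈ Icc 1 X, |Q y| ^ (n + 1)
        ≤ (X : ℝ) ^ n * ((3 * H * B ^ 2) ^ (n + 1) * (X * η ^ (n + 1))) :=
          mul_le_mul_of_nonneg_left h2 (by positivity)
      _ = (3 * H * B ^ 2 * X * η) ^ (n + 1) := by
          rw [mul_pow, mul_pow]
          ring
  exact le_of_pow_le_pow_left₀ (Nat.succ_ne_zero n) (by positivity) h5

/-- Every `m ∈ [H, X]` is in `H` windows. -/
private theorem cover_ge (g : ℕ → ℝ) (hg : ∀ m, 0 ≤ g m) (H X : ℕ) :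
    (H : ℝ) * ∑ m ∈ Icc H X, g m ≤ ∑ y ∈ Icc 1 X, ∑ x ∈ range H, g (y + x) := by
  rw [Finset.sum_comm]
  have h3 : (H : ℝ) * ∑ m ∈ Icc H X, g m = ∑ _x ∈ range H, ∑ m ∈ Icc H X, g m := by
    rw [Finset.sum_const, Finset.card_range, nsmul_eq_mul]
  rw [h3]
  refine Finset.sum_le_sum fun x hx => ?_
  have hx2 := Finset.mem_range.1 hx
  refine le_trans (le_of_eq ?_) (Finset.sum_le_sum_of_subset_of_nonneg
    (f := fun y => g (y + x)) (s := Icc (H - x) (X - x)) (t := Icc 1 X) (fun y hy => ?_)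
    (fun y _ _ => hg _))
  · refine Finset.sum_nbij' (fun m => m - x) (fun y => y + x) ?_ ?_ ?_ ?_ ?_
    · intro m hm
      rw [mem_Icc] at hm ⊢
      omega
    · intro m hm
      rw [mem_Icc] at hm ⊢
      omega
    · intro m hm
      rw [mem_Icc] at hm
      omega
    · intro m hm
      rw [mem_Icc] at hm
      omega
    · intro m hm
      rw [mem_Icc] at hm
      congr 1
      omega
  · rw [mem_Icc] at hy ⊢
    omega

/-- Every `m` is in at most `H` windows. -/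
private theorem cover_le (g : ℕ → ℝ) (hg : ∀ m, 0 ≤ g m) (H X : ℕ) :
    ∑ y ∈ Icc 1 X, ∑ x ∈ range H, g (y + x) ≤ (H : ℝ) * ∑ m ∈ Icc 1 (X + H), g m := by
  rw [Finset.sum_comm]
  have h3 : (H : ℝ) * ∑ m ∈ Icc 1 (X + H), g m = ∑ _x ∈ range H, ∑ m ∈ Icc 1 (X + H), g m := by
    rw [Finset.sum_const, Finset.card_range, nsmul_eq_mul]
  rw [h3]
  refine Finset.sum_le_sum fun x hx => ?_
  have hx2 := Finset.mem_range.1 hx
  refine le_trans (le_of_eq ?_) (Finset.sum_le_sum_of_subset_of_nonneg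
    (f := fun y => g y) (s := Icc (1 + x) (X + x)) (t := Icc 1 (X + H)) (fun y hy => ?_)
    (fun y _ _ => hg _))
  · refine Finset.sum_nbij' (fun m => m + x) (fun y => y - x) ?_ ?_ ?_ ?_ ?_
    · intro m hm
      rw [mem_Icc] at hm ⊢
      omega
    · intro m hm
      rw [mem_Icc] at hm ⊢
      omega
    · intro m hm
      rw [mem_Icc] at hm
      omega
    · intro m hm
      rw [mem_Icc] at hm
      omega
    · intro m hm
      rfl
  · rw [mem_Icc] at hy ⊢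
    omega

theorem average2 (S : Finset ℕ) (H : ℕ) (hS : S ⊆ Icc 1 H) (hH : 1 ≤ H) (e f φ ψ : ℕ → ℝ)
    (he : ∀ h, |e h| ≤ 1) (B : ℝ) (hf : ∀ n, |f n| ≤ B) (hψ : ∀ n, 0 ≤ ψ n)
    (hφ : ∀ n, 0 ≤ φ n + ψ n) (j n : ℕ)
    (hj : 1 ≤ j) (hn : n + 1 = 2 ^ j) (X : ℕ) (hX : 1 ≤ X) (η : ℝ) (hη : 0 ≤ η)
    (hw : ∑ x ∈ walks n H, cyc (ker S) x * |(∑ y ∈ Icc 1 X, ∏ i, φ (y + x i)) / X| ≤ η ^ (n + 1)) :
    ∑ m ∈ Icc H X, (φ m + ψ m) * av S e f m ^ 2 ≤
      3 * B ^ 2 * X * η + ∑ m ∈ Icc 1 (X + H), ψ m * av S e f m ^ 2 := by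
  have hHr : (1 : ℝ) ≤ H := by exact_mod_cast hH
  have h1 := cover_ge (fun m => (φ m + ψ m) * av S e f m ^ 2)
    (fun m => mul_nonneg (hφ m) (sq_nonneg _)) H X
  have h2 := cover_le (fun m => ψ m * av S e f m ^ 2)
    (fun m => mul_nonneg (hψ m) (sq_nonneg _)) H X
  have h3 := avg_windows S H hS hH e f φ he B hf j n hj hn X hX η hη hw
  have h4 : ∑ y ∈ Icc 1 X, ∑ x ∈ range H, (φ (y + x) + ψ (y + x)) * av S e f (y + x) ^ 2 =
      ∑ y ∈ Icc 1 X, (∑ x ∈ range H, φ (y + x) * av S e f (y + x) ^ 2) +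
        ∑ y ∈ Icc 1 X, ∑ x ∈ range H, ψ (y + x) * av S e f (y + x) ^ 2 := by
    rw [← Finset.sum_add_distrib]
    refine Finset.sum_congr rfl fun y _ => ?_
    rw [← Finset.sum_add_distrib]
    refine Finset.sum_congr rfl fun x _ => ?_
    ring
  have h5 : ∑ y ∈ Icc 1 X, (∑ x ∈ range H, φ (y + x) * av S e f (y + x) ^ 2) ≤
      ∑ y ∈ Icc 1 X, |∑ x ∈ range H, φ (y + x) * av S e f (y + x) ^ 2| :=
    Finset.sum_le_sum fun y _ => le_abs_self _
  have h6 : (H : ℝ) * ∑ m ∈ Icc H X, (φ m + ψ m) * av S e f m ^ 2 ≤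
      H * (3 * B ^ 2 * X * η + ∑ m ∈ Icc 1 (X + H), ψ m * av S e f m ^ 2) := by
    calc _ ≤ _ := h1
      _ = _ := h4
      _ ≤ 3 * H * B ^ 2 * X * η + H * ∑ m ∈ Icc 1 (X + H), ψ m * av S e f m ^ 2 :=
          add_le_add (h5.trans h3) h2
      _ = _ := by ring
  exact le_of_mul_le_mul_left h6 (by positivity)

end Pool.Agent.Helper39.SP
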