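import Pool.Agent.Helper39.SP.Resid

/-!
# SP-14: the average of the local factors of `t - a`

PROOF. `∏_(p ∈ DD N z (t - a)) (1 + C/p) - 1 = ∑_(s ⊆ DD N z (t - a), s ≠ ∅) ∏_(p ∈ s) C/p` (`Finset.prod_one_add`), and for `s ⊆ PP N z`:
`s ⊆ DD N z (t - a)` iff `d_s := ∏_(p ∈ s) p` divides `t - a`. So the left side is
`∑_(s ⊆ PP N z, s ≠ ∅) (∏_(p ∈ s) C/p) θ_s`, `θ_s = ∑_(t ∈ T, d_s ∣ t - a) kap S 1 t`. If `θ_s ≠ 0` there is `t ∈ T`, `t ≠ a`, `d_s ∣ t - a`, so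
`d_s ≤ |t - a| ≤ (c + 1) H`, and `resid` (with `c + 1`) gives `θ_s ^ (2 r) d_s ≤ A (r + c + 1) =: B`, so `θ_s ≤ B ^ (1/(2r)) d_s ^ (-1/(2r))`
(also true if `θ_s = 0`). Hence the left side is at most `B ^ (1/(2r)) (∏_(p ∈ PP N z) (1 + C p^(-1-1/(2r))) - 1)`, and
`∑_(p > N) p^(-1-1/(2r)) ≤ ∑_(n > N) n^(-1-1/(2r)) ≤ 2 r N^(-1/(2r))` (comparison with the integral, or telescoping:
`n^(-1-σ) ≤ ((n-1)^(-σ) - n^(-σ)) / σ`), `∏ (1 + C x_p) - 1 ≤ exp(C ∑ x_p) - 1 ≤ C (∑ x_p) exp(C ∑ x_p)` and `∑ x_p ≤ 2 r`.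
-/

set_option autoImplicit false

namespace Pool.Agent.Helper39.SP

open Finset
open Pool.Agent.Helper40.DB (PP VV DD)

/-- The tail of the series. -/
private theorem tail_step (σ : ℝ) (hσ : 0 < σ) (m : ℕ) (hm : 1 ≤ m) :
    ((m + 1 : ℕ) : ℝ)⁻¹ * ((m + 1 : ℕ) : ℝ) ^ (-σ) ≤
      ((m : ℝ) ^ (-σ) - ((m + 1 : ℕ) : ℝ) ^ (-σ)) / σ := by
  have hm0 : (0 : ℝ) < m := by exact_mod_cast hm
  set x : ℝ := ((m + 1 : ℕ) : ℝ) with hx
  have hxm : x = m + 1 := by rw [hx]; push_cast; rfl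
  have hx0 : 0 < x := by rw [hxm]; linarith
  have hu : 0 < 1 - x⁻¹ := by
    have : x⁻¹ < 1 := inv_lt_one_of_one_lt₀ (by rw [hxm]; linarith)
    linarith
  have hmx : (m : ℝ) = x * (1 - x⁻¹) := by
    rw [mul_sub, mul_one, mul_inv_cancel₀ hx0.ne', hxm]
    ring
  have h1 : 1 + σ * x⁻¹ ≤ (1 - x⁻¹) ^ (-σ) := by
    rw [Real.rpow_def_of_pos hu]
    have h2 := Real.add_one_le_exp (Real.log (1 - x⁻¹) * -σ)
    have h3 : Real.log (1 - x⁻¹) ≤ (1 - x⁻¹) - 1 := Real.log_le_sub_one_of_pos hu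
    nlinarith
  have hxs : 0 < x ^ (-σ) := Real.rpow_pos_of_pos hx0 _
  rw [le_div_iff₀ hσ, hmx, Real.mul_rpow hx0.le hu.le]
  nlinarith

private theorem tail_sum (σ : ℝ) (hσ : 0 < σ) (N : ℕ) (hN : 1 ≤ N) (z : ℕ) :
    ∑ n ∈ Ioc N z, ((n : ℝ)⁻¹ * (n : ℝ) ^ (-σ)) ≤ (N : ℝ) ^ (-σ) / σ := by
  rcases le_total z N with h | h
  · rw [Ioc_eq_empty_of_le h, sum_empty]
    positivity
  have key : ∀ z, N ≤ z → ∑ n ∈ Ioc N z, ((n : ℝ)⁻¹ * (n : ℝ) ^ (-σ)) ≤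
      ((N : ℝ) ^ (-σ) - (z : ℝ) ^ (-σ)) / σ := by
    intro z hz
    induction z, hz using Nat.le_induction with
    | base => simp
    | succ m hm ih =>
      rw [sum_Ioc_succ_top hm]
      have h1 := tail_step σ hσ m (hN.trans hm)
      calc _ ≤ ((N : ℝ) ^ (-σ) - (m : ℝ) ^ (-σ)) / σ +
            ((m : ℝ) ^ (-σ) - ((m + 1 : ℕ) : ℝ) ^ (-σ)) / σ := add_le_add ih h1
        _ = _ := by ring
  refine (key z h).trans ?_
  have h2 : (0 : ℝ) ≤ (z : ℝ) ^ (-σ) := Real.rpow_nonneg (Nat.cast_nonneg _) _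
  exact div_le_div_of_nonneg_right (by linarith) hσ.le

private theorem prod_dvd_iff' (N z : ℕ) (s : Finset ℕ) (hs : s ⊆ PP N z) (x : ℤ) :
    ((∏ p ∈ s, p : ℕ) : ℤ) ∣ x ↔ ∀ p ∈ s, (p : ℤ) ∣ x := by
  constructor
  · intro h p hp
    exact dvd_trans (Int.natCast_dvd_natCast.2 (Finset.dvd_prod_of_mem _ hp)) h
  · intro h
    rw [Int.natCast_dvd]
    refine Finset.prod_primes_dvd _ (fun p hp => ?_) (fun p hp => Int.natCast_dvd.1 (h p hp))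
    exact ((Finset.mem_filter.1 (hs hp)).2).prime

private theorem gg_expand (C : ℝ) (N z : ℕ) (x : ℤ) :
    gg C N z x = ∑ s ∈ (PP N z).powerset.erase ∅,
      if ((∏ p ∈ s, p : ℕ) : ℤ) ∣ x then ∏ p ∈ s, C / (p : ℝ) else 0 := by
  unfold gg
  rw [prod_one_add, ← sum_erase_add _ _ (empty_mem_powerset (DD N z x)), prod_empty,
    add_sub_cancel_right, ← sum_filter]
  refine sum_congr ?_ fun _ _ => rfl
  ext s
  rw [mem_erase, mem_powerset, mem_filter, mem_erase, mem_powerset]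
  constructor
  · rintro ⟨h1, h2⟩
    have h3 : s ⊆ PP N z := fun p hp => (mem_filter.1 (h2 hp)).1
    exact ⟨⟨h1, h3⟩, (prod_dvd_iff' N z s h3 x).2 fun p hp => (mem_filter.1 (h2 hp)).2⟩
  · rintro ⟨⟨h1, h2⟩, h3⟩
    exact ⟨h1, fun p hp => mem_filter.2 ⟨h2 hp, (prod_dvd_iff' N z s h2 x).1 h3 p hp⟩⟩

theorem g_star (r : ℕ) (hr : 1 ≤ r) (A C : ℝ) (hA : 0 ≤ A) (hC : 0 ≤ C) (c : ℕ) :
    ∃ C1 : ℝ, 0 ≤ C1 ∧ ∀ (S : Finset ℕ) (H : ℕ), S ⊆ Icc 1 H →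
    (energy r S : ℝ) * H ≤ A * (S.card : ℝ) ^ (2 * r) → ∀ N z : ℕ, 1 ≤ N → ∀ a : ℤ, |a| ≤ c * H →
    ∀ T : Finset ℤ, (∀ t ∈ T, t ≠ a ∧ |t| ≤ H) →
    ∑ t ∈ T, kap S (fun _ => 1) t * gg C N z (t - a) ≤ C1 * (N : ℝ) ^ (-(1 / (2 * r : ℝ))) := by
  classical
  set σ : ℝ := 1 / (2 * r : ℝ) with hσ
  have hr0 : (0 : ℝ) < r := by exact_mod_cast hr
  have hσ0 : 0 < σ := by positivity
  set B : ℝ := A * (r + (c + 1)) with hB
  have hB0 : 0 ≤ B := by positivity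
  refine ⟨B ^ σ * (C * (2 * r) * Real.exp (C * (2 * r))), by positivity, ?_⟩
  intro S H hS hE N z hN a ha T hT
  -- the sum over the sets of primes
  have e1 : ∑ t ∈ T, kap S (fun _ => 1) t * gg C N z (t - a) =
      ∑ s ∈ (PP N z).powerset.erase ∅, (∏ p ∈ s, C / (p : ℝ)) *
        ∑ t ∈ T.filter (fun t => ((∏ p ∈ s, p : ℕ) : ℤ) ∣ t - a), kap S (fun _ => 1) t := by
    have e2 : ∀ t ∈ T, kap S (fun _ => 1) t * gg C N z (t - a) =
        ∑ s ∈ (PP N z).powerset.erase ∅, (∏ p ∈ s, C / (p : ℝ)) *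
          (if ((∏ p ∈ s, p : ℕ) : ℤ) ∣ t - a then kap S (fun _ => 1) t else 0) := by
      intro t _
      rw [gg_expand, mul_sum]
      refine sum_congr rfl fun s _ => ?_
      split_ifs
      · ring
      · ring
    rw [sum_congr rfl e2, sum_comm]
    refine sum_congr rfl fun s _ => ?_
    rw [← mul_sum, sum_filter]
  -- one set of primes
  have e3 : ∀ s ∈ (PP N z).powerset.erase ∅,
      ∑ t ∈ T.filter (fun t => ((∏ p ∈ s, p : ℕ) : ℤ) ∣ t - a), kap S (fun _ => 1) t ≤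
        B ^ σ * ∏ p ∈ s, (p : ℝ) ^ (-σ) := by
    intro s hs
    have hsP : s ⊆ PP N z := mem_powerset.1 (mem_of_mem_erase hs)
    set d : ℕ := ∏ p ∈ s, p with hd
    have hp0 : ∀ p ∈ s, 0 < p := fun p hp => ((mem_filter.1 (hsP hp)).2).pos
    have hd1 : 1 ≤ d := Finset.prod_pos hp0
    have hd0 : (0 : ℝ) < d := by exact_mod_cast hd1
    have hdr : ∏ p ∈ s, (p : ℝ) ^ (-σ) = (d : ℝ) ^ (-σ) := by
      rw [Real.finsetProd_rpow s (fun p => (p : ℝ)) (fun p _ => Nat.cast_nonneg p), hd]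
      push_cast
      rfl
    rw [hdr]
    set θ := ∑ t ∈ T.filter (fun t => (d : ℤ) ∣ t - a), kap S (fun _ => 1) t with hθ
    have hθ0 : 0 ≤ θ := sum_nonneg fun t _ => kap_one_nonneg S t
    rcases (T.filter (fun t => (d : ℤ) ∣ t - a)).eq_empty_or_nonempty with hem | ⟨t, ht⟩
    · rw [hθ, hem, sum_empty]
      exact mul_nonneg (Real.rpow_nonneg hB0 _) (Real.rpow_nonneg hd0.le _)
    · obtain ⟨htT, htd⟩ := mem_filter.1 ht
      obtain ⟨hta, htH⟩ := hT t htT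
      have h1 : (d : ℤ) ≤ ((c + 1 : ℕ) : ℤ) * H := by
        have h2 : (d : ℤ) ≤ |t - a| := by
          have h3 : |t - a| ≠ 0 := abs_ne_zero.2 (sub_ne_zero.2 hta)
          exact Int.le_of_dvd (lt_of_le_of_ne (abs_nonneg _) h3.symm) ((dvd_abs _ _).2 htd)
        have h3 : |t - a| ≤ |t| + |a| := abs_sub _ _
        push_cast
        linarith
      have h4 : d ≤ (c + 1) * H := by exact_mod_cast h1
      have h5 := resid r hr A hA S H hS hE (c + 1) d hd1 h4 a T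
      rw [← hθ] at h5
      have h6 : θ ^ (2 * r) ≤ B / d := by
        rw [le_div_iff₀ hd0, hB]
        refine h5.trans (le_of_eq ?_)
        push_cast
        ring
      have h7 : θ = (θ ^ (2 * r)) ^ σ := by
        rw [hσ, ← Real.rpow_natCast θ (2 * r), ← Real.rpow_mul hθ0]
        have : ((2 * r : ℕ) : ℝ) * (1 / (2 * r : ℝ)) = 1 := by
          push_cast
          field_simp
        rw [this, Real.rpow_one]
      have h8 : (B / d) ^ σ = B ^ σ * (d : ℝ) ^ (-σ) := by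
        rw [Real.div_rpow hB0 hd0.le, Real.rpow_neg hd0.le]
        rfl
      rw [h7, ← h8]
      exact Real.rpow_le_rpow (pow_nonneg hθ0 _) h6 hσ0.le
  -- the Euler product
  have e4 : ∑ s ∈ (PP N z).powerset.erase ∅, (∏ p ∈ s, C / (p : ℝ)) * ∏ p ∈ s, (p : ℝ) ^ (-σ) =
      ∏ p ∈ PP N z, (1 + C * ((p : ℝ)⁻¹ * (p : ℝ) ^ (-σ))) - 1 := by
    rw [prod_one_add, ← sum_erase_add _ _ (empty_mem_powerset (PP N z)), prod_empty,
      add_sub_cancel_right]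
    refine sum_congr rfl fun s _ => ?_
    rw [← prod_mul_distrib]
    refine prod_congr rfl fun p _ => ?_
    rw [div_eq_mul_inv, mul_assoc]
  set Y : ℝ := ∑ p ∈ PP N z, ((p : ℝ)⁻¹ * (p : ℝ) ^ (-σ)) with hY
  have hY0 : 0 ≤ Y := sum_nonneg fun p _ =>
    mul_nonneg (inv_nonneg.2 (Nat.cast_nonneg _)) (Real.rpow_nonneg (Nat.cast_nonneg _) _)
  have hN0 : (0 : ℝ) < N := by exact_mod_cast hN
  have hN1 : (1 : ℝ) ≤ N := by exact_mod_cast hN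
  have hY1 : Y ≤ 2 * r * (N : ℝ) ^ (-σ) := by
    have h1 : Y ≤ ∑ n ∈ Ioc N z, ((n : ℝ)⁻¹ * (n : ℝ) ^ (-σ)) :=
      sum_le_sum_of_subset_of_nonneg (filter_subset _ _) fun p _ _ =>
        mul_nonneg (inv_nonneg.2 (Nat.cast_nonneg _)) (Real.rpow_nonneg (Nat.cast_nonneg _) _)
    refine h1.trans ((tail_sum σ hσ0 N hN z).trans (le_of_eq ?_))
    rw [hσ]
    field_simp
  have hNs : (N : ℝ) ^ (-σ) ≤ 1 := Real.rpow_le_one_of_one_le_of_nonpos hN1 (by linarith)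
  have hNs0 : 0 ≤ (N : ℝ) ^ (-σ) := Real.rpow_nonneg hN0.le _
  have hY2 : Y ≤ 2 * r := hY1.trans (by nlinarith)
  have e5 : ∏ p ∈ PP N z, (1 + C * ((p : ℝ)⁻¹ * (p : ℝ) ^ (-σ))) ≤ Real.exp (C * Y) := by
    calc ∏ p ∈ PP N z, (1 + C * ((p : ℝ)⁻¹ * (p : ℝ) ^ (-σ)))
        ≤ ∏ p ∈ PP N z, Real.exp (C * ((p : ℝ)⁻¹ * (p : ℝ) ^ (-σ))) := by
          refine prod_le_prod (fun p _ => ?_) (fun p _ => ?_)
          · have : 0 ≤ C * ((p : ℝ)⁻¹ * (p : ℝ) ^ (-σ)) := mul_nonneg hC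
              (mul_nonneg (inv_nonneg.2 (Nat.cast_nonneg _)) (Real.rpow_nonneg (Nat.cast_nonneg _) _))
            linarith
          · have := Real.add_one_le_exp (C * ((p : ℝ)⁻¹ * (p : ℝ) ^ (-σ)))
            linarith
      _ = Real.exp (C * Y) := by
          rw [← Real.exp_sum, hY, mul_sum]
  have e6 : Real.exp (C * Y) - 1 ≤ C * Y * Real.exp (C * Y) := by
    have h1 := Real.add_one_le_exp (-(C * Y))
    have h2 := Real.exp_pos (C * Y)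
    have h3 : Real.exp (C * Y) * Real.exp (-(C * Y)) = 1 := by
      rw [← Real.exp_add]
      simp
    nlinarith
  have e7 : C * Y * Real.exp (C * Y) ≤
      C * (2 * r) * Real.exp (C * (2 * r)) * (N : ℝ) ^ (-σ) := by
    have h1 : Real.exp (C * Y) ≤ Real.exp (C * (2 * r)) :=
      Real.exp_le_exp.2 (mul_le_mul_of_nonneg_left hY2 hC)
    calc C * Y * Real.exp (C * Y) ≤ C * (2 * r * (N : ℝ) ^ (-σ)) * Real.exp (C * (2 * r)) :=
          mul_le_mul (mul_le_mul_of_nonneg_left hY1 hC) h1 (Real.exp_pos _).le (by positivity)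
      _ = _ := by ring
  rw [e1]
  calc ∑ s ∈ (PP N z).powerset.erase ∅, (∏ p ∈ s, C / (p : ℝ)) *
        ∑ t ∈ T.filter (fun t => ((∏ p ∈ s, p : ℕ) : ℤ) ∣ t - a), kap S (fun _ => 1) t
      ≤ ∑ s ∈ (PP N z).powerset.erase ∅, (∏ p ∈ s, C / (p : ℝ)) *
        (B ^ σ * ∏ p ∈ s, (p : ℝ) ^ (-σ)) :=
        sum_le_sum fun s hs => mul_le_mul_of_nonneg_left (e3 s hs)
          (prod_nonneg fun p _ => div_nonneg hC (Nat.cast_nonneg _))
    _ = B ^ σ * ∑ s ∈ (PP N z).powerset.erase ∅,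
        (∏ p ∈ s, C / (p : ℝ)) * ∏ p ∈ s, (p : ℝ) ^ (-σ) := by
        rw [mul_sum]
        exact sum_congr rfl fun s _ => by ring
    _ ≤ B ^ σ * (C * (2 * r) * Real.exp (C * (2 * r)) * (N : ℝ) ^ (-σ)) := by
        refine mul_le_mul_of_nonneg_left ?_ (Real.rpow_nonneg hB0 _)
        rw [e4]
        linarith
    _ = _ := by ring

end Pool.Agent.Helper39.SP
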