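import Pool.Agent.Helper39.SP.Defs

/-!
# SP-02: the energy

PROOFS. `count_le_energy`: with `R s = #{u ∈ S ^ r | ∑ u = s}` (`s` an integer) the left side is `∑_s R (s + τ) R s`, which is at most
`∑_s (R (s + τ) ^ 2 + R s ^ 2) / 2 ≤ ∑_s R s ^ 2 = energy r S`.
`pow_card_le_energy`: the diagonal `u = v`.
`H_le`: `|S| ^ r * H ≤ energy r S * H ≤ A * |S| ^ (2 r)`, divide by `|S| ^ r > 0`.
-/

set_option autoImplicit false

namespace Pool.Agent.Helper39.SP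

open Finset

private theorem sum_sq_le (r : ℕ) (S : Finset ℕ) (T : Finset ℤ) :
    ∑ s ∈ T, (((Fintype.piFinset fun _ : Fin r => S).filter
      fun u => ∑ i, (u i : ℤ) = s).card) ^ 2 ≤ energy r S := by
  set P := Fintype.piFinset fun _ : Fin r => S with hP
  have h1 : (((P ×ˢ P).filter fun u => (∑ i, (u.1 i : ℤ)) = ∑ i, (u.2 i : ℤ) ∧
      (∑ i, (u.1 i : ℤ)) ∈ T).card) ≤ energy r S := by
    unfold energy
    refine card_le_card fun u hu => ?_
    rw [mem_filter] at hu ⊢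
    exact ⟨hu.1, by exact_mod_cast hu.2.1⟩
  refine le_trans (le_of_eq ?_) h1
  rw [card_eq_sum_card_fiberwise
    (f := fun u : (Fin r → ℕ) × (Fin r → ℕ) => ∑ i, (u.1 i : ℤ)) (t := T)
    (fun u hu => (mem_filter.1 (mem_coe.1 hu)).2.2)]
  refine sum_congr rfl fun s hs => ?_
  rw [sq, ← card_product]
  congr 1
  ext u
  simp only [mem_product, mem_filter]
  constructor
  · rintro ⟨⟨a, b⟩, c, d⟩
    exact ⟨⟨⟨a, c⟩, by rw [b, d], by rw [b]; exact hs⟩, b⟩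
  · rintro ⟨⟨⟨a, c⟩, e, _⟩, b⟩
    exact ⟨⟨a, b⟩, c, by rw [← e, b]⟩

theorem count_le_energy (r : ℕ) (S : Finset ℕ) (τ : ℤ) :
    (((Fintype.piFinset fun _ : Fin r => S) ×ˢ (Fintype.piFinset fun _ : Fin r => S)).filter
      fun u => (∑ i, (u.1 i : ℤ)) - ∑ i, (u.2 i : ℤ) = τ).card ≤ energy r S := by
  set P := Fintype.piFinset fun _ : Fin r => S with hP
  set R : ℤ → ℕ := fun s => (P.filter fun u => ∑ i, (u i : ℤ) = s).card with hR
  set T : Finset ℤ := P.image fun u => ∑ i, (u i : ℤ) with hT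
  have h1 : ((P ×ˢ P).filter
      fun u => (∑ i, (u.1 i : ℤ)) - ∑ i, (u.2 i : ℤ) = τ).card = ∑ s ∈ T, R (s + τ) * R s := by
    rw [card_eq_sum_card_fiberwise
      (f := fun u : (Fin r → ℕ) × (Fin r → ℕ) => ∑ i, (u.2 i : ℤ)) (t := T)
      (fun u hu => mem_image_of_mem (fun u : Fin r → ℕ => ∑ i, (u i : ℤ)) (mem_product.1 (mem_filter.1 (mem_coe.1 hu)).1).2)]
    refine sum_congr rfl fun s hs => ?_
    rw [hR, ← card_product]
    congr 1
    ext u
    simp only [mem_product, mem_filter]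
    constructor
    · rintro ⟨⟨⟨a, b⟩, c⟩, d⟩
      exact ⟨⟨a, by rw [← c, d]; ring⟩, b, d⟩
    · rintro ⟨⟨a, c⟩, b, d⟩
      exact ⟨⟨⟨a, b⟩, by rw [c, d]; ring⟩, d⟩
  have h2 : ∑ s ∈ T, R s ^ 2 ≤ energy r S := sum_sq_le r S T
  have h3 : ∑ s ∈ T, R (s + τ) ^ 2 ≤ energy r S := by
    have h := sum_sq_le r S (T.map (addRightEmbedding τ))
    rw [sum_map] at h
    exact h
  have h4 : 2 * ∑ s ∈ T, R (s + τ) * R s ≤ ∑ s ∈ T, R (s + τ) ^ 2 + ∑ s ∈ T, R s ^ 2 := by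
    rw [mul_sum, ← sum_add_distrib]
    refine sum_le_sum fun s _ => ?_
    have := two_mul_le_add_sq (R (s + τ)) (R s)
    nlinarith
  rw [h1]
  omega

theorem pow_card_le_energy (r : ℕ) (S : Finset ℕ) : S.card ^ r ≤ energy r S := by
  unfold energy
  have h1 : S.card ^ r = (Fintype.piFinset fun _ : Fin r => S).card := by
    simp
  rw [h1]
  refine card_le_card_of_injOn (fun u => (u, u)) (fun u hu => ?_) (fun u _ v _ h => ?_)
  · rw [mem_coe, mem_filter, mem_product]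
    exact ⟨⟨hu, hu⟩, rfl⟩
  · exact (Prod.mk.inj h).1

theorem H_le (r : ℕ) (S : Finset ℕ) (hS : S.Nonempty) (H : ℕ) (A : ℝ)
    (hE : (energy r S : ℝ) * H ≤ A * (S.card : ℝ) ^ (2 * r)) : (H : ℝ) ≤ A * (S.card : ℝ) ^ r := by
  have h1 : (0 : ℝ) < (S.card : ℝ) ^ r := by
    have : (0 : ℝ) < S.card := by exact_mod_cast hS.card_pos
    positivity
  have h2 : ((S.card : ℝ) ^ r) ≤ (energy r S : ℝ) := by exact_mod_cast pow_card_le_energy r S
  have h3 : (S.card : ℝ) ^ r * H ≤ (energy r S : ℝ) * H :=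
    mul_le_mul_of_nonneg_right h2 (Nat.cast_nonneg _)
  have h4 : (S.card : ℝ) ^ (2 * r) = (S.card : ℝ) ^ r * (S.card : ℝ) ^ r := by
    rw [two_mul, pow_add]
  refine le_of_mul_le_mul_left ?_ h1
  calc (S.card : ℝ) ^ r * H ≤ (energy r S : ℝ) * H := h3
    _ ≤ A * (S.card : ℝ) ^ (2 * r) := hE
    _ = (S.card : ℝ) ^ r * (A * (S.card : ℝ) ^ r) := by rw [h4]; ring

end Pool.Agent.Helper39.SP
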