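import Pool.Agent.Helper39.SP.Kap
import Pool.Agent.Helper39.SP.Energy

/-!
# SP-04: the paths of `r` steps

PROOF. By induction on `m`, for all `s, t`: `path (ker S) J m s t ≤ #{(u, v) ∈ S ^ (m + 1) × S ^ (m + 1) | ∑ u - ∑ v = t - s} / |S| ^ (2 (m + 1))`.
`m = 0`: equality. Step: `∑_(z ∈ J) ker S s z * path .. z t ≤ |S| ^ (-2 (m + 2)) ∑_z #{(h, h') | h - h' = z - s} #{(u, v) | ∑ u - ∑ v = t - z}`,
and the map `(z, (h, h'), (u, v)) ↦ (Fin.cons h u, Fin.cons h' v)` is injective (`z = s + h - h'`) into the set of the pairs of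
`(m + 2)`-tuples with `∑ u - ∑ v = t - s`. Then `count_le_energy`.
-/

set_option autoImplicit false

namespace Pool.Agent.Helper39.SP

open Finset

theorem path_nonneg (S J : Finset ℕ) (m s t : ℕ) : 0 ≤ path (ker S) J m s t := by
  induction m generalizing s with
  | zero => exact ker_nonneg S s t
  | succ m ih =>
    exact Finset.sum_nonneg fun z _ => mul_nonneg (ker_nonneg S s z) (ih z)

/-- The pairs of tuples with a given difference of the sums. -/
private def cset (S : Finset ℕ) (k : ℕ) (τ : ℤ) : Finset ((Fin k → ℕ) × (Fin k → ℕ)) :=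
  ((Fintype.piFinset fun _ : Fin k => S) ×ˢ (Fintype.piFinset fun _ : Fin k => S)).filter
      fun u => (∑ i, (u.1 i : ℤ)) - ∑ i, (u.2 i : ℤ) = τ

/-- The pairs of elements with a given difference. -/
private def dset (S : Finset ℕ) (τ : ℤ) : Finset (ℕ × ℕ) :=
  (S ×ˢ S).filter (fun u => (u.1 : ℤ) - u.2 = τ)

private theorem mem_cset {S : Finset ℕ} {k : ℕ} {τ : ℤ} {u : (Fin k → ℕ) × (Fin k → ℕ)} :
    u ∈ cset S k τ ↔ (∀ i, u.1 i ∈ S) ∧ (∀ i, u.2 i ∈ S) ∧
      (∑ i, (u.1 i : ℤ)) - ∑ i, (u.2 i : ℤ) = τ := by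
  unfold cset
  rw [Finset.mem_filter, Finset.mem_product, Fintype.mem_piFinset, Fintype.mem_piFinset, and_assoc]

private theorem mem_dset {S : Finset ℕ} {τ : ℤ} {u : ℕ × ℕ} :
    u ∈ dset S τ ↔ u.1 ∈ S ∧ u.2 ∈ S ∧ (u.1 : ℤ) - u.2 = τ := by
  unfold dset
  rw [Finset.mem_filter, Finset.mem_product, and_assoc]

private theorem ker_eq (S : Finset ℕ) (s t : ℕ) :
    ker S s t = ((dset S ((t : ℤ) - s)).card : ℝ) / (S.card : ℝ) ^ 2 := by
  unfold ker kap dset
  simp

private theorem dset_le (S : Finset ℕ) (τ : ℤ) : (dset S τ).card ≤ (cset S 1 τ).card := by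
  refine Finset.card_le_card_of_injOn (fun u => (fun _ => u.1, fun _ => u.2)) ?_ ?_
  · intro u hu
    have h := mem_dset.1 (Finset.mem_coe.1 hu)
    refine Finset.mem_coe.2 (mem_cset.2 ⟨fun _ => h.1, fun _ => h.2.1, ?_⟩)
    simpa using h.2.2
  · intro u _ v _ h
    have h1 := congrFun (congrArg Prod.fst h) 0
    have h2 := congrFun (congrArg Prod.snd h) 0
    exact Prod.ext h1 h2

private theorem step (S J : Finset ℕ) (m s t : ℕ) :
    ∑ z ∈ J, (dset S ((z : ℤ) - s)).card * (cset S (m + 1) ((t : ℤ) - z)).card ≤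
      (cset S (m + 2) ((t : ℤ) - s)).card := by
  have e1 : ∑ z ∈ J, (dset S ((z : ℤ) - s)).card * (cset S (m + 1) ((t : ℤ) - z)).card =
      (J.sigma fun z => dset S ((z : ℤ) - s) ×ˢ cset S (m + 1) ((t : ℤ) - z)).card := by
    rw [Finset.card_sigma]
    exact Finset.sum_congr rfl fun z _ => (Finset.card_product _ _).symm
  rw [e1]
  refine Finset.card_le_card_of_injOn
    (fun w : (_ : ℕ) × ((ℕ × ℕ) × ((Fin (m + 1) → ℕ) × (Fin (m + 1) → ℕ))) =>
      ((Fin.cons w.2.1.1 w.2.2.1 : Fin (m + 2) → ℕ), (Fin.cons w.2.1.2 w.2.2.2 : Fin (m + 2) → ℕ)))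
    ?_ ?_
  · rintro ⟨z, ⟨h, h'⟩, ⟨u, v⟩⟩ hw
    have hw1 := Finset.mem_sigma.1 (Finset.mem_coe.1 hw)
    have hw2 := Finset.mem_product.1 hw1.2
    have hd := mem_dset.1 hw2.1
    have hc := mem_cset.1 hw2.2
    simp only at hd hc
    refine Finset.mem_coe.2 (mem_cset.2 ⟨?_, ?_, ?_⟩)
    · intro i
      refine Fin.cases ?_ (fun j => ?_) i
      · exact hd.1
      · exact hc.1 j
    · intro i
      refine Fin.cases ?_ (fun j => ?_) i
      · exact hd.2.1
      · exact hc.2.1 j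
    · simp only [Fin.sum_univ_succ (n := m + 1), Fin.cons_zero, Fin.cons_succ]
      have h1 := hd.2.2
      have h2 := hc.2.2
      linarith
  · rintro ⟨z, ⟨h, h'⟩, ⟨u, v⟩⟩ hw ⟨z₁, ⟨k, k'⟩, ⟨u₁, v₁⟩⟩ hw' he
    have hw1 := Finset.mem_sigma.1 (Finset.mem_coe.1 hw)
    have hw2 := Finset.mem_product.1 hw1.2
    have hd := (mem_dset.1 hw2.1).2.2
    have hw1' := Finset.mem_sigma.1 (Finset.mem_coe.1 hw')
    have hw2' := Finset.mem_product.1 hw1'.2
    have hd' := (mem_dset.1 hw2'.1).2.2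
    simp only at hd hd'
    simp only [Prod.mk.injEq] at he
    obtain ⟨a1, a2⟩ := Fin.cons_inj.1 he.1
    obtain ⟨b1, b2⟩ := Fin.cons_inj.1 he.2
    subst a1 a2 b1 b2
    have hz : z = z₁ := by
      have : (z : ℤ) = z₁ := by linarith
      exact_mod_cast this
    subst hz
    rfl

private theorem path_le_cset (S J : Finset ℕ) (m s t : ℕ) :
    path (ker S) J m s t ≤ ((cset S (m + 1) ((t : ℤ) - s)).card : ℝ) /
      (S.card : ℝ) ^ (2 * (m + 1)) := by
  induction m generalizing s with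
  | zero =>
    show ker S s t ≤ _
    rw [ker_eq]
    have h1 : ((dset S ((t : ℤ) - s)).card : ℝ) ≤ ((cset S 1 ((t : ℤ) - s)).card : ℝ) := by
      exact_mod_cast dset_le S _
    exact div_le_div_of_nonneg_right h1 (by positivity)
  | succ m ih =>
    have h1 : path (ker S) J (m + 1) s t ≤ ∑ z ∈ J,
        ((dset S ((z : ℤ) - s)).card : ℝ) / (S.card : ℝ) ^ 2 *
        (((cset S (m + 1) ((t : ℤ) - z)).card : ℝ) / (S.card : ℝ) ^ (2 * (m + 1))) := by
      show ∑ z ∈ J, ker S s z * path (ker S) J m z t ≤ _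
      refine Finset.sum_le_sum fun z _ => ?_
      rw [ker_eq]
      exact mul_le_mul_of_nonneg_left (ih z) (by positivity)
    refine h1.trans ?_
    have h2 : ∑ z ∈ J, ((dset S ((z : ℤ) - s)).card : ℝ) / (S.card : ℝ) ^ 2 *
        (((cset S (m + 1) ((t : ℤ) - z)).card : ℝ) / (S.card : ℝ) ^ (2 * (m + 1))) =
        (∑ z ∈ J, ((dset S ((z : ℤ) - s)).card : ℝ) *
          ((cset S (m + 1) ((t : ℤ) - z)).card : ℝ)) / (S.card : ℝ) ^ (2 * (m + 1 + 1)) := by
      rw [Finset.sum_div]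
      refine Finset.sum_congr rfl fun z _ => ?_
      rw [div_mul_div_comm, ← pow_add]
      congr 2
      ring
    rw [h2]
    have h3 : (∑ z ∈ J, ((dset S ((z : ℤ) - s)).card : ℝ) *
          ((cset S (m + 1) ((t : ℤ) - z)).card : ℝ)) ≤
        ((cset S (m + 1 + 1) ((t : ℤ) - s)).card : ℝ) := by
      exact_mod_cast step S J m s t
    exact div_le_div_of_nonneg_right h3 (by positivity)

theorem path_le (S J : Finset ℕ) (m s t : ℕ) :
    path (ker S) J m s t ≤ (energy (m + 1) S : ℝ) / (S.card : ℝ) ^ (2 * (m + 1)) := by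
  refine (path_le_cset S J m s t).trans ?_
  have h1 : ((cset S (m + 1) ((t : ℤ) - s)).card : ℝ) ≤ (energy (m + 1) S : ℝ) := by
    exact Nat.cast_le.2 (count_le_energy (m + 1) S ((t : ℤ) - s))
  exact div_le_div_of_nonneg_right h1 (by positivity)

/-- With the energy hypothesis. -/
theorem path_le' (r : ℕ) (hr : 1 ≤ r) (A : ℝ) (S J : Finset ℕ) (hS : S.Nonempty) (H : ℕ) (hH : 1 ≤ H)
    (hE : (energy r S : ℝ) * H ≤ A * (S.card : ℝ) ^ (2 * r)) (s t : ℕ) :
    path (ker S) J (r - 1) s t ≤ A / H := by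
  have h1 := path_le S J (r - 1) s t
  rw [Nat.sub_add_cancel hr] at h1
  refine h1.trans ?_
  have hc : (0 : ℝ) < S.card := by exact_mod_cast hS.card_pos
  have hH' : (0 : ℝ) < H := by exact_mod_cast hH
  rw [div_le_div_iff₀ (by positivity) hH']
  exact hE

end Pool.Agent.Helper39.SP
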