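import Pool.Agent.Helper39.SP.CorrD
import Pool.Agent.Helper39.SP.SingD
import Pool.Agent.Helper40.DB.Mert

/-!
# SP-12: the correlation of `phi` at points no two of which are close

PROOF. Let `W = N !` (no prime `p > N` divides `W`), `V = VV N z`, `Λ = (VV 0 N)⁻¹ ^ k`; `0 ≤ nuA a 0 N ≤ Λ`.
(1) Split `y ∈ Icc 1 X` into the classes `y = W m' + c`, `0 ≤ c < W`, `m' ∈ ℤ`: for every `c` the set of the `m'` with `1 ≤ W m' + c ≤ X` is an interval
`Ico a' (a' + L_c)`, and `∑_c L_c = X`. On a class `∏_i nuA a 0 N (y + x i)` is constant (a prime `p ≤ N` divides `W`), between `0` and `Λ ^ m`.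
(2) `∏_i (nuA a N z (y + x i) - 1) = ∑_(I ⊆ univ) (-1)^(m - |I|) ∏_(i ∈ I) nuA a N z (y + x i)` (`Finset.prod_sub` or `Finset.prod_add`) and
`∑_I (-1)^|I| = 0` as `m ≥ 1` (`Finset.sum_powerset_neg_one_pow_card_of_nonempty`), so
`|∑_(m') ∏ (nuA - 1)| ≤ ∑_I |∑_(m') ∏_(i ∈ I) nuA a N z (y + x i) - L_c|`.
(3) `∏_(i ∈ I) nuA a N z (W m' + c + x i) = nuD N z W D_I m'` with `D_I = {c + x i + a s | i ∈ I, s}` (as integers), which has exactly `k |I|` elements,
because `a` is injective and no two of the points are close. By `corrD (k m)`, `SSD_sub_one (k m)`: the difference in (2) is at most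
`L_c |SSD - 1| + C (1/4)^b L_c SSD + R ≤ (1 + C) L_c |SSD - 1| + C (1/4)^b L_c + R`,
`R = V⁻¹ ^ (k m) (2 E + 3) 2 ^ (20 E (b + 2))`, `E = Nat.log 2 z`.
(4) In `∑_(u ∈ D_I.offDiag) gg C N z (u.1 - u.2)` the pairs with the same `i` contribute `0` for `N ≥ max a` (`0 < |a s - a s'| ≤ N`, so `DD` is empty);
the others are terms of the sum in the statement (`gg ≥ 0`; the difference `x i + a s - (x j + a s')` is not `0`).
(5) `2 ^ (20 E (b + 2)) ≤ z ^ (20 (b + 2)) ≤ √X` (`2 ^ E ≤ z` if `z ≥ 1`; for `z = 0`: `E = 0`), `V⁻¹ ≤ exp 8 (E + 1)^8` (`Helper40.DB.VV_inv_le`), `E ≤ Nat.log 2 X`.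
So the sum over the `W` classes of the remainders `2^m Λ^m R`, divided by `X`, is at most `Λ^m / N` for `X ≥ X0(N, b)`.
Altogether `|TT| ≤ Λ^m (2^m (C' / N + C' (1/4)^b + C' ∑ gg) + 1/N)`. (`Λ ^ m = (VV 0 N)⁻¹ ^ (k * m)`; enlarge the constants: `gg` is increasing in `C`.)
-/

set_option autoImplicit false

namespace Pool.Agent.Helper39.SP

open Finset
open Pool.Agent.Helper40.DB (PP VV DD)

/-- Splitting into residue classes. -/
private theorem sum_classes (F : ℕ → ℝ) (W X : ℕ) (hW : 0 < W) :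
    ∑ y ∈ Icc 1 X, F y = ∑ c ∈ Icc 1 W, ∑ q ∈ range ((X + W - c) / W), F (W * q + c) := by
  rw [Finset.sum_sigma']
  symm
  refine Finset.sum_nbij' (i := fun w : (_ : ℕ) × ℕ => W * w.2 + w.1)
    (j := fun y => ⟨(y - 1) % W + 1, (y - 1) / W⟩) ?_ ?_ ?_ ?_ ?_
  · rintro ⟨c, q⟩ h
    simp only [mem_sigma, mem_Icc, mem_range] at h
    obtain ⟨⟨h1, h2⟩, h3⟩ := h
    have h4 : (q + 1) * W ≤ X + W - c := (Nat.le_div_iff_mul_le hW).1 h3
    simp only [mem_Icc]
    constructor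
    · omega
    · have h5 : (q + 1) * W = W * q + W := by ring
      omega
  · intro y hy
    rw [mem_Icc] at hy
    simp only [mem_sigma, mem_Icc, mem_range]
    have h1 : (y - 1) % W < W := Nat.mod_lt _ hW
    have h2 := Nat.div_add_mod (y - 1) W
    refine ⟨⟨by omega, by omega⟩, ?_⟩
    refine (Nat.le_div_iff_mul_le hW).2 ?_
    have h5 : ((y - 1) / W + 1) * W = W * ((y - 1) / W) + W := by ring
    have h6 : (y - 1) / W + 1 = ((y - 1) / W).succ := rfl
    rw [← h6, h5]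
    omega
  · rintro ⟨c, q⟩ h
    simp only [mem_sigma, mem_Icc, mem_range] at h
    obtain ⟨⟨h1, h2⟩, h3⟩ := h
    have h4 : W * q + c - 1 = (c - 1) + W * q := by omega
    have h5 : c - 1 < W := by omega
    have h6 : (W * q + c - 1) % W = c - 1 := by
      rw [h4, Nat.add_mul_mod_self_left, Nat.mod_eq_of_lt h5]
    have h7 : (W * q + c - 1) / W = q := by
      rw [h4, Nat.add_mul_div_left _ _ hW, Nat.div_eq_of_lt h5, zero_add]
    simp only [h6, h7]
    have h8 : c - 1 + 1 = c := by omega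
    rw [h8]
  · intro y hy
    rw [mem_Icc] at hy
    have h2 := Nat.div_add_mod (y - 1) W
    simp only
    omega
  · rintro ⟨c, q⟩ h
    rfl

private theorem sum_card_classes (W X : ℕ) (hW : 0 < W) :
    ∑ c ∈ Icc 1 W, (((X + W - c) / W : ℕ) : ℝ) = X := by
  have h := sum_classes (fun _ => 1) W X hW
  simp only [sum_const, card_range, Nat.card_Icc, nsmul_eq_mul, mul_one] at h
  rw [← h]
  simp

/-- Expansion of the product. -/
private theorem expand {m : ℕ} (hm : 1 ≤ m) (L : ℕ) (f : ℕ → Fin m → ℝ) :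
    |∑ q ∈ range L, ∏ i, (f q i - 1)| ≤
      ∑ I : Finset (Fin m), |∑ q ∈ range L, ∏ i ∈ I, f q i - L| := by
  classical
  have h1 : ∀ q : ℕ, ∏ i, (f q i - 1) =
      ∑ I : Finset (Fin m), (∏ i ∈ I, f q i) * ∏ i ∈ univ \ I, (-1 : ℝ) := by
    intro q
    have := Finset.prod_add (fun i : Fin m => f q i) (fun _ => (-1 : ℝ)) univ
    simp only [Finset.powerset_univ] at this
    rw [← this]
    rfl
  have h2 : ∑ I : Finset (Fin m), ∏ i ∈ univ \ I, (-1 : ℝ) = 0 := by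
    have := Finset.prod_add (fun i : Fin m => (1 : ℝ)) (fun _ => (-1 : ℝ)) univ
    simp only [Finset.powerset_univ, Finset.prod_const_one, one_mul] at this
    rw [← this]
    have hm' : m ≠ 0 := by omega
    simp [hm']
  have h3 : ∑ q ∈ range L, ∏ i, (f q i - 1) =
      ∑ I : Finset (Fin m), (∑ q ∈ range L, ∏ i ∈ I, f q i - L) *
        ∏ i ∈ univ \ I, (-1 : ℝ) := by
    simp only [sub_mul]
    rw [Finset.sum_sub_distrib, ← Finset.mul_sum, h2, mul_zero, sub_zero]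
    simp only [h1, Finset.sum_mul]
    rw [Finset.sum_comm]
  rw [h3]
  refine (Finset.abs_sum_le_sum_abs _ _).trans ?_
  apply Finset.sum_le_sum
  intro A _
  rw [abs_mul]
  have h4 : |∏ i ∈ univ \ A, (-1 : ℝ)| = 1 := by
    rw [Finset.prod_const, abs_pow]; simp
  rw [h4, mul_one]

/-- `(y + 1)^M / (√2)^y → 0`. -/
private theorem exists_log_bound (M : ℕ) (B ε : ℝ) (hB : 0 ≤ B) (hε : 0 < ε) :
    ∃ H₀ : ℕ, 1 ≤ H₀ ∧ ∀ H : ℕ, H₀ ≤ H →
      B * ((Nat.log 2 H : ℝ) + 1) ^ M ≤ ε * Real.sqrt H := by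
  have h1 : Filter.Tendsto (fun n : ℕ => (n : ℝ) ^ M * (1 / Real.sqrt 2) ^ n) Filter.atTop
      (nhds 0) := by
    apply tendsto_pow_const_mul_const_pow_of_abs_lt_one
    rw [abs_of_nonneg (by positivity), div_lt_one (by positivity)]
    rw [Real.lt_sqrt (by norm_num)]
    norm_num
  have h2 : ∀ᶠ n : ℕ in Filter.atTop, (n : ℝ) ^ M * (1 / Real.sqrt 2) ^ n <
      ε / (Real.sqrt 2 * (B + 1)) := by
    apply h1.eventually_lt_const
    positivity
  obtain ⟨n0, hn0⟩ := Filter.eventually_atTop.1 h2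
  refine ⟨2 ^ n0, Nat.one_le_two_pow, ?_⟩
  intro H hH
  have hH0 : H ≠ 0 := by
    have : 0 < 2 ^ n0 := by positivity
    omega
  have h3 : n0 ≤ Nat.log 2 H := Nat.le_log_of_pow_le (by norm_num) hH
  have h4 := hn0 (Nat.log 2 H + 1) (by omega)
  set y := Nat.log 2 H with hy
  have h5 : Real.sqrt 2 ^ y ≤ Real.sqrt H := by
    have h6 : 2 ^ y ≤ H := Nat.pow_log_le_self 2 hH0
    have h7 : Real.sqrt 2 ^ y = Real.sqrt ((2 : ℝ) ^ y) := by
      have h8 : (2 : ℝ) ^ y = (Real.sqrt 2 ^ y) ^ 2 := by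
        rw [← pow_mul, mul_comm, pow_mul, Real.sq_sqrt (by norm_num)]
      rw [h8, Real.sqrt_sq (by positivity)]
    rw [h7]
    apply Real.sqrt_le_sqrt
    exact_mod_cast h6
  have hs : 0 < Real.sqrt 2 := by positivity
  rw [lt_div_iff₀ (by positivity)] at h4
  push_cast at h4
  have h8 : (1 / Real.sqrt 2) ^ (y + 1) * Real.sqrt 2 = 1 / Real.sqrt 2 ^ y := by
    rw [pow_succ, div_pow, one_pow]
    field_simp
  have h9 : ((y : ℝ) + 1) ^ M * (B + 1) * (1 / Real.sqrt 2 ^ y) < ε := by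
    rw [← h8]
    calc _ = ((y : ℝ) + 1) ^ M * (1 / Real.sqrt 2) ^ (y + 1) * (Real.sqrt 2 * (B + 1)) := by ring
      _ < ε := h4
  have h10 : 0 < Real.sqrt 2 ^ y := by positivity
  rw [mul_one_div, div_lt_iff₀ h10] at h9
  have h11 : ε * Real.sqrt 2 ^ y ≤ ε * Real.sqrt H := by gcongr
  have h12 : B * ((y : ℝ) + 1) ^ M ≤ ((y : ℝ) + 1) ^ M * (B + 1) := by
    have : 0 ≤ ((y : ℝ) + 1) ^ M := by positivity
    nlinarith
  linarith

/-- The sieve weight of a class as a function of the class. -/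
private theorem nuA_periodic {k : ℕ} (a : Fin k → ℕ) (N q c : ℕ) :
    nuA a 0 N (N.factorial * q + c) = nuA a 0 N c := by
  unfold nuA
  have h : (∀ p ∈ PP 0 N, ∀ i, ¬ p ∣ N.factorial * q + c + a i) ↔
      (∀ p ∈ PP 0 N, ∀ i, ¬ p ∣ c + a i) := by
    refine forall₂_congr fun p hp => forall_congr' fun i => not_congr ?_
    unfold PP at hp
    rw [mem_filter, mem_Ioc] at hp
    have h1 : p ∣ N.factorial * q := Dvd.dvd.mul_right ((hp.2.dvd_factorial).2 hp.1.2) _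
    rw [add_assoc]
    exact Nat.dvd_add_right h1
  simp only [h]

private theorem nuA_nonneg {k : ℕ} (a : Fin k → ℕ) (N z n : ℕ) : 0 ≤ nuA a N z n := by
  unfold nuA
  have := Pool.Agent.Helper40.DB.VV_pos N z
  split_ifs
  · positivity
  · exact le_refl _

private theorem nuA_le {k : ℕ} (a : Fin k → ℕ) (N z n : ℕ) : nuA a N z n ≤ (VV N z)⁻¹ ^ k := by
  unfold nuA
  have := Pool.Agent.Helper40.DB.VV_pos N z
  split_ifs
  · exact le_refl _
  · positivity

/-- The set of shifts. -/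
private noncomputable def shf {k m : ℕ} (a : Fin k → ℕ) (x : Fin m → ℕ) (c : ℕ) (I : Finset (Fin m)) :
    Finset ℤ :=
  (I ×ˢ (univ : Finset (Fin k))).image fun w => (c : ℤ) + x w.1 + a w.2

private theorem shf_inj {k m : ℕ} (a : Fin k → ℕ) (ha : Function.Injective a) (x : Fin m → ℕ)
    (hx : ∀ i j, i ≠ j → ¬ close a (x i) (x j)) (c : ℕ) :
    Function.Injective (fun w : Fin m × Fin k => (c : ℤ) + x w.1 + a w.2) := by
  rintro ⟨i, s⟩ ⟨j, s'⟩ h
  simp only at h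
  have h1 : x i + a s = x j + a s' := by
    have : (x i : ℤ) + a s = x j + a s' := by linarith
    exact_mod_cast this
  by_cases hij : i = j
  · subst hij
    have h2 : a s = a s' := by omega
    rw [ha h2]
  · exact absurd ⟨s, s', h1⟩ (hx i j hij)

private theorem shf_card {k m : ℕ} (a : Fin k → ℕ) (ha : Function.Injective a) (x : Fin m → ℕ)
    (hx : ∀ i j, i ≠ j → ¬ close a (x i) (x j)) (c : ℕ) (I : Finset (Fin m)) :
    (shf a x c I).card = k * I.card := by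
  unfold shf
  rw [card_image_of_injective _ (shf_inj a ha x hx c), card_product, card_univ, Fintype.card_fin,
    mul_comm]

private theorem prod_nuA {k m : ℕ} (a : Fin k → ℕ) (ha : Function.Injective a) (x : Fin m → ℕ)
    (hx : ∀ i j, i ≠ j → ¬ close a (x i) (x j)) (N z W c q : ℕ) (I : Finset (Fin m)) :
    ∏ i ∈ I, nuA a N z (W * q + c + x i) = nuD N z W (shf a x c I) (q : ℤ) := by
  classical
  unfold nuA nuD
  rw [Finset.prod_ite_zero, prod_const, shf_card a ha x hx, ← pow_mul]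
  have h : (∀ i ∈ I, ∀ p ∈ PP N z, ∀ s, ¬ p ∣ W * q + c + x i + a s) ↔
      (∀ p ∈ PP N z, ∀ d ∈ shf a x c I, ¬ (p : ℤ) ∣ W * (q : ℤ) + d) := by
    constructor
    · intro h p hp d hd hdvd
      unfold shf at hd
      rw [mem_image] at hd
      obtain ⟨⟨i, s⟩, hw, rfl⟩ := hd
      rw [mem_product] at hw
      refine h i hw.1 p hp s ?_
      have : ((p : ℕ) : ℤ) ∣ ((W * q + c + x i + a s : ℕ) : ℤ) := by
        push_cast
        simpa [add_assoc] using hdvd
      exact_mod_cast this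
    · intro h i hi p hp s hdvd
      refine h p hp ((c : ℤ) + x i + a s) ?_ ?_
      · unfold shf
        exact mem_image_of_mem (fun w : Fin m × Fin k => (c : ℤ) + x w.1 + a w.2)
          (mem_product.2 ⟨hi, mem_univ s⟩ : (i, s) ∈ I ×ˢ (univ : Finset (Fin k)))
      · have : ((p : ℕ) : ℤ) ∣ ((W * q + c + x i + a s : ℕ) : ℤ) := by exact_mod_cast hdvd
        push_cast at this
        simpa [add_assoc] using this
  simp only [h]


private theorem gg_nonneg (C : ℝ) (hC : 0 ≤ C) (N z : ℕ) (t : ℤ) : 0 ≤ gg C N z t := by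
  unfold gg
  have h : (1 : ℝ) ≤ ∏ p ∈ DD N z t, (1 + C / (p : ℝ)) := by
    have h1 : ∏ p ∈ DD N z t, (1 : ℝ) ≤ ∏ p ∈ DD N z t, (1 + C / (p : ℝ)) := by
      refine Finset.prod_le_prod (fun p _ => zero_le_one) fun p _ => ?_
      have : 0 ≤ C / (p : ℝ) := by positivity
      linarith
    rwa [prod_const_one] at h1
  linarith

private theorem gg_mono {C C' : ℝ} (hC : 0 ≤ C) (h : C ≤ C') (N z : ℕ) (t : ℤ) :
    gg C N z t ≤ gg C' N z t := by
  unfold gg
  refine sub_le_sub_right (Finset.prod_le_prod (fun p _ => by positivity) fun p _ => ?_) 1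
  have : C / (p : ℝ) ≤ C' / (p : ℝ) := by gcongr
  linarith

private theorem gg_small (C : ℝ) (N z : ℕ) (t : ℤ) (ht : t ≠ 0) (hN : |t| ≤ N) : gg C N z t = 0 := by
  unfold gg
  have h : DD N z t = ∅ := by
    unfold DD PP
    rw [filter_eq_empty_iff]
    intro p hp hdvd
    rw [mem_filter, mem_Ioc] at hp
    have h1 := Int.le_of_dvd (abs_pos.2 ht) ((dvd_abs _ _).2 hdvd)
    have h2 : (p : ℤ) ≤ N := h1.trans hN
    have h3 : p ≤ N := by exact_mod_cast h2
    omega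
  rw [h, prod_empty, sub_self]

private theorem offDiag_le {k m : ℕ} (a : Fin k → ℕ) (ha : Function.Injective a) (x : Fin m → ℕ)
    (hx : ∀ i j, i ≠ j → ¬ close a (x i) (x j)) (C : ℝ) (hC : 0 ≤ C) (N z c : ℕ)
    (hN : ∀ s, a s ≤ N) (I : Finset (Fin m)) :
    ∑ u ∈ (shf a x c I).offDiag, gg C N z (u.1 - u.2) ≤
      ∑ i, ∑ j ∈ univ.erase i, ∑ s, ∑ s', gg C N z ((x i : ℤ) + a s - (x j + a s')) := by
  classical
  set h : ℤ → ℤ → ℝ := fun u v => if u ≠ v then gg C N z (u - v) else 0 with hh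
  have h0 : ∀ u v, 0 ≤ h u v := by
    intro u v
    rw [hh]
    simp only
    split_ifs
    · exact gg_nonneg C hC N z _
    · exact le_refl _
  set e : Fin m × Fin k → ℤ := fun w => (c : ℤ) + x w.1 + a w.2 with he
  have hinj : Function.Injective e := shf_inj a ha x hx c
  have h1 : ∑ u ∈ (shf a x c I).offDiag, gg C N z (u.1 - u.2) =
      ∑ w ∈ I ×ˢ (univ : Finset (Fin k)), ∑ w' ∈ I ×ˢ (univ : Finset (Fin k)), h (e w) (e w') := by
    have h2 : (shf a x c I).offDiag = ((shf a x c I) ×ˢ (shf a x c I)).filter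
        fun u => u.1 ≠ u.2 := by
      ext u
      simp only [mem_offDiag, mem_filter, mem_product]
      tauto
    rw [h2, sum_filter, sum_product]
    unfold shf
    rw [sum_image fun w _ w' _ hw => hinj hw]
    refine sum_congr rfl fun w _ => ?_
    rw [sum_image fun w _ w' _ hw => hinj hw]
  rw [h1]
  have h2 : ∑ w ∈ I ×ˢ (univ : Finset (Fin k)), ∑ w' ∈ I ×ˢ (univ : Finset (Fin k)),
      h (e w) (e w') ≤ ∑ w : Fin m × Fin k, ∑ w' : Fin m × Fin k, h (e w) (e w') := by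
    refine (sum_le_sum fun w _ => sum_le_sum_of_subset_of_nonneg (subset_univ _)
      fun w' _ _ => h0 _ _).trans ?_
    exact sum_le_sum_of_subset_of_nonneg (subset_univ _)
      fun w _ _ => sum_nonneg fun w' _ => h0 _ _
  refine h2.trans ?_
  rw [Fintype.sum_prod_type]
  refine sum_le_sum fun i _ => ?_
  have h3 : ∑ s, ∑ w' : Fin m × Fin k, h (e (i, s)) (e w') =
      ∑ j, ∑ s, ∑ s', h (e (i, s)) (e (j, s')) := by
    rw [sum_comm]
    rw [Fintype.sum_prod_type]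
    refine sum_congr rfl fun j _ => ?_
    rw [sum_comm]
  rw [h3]
  have h4 : ∑ s, ∑ s', h (e (i, s)) (e (i, s')) = 0 := by
    refine sum_eq_zero fun s _ => sum_eq_zero fun s' _ => ?_
    rw [hh]
    simp only
    split_ifs with h5
    · have h6 : e (i, s) - e (i, s') = (a s : ℤ) - a s' := by
        rw [he]
        simp only
        ring
      refine gg_small C N z _ (sub_ne_zero.2 h5) ?_
      rw [h6, abs_le]
      have h7 := hN s
      have h8 := hN s'
      constructor <;> omega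
    · rfl
  have h5 := Finset.sum_erase (f := fun j => ∑ s, ∑ s', h (e (i, s)) (e (j, s'))) univ h4
  rw [← h5]
  refine sum_le_sum fun j _ => sum_le_sum fun s _ => sum_le_sum fun s' _ => ?_
  have h6 : e (i, s) - e (j, s') = (x i : ℤ) + a s - (x j + a s') := by
    rw [he]
    simp only
    ring
  rw [hh]
  simp only
  rw [← h6]
  split_ifs
  · exact le_refl _
  · exact gg_nonneg C hC N z _

private theorem sum_Ico_int (f : ℤ → ℝ) (L : ℕ) :
    ∑ m ∈ Ico (0 : ℤ) (0 + L), f m = ∑ q ∈ range L, f (q : ℤ) := by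
  refine Finset.sum_nbij' (i := fun m => m.toNat) (j := fun q => (q : ℤ)) ?_ ?_ ?_ ?_ ?_
  · intro m hm
    rw [mem_Ico] at hm
    rw [mem_range]
    omega
  · intro q hq
    rw [mem_range] at hq
    rw [mem_Ico]
    constructor <;> omega
  · intro m hm
    rw [mem_Ico] at hm
    exact Int.toNat_of_nonneg hm.1
  · intro q hq
    exact Int.toNat_natCast q
  · intro m hm
    rw [mem_Ico] at hm
    rw [Int.toNat_of_nonneg hm.1]

/-- The bound on one class. -/
private theorem class_bound {k m : ℕ} (hm : 1 ≤ m) (a : Fin k → ℕ) (ha : Function.Injective a)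
    (x : Fin m → ℕ) (hx : ∀ i j, i ≠ j → ¬ close a (x i) (x j)) (C1 C2 : ℝ) (hC1 : 0 ≤ C1)
    (hC2 : 0 ≤ C2) (N z b : ℕ) (hb : 1 ≤ b) (hN : ∀ s, a s ≤ N) (htN : 2 * (k * m) + 2 ≤ N)
    (h1 : ∀ (N z W : ℕ), (k * m) ≤ N → (∀ p ∈ PP N z, ¬ p ∣ W) →
      ∀ E : ℕ, Nat.log 2 z ≤ E → ∀ D : Finset ℤ, D.card ≤ (k * m) → ∀ b : ℕ, 1 ≤ b → ∀ (a : ℤ) (L : ℕ),
      |∑ m ∈ Ico a (a + L), nuD N z W D m - L * SSD N z D| ≤
        C1 * (1 / 4) ^ b * (L * SSD N z D) +
          (VV N z)⁻¹ ^ (k * m) * ((2 * E + 3) * 2 ^ (20 * E * (b + 2))))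
    (h2 : ∀ N z : ℕ, 2 * (k * m) + 2 ≤ N → ∀ D : Finset ℤ, D.card ≤ (k * m) →
      0 ≤ SSD N z D ∧ |SSD N z D - 1| ≤ C2 / N + ∑ u ∈ D.offDiag, gg C2 N z (u.1 - u.2))
    (c L : ℕ) :
    |∑ q ∈ range L, ∏ i, (nuA a N z (N.factorial * q + c + x i) - 1)| ≤
      2 ^ m * (L * ((1 + C1) * (C2 / N +
        ∑ i, ∑ j ∈ univ.erase i, ∑ s, ∑ s', gg C2 N z ((x i : ℤ) + a s - (x j + a s'))) +
          C1 * (1 / 4) ^ b) +
        (VV N z)⁻¹ ^ (k * m) * ((2 * (Nat.log 2 z : ℕ) + 3) * 2 ^ (20 * Nat.log 2 z * (b + 2)))) := by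
  classical
  set G := ∑ i, ∑ j ∈ univ.erase i, ∑ s, ∑ s', gg C2 N z ((x i : ℤ) + a s - (x j + a s')) with hG
  set R := (VV N z)⁻¹ ^ (k * m) *
    ((2 * ((Nat.log 2 z : ℕ) : ℝ) + 3) * 2 ^ (20 * Nat.log 2 z * (b + 2))) with hR
  refine (expand hm L fun q i => nuA a N z (N.factorial * q + c + x i)).trans ?_
  have key : ∀ I : Finset (Fin m),
      |∑ q ∈ range L, ∏ i ∈ I, nuA a N z (N.factorial * q + c + x i) - L| ≤
      L * ((1 + C1) * (C2 / N + G) + C1 * (1 / 4) ^ b) + R := by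
    intro I
    have hcard : (shf a x c I).card ≤ k * m := by
      rw [shf_card a ha x hx]
      refine Nat.mul_le_mul_left _ ?_
      exact (card_le_univ I).trans (by rw [Fintype.card_fin])
    have hW : ∀ p ∈ PP N z, ¬ p ∣ N.factorial := by
      intro p hp hdvd
      unfold PP at hp
      rw [mem_filter, mem_Ioc] at hp
      have := (hp.2.dvd_factorial).1 hdvd
      omega
    have e1 := h1 N z N.factorial (by omega) hW (Nat.log 2 z) le_rfl (shf a x c I) hcard b hb 0 L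
    obtain ⟨e2, e3⟩ := h2 N z htN (shf a x c I) hcard
    have e4 : |SSD N z (shf a x c I) - 1| ≤ C2 / N + G := by
      refine e3.trans ?_
      have := offDiag_le a ha x hx C2 hC2 N z c hN I
      linarith
    rw [sum_Ico_int] at e1
    have e5 : ∑ q ∈ range L, ∏ i ∈ I, nuA a N z (N.factorial * q + c + x i) =
        ∑ q ∈ range L, nuD N z N.factorial (shf a x c I) (q : ℤ) :=
      sum_congr rfl fun q _ => prod_nuA a ha x hx N z N.factorial c q I
    rw [e5]
    set S := SSD N z (shf a x c I) with hS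
    have hL : (0 : ℝ) ≤ L := Nat.cast_nonneg _
    have e6 : |(L : ℝ) * S - L| ≤ L * (C2 / N + G) := by
      have : (L : ℝ) * S - L = L * (S - 1) := by ring
      rw [this, abs_mul, abs_of_nonneg hL]
      exact mul_le_mul_of_nonneg_left e4 hL
    have e7 : S ≤ 1 + (C2 / N + G) := by
      have := (abs_le.1 e4).2
      linarith
    have e8 : C1 * (1 / 4) ^ b * (L * S) ≤ C1 * (1 / 4) ^ b * (L * (1 + (C2 / N + G))) := by
      gcongr
    have e9 : C1 * (1 / 4 : ℝ) ^ b ≤ C1 := by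
      have : (1 / 4 : ℝ) ^ b ≤ 1 := pow_le_one₀ (by norm_num) (by norm_num)
      nlinarith
    have e10 : 0 ≤ (L : ℝ) * (C2 / N + G) := (abs_nonneg _).trans e6
    have e11 : C1 * (1 / 4 : ℝ) ^ b * (L * (C2 / N + G)) ≤ C1 * (L * (C2 / N + G)) :=
      mul_le_mul_of_nonneg_right e9 e10
    have e12 : |∑ q ∈ range L, nuD N z N.factorial (shf a x c I) (q : ℤ) - L| ≤
        |∑ q ∈ range L, nuD N z N.factorial (shf a x c I) (q : ℤ) - L * S| + |(L : ℝ) * S - L| := by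
      have : ∑ q ∈ range L, nuD N z N.factorial (shf a x c I) (q : ℤ) - L =
        (∑ q ∈ range L, nuD N z N.factorial (shf a x c I) (q : ℤ) - L * S) + ((L : ℝ) * S - L) := by
        ring
      rw [this]
      exact abs_add_le _ _
    refine e12.trans ?_
    have e13 : |∑ q ∈ range L, nuD N z N.factorial (shf a x c I) (q : ℤ) - L * S| ≤
        C1 * (1 / 4) ^ b * (L * S) + R := e1
    calc _ ≤ (C1 * (1 / 4) ^ b * (L * (1 + (C2 / N + G))) + R) + L * (C2 / N + G) := by linarith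
      _ = C1 * (1 / 4 : ℝ) ^ b * (L * (C2 / N + G)) + (C1 * (1 / 4 : ℝ) ^ b * L + R +
          L * (C2 / N + G)) := by ring
      _ ≤ C1 * (L * (C2 / N + G)) + (C1 * (1 / 4 : ℝ) ^ b * L + R + L * (C2 / N + G)) := by
          linarith
      _ = _ := by ring
  refine (sum_le_sum fun I _ => key I).trans ?_
  rw [sum_const, nsmul_eq_mul, card_univ, Fintype.card_finset, Fintype.card_fin]
  push_cast
  exact le_refl _

/-- The remainder. -/
private theorem rem_bound (k m N b : ℕ) (hN : 1 ≤ N) : ∃ X0 : ℕ, 1 ≤ X0 ∧ ∀ X : ℕ, X0 ≤ X →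
    ∀ z : ℕ, z ^ (40 * (b + 2)) ≤ X → (N.factorial : ℝ) *
      ((VV N z)⁻¹ ^ (k * m) * ((2 * (Nat.log 2 z : ℕ) + 3) * 2 ^ (20 * Nat.log 2 z * (b + 2)))) ≤
      X / N := by
  obtain ⟨X0, hX0, hX⟩ := exists_log_bound (8 * (k * m) + 1)
    (N * N.factorial * (3 * Real.exp 8 ^ (k * m))) 1 (by positivity) one_pos
  refine ⟨X0, hX0, fun X hXX z hz => ?_⟩
  have hX1 : 1 ≤ X := hX0.trans hXX
  have h1 := hX X hXX
  rw [one_mul] at h1
  have hE : Nat.log 2 z ≤ Nat.log 2 X := by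
    rcases Nat.eq_zero_or_pos z with h0 | h0
    · subst h0; simp
    · refine Nat.log_mono_right (le_trans ?_ hz)
      exact Nat.le_self_pow (by omega) z
  set E := Nat.log 2 z with hEd
  set E' := Nat.log 2 X with hE'
  have hEr : (E : ℝ) ≤ E' := by exact_mod_cast hE
  have h2 : (VV N z)⁻¹ ≤ Real.exp 8 * ((E' : ℝ) + 1) ^ 8 := by
    have h3 := Pool.Agent.Helper40.DB.VV_inv_le N z
    have h4 : ((E : ℝ) + 1) ^ (8 : ℝ) = ((E : ℝ) + 1) ^ (8 : ℕ) := by
      rw [← Real.rpow_natCast]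
      norm_num
    rw [← hEd, h4] at h3
    refine h3.trans ?_
    gcongr
  have hV := Pool.Agent.Helper40.DB.VV_pos N z
  have h3 : (VV N z)⁻¹ ^ (k * m) ≤ Real.exp 8 ^ (k * m) * ((E' : ℝ) + 1) ^ (8 * (k * m)) := by
    refine (pow_le_pow_left₀ (by positivity) h2 _).trans (le_of_eq ?_)
    rw [mul_pow, ← pow_mul]
  have h4 : (2 : ℝ) ^ (20 * E * (b + 2)) ≤ Real.sqrt X := by
    refine Real.le_sqrt_of_sq_le ?_
    have h5 : (2 ^ (20 * E * (b + 2))) ^ 2 ≤ X := by
      have h6 : (2 ^ (20 * E * (b + 2))) ^ 2 = (2 ^ E) ^ (40 * (b + 2)) := by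
        rw [← pow_mul, ← pow_mul]
        congr 1
        ring
      rw [h6]
      rcases Nat.eq_zero_or_pos z with h0 | h0
      · have : E = 0 := by rw [hEd, h0]; simp
        rw [this]
        simpa using hX1
      · refine le_trans (Nat.pow_le_pow_left ?_ _) hz
        exact Nat.pow_log_le_self 2 h0.ne'
    exact_mod_cast h5
  have h5 : (2 * (E : ℝ) + 3) ≤ 3 * ((E' : ℝ) + 1) := by
    have : (0 : ℝ) ≤ E := Nat.cast_nonneg _
    linarith
  have hNr : (0 : ℝ) < N := by exact_mod_cast hN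
  rw [le_div_iff₀ hNr]
  calc (N.factorial : ℝ) * ((VV N z)⁻¹ ^ (k * m) * ((2 * (E : ℕ) + 3) * 2 ^ (20 * E * (b + 2)))) * N
      ≤ (N.factorial : ℝ) * ((Real.exp 8 ^ (k * m) * ((E' : ℝ) + 1) ^ (8 * (k * m))) *
          ((3 * ((E' : ℝ) + 1)) * Real.sqrt X)) * N := by gcongr
    _ = (N * N.factorial * (3 * Real.exp 8 ^ (k * m)) * ((E' : ℝ) + 1) ^ (8 * (k * m) + 1)) *
          Real.sqrt X := by ring
    _ ≤ Real.sqrt X * Real.sqrt X := by gcongr
    _ = X := Real.mul_self_sqrt (Nat.cast_nonneg _)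

theorem T_non {k : ℕ} (a : Fin k → ℕ) (ha : Function.Injective a) (m : ℕ) (hm : 1 ≤ m) :
    ∃ C : ℝ, 0 ≤ C ∧ ∃ N0 : ℕ, ∀ N : ℕ, N0 ≤ N → ∀ b : ℕ, 1 ≤ b → ∃ X0 : ℕ, ∀ X : ℕ, X0 ≤ X →
    ∀ z : ℕ, z ^ (40 * (b + 2)) ≤ X → ∀ x : Fin m → ℕ, (∀ i j, i ≠ j → ¬ close a (x i) (x j)) →
    |TT a N z X x| ≤ (VV 0 N)⁻¹ ^ (k * m) * (C / N + C * (1 / 4) ^ b +
      C * ∑ i, ∑ j ∈ univ.erase i, ∑ s, ∑ s', gg C N z ((x i : ℤ) + a s - (x j + a s'))) := by
  obtain ⟨C1, hC1, h1⟩ := corrD (k * m)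
  obtain ⟨C2, hC2, h2⟩ := SSD_sub_one (k * m)
  set C := 2 ^ m * ((1 + C1) * (C2 + 1) + C1 + 1) with hC
  have h2m : (1 : ℝ) ≤ 2 ^ m := one_le_pow₀ (by norm_num)
  have hC0 : 0 ≤ C := by positivity
  refine ⟨C, hC0, 2 * (k * m) + 2 + ∑ s, a s, fun N hN b hb => ?_⟩
  have hN1 : 1 ≤ N := by omega
  have haN : ∀ s, a s ≤ N := by
    intro s
    have := Finset.single_le_sum (f := a) (fun i _ => Nat.zero_le _) (mem_univ s)
    omega
  obtain ⟨X0, hX0, hX⟩ := rem_bound k m N b hN1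
  refine ⟨X0, fun X hXX z hz x hx => ?_⟩
  have hX1 : 1 ≤ X := hX0.trans hXX
  have hXr : (0 : ℝ) < X := by exact_mod_cast hX1
  have hNr : (0 : ℝ) < N := by exact_mod_cast hN1
  have hrem := hX X hXX z hz
  have hcl := class_bound hm a ha x hx C1 C2 hC1 hC2 N z b hb haN (by omega) h1 h2
  set G := ∑ i, ∑ j ∈ univ.erase i, ∑ s, ∑ s', gg C2 N z ((x i : ℤ) + a s - (x j + a s')) with hG
  set G' := ∑ i, ∑ j ∈ univ.erase i, ∑ s, ∑ s', gg C N z ((x i : ℤ) + a s - (x j + a s')) with hG'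
  have hG0 : 0 ≤ G := sum_nonneg fun i _ => sum_nonneg fun j _ => sum_nonneg fun s _ =>
    sum_nonneg fun s' _ => gg_nonneg C2 hC2 N z _
  have hC2C : C2 ≤ C := by
    rw [hC]
    nlinarith [mul_nonneg hC1 hC2]
  have hGG : G ≤ G' := sum_le_sum fun i _ => sum_le_sum fun j _ => sum_le_sum fun s _ =>
    sum_le_sum fun s' _ => gg_mono hC2 hC2C N z _
  set R := (VV N z)⁻¹ ^ (k * m) *
    ((2 * ((Nat.log 2 z : ℕ) : ℝ) + 3) * 2 ^ (20 * Nat.log 2 z * (b + 2))) with hR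
  set Bd := (1 + C1) * (C2 / N + G) + C1 * (1 / 4) ^ b with hBd
  have hV := Pool.Agent.Helper40.DB.VV_pos 0 N
  set Λ := (VV 0 N)⁻¹ ^ (k * m) with hΛ
  have hΛ0 : 0 ≤ Λ := by positivity
  have hW : 0 < N.factorial := Nat.factorial_pos N
  have hsum : |∑ y ∈ Icc 1 X, ∏ i, phi a N z (y + x i)| ≤ Λ * (2 ^ m * (X * Bd + X / N)) := by
    rw [sum_classes _ N.factorial X hW]
    refine (abs_sum_le_sum_abs _ _).trans ?_
    have e1 : ∀ c ∈ Icc 1 N.factorial,
        |∑ q ∈ range ((X + N.factorial - c) / N.factorial),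
          ∏ i, phi a N z (N.factorial * q + c + x i)| ≤
        Λ * (2 ^ m * ((((X + N.factorial - c) / N.factorial : ℕ) : ℝ) * Bd + R)) := by
      intro c _
      have e2 : ∑ q ∈ range ((X + N.factorial - c) / N.factorial),
          ∏ i, phi a N z (N.factorial * q + c + x i) =
          (∏ i, nuA a 0 N (c + x i)) * ∑ q ∈ range ((X + N.factorial - c) / N.factorial),
            ∏ i, (nuA a N z (N.factorial * q + c + x i) - 1) := by
        rw [mul_sum]
        refine sum_congr rfl fun q _ => ?_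
        rw [← prod_mul_distrib]
        refine prod_congr rfl fun i _ => ?_
        unfold phi
        rw [add_assoc, nuA_periodic]
      rw [e2, abs_mul]
      have e3 : |∏ i, nuA a 0 N (c + x i)| ≤ Λ := by
        rw [abs_of_nonneg (prod_nonneg fun i _ => nuA_nonneg a 0 N _)]
        refine (Finset.prod_le_prod (fun i _ => nuA_nonneg a 0 N _)
          fun i _ => nuA_le a 0 N _).trans (le_of_eq ?_)
        rw [prod_const, card_univ, Fintype.card_fin, ← pow_mul]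
      exact mul_le_mul e3 (hcl c _) (abs_nonneg _) hΛ0
    refine (sum_le_sum e1).trans ?_
    rw [← mul_sum, ← mul_sum, sum_add_distrib, ← sum_mul, sum_card_classes _ _ hW, sum_const,
      Nat.card_Icc, nsmul_eq_mul]
    have e4 : ((N.factorial + 1 - 1 : ℕ) : ℝ) * R ≤ X / N := by
      rw [Nat.add_sub_cancel]
      exact hrem
    gcongr
  unfold TT
  rw [abs_div, abs_of_nonneg hXr.le, div_le_iff₀ hXr]
  refine hsum.trans ?_
  have e5 : Λ * (2 ^ m * (X * Bd + X / N)) = Λ * (2 ^ m * (Bd + 1 / N)) * X := by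
    field_simp
  rw [e5]
  refine mul_le_mul_of_nonneg_right (mul_le_mul_of_nonneg_left ?_ hΛ0) hXr.le
  have e6 : 2 ^ m * (Bd + 1 / N) = (2 ^ m * ((1 + C1) * C2 + 1)) / N +
      (2 ^ m * C1) * (1 / 4) ^ b + (2 ^ m * (1 + C1)) * G := by
    rw [hBd]
    field_simp
    ring
  rw [e6]
  have e7 : 2 ^ m * ((1 + C1) * C2 + 1) ≤ C := by
    rw [hC]
    refine mul_le_mul_of_nonneg_left ?_ (by positivity)
    nlinarith
  have e8 : 2 ^ m * C1 ≤ C := by
    rw [hC]
    refine mul_le_mul_of_nonneg_left ?_ (by positivity)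
    nlinarith [mul_nonneg hC1 hC2]
  have e9 : 2 ^ m * (1 + C1) ≤ C := by
    rw [hC]
    refine mul_le_mul_of_nonneg_left ?_ (by positivity)
    nlinarith [mul_nonneg hC1 hC2]
  have e10 : (2 ^ m * ((1 + C1) * C2 + 1)) / (N : ℝ) ≤ C / N := by gcongr
  have e11 : (2 ^ m * C1) * (1 / 4 : ℝ) ^ b ≤ C * (1 / 4) ^ b := by gcongr
  have e12 : (2 ^ m * (1 + C1)) * G ≤ C * G' := mul_le_mul e9 hGG hG0 hC0
  linarith

end Pool.Agent.Helper39.SP
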