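import Pool.Agent.Helper39.SP.Open
import Pool.Agent.Helper39.SP.Path
import Pool.Agent.Helper39.SP.TNon
import Pool.Agent.Helper39.SP.GStar

/-!
# SP-17: the spread walks

PROOF. Write `K = ker S`, `n = n' + (r - 1)` with `n' = n + 1 - r ≥ r ≥ 1`; `H ≥ 1` since `S` is not empty; `path_le'`: `path K (range H) (r - 1) s t ≤ A / H`.
(1) `∑_(x ∈ walks n H) cyc K x ≤ A`: `close_block` with `G = 1`, `open_mass` (`sum_ker_le`).
(2) Let `ψ_(s,s') u z = gg C N z₀ (u + a s - (z + a s'))` if `u + a s ≠ z + a s'`, and `0` otherwise (`z₀` = the sieve limit). For `u, v < H`: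
`∑_(z < H) K v z ψ_(s,s') u z ≤ C1 N^(-1/(2r)) =: g` by `g_star` with `t = z - v`, the centre `a* = u + a s - a s' - v`, `|a*| ≤ H + max a ≤ (1 + max a) H`
(`gg` is even in its argument: `DD` of `t` and of `-t` agree).
(3) For `i ≠ j` in `Fin (n + 1)`, `s, s'`: `∑_(x ∈ walks n H) cyc K x ψ_(s,s') (x i) (x j) ≤ A g`. Rotation (`rot_sum`, `cyc_rot`): one may take `i = 0`, `j = l ≠ 0`. If
`l ≤ n'` use `close_block` with `G x = ψ (x 0) (x l)` and `open_pair`. If `l > n'` rotate again by `l`: the pair becomes `(x (n + 1 - l), x 0)` with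
`n + 1 - l ≤ r - 1 < n'`, and the kernel `ψ_(s,s') (x j) (x 0) = ψ_(s',s) (x 0) (x j)` (evenness).
(4) On the spread walks `T_non` (with `m = n + 1`) bounds `|TT|` by `(VV 0 N)⁻¹ ^ (k (n + 1)) (C / N + C (1/4)^b + C ∑ ψ (x i) (x j))` (for spread walks the
arguments of `gg` are not `0`). Sum with the weights `cyc K x ≥ 0` over all walks: `≤ (VV 0 N)⁻¹ ^ (k (n + 1)) (A C / N + A C (1/4)^b + C (n+1)^2 k^2 A g)`, and
`1/N ≤ N^(-1/(2r))`. (`VV 0 N > 0`.)
-/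

set_option autoImplicit false

namespace Pool.Agent.Helper39.SP

open Finset
open Pool.Agent.Helper40.DB (PP VV DD)

private theorem gg_nonneg' (C : ℝ) (hC : 0 ≤ C) (N z : ℕ) (t : ℤ) : 0 ≤ gg C N z t := by
  unfold gg
  have h : (1 : ℝ) ≤ ∏ p ∈ DD N z t, (1 + C / (p : ℝ)) := by
    calc (1 : ℝ) = ∏ p ∈ DD N z t, (1 : ℝ) := by simp
      _ ≤ _ := Finset.prod_le_prod (fun _ _ => zero_le_one) (fun p _ => by
        have : 0 ≤ C / (p : ℝ) := div_nonneg hC (Nat.cast_nonneg _)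
        linarith)
  linarith

private theorem gg_neg' (C : ℝ) (N z : ℕ) (t : ℤ) : gg C N z (-t) = gg C N z t := by
  unfold gg DD
  simp only [dvd_neg]

/-- The local factor of a pair of points, `0` if they agree. -/
private noncomputable def psi {k : ℕ} (a : Fin k → ℕ) (C : ℝ) (N z0 : ℕ) (s s' : Fin k)
    (u z : ℕ) : ℝ :=
  if (u : ℤ) + a s = z + a s' then 0 else gg C N z0 ((u : ℤ) + a s - (z + a s'))

private theorem psi_nonneg {k : ℕ} (a : Fin k → ℕ) (C : ℝ) (hC : 0 ≤ C) (N z0 : ℕ)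
    (s s' : Fin k) (u z : ℕ) : 0 ≤ psi a C N z0 s s' u z := by
  unfold psi
  split_ifs
  · exact le_refl _
  · exact gg_nonneg' C hC N z0 _

private theorem psi_symm {k : ℕ} (a : Fin k → ℕ) (C : ℝ) (N z0 : ℕ) (s s' : Fin k) (u z : ℕ) :
    psi a C N z0 s s' u z = psi a C N z0 s' s z u := by
  unfold psi
  by_cases h : (u : ℤ) + a s = z + a s'
  · rw [if_pos h, if_pos h.symm]
  · rw [if_neg h, if_neg fun h' => h h'.symm, ← gg_neg']
    congr 1
    ring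

private theorem psi_sum {k : ℕ} (a : Fin k → ℕ) (C : ℝ) (N z0 : ℕ) (g : ℝ) (S : Finset ℕ) (H : ℕ)
    (hg : ∀ a' : ℤ, |a'| ≤ ((1 + ∑ i, a i : ℕ) : ℤ) * H → ∀ T : Finset ℤ,
      (∀ t ∈ T, t ≠ a' ∧ |t| ≤ H) → ∑ t ∈ T, kap S (fun _ => 1) t * gg C N z0 (t - a') ≤ g)
    (s s' : Fin k) (v u : ℕ) (hv : v < H) (hu : u < H) :
    ∑ z ∈ range H, ker S v z * psi a C N z0 s s' u z ≤ g := by
  classical
  set a' : ℤ := (u : ℤ) + a s - a s' - v with ha'
  set T : Finset ℤ := ((range H).filter fun z : ℕ => ¬ ((u : ℤ) + a s = z + a s')).image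
    fun z : ℕ => (z : ℤ) - v with hT
  have e1 : ∑ z ∈ range H, ker S v z * psi a C N z0 s s' u z =
      ∑ t ∈ T, kap S (fun _ => 1) t * gg C N z0 (t - a') := by
    rw [hT, sum_image (fun x _ y _ h => by
      have h1 : (x : ℤ) = y := by
        have h2 : (x : ℤ) - v = y - v := h
        linarith
      exact_mod_cast h1), sum_filter]
    refine sum_congr rfl fun z _ => ?_
    by_cases h : (u : ℤ) + a s = z + a s'
    · rw [if_neg (not_not.2 h)]
      unfold psi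
      rw [if_pos h, mul_zero]
    · rw [if_pos h]
      unfold psi ker
      rw [if_neg h, ← gg_neg']
      congr 2
      rw [ha']
      ring
  rw [e1]
  have hs1 : a s ≤ ∑ i, a i := single_le_sum (f := a) (fun _ _ => Nat.zero_le _) (mem_univ s)
  have hs2 : a s' ≤ ∑ i, a i := single_le_sum (f := a) (fun _ _ => Nat.zero_le _) (mem_univ s')
  have hH : 1 ≤ H := by omega
  have h3 : (∑ i, a i) ≤ (∑ i, a i) * H := Nat.le_mul_of_pos_right _ hH
  refine hg a' ?_ T ?_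
  · have h4 : ((1 + ∑ i, a i : ℕ) : ℤ) * H = H + ((∑ i, a i) * H : ℕ) := by
      push_cast
      ring
    rw [h4, ha']
    have h5 : (a s : ℤ) ≤ ((∑ i, a i) * H : ℕ) := by exact_mod_cast hs1.trans h3
    have h6 : (a s' : ℤ) ≤ ((∑ i, a i) * H : ℕ) := by exact_mod_cast hs2.trans h3
    rw [abs_le]
    constructor <;> omega
  · intro t ht
    rw [hT, mem_image] at ht
    obtain ⟨z, hz, rfl⟩ := ht
    obtain ⟨hz1, hz2⟩ := mem_filter.1 hz
    have hz3 := mem_range.1 hz1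
    refine ⟨fun h => hz2 ?_, ?_⟩
    · rw [ha'] at h
      linarith
    · rw [abs_le]
      constructor <;> omega

private theorem pair0 {K : ℕ → ℕ → ℝ} {H : ℕ} (hK0 : ∀ s t, 0 ≤ K s t)
    (hK : ∀ s, ∑ z ∈ range H, K s z ≤ 1) {n' m : ℕ} {P : ℝ} (hP0 : 0 ≤ P)
    (hP : ∀ s t, path K (range H) m s t ≤ P) (ψ : ℕ → ℕ → ℝ) (hψ0 : ∀ s t, 0 ≤ ψ s t) (g : ℝ)
    (hψ : ∀ s u, s < H → u < H → ∑ z ∈ range H, K s z * ψ u z ≤ g) (l : Fin (n' + m + 1))
    (hl : l ≠ 0) (hl' : l.val ≤ n') :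
    ∑ x ∈ walks (n' + m) H, cyc K x * ψ (x 0) (x l) ≤ P * (H * g) := by
  have h := close_block K hK0 n' m H P hP
    (fun y => ψ (y 0) (y ⟨l.val, by omega⟩)) (fun _ => hψ0 _ _)
  have hl2 : (⟨l.val, by omega⟩ : Fin (n' + 1)) ≠ 0 := by
    intro h0
    apply hl
    apply Fin.ext
    have := congrArg Fin.val h0
    simpa using this
  refine le_trans (le_of_eq ?_) (h.trans (mul_le_mul_of_nonneg_left
    (open_pair K H hK0 hK ψ hψ0 g hψ n' ⟨l.val, by omega⟩ hl2) hP0))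
  refine sum_congr rfl fun x _ => ?_
  rfl

private theorem pair_gen {K : ℕ → ℕ → ℝ} {H : ℕ} (hK0 : ∀ s t, 0 ≤ K s t)
    (hK : ∀ s, ∑ z ∈ range H, K s z ≤ 1) {n' m : ℕ} {P : ℝ} (hP0 : 0 ≤ P)
    (hP : ∀ s t, path K (range H) m s t ≤ P) (hnm : m ≤ n') (ψ ψ' : ℕ → ℕ → ℝ)
    (hs : ∀ u z, ψ u z = ψ' z u) (hψ0 : ∀ s t, 0 ≤ ψ s t) (g : ℝ)
    (hψ : ∀ s u, s < H → u < H → ∑ z ∈ range H, K s z * ψ u z ≤ g)
    (hψ' : ∀ s u, s < H → u < H → ∑ z ∈ range H, K s z * ψ' u z ≤ g)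
    (i j : Fin (n' + m + 1)) (hij : i ≠ j) :
    ∑ x ∈ walks (n' + m) H, cyc K x * ψ (x i) (x j) ≤ P * (H * g) := by
  have e1 : ∑ x ∈ walks (n' + m) H, cyc K x * ψ (x i) (x j) =
      ∑ x ∈ walks (n' + m) H, cyc K x * ψ (x 0) (x (j - i)) := by
    rw [← rot_sum (n' + m) H i (fun x => cyc K x * ψ (x 0) (x (j - i)))]
    refine sum_congr rfl fun x _ => ?_
    rw [cyc_rot]
    simp only [zero_add, sub_add_cancel]
  rw [e1]
  have hl : j - i ≠ 0 := sub_ne_zero.2 hij.symm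
  generalize j - i = l at hl
  by_cases h : l.val ≤ n'
  · exact pair0 hK0 hK hP0 hP ψ hψ0 g hψ l hl h
  · have e2 : ∑ x ∈ walks (n' + m) H, cyc K x * ψ (x 0) (x l) =
        ∑ x ∈ walks (n' + m) H, cyc K x * ψ' (x 0) (x (-l)) := by
      rw [← rot_sum (n' + m) H l (fun x => cyc K x * ψ' (x 0) (x (-l)))]
      refine sum_congr rfl fun x _ => ?_
      rw [cyc_rot]
      simp only [zero_add, neg_add_cancel]
      rw [hs]
    rw [e2]
    refine pair0 hK0 hK hP0 hP ψ' (fun s t => by rw [← hs]; exact hψ0 _ _) g hψ' (-l)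
      (neg_ne_zero.2 hl) ?_
    rw [Fin.val_neg']
    refine (Nat.mod_le _ _).trans ?_
    omega

theorem caseA {k : ℕ} (a : Fin k → ℕ) (ha : Function.Injective a) (r : ℕ) (hr : 1 ≤ r) (A : ℝ)
    (hA : 0 ≤ A) (n : ℕ) (hn : 2 * r ≤ n + 1) :
    ∃ C : ℝ, 0 ≤ C ∧ ∃ N0 : ℕ, ∀ N : ℕ, N0 ≤ N → ∀ b : ℕ, 1 ≤ b → ∃ X0 : ℕ, ∀ X : ℕ, X0 ≤ X →
    ∀ z : ℕ, z ^ (40 * (b + 2)) ≤ X → ∀ (S : Finset ℕ) (H : ℕ), S ⊆ Icc 1 H → S.Nonempty →
    (energy r S : ℝ) * H ≤ A * (S.card : ℝ) ^ (2 * r) →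
    ∑ x ∈ walks n H, cyc (ker S) x * |TT a N z X x| * ind (spread a x) ≤
      (VV 0 N)⁻¹ ^ (k * (n + 1)) * (C * ((1 / 4) ^ b + (N : ℝ) ^ (-(1 / (2 * r : ℝ))))) := by
  obtain ⟨C, hC, N0, hT⟩ := T_non a ha (n + 1) (by omega)
  obtain ⟨C1, hC1, hG⟩ := g_star r hr A C hA hC (1 + ∑ i, a i)
  obtain ⟨n', rfl⟩ : ∃ n', n = n' + (r - 1) := ⟨n + 1 - r, by omega⟩
  set M : ℝ := C * (((n' + (r - 1) + 1 : ℕ) : ℝ) ^ 2 * (k : ℝ) ^ 2) * (A * C1) with hM
  have hM0 : 0 ≤ M := by positivity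
  refine ⟨A * C + M, by positivity, max N0 1, ?_⟩
  intro N hN b hb
  have hN0 : N0 ≤ N := (le_max_left _ _).trans hN
  have hN1 : 1 ≤ N := (le_max_right _ _).trans hN
  obtain ⟨X0, hX⟩ := hT N hN0 b hb
  refine ⟨X0, ?_⟩
  intro X hXX z hz S H hS hne hE
  have hH : 1 ≤ H := by
    obtain ⟨h, hh⟩ := hne
    have := mem_Icc.1 (hS hh)
    omega
  have hHpos : (0 : ℝ) < H := by exact_mod_cast hH
  set σ : ℝ := 1 / (2 * r : ℝ) with hσ
  set g : ℝ := C1 * (N : ℝ) ^ (-σ) with hg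
  have hNs0 : 0 ≤ (N : ℝ) ^ (-σ) := Real.rpow_nonneg (Nat.cast_nonneg _) _
  have hg0 : 0 ≤ g := mul_nonneg hC1 hNs0
  have hK0 : ∀ s t, 0 ≤ ker S s t := ker_nonneg S
  have hK : ∀ s, ∑ t ∈ range H, ker S s t ≤ 1 := sum_ker_le S (range H)
  have hP : ∀ s t, path (ker S) (range H) (r - 1) s t ≤ A / H :=
    path_le' r hr A S (range H) hne H hH hE
  have hP0 : 0 ≤ A / H := by positivity
  have hψ : ∀ (s s' : Fin k) (v u : ℕ), v < H → u < H →
      ∑ y ∈ range H, ker S v y * psi a C N z s s' u y ≤ g := by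
    intro s s' v u hv hu
    exact psi_sum a C N z g S H (hG S H hS hE N z hN1) s s' v u hv hu
  have hAH : A / H * (H * g) = A * g := by
    field_simp
  have hpair : ∀ (i j : Fin (n' + (r - 1) + 1)), i ≠ j → ∀ s s' : Fin k,
      ∑ x ∈ walks (n' + (r - 1)) H, cyc (ker S) x * psi a C N z s s' (x i) (x j) ≤ A * g := by
    intro i j hij s s'
    rw [← hAH]
    exact pair_gen hK0 hK hP0 hP (by omega) (psi a C N z s s') (psi a C N z s' s)
      (fun u y => psi_symm a C N z s s' u y) (psi_nonneg a C hC N z s s') g (hψ s s') (hψ s' s)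
      i j hij
  have hmass : ∑ x ∈ walks (n' + (r - 1)) H, cyc (ker S) x ≤ A := by
    have h1 := close_block (ker S) hK0 n' (r - 1) H (A / H) hP (fun _ => 1) (fun _ => zero_le_one)
    simp only [mul_one] at h1
    have h2 := open_mass (ker S) H hK0 hK n'
    calc _ ≤ A / H * ∑ x ∈ walks n' H, opn (ker S) x := h1
      _ ≤ A / H * H := mul_le_mul_of_nonneg_left h2 hP0
      _ = A := by field_simp
  set V : ℝ := (VV 0 N)⁻¹ ^ (k * (n' + (r - 1) + 1)) with hV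
  have hV0 : 0 ≤ V := pow_nonneg (inv_nonneg.2 (Pool.Agent.Helper40.DB.VV_pos 0 N).le) _
  have hcyc : ∀ x : Fin (n' + (r - 1) + 1) → ℕ, 0 ≤ cyc (ker S) x := fun x => cyc_nonneg _ hK0 x
  -- the bound for one walk
  have hone : ∀ x ∈ walks (n' + (r - 1)) H,
      cyc (ker S) x * |TT a N z X x| * ind (spread a x) ≤
        V * ((C / N + C * (1 / 4) ^ b) * cyc (ker S) x +
          C * ∑ i, ∑ j ∈ univ.erase i, ∑ s, ∑ s', cyc (ker S) x * psi a C N z s s' (x i) (x j)) := by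
    intro x _
    have hR : cyc (ker S) x * (V * (C / N + C * (1 / 4) ^ b +
          C * ∑ i, ∑ j ∈ univ.erase i, ∑ s, ∑ s', psi a C N z s s' (x i) (x j))) =
        V * ((C / N + C * (1 / 4) ^ b) * cyc (ker S) x +
          C * ∑ i, ∑ j ∈ univ.erase i, ∑ s, ∑ s', cyc (ker S) x * psi a C N z s s' (x i) (x j)) := by
      simp only [← mul_sum]
      ring
    rw [← hR]
    have hpos : 0 ≤ ∑ i, ∑ j ∈ univ.erase i, ∑ s, ∑ s', psi a C N z s s' (x i) (x j) :=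
      sum_nonneg fun i _ => sum_nonneg fun j _ => sum_nonneg fun s _ => sum_nonneg fun s' _ =>
        psi_nonneg a C hC N z s s' _ _
    by_cases hsp : spread a x
    · rw [ind_of hsp, mul_one]
      refine mul_le_mul_of_nonneg_left ?_ (hcyc x)
      have h1 := hX X hXX z hz x hsp
      have h2 : ∑ i, ∑ j ∈ univ.erase i, ∑ s, ∑ s', gg C N z ((x i : ℤ) + a s - (x j + a s')) =
          ∑ i, ∑ j ∈ univ.erase i, ∑ s, ∑ s', psi a C N z s s' (x i) (x j) := by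
        refine sum_congr rfl fun i _ => sum_congr rfl fun j hj => sum_congr rfl fun s _ =>
          sum_congr rfl fun s' _ => ?_
        unfold psi
        rw [if_neg]
        intro h3
        refine hsp i j (ne_of_mem_erase hj).symm ⟨s, s', ?_⟩
        exact_mod_cast h3
      rw [h2] at h1
      exact h1
    · rw [ind_of_not hsp, mul_zero]
      refine mul_nonneg (hcyc x) (mul_nonneg hV0 ?_)
      positivity
  refine (sum_le_sum hone).trans ?_
  rw [← mul_sum]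
  refine mul_le_mul_of_nonneg_left ?_ hV0
  rw [sum_add_distrib, ← mul_sum, ← mul_sum]
  -- the pairs
  have hpairs : ∑ x ∈ walks (n' + (r - 1)) H, ∑ i, ∑ j ∈ univ.erase i, ∑ s, ∑ s',
      cyc (ker S) x * psi a C N z s s' (x i) (x j) ≤
      ((n' + (r - 1) + 1 : ℕ) : ℝ) ^ 2 * (k : ℝ) ^ 2 * (A * g) := by
    rw [sum_comm]
    have hAg : 0 ≤ A * g := mul_nonneg hA hg0
    have h1 : ∀ i : Fin (n' + (r - 1) + 1), ∑ x ∈ walks (n' + (r - 1)) H, ∑ j ∈ univ.erase i,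
        ∑ s, ∑ s', cyc (ker S) x * psi a C N z s s' (x i) (x j) ≤
        ((n' + (r - 1) + 1 : ℕ) : ℝ) * ((k : ℝ) ^ 2 * (A * g)) := by
      intro i
      rw [sum_comm]
      have h2 : ∀ j ∈ univ.erase i, ∑ x ∈ walks (n' + (r - 1)) H,
          ∑ s, ∑ s', cyc (ker S) x * psi a C N z s s' (x i) (x j) ≤ (k : ℝ) ^ 2 * (A * g) := by
        intro j hj
        rw [sum_comm]
        have h3 : ∀ s : Fin k, ∑ x ∈ walks (n' + (r - 1)) H,
            ∑ s', cyc (ker S) x * psi a C N z s s' (x i) (x j) ≤ (k : ℝ) * (A * g) := by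
          intro s
          rw [sum_comm]
          calc _ ≤ ∑ _s' : Fin k, A * g :=
                sum_le_sum fun s' _ => hpair i j (ne_of_mem_erase hj).symm s s'
            _ = _ := by simp
        calc _ ≤ ∑ _s : Fin k, (k : ℝ) * (A * g) := sum_le_sum fun s _ => h3 s
          _ = _ := by
            simp
            ring
      calc _ ≤ ∑ _j ∈ univ.erase i, (k : ℝ) ^ 2 * (A * g) := sum_le_sum h2
        _ ≤ ∑ _j : Fin (n' + (r - 1) + 1), (k : ℝ) ^ 2 * (A * g) :=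
          sum_le_sum_of_subset_of_nonneg (erase_subset _ _) fun _ _ _ => by positivity
        _ = _ := by simp
    calc _ ≤ ∑ _i : Fin (n' + (r - 1) + 1),
          ((n' + (r - 1) + 1 : ℕ) : ℝ) * ((k : ℝ) ^ 2 * (A * g)) := sum_le_sum fun i _ => h1 i
      _ = _ := by
        simp
        ring
  have hNpos : (0 : ℝ) < N := by exact_mod_cast hN1
  have hNge : (1 : ℝ) ≤ N := by exact_mod_cast hN1
  have hr1 : (1 : ℝ) ≤ r := by exact_mod_cast hr
  have hinv : 1 / (N : ℝ) ≤ (N : ℝ) ^ (-σ) := by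
    rw [one_div, ← Real.rpow_neg_one]
    refine Real.rpow_le_rpow_of_exponent_le hNge ?_
    rw [hσ]
    have : 1 / (2 * r : ℝ) ≤ 1 := by
      rw [div_le_one (by positivity)]
      linarith
    linarith
  have hq : (0 : ℝ) ≤ (1 / 4) ^ b := by positivity
  have e1 : (C / N + C * (1 / 4) ^ b) * ∑ x ∈ walks (n' + (r - 1)) H, cyc (ker S) x ≤
      A * C * ((N : ℝ) ^ (-σ) + (1 / 4) ^ b) := by
    have h1 : C / N ≤ C * (N : ℝ) ^ (-σ) := by
      rw [div_eq_mul_one_div]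
      exact mul_le_mul_of_nonneg_left hinv hC
    have h2 : C / N + C * (1 / 4) ^ b ≤ C * ((N : ℝ) ^ (-σ) + (1 / 4) ^ b) := by
      rw [mul_add]
      linarith
    have h3 : 0 ≤ C / N + C * (1 / 4) ^ b := by positivity
    calc _ ≤ (C / N + C * (1 / 4) ^ b) * A := mul_le_mul_of_nonneg_left hmass h3
      _ ≤ C * ((N : ℝ) ^ (-σ) + (1 / 4) ^ b) * A := mul_le_mul_of_nonneg_right h2 hA
      _ = _ := by ring
  have e2 : C * ∑ x ∈ walks (n' + (r - 1)) H, ∑ i, ∑ j ∈ univ.erase i, ∑ s, ∑ s',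
      cyc (ker S) x * psi a C N z s s' (x i) (x j) ≤ M * (N : ℝ) ^ (-σ) := by
    refine (mul_le_mul_of_nonneg_left hpairs hC).trans (le_of_eq ?_)
    rw [hM, hg]
    ring
  have e3 : 0 ≤ M * (1 / 4) ^ b := mul_nonneg hM0 hq
  nlinarith [e1, e2, e3]

end Pool.Agent.Helper39.SP
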