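import Pool.Agent.Helper39.SP.Defs2

/-!
# SP-16: counting the returns

Call `i` a return if `x i` is close to `x j` for some `j < i` (`ret a x` is their number), `k ≥ 1`, so `close a s s`.
`nonret_spread`: if `i < j` are not returns then `x i`, `x j` are not close.
`ret_pos`: if the walk is not spread, some pair `i ≠ j` is close; the later one is a return.
`ret_large` PROOF. Call `i` isolated if `x i` is close to no other point. (1) The number of non-isolated indices is at most `(1 + k^2) ret`: the returns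
are at most `ret`; a non-isolated `i` which is not a return is close to some `j ≠ i`, `j < i` is impossible, so `j > i`, and `j` is a return; for a given `j`
there are at most `k^2` such `i`, because the `x i` are pairwise different (two non-returns with `x i = x i'` would be close, as `k ≥ 1`) and
`x i` is determined by `x j` and the two indices in `close`. (2) If there is no run, then for every `l` some index `i + l` with `n + 1 - r < i ≤ n` is not isolated
(note that `x (j + l)` runs over all the other points, `j ≠ i`). For `l = r s`, `0 ≤ s < (n + 1) / r` (as natural numbers; `Fin.ofNat`), the sets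
`{i + l | n + 1 - r < i ≤ n}` = `{l - r + 1, ..., l - 1}` modulo `n + 1` are pairwise disjoint. So at least `(n + 1) / r ≥ (1 + k^2) (c + 1)` indices are not
isolated, and `ret ≥ c + 1 ≥ c`. (For `r = 1` there is always a run.)
`castLE_ret` PROOF (`ret` of the first `n' + 1` points, where the other points are isolated): the set `I` = (the non-returns among the first `n' + 1` indices) ∪
(all later indices) has no two close points and `(n + 1) - |I| = ret (first part)`.
-/

set_option autoImplicit false

namespace Pool.Agent.Helper39.SP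

open Finset

theorem nonret_spread {k : ℕ} (a : Fin k → ℕ) {m : ℕ} (x : Fin m → ℕ) (i j : Fin m) (hij : i < j)
    (hj : ¬ ∃ l, l < j ∧ close a (x l) (x j)) : ¬ close a (x i) (x j) := fun h => hj ⟨i, hij, h⟩

private theorem rc_pair {k : ℕ} (a : Fin k → ℕ) {m : ℕ} (x : Fin m → ℕ) {i j : Fin m} (hne : i ≠ j)
    (hi : ¬ ∃ l, l < i ∧ close a (x l) (x i)) (hj : ¬ ∃ l, l < j ∧ close a (x l) (x j)) :
    ¬ close a (x i) (x j) := by
  intro h
  rcases lt_or_gt_of_ne hne with h1 | h1
  · exact hj ⟨i, h1, h⟩
  · exact hi ⟨j, h1, close_symm h⟩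

theorem exists_nonret {k : ℕ} (a : Fin k → ℕ) {m : ℕ} (x : Fin m → ℕ) :
    ∃ I : Finset (Fin m), (∀ i ∈ I, ∀ j ∈ I, i ≠ j → ¬ close a (x i) (x j)) ∧
      m - I.card = ret a x := by
  classical
  refine ⟨univ.filter fun i => ¬ ∃ j, j < i ∧ close a (x j) (x i), ?_, ?_⟩
  · intro i hi j hj hne
    exact rc_pair a x hne (mem_filter.1 hi).2 (mem_filter.1 hj).2
  · have h := Finset.card_filter_add_card_filter_not (s := (univ : Finset (Fin m)))
      (fun i => ∃ j, j < i ∧ close a (x j) (x i))
    rw [card_univ, Fintype.card_fin] at h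
    have h2 : ret a x = (univ.filter fun i => ∃ j, j < i ∧ close a (x j) (x i)).card := by
      unfold ret
      congr!
    rw [h2]
    omega

theorem ret_large {k : ℕ} (hk : 1 ≤ k) (a : Fin k → ℕ) (r : ℕ) (hr : 1 ≤ r) (c n : ℕ)
    (hn : r * ((1 + k ^ 2) * (c + 1)) ≤ n + 1) (x : Fin (n + 1) → ℕ) (hx : ¬ run a r x) :
    c ≤ ret a x := by
  classical
  have hself : ∀ s, close a s s := fun s => ⟨⟨0, hk⟩, ⟨0, hk⟩, rfl⟩
  set R : Finset (Fin (n + 1)) := univ.filter fun i => ∃ j, j < i ∧ close a (x j) (x i) with hR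
  have hret : ret a x = R.card := by
    unfold ret
    congr!
  set B : Finset (Fin (n + 1)) := univ.filter fun i => ∃ j, j ≠ i ∧ close a (x i) (x j) with hB
  set S : Fin (n + 1) → Finset (Fin (n + 1)) := fun j =>
    univ.filter fun i => i ∉ R ∧ close a (x i) (x j) with hS
  have hScard : ∀ j, (S j).card ≤ k ^ 2 := by
    intro j
    have h1 : Set.InjOn x (S j : Set (Fin (n + 1))) := by
      intro i hi i' hi' hxx
      by_contra hne
      have h2 := (mem_filter.1 (mem_coe.1 hi)).2.1
      have h3 := (mem_filter.1 (mem_coe.1 hi')).2.1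
      have h4 : ¬ ∃ l, l < i ∧ close a (x l) (x i) := fun h => h2 (mem_filter.2 ⟨mem_univ _, h⟩)
      have h5 : ¬ ∃ l, l < i' ∧ close a (x l) (x i') := fun h => h3 (mem_filter.2 ⟨mem_univ _, h⟩)
      refine rc_pair a x hne h4 h5 ?_
      rw [hxx]
      exact hself _
    rw [← card_image_of_injOn h1]
    have h6 : (S j).image x ⊆ (univ : Finset (Fin k × Fin k)).image
        (fun u => x j + a u.2 - a u.1) := by
      intro v hv
      obtain ⟨i, hi, rfl⟩ := mem_image.1 hv
      obtain ⟨p, q, hpq⟩ := (mem_filter.1 hi).2.2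
      refine mem_image.2 ⟨(p, q), mem_univ _, ?_⟩
      simp only
      omega
    refine (card_le_card h6).trans (card_image_le.trans ?_)
    rw [card_univ, Fintype.card_prod, Fintype.card_fin, sq]
  have hBsub : B ⊆ R ∪ R.biUnion S := by
    intro i hi
    by_cases hiR : i ∈ R
    · exact mem_union_left _ hiR
    obtain ⟨j, hji, hc⟩ := (mem_filter.1 hi).2
    have hnot : ¬ j < i := fun h => hiR (mem_filter.2 ⟨mem_univ _, j, h, close_symm hc⟩)
    have hlt : i < j := lt_of_le_of_ne (not_lt.1 hnot) (Ne.symm hji)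
    refine mem_union_right _ (mem_biUnion.2 ⟨j, mem_filter.2 ⟨mem_univ _, i, hlt, hc⟩, ?_⟩)
    exact mem_filter.2 ⟨mem_univ _, hiR, hc⟩
  have hBcard : B.card ≤ (1 + k ^ 2) * R.card := by
    calc B.card ≤ (R ∪ R.biUnion S).card := card_le_card hBsub
      _ ≤ R.card + (R.biUnion S).card := card_union_le _ _
      _ ≤ R.card + R.card * k ^ 2 :=
        Nat.add_le_add_left (card_biUnion_le_card_mul _ _ _ fun j _ => hScard j) _
      _ = (1 + k ^ 2) * R.card := by ring
  -- the disjoint blocks
  set M : ℕ := (n + 1) / r with hM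
  have hMr : r * M ≤ n + 1 := Nat.mul_div_le (n + 1) r
  have hMc : (1 + k ^ 2) * (c + 1) ≤ M := by
    rw [hM, Nat.le_div_iff_mul_le (by omega), mul_comm]
    exact hn
  have hblock : ∀ s : Fin M, ∃ v : Fin (n + 1), v ∈ B ∧
      ((s.val = 0 ∧ n + 1 < v.val + r) ∨ (1 ≤ s.val ∧ r * s.val < v.val + r ∧ v.val < r * s.val)) := by
    intro s
    have hs1 : s.val + 1 ≤ M := s.isLt
    have hs2 : r * (s.val + 1) ≤ n + 1 := (Nat.mul_le_mul_left r hs1).trans hMr
    have hs3 : r * s.val + r ≤ n + 1 := by
      rw [← Nat.mul_succ]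
      exact hs2
    have hl : r * s.val < n + 1 := by omega
    have hno : ∃ i : Fin (n + 1), n + 1 - r < i.val ∧ ∃ j, j ≠ i ∧
        close a (x (i + ⟨r * s.val, hl⟩)) (x (j + ⟨r * s.val, hl⟩)) := by
      by_contra hcon
      refine hx ⟨⟨r * s.val, hl⟩, fun i hi j hj hcl => hcon ⟨i, hi, j, hj, hcl⟩⟩
    obtain ⟨i, hi, j, hji, hcl⟩ := hno
    refine ⟨i + ⟨r * s.val, hl⟩, mem_filter.2 ⟨mem_univ _, j + ⟨r * s.val, hl⟩, ?_, hcl⟩, ?_⟩
    · intro h
      exact hji (add_right_cancel h)
    · have hi2 := i.isLt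
      rw [Fin.val_add]
      simp only
      rcases Nat.eq_zero_or_pos s.val with h0 | h0
      · left
        refine ⟨h0, ?_⟩
        rw [h0, mul_zero, add_zero, Nat.mod_eq_of_lt hi2]
        omega
      · right
        have h1 : r ≤ r * s.val := Nat.le_mul_of_pos_right r h0
        have h2 : (i.val + r * s.val) % (n + 1) = i.val + r * s.val - (n + 1) := by
          rw [Nat.mod_eq_sub_mod (by omega), Nat.mod_eq_of_lt (by omega)]
        rw [h2]
        omega
  choose v hvB hv using hblock
  have hvinj : Function.Injective v := by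
    intro s s' hss
    have h1 := hv s
    have h2 := hv s'
    rw [← hss] at h2
    have hs1 : s.val + 1 ≤ M := s.isLt
    have hs1' : s'.val + 1 ≤ M := s'.isLt
    have hs2 : r * s.val + r ≤ r * M := by
      rw [← Nat.mul_succ]
      exact Nat.mul_le_mul_left r hs1
    have hs2' : r * s'.val + r ≤ r * M := by
      rw [← Nat.mul_succ]
      exact Nat.mul_le_mul_left r hs1'
    apply Fin.ext
    rcases h1 with ⟨a1, a2⟩ | ⟨a1, a2, a3⟩
    · rcases h2 with ⟨b1, b2⟩ | ⟨b1, b2, b3⟩
      · omega
      · exfalso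
        omega
    · rcases h2 with ⟨b1, b2⟩ | ⟨b1, b2, b3⟩
      · exfalso
        omega
      · have c1 : r * s.val < r * s'.val + r := by omega
        have c2 : r * s'.val < r * s.val + r := by omega
        have c3 : s.val < s'.val + 1 := by
          rw [← Nat.mul_succ] at c1
          exact Nat.lt_of_mul_lt_mul_left c1
        have c4 : s'.val < s.val + 1 := by
          rw [← Nat.mul_succ] at c2
          exact Nat.lt_of_mul_lt_mul_left c2
        omega
  have hMB : M ≤ B.card := by
    have h1 : ((univ : Finset (Fin M)).image v).card = M := by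
      rw [card_image_of_injective _ hvinj, card_univ, Fintype.card_fin]
    rw [← h1]
    refine card_le_card fun w hw => ?_
    obtain ⟨s, _, rfl⟩ := mem_image.1 hw
    exact hvB s
  have hfin : (1 + k ^ 2) * (c + 1) ≤ (1 + k ^ 2) * R.card := hMc.trans (hMB.trans hBcard)
  have hfin2 : c + 1 ≤ R.card := Nat.le_of_mul_le_mul_left hfin (by positivity)
  rw [hret]
  omega

/-- The walk with isolated points at the end. -/
theorem castLE_ret {k : ℕ} (a : Fin k → ℕ) (n m : ℕ) (x : Fin (n + m + 1) → ℕ)
    (hx : ∀ i : Fin (n + m + 1), n < i.val → ∀ j, j ≠ i → ¬ close a (x i) (x j)) :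
    ∃ I : Finset (Fin (n + m + 1)), (∀ i ∈ I, ∀ j ∈ I, i ≠ j → ¬ close a (x i) (x j)) ∧
      n + m + 1 - I.card = ret a (fun i : Fin (n + 1) => x (Fin.castLE (by omega) i)) := by
  classical
  have hle : n + 1 ≤ n + m + 1 := by omega
  refine ⟨univ.filter fun i => ¬ (i.val ≤ n ∧ ∃ j, j < i ∧ close a (x j) (x i)), ?_, ?_⟩
  · intro i hi j hj hne
    by_cases hi1 : n < i.val
    · exact hx i hi1 j hne.symm
    by_cases hj1 : n < j.val
    · exact fun h => hx j hj1 i hne (close_symm h)
    exact rc_pair a x hne (fun h => (mem_filter.1 hi).2 ⟨not_lt.1 hi1, h⟩)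
      (fun h => (mem_filter.1 hj).2 ⟨not_lt.1 hj1, h⟩)
  · have h := Finset.card_filter_add_card_filter_not (s := (univ : Finset (Fin (n + m + 1))))
      (fun i => i.val ≤ n ∧ ∃ j, j < i ∧ close a (x j) (x i))
    rw [card_univ, Fintype.card_fin] at h
    have h2 : (univ.filter fun i : Fin (n + m + 1) => i.val ≤ n ∧ ∃ j, j < i ∧ close a (x j) (x i)) =
        (univ.filter fun i : Fin (n + 1) => ∃ j, j < i ∧
          close a (x (Fin.castLE hle j)) (x (Fin.castLE hle i))).map (Fin.castLEEmb hle) := by
      ext i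
      simp only [mem_filter, mem_univ, true_and, mem_map, Fin.castLEEmb_apply]
      constructor
      · rintro ⟨hi, j, hji, hc⟩
        refine ⟨⟨i.val, by omega⟩, ⟨⟨j.val, ?_⟩, ?_, ?_⟩, ?_⟩
        · have := Fin.lt_def.1 hji
          omega
        · exact hji
        · exact hc
        · rfl
      · rintro ⟨i', ⟨j', hji, hc⟩, rfl⟩
        refine ⟨?_, Fin.castLE hle j', ?_, hc⟩
        · have := i'.isLt
          rw [Fin.val_castLE]
          omega
        · exact hji
    have h3 : ret a (fun i : Fin (n + 1) => x (Fin.castLE (by omega) i)) =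
        (univ.filter fun i : Fin (n + m + 1) => i.val ≤ n ∧ ∃ j, j < i ∧ close a (x j) (x i)).card := by
      rw [h2, card_map]
      unfold ret
      congr!
    rw [h3]
    omega

theorem castLE_ret_pos {k : ℕ} (a : Fin k → ℕ) (n m : ℕ) (x : Fin (n + m + 1) → ℕ)
    (hx : ∀ i : Fin (n + m + 1), n < i.val → ∀ j, j ≠ i → ¬ close a (x i) (x j))
    (hs : ¬ spread a (n := n + m) x) :
    1 ≤ ret a (fun i : Fin (n + 1) => x (Fin.castLE (by omega) i)) := by
  classical
  have key : ∀ i j : Fin (n + m + 1), i < j → close a (x i) (x j) →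
      1 ≤ ret a (fun i : Fin (n + 1) => x (Fin.castLE (by omega) i)) := by
    intro i j hij hc
    have hj : j.val ≤ n := by
      by_contra hcon
      exact hx j (not_le.1 hcon) i hij.ne (close_symm hc)
    have hi : i.val ≤ n := (Fin.lt_def.1 hij).le.trans hj
    unfold ret
    refine Nat.succ_le_of_lt (card_pos.2 ⟨⟨j.val, by omega⟩, ?_⟩)
    rw [mem_filter]
    exact ⟨mem_univ _, ⟨i.val, by omega⟩, hij, hc⟩
  unfold spread at hs
  push Not at hs
  obtain ⟨i, j, hne, hc⟩ := hs
  rcases lt_or_gt_of_ne hne with h | h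
  · exact key i j h hc
  · exact key j i h (close_symm hc)

end Pool.Agent.Helper39.SP
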