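import Pool.Agent.Helper39.SP.Defs
import Pool.Agent.Helper40.DB.Mert

/-!
# SP-11: a pointwise bound for the singular series

PROOF. Let `n = D.card ≤ t`, `p > N ≥ 2 t + 2`. As in SP-10: the factor at `p` is `≤ 1` if `p` divides no difference of two elements of `D`
(then `rhoD D p = n`, Bernoulli), and `≤ (1 - 1/p)^(-n) ≤ 1 + C₀/p` in any case (`rhoD D p ≥ 1`, unless `D = ∅`, `SSD = 1`).
So `SSD ≤ ∏_(p ∈ Q) (1 + C₀/p)`, `Q` the set of the `p ∈ PP N z` which divide `Δ = ∏_(u ∈ D.offDiag) (u.1 - u.2) ≠ 0`,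
`|Δ| ≤ (2 X)^(t^2)`, `2^|Q| ≤ |Δ|`, so `|Q| ≤ y := t^2 Nat.log 2 (..) + ..`, a natural number with `|Q| ≤ y`, `2 ≤ y ≤ C (1 + log X)`.
`∏_Q ≤ ∏_(p ∈ PP 0 y) (1 + C₀/p) * ∏_(p ∈ Q, p > y) (1 + C₀/y) ≤ exp(4 C₀) (Nat.log 2 y + 1)^(4 C₀) * exp(C₀)` (`Helper40.DB.prod_le_pow`),
and `Nat.log 2 y + 1 ≤ 1 + log y / log 2 ≤ C' LL X` (`LL X = 1 + log (1 + log X)`). Take `q ≥ 4 C₀` a natural number.
-/

set_option autoImplicit false

namespace Pool.Agent.Helper39.SP

open Finset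
open Pool.Agent.Helper40.DB (PP VV DD)

private theorem pow_le_lin (n : ℕ) (x : ℝ) (h0 : 0 ≤ x) (h1 : x ≤ 1) :
    (1 + x) ^ n ≤ 1 + (2 ^ n - 1) * x := by
  induction n with
  | zero => simp
  | succ n ih =>
    have h2 : (1 : ℝ) ≤ 2 ^ n := one_le_pow₀ (by norm_num)
    calc (1 + x) ^ (n + 1) = (1 + x) ^ n * (1 + x) := pow_succ _ _
      _ ≤ (1 + (2 ^ n - 1) * x) * (1 + x) := mul_le_mul_of_nonneg_right ih (by linarith)
      _ = 1 + 2 ^ n * x + (2 ^ n - 1) * (x * x) := by ring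
      _ ≤ 1 + 2 ^ n * x + (2 ^ n - 1) * (x * 1) := by
          have h3 := mul_le_mul_of_nonneg_left (mul_le_mul_of_nonneg_left h1 h0)
            (sub_nonneg.2 h2)
          linarith
      _ = 1 + (2 ^ (n + 1) - 1) * x := by ring

private theorem rhoD_le (D : Finset ℤ) (p : ℕ) : rhoD D p ≤ D.card := by
  unfold rhoD
  exact card_image_le

private theorem den_pos {p : ℕ} (hp : 2 ≤ p) : (0 : ℝ) < 1 - 1 / (p : ℝ) := by
  have h : (2 : ℝ) ≤ p := by exact_mod_cast hp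
  have h1 : 1 / (p : ℝ) < 1 := by
    rw [div_lt_one (by linarith)]
    linarith
  linarith

private theorem fac_nonneg {D : Finset ℤ} {p : ℕ} (hp : 2 ≤ p) (hDp : D.card ≤ p) :
    0 ≤ (1 - (rhoD D p : ℝ) / p) / (1 - 1 / (p : ℝ)) ^ D.card := by
  have h : (2 : ℝ) ≤ p := by exact_mod_cast hp
  have h1 : (rhoD D p : ℝ) / p ≤ 1 := by
    rw [div_le_one (by linarith)]
    exact_mod_cast (rhoD_le D p).trans hDp
  exact div_nonneg (by linarith) (pow_nonneg (den_pos hp).le _)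

private theorem fac_le {D : Finset ℤ} {p t : ℕ} (hp : 2 ≤ p) (hDt : D.card ≤ t) :
    (1 - (rhoD D p : ℝ) / p) / (1 - 1 / (p : ℝ)) ^ D.card ≤ 1 + 2 ^ (t + 1) / (p : ℝ) := by
  have h : (2 : ℝ) ≤ p := by exact_mod_cast hp
  have hp0 : (0 : ℝ) < p := by linarith
  have h0 : (0 : ℝ) ≤ (rhoD D p : ℝ) / p := by positivity
  have h1 : (1 - 1 / (p : ℝ))⁻¹ ≤ 1 + 2 / (p : ℝ) := by
    rw [inv_le_comm₀ (den_pos hp) (by positivity)]
    have h2 : (1 + 2 / (p : ℝ))⁻¹ = p / (p + 2) := by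
      field_simp
    rw [h2, div_le_iff₀ (by linarith)]
    have h3 : (1 - 1 / (p : ℝ)) * (p + 2) = p + 1 - 2 / p := by
      field_simp
      ring
    rw [h3]
    have h4 : 2 / (p : ℝ) ≤ 1 := by
      rw [div_le_one hp0]
      exact h
    linarith
  have h2 : 2 / (p : ℝ) ≤ 1 := by
    rw [div_le_one hp0]
    exact h
  calc (1 - (rhoD D p : ℝ) / p) / (1 - 1 / (p : ℝ)) ^ D.card
      ≤ 1 / (1 - 1 / (p : ℝ)) ^ D.card :=
        div_le_div_of_nonneg_right (by linarith) (pow_nonneg (den_pos hp).le _)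
    _ = ((1 - 1 / (p : ℝ))⁻¹) ^ D.card := by rw [one_div, inv_pow]
    _ ≤ (1 + 2 / (p : ℝ)) ^ D.card :=
        pow_le_pow_left₀ (inv_nonneg.2 (den_pos hp).le) h1 _
    _ ≤ (1 + 2 / (p : ℝ)) ^ t := pow_le_pow_right₀ (by
        have : (0 : ℝ) ≤ 2 / p := by positivity
        linarith) hDt
    _ ≤ 1 + (2 ^ t - 1) * (2 / (p : ℝ)) := pow_le_lin t _ (by positivity) h2
    _ ≤ 1 + 2 ^ (t + 1) / (p : ℝ) := by
        have h5 : (2 : ℝ) ^ (t + 1) / p = 2 ^ t * (2 / p) := by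
          rw [pow_succ]
          ring
        rw [h5]
        have h6 : (0 : ℝ) ≤ 2 / p := by positivity
        linarith

private theorem fac_le_one {D : Finset ℤ} {p : ℕ} (hp : 2 ≤ p)
    (hD : ∀ u ∈ D.offDiag, ¬ (p : ℤ) ∣ u.1 - u.2) :
    (1 - (rhoD D p : ℝ) / p) / (1 - 1 / (p : ℝ)) ^ D.card ≤ 1 := by
  classical
  have h1 : rhoD D p = D.card := by
    unfold rhoD
    refine card_image_of_injOn fun d hd e he hde => ?_
    by_contra hne
    have h2 := (ZMod.intCast_eq_intCast_iff_dvd_sub d e p).1 hde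
    exact hD (e, d) (mem_offDiag.2 ⟨mem_coe.1 he, mem_coe.1 hd, fun h => hne h.symm⟩) h2
  rw [h1, div_le_one (pow_pos (den_pos hp) _)]
  have h : (2 : ℝ) ≤ p := by exact_mod_cast hp
  have h2 : (1 : ℝ) / p ≤ 1 := by
    rw [div_le_one (by linarith)]
    linarith
  have h3 := one_add_mul_le_pow (a := -(1 / (p : ℝ))) (by linarith) D.card
  have h4 : (1 : ℝ) + -(1 / (p : ℝ)) = 1 - 1 / p := by ring
  rw [h4] at h3
  have h5 : (1 : ℝ) - (D.card : ℝ) / p = 1 + D.card * -(1 / (p : ℝ)) := by ring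
  rw [h5]
  exact h3

theorem SSD_le (t : ℕ) : ∃ C : ℝ, 0 ≤ C ∧ ∃ q : ℕ, ∀ N z : ℕ, 2 * t + 2 ≤ N → ∀ D : Finset ℤ, D.card ≤ t →
    ∀ X : ℝ, 3 ≤ X → (∀ d ∈ D, |(d : ℝ)| ≤ X) → SSD N z D ≤ C * LL X ^ q := by
  classical
  set C0 : ℝ := 2 ^ (t + 1) with hC0
  have hC00 : 0 ≤ C0 := by positivity
  set C' : ℝ := 3 + 2 * Real.log (2 * (t : ℝ) ^ 2 + 3) with hC'
  have hlog3 : 0 ≤ Real.log (2 * (t : ℝ) ^ 2 + 3) := by
    apply Real.log_nonneg
    nlinarith [sq_nonneg (t : ℝ)]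
  have hC'0 : 0 ≤ C' := by linarith
  refine ⟨Real.exp (4 * C0) * C' ^ (2 ^ (t + 3)) * Real.exp C0, by positivity, 2 ^ (t + 3), ?_⟩
  intro N z hN D hD X hX hDX
  have hlX : 0 ≤ Real.log X := Real.log_nonneg (by linarith)
  have hLL1 : 1 ≤ LL X := by
    unfold LL
    have := Real.log_nonneg (show (1 : ℝ) ≤ 1 + Real.log X by linarith)
    linarith
  have hpp : ∀ p ∈ PP N z, p.Prime ∧ N < p := fun p hp =>
    ⟨(mem_filter.1 hp).2, (mem_Ioc.1 (mem_filter.1 hp).1).1⟩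
  set Q := (PP N z).filter fun p => ∃ u ∈ D.offDiag, ((p : ℕ) : ℤ) ∣ u.1 - u.2 with hQ
  -- the factors
  have h1 : SSD N z D ≤ ∏ p ∈ Q, (1 + C0 / (p : ℝ)) := by
    rw [hQ, prod_filter]
    unfold SSD
    refine prod_le_prod (fun p hp => ?_) fun p hp => ?_
    · exact fac_nonneg (hpp p hp).1.two_le (by have := (hpp p hp).2; omega)
    · split_ifs with h
      · exact fac_le (hpp p hp).1.two_le hD
      · push Not at h
        exact fac_le_one (hpp p hp).1.two_le h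
  -- the size of `Q`
  set Δ : ℤ := ∏ u ∈ D.offDiag, (u.1 - u.2) with hΔ
  have hΔ0 : Δ ≠ 0 := prod_ne_zero_iff.2 fun u hu => sub_ne_zero.2 (mem_offDiag.1 hu).2.2
  have hX2 : (1 : ℝ) ≤ 2 * X := by linarith
  have h2 : |(Δ : ℝ)| ≤ (2 * X) ^ (t ^ 2) := by
    rw [hΔ]
    push_cast
    rw [abs_prod]
    calc ∏ u ∈ D.offDiag, |(u.1 : ℝ) - u.2| ≤ ∏ _u ∈ D.offDiag, (2 * X) := by
          refine prod_le_prod (fun u _ => abs_nonneg _) fun u hu => ?_
          have h3 := hDX u.1 (mem_offDiag.1 hu).1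
          have h4 := hDX u.2 (mem_offDiag.1 hu).2.1
          have h5 := abs_sub (u.1 : ℝ) u.2
          linarith
      _ = (2 * X) ^ D.offDiag.card := prod_const _
      _ ≤ (2 * X) ^ (t ^ 2) := by
          refine pow_le_pow_right₀ hX2 ?_
          rw [offDiag_card]
          have h3 : D.card * D.card ≤ t * t := Nat.mul_le_mul hD hD
          rw [sq]
          omega
  have h3 : (2 : ℝ) ^ Q.card ≤ (2 * X) ^ (t ^ 2) := by
    have h4 : ∏ p ∈ Q, p ∣ Δ.natAbs := by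
      refine prod_primes_dvd _ (fun p hp => (hpp p (mem_filter.1 hp).1).1.prime) fun p hp => ?_
      obtain ⟨u, hu, hpu⟩ := (mem_filter.1 hp).2
      rw [← Int.natCast_dvd]
      exact hpu.trans (dvd_prod_of_mem _ hu)
    have h5 : 2 ^ Q.card ≤ Δ.natAbs := by
      refine le_trans ?_ (Nat.le_of_dvd (Int.natAbs_pos.2 hΔ0) h4)
      rw [← prod_const]
      exact prod_le_prod' fun p hp => (hpp p (mem_filter.1 hp).1).1.two_le
    have h6 : ((2 ^ Q.card : ℕ) : ℝ) ≤ ((Δ.natAbs : ℕ) : ℝ) := by exact_mod_cast h5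
    rw [Nat.cast_natAbs, Int.cast_abs] at h6
    push_cast at h6
    exact h6.trans h2
  have hl2 : (1 : ℝ) / 2 ≤ Real.log 2 := by
    have := Real.log_two_gt_d9
    linarith
  have h4 : (Q.card : ℝ) ≤ 2 * (t : ℝ) ^ 2 * (1 + Real.log X) := by
    have h5 := Real.log_le_log (by positivity) h3
    rw [Real.log_pow, Real.log_pow, Real.log_mul (by norm_num) (by linarith)] at h5
    push_cast at h5
    have h6 : Real.log 2 ≤ 1 := by
      have := Real.log_two_lt_d9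
      linarith
    have h7 : (t : ℝ) ^ 2 * (Real.log 2 + Real.log X) ≤ (t : ℝ) ^ 2 * (1 + Real.log X) :=
      mul_le_mul_of_nonneg_left (by linarith) (by positivity)
    have h8 : (Q.card : ℝ) * (1 / 2) ≤ Q.card * Real.log 2 :=
      mul_le_mul_of_nonneg_left hl2 (Nat.cast_nonneg _)
    linarith
  set y : ℕ := ⌈2 * (t : ℝ) ^ 2 * (1 + Real.log X)⌉₊ + 2 with hy
  have hy0 : (0 : ℝ) < y := by
    rw [hy]
    push_cast
    positivity
  have hQy : (Q.card : ℝ) ≤ y := by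
    have h5 := Nat.le_ceil (2 * (t : ℝ) ^ 2 * (1 + Real.log X))
    rw [hy]
    push_cast
    linarith
  have hyle : (y : ℝ) ≤ (2 * (t : ℝ) ^ 2 + 3) * (1 + Real.log X) := by
    have h5 := Nat.ceil_lt_add_one (show 0 ≤ 2 * (t : ℝ) ^ 2 * (1 + Real.log X) by positivity)
    rw [hy]
    push_cast
    nlinarith
  -- the product over `Q`
  have h5 : ∏ p ∈ Q, (1 + C0 / (p : ℝ)) ≤
      (∏ p ∈ PP 0 y, (1 + C0 / (p : ℝ))) * Real.exp C0 := by
    rw [← prod_filter_mul_prod_filter_not Q (fun p => p ≤ y)]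
    refine mul_le_mul ?_ ?_ (prod_nonneg fun p _ => by positivity)
      (prod_nonneg fun p _ => by positivity)
    · have hsub : Q.filter (fun p => p ≤ y) ⊆ PP 0 y := by
        intro p hp
        obtain ⟨hp1, hp2⟩ := mem_filter.1 hp
        have hp3 := (hpp p (mem_filter.1 hp1).1).1
        exact mem_filter.2 ⟨mem_Ioc.2 ⟨hp3.pos, hp2⟩, hp3⟩
      have heq : ∏ p ∈ Q.filter (fun p => p ≤ y), (1 + C0 / (p : ℝ)) =
          ∏ p ∈ PP 0 y, (if p ∈ Q.filter (fun p => p ≤ y) then (1 + C0 / (p : ℝ)) else 1) := by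
        rw [← prod_filter, filter_mem_eq_inter, inter_eq_right.2 hsub]
      rw [heq]
      refine prod_le_prod (fun p _ => ?_) fun p _ => ?_
      · split_ifs
        · positivity
        · exact zero_le_one
      · split_ifs
        · exact le_rfl
        · have : 0 ≤ C0 / (p : ℝ) := by positivity
          linarith
    · calc ∏ p ∈ Q.filter (fun p => ¬ p ≤ y), (1 + C0 / (p : ℝ))
          ≤ ∏ _p ∈ Q.filter (fun p => ¬ p ≤ y), Real.exp (C0 / y) := by
            refine prod_le_prod (fun p _ => by positivity) fun p hp => ?_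
            have hp2 : (y : ℝ) ≤ p := by
              have h := (mem_filter.1 hp).2
              exact_mod_cast (not_le.1 h).le
            have h6 : C0 / (p : ℝ) ≤ C0 / y := div_le_div_of_nonneg_left hC00 hy0 hp2
            have h7 := Real.add_one_le_exp (C0 / (y : ℝ))
            linarith
        _ = Real.exp ((Q.filter (fun p => ¬ p ≤ y)).card * (C0 / y)) := by
            rw [prod_const, ← Real.exp_nat_mul]
        _ ≤ Real.exp C0 := by
            apply Real.exp_le_exp.2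
            have h6 : ((Q.filter (fun p => ¬ p ≤ y)).card : ℝ) ≤ y :=
              le_trans (by exact_mod_cast card_filter_le _ _) hQy
            calc ((Q.filter (fun p => ¬ p ≤ y)).card : ℝ) * (C0 / y) ≤ y * (C0 / y) :=
                  mul_le_mul_of_nonneg_right h6 (by positivity)
              _ = C0 := mul_div_cancel₀ _ hy0.ne'
  have h6 := Pool.Agent.Helper40.DB.prod_le_pow C0 hC00 0 y
  have h7 : ((Nat.log 2 y : ℝ) + 1) ≤ C' * LL X := by
    have h8 : (Nat.log 2 y : ℝ) * Real.log 2 ≤ Real.log y := by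
      rw [← Real.log_pow]
      apply Real.log_le_log (by positivity)
      exact_mod_cast Nat.pow_log_le_self 2 (show y ≠ 0 by omega)
    have h9 : Real.log y ≤ Real.log (2 * (t : ℝ) ^ 2 + 3) + Real.log (1 + Real.log X) := by
      rw [← Real.log_mul (by positivity) (by positivity)]
      exact Real.log_le_log hy0 hyle
    have h10 : 0 ≤ Real.log (1 + Real.log X) := Real.log_nonneg (by linarith)
    have h11 : (Nat.log 2 y : ℝ) * (1 / 2) ≤ (Nat.log 2 y : ℝ) * Real.log 2 :=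
      mul_le_mul_of_nonneg_left hl2 (Nat.cast_nonneg _)
    have h12 : LL X = 1 + Real.log (1 + Real.log X) := rfl
    rw [h12, hC']
    nlinarith [mul_nonneg hlog3 h10]
  have h8 : ((Nat.log 2 y : ℝ) + 1) ^ (4 * C0) ≤ C' ^ (2 ^ (t + 3)) * LL X ^ (2 ^ (t + 3)) := by
    have h9 : 4 * C0 = ((2 ^ (t + 3) : ℕ) : ℝ) := by
      rw [hC0]
      push_cast
      ring
    rw [h9, Real.rpow_natCast, ← mul_pow]
    exact pow_le_pow_left₀ (by positivity) h7 _
  calc SSD N z D ≤ (∏ p ∈ PP 0 y, (1 + C0 / (p : ℝ))) * Real.exp C0 := h1.trans h5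
    _ ≤ (Real.exp (4 * C0) * ((Nat.log 2 y : ℝ) + 1) ^ (4 * C0)) * Real.exp C0 :=
        mul_le_mul_of_nonneg_right h6 (Real.exp_pos _).le
    _ ≤ (Real.exp (4 * C0) * (C' ^ (2 ^ (t + 3)) * LL X ^ (2 ^ (t + 3)))) * Real.exp C0 :=
        mul_le_mul_of_nonneg_right (mul_le_mul_of_nonneg_left h8 (Real.exp_pos _).le)
          (Real.exp_pos _).le
    _ = Real.exp (4 * C0) * C' ^ (2 ^ (t + 3)) * Real.exp C0 * LL X ^ (2 ^ (t + 3)) := by ring

end Pool.Agent.Helper39.SP
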