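import Pool.Agent.Helper39.SP.CorrD
import Pool.Agent.Helper39.SP.SingD
import Pool.Agent.Helper39.SP.SingCrude
import Pool.Agent.Helper40.DB.Mert

/-!
# SP-13: the correlation of `phi` in general

PROOF. `V = VV N z`, `0 < V ≤ 1`, `Λ = (VV 0 N)⁻¹ ^ k ≥ 1`, `E = Nat.log 2 z`. `|phi| ≤ Λ (1 + nuA a N z) ≤ 2 Λ V⁻¹ ^ k`. Hence, pointwise in `y`,
`∏_i |phi (y + x i)| ≤ (2 Λ)^m (V⁻¹ ^ k)^(m - |I|) ∏_(i ∈ I) (1 + nuA a N z (y + x i))`, and `∏_(i ∈ I) (1 + nuA) = ∑_(I' ⊆ I) ∏_(i ∈ I') nuA`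
(`Finset.prod_one_add`/`Finset.prod_add`). For `I' ⊆ I`: `∏_(i ∈ I') nuA a N z (y + x i) = nuD N z 1 D y`, `D = {x i + a s | i ∈ I', s}` (integers), which has
`k |I'|` elements since no two of these points are close. `∑_(y = 1)^X nuD N z 1 D y ≤ (1 + C) X SSD + V⁻¹ ^ (k m) (2 E + 3) 2 ^ (60 E)` by `corrD (k m)` with `b = 1`,
`W = 1`, `a = 1`, `L = X`; `SSD ≤ C LL (3 X) ^ q` by `SSD_le (k m)` (`|d| ≤ X + max a ≤ 3 X`), `LL (3 X) ≤ 3 LL X`;
`2 ^ (60 E) ≤ z ^ 60 ≤ √X`, `V⁻¹ ≤ exp 8 (E + 1)^8`, `E ≤ Nat.log 2 X`: the remainder is `≤ X` for `X ≥ X0`. `LL X ≥ 1`.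
-/

set_option autoImplicit false

namespace Pool.Agent.Helper39.SP

open Finset
open Pool.Agent.Helper40.DB (PP VV DD)

private lemma td_VV_pos (N z : ℕ) : 0 < VV N z := Pool.Agent.Helper40.DB.VV_pos N z

private lemma td_VV_le_one (N z : ℕ) : VV N z ≤ 1 := by
  unfold VV
  apply prod_le_one
  · intro p hp
    have h1 : p.Prime := (mem_filter.1 hp).2
    have h2 : (2 : ℝ) ≤ p := by exact_mod_cast h1.two_le
    have h3 : 1 / (p : ℝ) ≤ 1 := by
      rw [div_le_one (by linarith)]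
      linarith
    linarith
  · intro p _
    have : (0 : ℝ) ≤ 1 / p := by positivity
    linarith

private lemma td_one_le (N z k : ℕ) : 1 ≤ (VV N z)⁻¹ ^ k :=
  one_le_pow₀ ((one_le_inv₀ (td_VV_pos N z)).2 (td_VV_le_one N z))

private lemma td_nuA_nonneg {k : ℕ} (a : Fin k → ℕ) (N z n : ℕ) : 0 ≤ nuA a N z n := by
  unfold nuA
  split_ifs
  · exact pow_nonneg (inv_nonneg.2 (td_VV_pos N z).le) _
  · exact le_refl _

private lemma td_nuA_le {k : ℕ} (a : Fin k → ℕ) (N z n : ℕ) : nuA a N z n ≤ (VV N z)⁻¹ ^ k := by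
  unfold nuA
  split_ifs
  · exact le_refl _
  · exact pow_nonneg (inv_nonneg.2 (td_VV_pos N z).le) _

private lemma td_phi1 {k : ℕ} (a : Fin k → ℕ) (N z n : ℕ) :
    |phi a N z n| ≤ (VV 0 N)⁻¹ ^ k * (1 + nuA a N z n) := by
  unfold phi
  rw [abs_mul, abs_of_nonneg (td_nuA_nonneg a 0 N n)]
  have h0 := td_nuA_nonneg a N z n
  apply mul_le_mul (td_nuA_le a 0 N n) _ (abs_nonneg _) (by have := td_one_le 0 N k; linarith)
  rw [abs_le]
  constructor <;> linarith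

private lemma td_phi2 {k : ℕ} (a : Fin k → ℕ) (N z n : ℕ) :
    |phi a N z n| ≤ (VV 0 N)⁻¹ ^ k * (VV N z)⁻¹ ^ k := by
  unfold phi
  rw [abs_mul, abs_of_nonneg (td_nuA_nonneg a 0 N n)]
  have h0 := td_nuA_nonneg a N z n
  have h1 := td_nuA_le a N z n
  have h2 := td_one_le N z k
  apply mul_le_mul (td_nuA_le a 0 N n) _ (abs_nonneg _) (by have := td_one_le 0 N k; linarith)
  rw [abs_le]
  constructor <;> linarith

/-- the set of the points `x i + a s`, `i ∈ I` -/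
private def tdD {k m : ℕ} (a : Fin k → ℕ) (x : Fin m → ℕ) (I : Finset (Fin m)) : Finset ℤ :=
  (I ×ˢ (univ : Finset (Fin k))).image fun u => (x u.1 : ℤ) + a u.2

private lemma tdD_card {k m : ℕ} (a : Fin k → ℕ) (ha : Function.Injective a) (x : Fin m → ℕ)
    (I : Finset (Fin m)) (hI : ∀ i ∈ I, ∀ j ∈ I, i ≠ j → ¬ close a (x i) (x j)) :
    (tdD a x I).card = k * I.card := by
  unfold tdD
  rw [card_image_of_injOn, card_product, card_univ, Fintype.card_fin, mul_comm]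
  rintro ⟨i, s⟩ hi ⟨j, s'⟩ hj h
  have hi' : i ∈ I := (mem_product.1 (mem_coe.1 hi)).1
  have hj' : j ∈ I := (mem_product.1 (mem_coe.1 hj)).1
  have h' : x i + a s = x j + a s' := by
    have h2 : ((x i : ℤ) + a s) = (x j : ℤ) + a s' := h
    exact_mod_cast h2
  by_cases hij : i = j
  · subst hij
    have h3 : a s = a s' := by omega
    rw [ha h3]
  · exact absurd ⟨s, s', h'⟩ (hI i hi' j hj' hij)

private lemma td_dvd {k m : ℕ} (a : Fin k → ℕ) (x : Fin m → ℕ) (I : Finset (Fin m)) (p y : ℕ) :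
    (∃ d ∈ tdD a x I, (p : ℤ) ∣ ((1 : ℕ) : ℤ) * (y : ℤ) + d) ↔
      ∃ i ∈ I, ∃ s, p ∣ y + x i + a s := by
  have key : ∀ i s, ((p : ℤ) ∣ ((1 : ℕ) : ℤ) * (y : ℤ) + ((x i : ℤ) + a s)) ↔
      p ∣ y + x i + a s := by
    intro i s
    rw [← Int.natCast_dvd_natCast]
    have : ((y + x i + a s : ℕ) : ℤ) = ((1 : ℕ) : ℤ) * (y : ℤ) + ((x i : ℤ) + a s) := by
      push_cast
      ring
    rw [this]
  constructor
  · rintro ⟨d, hd, h⟩
    unfold tdD at hd
    rw [mem_image] at hd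
    obtain ⟨⟨i, s⟩, hu, rfl⟩ := hd
    exact ⟨i, (mem_product.1 hu).1, s, (key i s).1 h⟩
  · rintro ⟨i, hi, s, h⟩
    refine ⟨(x i : ℤ) + a s, ?_, (key i s).2 h⟩
    unfold tdD
    rw [mem_image]
    exact ⟨(i, s), mem_product.2 ⟨hi, mem_univ _⟩, rfl⟩

private lemma td_prod {k m : ℕ} (a : Fin k → ℕ) (ha : Function.Injective a) (N z : ℕ)
    (x : Fin m → ℕ) (I : Finset (Fin m))
    (hI : ∀ i ∈ I, ∀ j ∈ I, i ≠ j → ¬ close a (x i) (x j)) (y : ℕ) :
    ∏ i ∈ I, nuA a N z (y + x i) = nuD N z 1 (tdD a x I) (y : ℤ) := by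
  classical
  by_cases H : ∀ i ∈ I, ∀ p ∈ PP N z, ∀ s, ¬ p ∣ y + x i + a s
  · have h1 : ∀ i ∈ I, nuA a N z (y + x i) = (VV N z)⁻¹ ^ k := by
      intro i hi
      unfold nuA
      rw [if_pos (H i hi)]
    rw [prod_congr rfl h1, prod_const]
    unfold nuD
    rw [if_pos, tdD_card a ha x I hI, ← pow_mul]
    intro p hp d hd hpd
    obtain ⟨i, hi, s, h⟩ := (td_dvd a x I p y).1 ⟨d, hd, hpd⟩
    exact H i hi p hp s h
  · push Not at H
    obtain ⟨i, hi, p, hp, s, h⟩ := H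
    have h1 : nuA a N z (y + x i) = 0 := by
      unfold nuA
      rw [if_neg]
      intro h2
      exact h2 p hp s h
    rw [prod_eq_zero hi h1]
    unfold nuD
    rw [if_neg]
    intro h2
    obtain ⟨d, hd, hpd⟩ := (td_dvd a x I p y).2 ⟨i, hi, s, h⟩
    exact h2 p hp d hd hpd

private lemma td_sum (f : ℤ → ℝ) (X : ℕ) :
    ∑ y ∈ Icc 1 X, f (y : ℤ) = ∑ m ∈ Ico (1 : ℤ) (1 + X), f m := by
  apply sum_nbij (fun y : ℕ => (y : ℤ))
  · intro y hy
    rw [mem_Icc] at hy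
    rw [mem_Ico]
    omega
  · intro y _ y' _ h
    have h' : (y : ℤ) = (y' : ℤ) := h
    exact_mod_cast h'
  · intro n hn
    rw [mem_coe, mem_Ico] at hn
    refine ⟨n.toNat, ?_, ?_⟩
    · rw [mem_coe, mem_Icc]
      omega
    · exact Int.toNat_of_nonneg (by omega)
  · intro y _
    rfl

private lemma td_LL (X : ℝ) (hX : 1 ≤ X) : 1 ≤ LL X ∧ LL (3 * X) ≤ 3 * LL X ∧ 1 ≤ LL (3 * X) := by
  have h0 : 0 ≤ Real.log X := Real.log_nonneg hX
  have h3 : Real.log 3 ≤ 2 := by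
    have := Real.log_le_sub_one_of_pos (show (0 : ℝ) < 3 by norm_num)
    linarith
  have h30 : 0 ≤ Real.log 3 := Real.log_nonneg (by norm_num)
  have h1 : Real.log (3 * X) = Real.log 3 + Real.log X := Real.log_mul (by norm_num) (by linarith)
  have h2 : 0 ≤ Real.log (1 + Real.log X) := Real.log_nonneg (by linarith)
  have h4 : Real.log (1 + Real.log (3 * X)) ≤ 2 + Real.log (1 + Real.log X) := by
    have h6 : Real.log (1 + Real.log (3 * X)) ≤ Real.log (3 * (1 + Real.log X)) := by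
      apply Real.log_le_log
      · rw [h1]
        linarith
      · rw [h1]
        linarith
    have h7 : Real.log (3 * (1 + Real.log X)) = Real.log 3 + Real.log (1 + Real.log X) :=
      Real.log_mul (by norm_num) (by linarith)
    linarith
  have h5 : 0 ≤ Real.log (1 + Real.log (3 * X)) := Real.log_nonneg (by rw [h1]; linarith)
  unfold LL
  refine ⟨by linarith, by linarith, by linarith⟩

private lemma td_rem (t : ℕ) : ∃ K : ℝ, 0 ≤ K ∧ ∀ N z X : ℕ, 1 ≤ X → z ^ 120 ≤ X →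
    (VV N z)⁻¹ ^ t * ((2 * (Nat.log 2 z : ℕ) + 3) * 2 ^ (20 * Nat.log 2 z * (1 + 2))) ≤ K * (X : ℝ) := by
  refine ⟨Real.exp 8 ^ t * (3 * ((8 * t + 1).factorial * 3)), by positivity, ?_⟩
  intro N z X hX hz
  set E : ℕ := Nat.log 2 z with hE
  have h1 : (2 : ℝ) ^ (120 * E) ≤ X := by
    rcases Nat.eq_zero_or_pos z with h0 | h0
    · have : E = 0 := by rw [hE, h0, Nat.log_zero_right]
      rw [this, Nat.mul_zero, pow_zero]
      exact_mod_cast hX
    · have h2 : 2 ^ E ≤ z := Nat.pow_log_le_self 2 (by omega)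
      have h3 : 2 ^ (120 * E) ≤ X := by
        calc 2 ^ (120 * E) = (2 ^ E) ^ 120 := by rw [← pow_mul, mul_comm]
          _ ≤ z ^ 120 := Nat.pow_le_pow_left h2 _
          _ ≤ X := hz
      exact_mod_cast h3
  have h2 : (VV N z)⁻¹ ^ t ≤ Real.exp 8 ^ t * ((E : ℝ) + 1) ^ (8 * t) := by
    have h3 := Pool.Agent.Helper40.DB.VV_inv_le N z
    rw [← hE] at h3
    have h4 : ((E : ℝ) + 1) ^ (8 : ℝ) = ((E : ℝ) + 1) ^ (8 : ℕ) := by
      rw [← Real.rpow_natCast]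
      norm_num
    rw [h4] at h3
    have h5 := pow_le_pow_left₀ (inv_nonneg.2 (td_VV_pos N z).le) h3 t
    rw [mul_pow, ← pow_mul] at h5
    exact h5
  have h3 : ((E : ℝ) + 1) ^ (8 * t + 1) ≤ (8 * t + 1).factorial * 3 * 2 ^ (60 * E) := by
    have h4 := Real.pow_div_factorial_le_exp ((E : ℝ) + 1) (by positivity) (8 * t + 1)
    rw [div_le_iff₀ (by positivity)] at h4
    have h5 : Real.exp ((E : ℝ) + 1) ≤ 3 * 2 ^ (60 * E) := by
      rw [Real.exp_add, mul_comm]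
      have h6 : Real.exp 1 ≤ 3 := by
        have := Real.exp_one_lt_d9
        linarith
      have h7 : Real.exp (E : ℝ) ≤ 2 ^ (60 * E) := by
        have h8 : Real.exp (E : ℝ) = Real.exp 1 ^ E := by
          rw [← Real.exp_nat_mul, mul_one]
        rw [h8, pow_mul]
        apply pow_le_pow_left₀ (Real.exp_pos _).le
        refine h6.trans ?_
        norm_num
      exact mul_le_mul h6 h7 (Real.exp_pos _).le (by norm_num)
    calc ((E : ℝ) + 1) ^ (8 * t + 1) ≤ Real.exp ((E : ℝ) + 1) * (8 * t + 1).factorial := h4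
      _ ≤ (3 * 2 ^ (60 * E)) * (8 * t + 1).factorial :=
          mul_le_mul_of_nonneg_right h5 (by positivity)
      _ = (8 * t + 1).factorial * 3 * 2 ^ (60 * E) := by ring
  have h4 : (2 * (E : ℝ) + 3) ≤ 3 * ((E : ℝ) + 1) := by
    have : (0 : ℝ) ≤ E := Nat.cast_nonneg _
    linarith
  have h5 : (2 : ℝ) ^ (20 * E * (1 + 2)) = 2 ^ (60 * E) := by
    congr 1
    ring
  rw [h5]
  calc (VV N z)⁻¹ ^ t * ((2 * (E : ℝ) + 3) * 2 ^ (60 * E))
      ≤ (Real.exp 8 ^ t * ((E : ℝ) + 1) ^ (8 * t)) * ((3 * ((E : ℝ) + 1)) * 2 ^ (60 * E)) := by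
        apply mul_le_mul h2 _ (by positivity) (by positivity)
        exact mul_le_mul_of_nonneg_right h4 (by positivity)
    _ = (Real.exp 8 ^ t * 3) * 2 ^ (60 * E) * ((E : ℝ) + 1) ^ (8 * t + 1) := by
        rw [pow_succ]
        ring
    _ ≤ (Real.exp 8 ^ t * 3) * 2 ^ (60 * E) * ((8 * t + 1).factorial * 3 * 2 ^ (60 * E)) :=
        mul_le_mul_of_nonneg_left h3 (by positivity)
    _ = Real.exp 8 ^ t * (3 * ((8 * t + 1).factorial * 3)) * 2 ^ (120 * E) := by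
        have : (2 : ℝ) ^ (120 * E) = 2 ^ (60 * E) * 2 ^ (60 * E) := by
          rw [← pow_add]
          congr 1
          ring
        rw [this]
        ring
    _ ≤ Real.exp 8 ^ t * (3 * ((8 * t + 1).factorial * 3)) * X :=
        mul_le_mul_of_nonneg_left h1 (by positivity)

/-- the average over `y` of the product of the weights at points no two of which are close -/
private lemma td_avg {k : ℕ} (a : Fin k → ℕ) (ha : Function.Injective a) (m : ℕ) :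
    ∃ q N0 : ℕ, ∃ C : ℝ, 0 ≤ C ∧ ∀ N : ℕ, N0 ≤ N → ∀ X : ℕ, 1 + ∑ s, a s ≤ X → ∀ z : ℕ,
    z ^ 120 ≤ X → ∀ x : Fin m → ℕ, (∀ i, x i ≤ X) → ∀ I : Finset (Fin m),
    (∀ i ∈ I, ∀ j ∈ I, i ≠ j → ¬ close a (x i) (x j)) →
    ∑ y ∈ Icc 1 X, ∏ i ∈ I, nuA a N z (y + x i) ≤ C * LL X ^ q * X := by
  obtain ⟨C1, hC1, h1⟩ := corrD (k * m)
  obtain ⟨C2, hC2, q, h2⟩ := SSD_le (k * m)
  obtain ⟨K, hK, h3⟩ := td_rem (k * m)
  refine ⟨q, 2 * (k * m) + 2, (1 + C1) * (C2 * 3 ^ q) + K, by positivity, ?_⟩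
  intro N hN X hX z hz x hx I hI
  have hX1 : 1 ≤ X := by omega
  have hXr : (1 : ℝ) ≤ X := by exact_mod_cast hX1
  have hcard : (tdD a x I).card ≤ k * m := by
    rw [tdD_card a ha x I hI]
    apply Nat.mul_le_mul_left
    have := card_le_univ I
    rw [Fintype.card_fin] at this
    exact this
  have h4 := h1 N z 1 (by omega) (fun p hp h => by
    have hpp : p.Prime := (mem_filter.1 hp).2
    exact hpp.one_lt.ne' (Nat.dvd_one.1 h)) (Nat.log 2 z) (le_refl _) (tdD a x I) hcard 1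
    (le_refl _) 1 X
  have h5 := h2 N z hN (tdD a x I) hcard (3 * X) (by linarith) (by
    intro d hd
    unfold tdD at hd
    rw [mem_image] at hd
    obtain ⟨⟨i, s⟩, _, rfl⟩ := hd
    have h6 : a s ≤ ∑ s, a s := single_le_sum (f := a) (fun _ _ => Nat.zero_le _) (mem_univ s)
    have h7 : x i + a s ≤ 3 * X := by
      have := hx i
      omega
    have h8 : (((x i : ℤ) + (a s : ℤ) : ℤ) : ℝ) = ((x i + a s : ℕ) : ℝ) := by push_cast; ring
    change |(((x i : ℤ) + (a s : ℤ) : ℤ) : ℝ)| ≤ _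
    rw [h8, abs_of_nonneg (Nat.cast_nonneg _)]
    exact_mod_cast h7)
  obtain ⟨hL1, hL2, hL3⟩ := td_LL X hXr
  have h6 : SSD N z (tdD a x I) ≤ C2 * 3 ^ q * LL X ^ q := by
    refine h5.trans ?_
    rw [mul_assoc, ← mul_pow]
    apply mul_le_mul_of_nonneg_left _ hC2
    exact pow_le_pow_left₀ (by linarith) hL2 q
  have h7 : ∑ y ∈ Icc 1 X, ∏ i ∈ I, nuA a N z (y + x i) =
      ∑ m ∈ Ico (1 : ℤ) (1 + X), nuD N z 1 (tdD a x I) m := by
    rw [← td_sum]
    exact sum_congr rfl fun y _ => td_prod a ha N z x I hI y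
  rw [h7]
  have h8 := (abs_le.1 h4).2
  have h9 := h3 N z X hX1 hz
  have h10 : (X : ℝ) * SSD N z (tdD a x I) ≤ X * (C2 * 3 ^ q * LL X ^ q) :=
    mul_le_mul_of_nonneg_left h6 (by linarith)
  have h11 : (1 : ℝ) ≤ LL X ^ q := one_le_pow₀ hL1
  have h12 : K * (X : ℝ) ≤ K * LL X ^ q * X := by
    have : K * X * 1 ≤ K * X * LL X ^ q := mul_le_mul_of_nonneg_left h11 (by positivity)
    linarith
  have h13 : C1 * (1 / 4) ^ 1 * (X * SSD N z (tdD a x I)) ≤
      C1 * (X * (C2 * 3 ^ q * LL X ^ q)) := by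
    have h14 : C1 * (1 / 4) ^ 1 * (X * SSD N z (tdD a x I)) ≤
        C1 * (1 / 4) ^ 1 * (X * (C2 * 3 ^ q * LL X ^ q)) :=
      mul_le_mul_of_nonneg_left h10 (by positivity)
    have h15 : 0 ≤ C1 * (X * (C2 * 3 ^ q * LL X ^ q)) := by
      have : 0 ≤ LL X ^ q := by linarith
      positivity
    linarith
  linarith

theorem T_deg {k : ℕ} (a : Fin k → ℕ) (ha : Function.Injective a) (m : ℕ) :
    ∃ q N0 : ℕ, ∀ N : ℕ, N0 ≤ N → ∃ C : ℝ, 0 ≤ C ∧ ∃ X0 : ℕ, ∀ X : ℕ, X0 ≤ X → ∀ z : ℕ, z ^ 120 ≤ X →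
    ∀ x : Fin m → ℕ, (∀ i, x i ≤ X) → ∀ I : Finset (Fin m),
    (∀ i ∈ I, ∀ j ∈ I, i ≠ j → ¬ close a (x i) (x j)) →
    |TT a N z X x| ≤ C * LL X ^ q * ((VV N z)⁻¹ ^ k) ^ (m - I.card) := by
  classical
  obtain ⟨q, N0, C, hC, h⟩ := td_avg a ha m
  refine ⟨q, N0, fun N hN => ?_⟩
  set Λ : ℝ := (VV 0 N)⁻¹ ^ k with hΛ
  have hΛ1 : 1 ≤ Λ := td_one_le 0 N k
  refine ⟨Λ ^ m * (2 ^ m * C), by positivity, 1 + ∑ s, a s, ?_⟩
  intro X hX z hz x hx I hI
  set U : ℝ := (VV N z)⁻¹ ^ k with hU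
  have hU1 : 1 ≤ U := td_one_le N z k
  have hX1 : 1 ≤ X := by omega
  have hXr : (0 : ℝ) < X := by exact_mod_cast hX1
  have hIm : I.card ≤ m := by
    have := card_le_univ I
    rwa [Fintype.card_fin] at this
  have hIc : (Iᶜ).card = m - I.card := by
    rw [card_compl, Fintype.card_fin]
  have hL1 : 1 ≤ LL X := (td_LL X (by exact_mod_cast hX1)).1
  have hpt : ∀ y : ℕ, |∏ i, phi a N z (y + x i)| ≤
      Λ ^ m * U ^ (m - I.card) * ∑ J ∈ I.powerset, ∏ i ∈ J, nuA a N z (y + x i) := by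
    intro y
    rw [abs_prod, ← prod_mul_prod_compl I]
    have e1 : ∏ i ∈ I, |phi a N z (y + x i)| ≤ Λ ^ I.card * ∏ i ∈ I, (1 + nuA a N z (y + x i)) := by
      have : Λ ^ I.card * ∏ i ∈ I, (1 + nuA a N z (y + x i)) =
          ∏ i ∈ I, Λ * (1 + nuA a N z (y + x i)) := by
        rw [prod_mul_distrib, prod_const]
      rw [this]
      exact prod_le_prod (fun i _ => abs_nonneg _) fun i _ => td_phi1 a N z _
    have e2 : ∏ i ∈ Iᶜ, |phi a N z (y + x i)| ≤ Λ ^ (m - I.card) * U ^ (m - I.card) := by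
      rw [← mul_pow, ← hIc, ← prod_const]
      exact prod_le_prod (fun i _ => abs_nonneg _) fun i _ => td_phi2 a N z _
    have e3 : ∏ i ∈ I, (1 + nuA a N z (y + x i)) =
        ∑ J ∈ I.powerset, ∏ i ∈ J, nuA a N z (y + x i) := prod_one_add _
    have e4 : 0 ≤ ∏ i ∈ I, (1 + nuA a N z (y + x i)) :=
      prod_nonneg fun i _ => by have := td_nuA_nonneg a N z (y + x i); linarith
    rw [← e3]
    calc (∏ i ∈ I, |phi a N z (y + x i)|) * ∏ i ∈ Iᶜ, |phi a N z (y + x i)|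
        ≤ (Λ ^ I.card * ∏ i ∈ I, (1 + nuA a N z (y + x i))) *
          (Λ ^ (m - I.card) * U ^ (m - I.card)) :=
          mul_le_mul e1 e2 (prod_nonneg fun i _ => abs_nonneg _) (by positivity)
      _ = Λ ^ (I.card + (m - I.card)) * U ^ (m - I.card) *
          ∏ i ∈ I, (1 + nuA a N z (y + x i)) := by
          rw [pow_add]
          ring
      _ = _ := by rw [Nat.add_sub_cancel' hIm]
  have hsum : |∑ y ∈ Icc 1 X, ∏ i, phi a N z (y + x i)| ≤
      Λ ^ m * U ^ (m - I.card) * (2 ^ m * (C * LL X ^ q * X)) := by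
    refine (abs_sum_le_sum_abs _ _).trans ((sum_le_sum fun y _ => hpt y).trans ?_)
    rw [← mul_sum]
    apply mul_le_mul_of_nonneg_left _ (by positivity)
    rw [sum_comm]
    have e1 : ∀ J ∈ I.powerset, ∑ y ∈ Icc 1 X, ∏ i ∈ J, nuA a N z (y + x i) ≤ C * LL X ^ q * X := by
      intro J hJ
      rw [mem_powerset] at hJ
      exact h N hN X hX z hz x hx J fun i hi j hj hij => hI i (hJ hi) j (hJ hj) hij
    refine (sum_le_sum e1).trans ?_
    rw [sum_const, nsmul_eq_mul, card_powerset]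
    have e2 : 0 ≤ C * LL X ^ q * X := by
      have : 0 ≤ LL X ^ q := by positivity
      positivity
    apply mul_le_mul_of_nonneg_right _ e2
    push_cast
    exact pow_le_pow_right₀ (by norm_num) hIm
  unfold TT
  rw [abs_div, abs_of_pos hXr, div_le_iff₀ hXr]
  refine hsum.trans (le_of_eq ?_)
  ring

end Pool.Agent.Helper39.SP
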