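import Pool.Agent.Helper39.SP.Open
import Pool.Agent.Helper39.SP.RetCount
import Pool.Agent.Helper39.SP.Path
import Pool.Agent.Helper39.SP.TDeg

/-!
# SP-18: the walks with returns

Notation: `K = ker S`, `M = |S| ≥ 1`, `Y = (VV N z)⁻¹ ^ k ≥ 1`, `Y ≤ M`; `K ≤ 1/M`, `∑_z K s z ≤ 1`; `x i < H ≤ X` on `walks n H`.
`caseB1` PROOF. `ind (¬ spread ∧ run) ≤ ∑_l ind (¬ spread ∧ run at l)`. For every `l`: rotate by `l` (`rot_sum`, `cyc_rot`, `TT_rot`; `spread` is invariant under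
rotation), so that the run is at the end: the points `x i`, `n' < i ≤ n`, `n' = n + 1 - r`, are close to no other point; `n = n' + (r - 1)`. By `castLE_ret` and `T_deg`
(`m = n + 1`): `|TT| ≤ C LL X ^ q Y ^ ρ`, `ρ = ret a (first n' + 1 points) ≥ 1` (`castLE_ret_pos`), and `Y ^ ρ ≤ (Y / M) M ^ ρ` (`(Y/M)^ρ ≤ Y/M`).
`close_block` with `G x = M ^ ret a x` and `path_le'`: `∑ cyc K x M ^ ρ ≤ (A / H) ∑_(walks n' H) opn K x M ^ ret a x ≤ (A / H) H (1 + (n' + 1) k^2)^n'`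
(`open_ret`). Total `(n + 1) C A (1 + (n + 1) k^2)^n LL X ^ q (Y / M)`.
`caseB2` PROOF. `exists_nonret` and `T_deg`: `|TT| ≤ C LL X ^ q Y ^ ret`; without a run `ret ≥ c` (`ret_large`), so `Y ^ ret ≤ (Y/M)^c M ^ ret`;
`cyc K x ≤ opn K x / M` (`cyc_eq`, `ker_le`), `open_ret`.
-/

set_option autoImplicit false

namespace Pool.Agent.Helper39.SP

open Finset
open Pool.Agent.Helper40.DB (PP VV DD)

private theorem cbb_card {S : Finset ℕ} (hS : S.Nonempty) : (1 : ℝ) ≤ S.card := by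
  exact_mod_cast hS.card_pos

private theorem cbb_H {S : Finset ℕ} {H : ℕ} (hSH : S ⊆ Icc 1 H) (hS : S.Nonempty) : 1 ≤ H := by
  obtain ⟨s, hs⟩ := hS
  have := Finset.mem_Icc.1 (hSH hs)
  omega

private theorem cbb_LL (X : ℕ) : 0 ≤ LL X := by
  unfold LL
  have h1 : 0 ≤ Real.log X := Real.log_natCast_nonneg X
  have h2 : 0 ≤ Real.log (1 + Real.log X) := Real.log_nonneg (by linarith)
  linarith

private theorem cbb_pow {Y M : ℝ} (hY : 0 ≤ Y) (hM : 1 ≤ M) (hYM : Y ≤ M) {c ρ : ℕ} (h : c ≤ ρ) :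
    Y ^ ρ ≤ (Y / M) ^ c * M ^ ρ := by
  have hM0 : 0 < M := by linarith
  have h1 : Y ^ ρ = (Y / M) ^ ρ * M ^ ρ := by
    rw [← mul_pow, div_mul_cancel₀ _ hM0.ne']
  rw [h1]
  apply mul_le_mul_of_nonneg_right _ (by positivity)
  exact pow_le_pow_of_le_one (by positivity) ((div_le_one hM0).2 hYM) h

private theorem cbb_kM {S : Finset ℕ} (hS : S.Nonempty) (s t : ℕ) : (S.card : ℝ) * ker S s t ≤ 1 := by
  have hM0 : (0 : ℝ) < S.card := by linarith [cbb_card hS]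
  have h := ker_le S s t
  rw [le_div_iff₀ hM0] at h
  linarith

private theorem cbb_Y (k N z : ℕ) : 0 ≤ (VV N z)⁻¹ ^ k :=
  pow_nonneg (inv_nonneg.2 (Helper40.DB.VV_pos N z).le) k

private theorem cbb_walk {n H : ℕ} {x : Fin (n + 1) → ℕ} (hx : x ∈ walks n H) (i : Fin (n + 1)) :
    x i < H := by
  unfold walks at hx
  exact Finset.mem_range.1 (Fintype.mem_piFinset.1 hx i)

/-- The walks with isolated points at the end. -/
private theorem cbb_end {k : ℕ} (a : Fin k → ℕ) (n m N z X : ℕ) (C L A Y : ℝ) (hC : 0 ≤ C)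
    (hL : 0 ≤ L) (hA : 0 ≤ A) (S : Finset ℕ) (H : ℕ) (hSH : S ⊆ Icc 1 H) (hS : S.Nonempty)
    (hHX : H ≤ X) (hE : (energy (m + 1) S : ℝ) * H ≤ A * (S.card : ℝ) ^ (2 * (m + 1)))
    (hY0 : 0 ≤ Y) (hY : Y ≤ S.card)
    (hT : ∀ x : Fin (n + m + 1) → ℕ, (∀ i, x i ≤ X) → ∀ I : Finset (Fin (n + m + 1)),
      (∀ i ∈ I, ∀ j ∈ I, i ≠ j → ¬ close a (x i) (x j)) →
      |TT a N z X x| ≤ C * L * Y ^ (n + m + 1 - I.card)) :
    ∑ x ∈ walks (n + m) H, cyc (ker S) x * |TT a N z X x| *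
      ind (¬ spread a x ∧ ∀ i : Fin (n + m + 1), n < i.val → ∀ j, j ≠ i →
        ¬ close a (x i) (x j)) ≤
      C * A * (1 + (n + 1) * (k : ℝ) ^ 2) ^ n * L * (Y / S.card) := by
  have hM := cbb_card hS
  have hM0 : (0 : ℝ) < S.card := by linarith
  have hH := cbb_H hSH hS
  have hH0 : (0 : ℝ) < H := by exact_mod_cast hH
  have hYM : 0 ≤ Y / S.card := div_nonneg hY0 hM0.le
  have h1 : ∀ x ∈ walks (n + m) H, cyc (ker S) x * |TT a N z X x| *
      ind (¬ spread a x ∧ ∀ i : Fin (n + m + 1), n < i.val → ∀ j, j ≠ i →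
        ¬ close a (x i) (x j)) ≤
      C * L * (Y / S.card) * (cyc (ker S) x *
        (S.card : ℝ) ^ ret a (fun i : Fin (n + 1) => x (Fin.castLE (by omega) i))) := by
    intro x hx
    have hcyc := cyc_nonneg (ker S) (ker_nonneg S) x
    by_cases hev : ¬ spread a x ∧ ∀ i : Fin (n + m + 1), n < i.val → ∀ j, j ≠ i →
        ¬ close a (x i) (x j)
    · rw [ind_of hev, mul_one]
      obtain ⟨I, hI, hcard⟩ := castLE_ret a n m x hev.2
      have hpos := castLE_ret_pos a n m x hev.2 hev.1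
      have h2 := hT x (fun i => (cbb_walk hx i).le.trans hHX) I hI
      rw [hcard] at h2
      have h3 := cbb_pow hY0 hM hY hpos
      rw [pow_one] at h3
      have h4 : |TT a N z X x| ≤ C * L * ((Y / S.card) *
          (S.card : ℝ) ^ ret a (fun i : Fin (n + 1) => x (Fin.castLE (by omega) i))) :=
        h2.trans (mul_le_mul_of_nonneg_left h3 (mul_nonneg hC hL))
      calc cyc (ker S) x * |TT a N z X x| ≤ cyc (ker S) x * (C * L * ((Y / S.card) *
          (S.card : ℝ) ^ ret a (fun i : Fin (n + 1) => x (Fin.castLE (by omega) i)))) :=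
            mul_le_mul_of_nonneg_left h4 hcyc
        _ = _ := by ring
    · rw [ind_of_not hev, mul_zero]
      exact mul_nonneg (mul_nonneg (mul_nonneg hC hL) hYM) (mul_nonneg hcyc (by positivity))
  refine (Finset.sum_le_sum h1).trans ?_
  rw [← Finset.mul_sum]
  have h4 := close_block (ker S) (ker_nonneg S) n m H (A / H)
    (fun s t => path_le' (m + 1) (Nat.succ_le_succ (Nat.zero_le m)) A S (range H) hS H hH hE s t)
    (fun u => (S.card : ℝ) ^ ret a u) (fun u => by positivity)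
  have h5 := open_ret a (ker S) H (ker_nonneg S) (fun s => sum_ker_le S (range H) s) S.card hM
    (cbb_kM hS) n
  have h6 : A / H * ∑ x ∈ walks n H, opn (ker S) x * (S.card : ℝ) ^ ret a x ≤
      A / H * (H * (1 + (n + 1) * (k : ℝ) ^ 2) ^ n) :=
    mul_le_mul_of_nonneg_left h5 (div_nonneg hA hH0.le)
  have h7 : A / H * (H * (1 + (n + 1) * (k : ℝ) ^ 2) ^ n) =
      A * (1 + (n + 1) * (k : ℝ) ^ 2) ^ n := by
    field_simp
  rw [h7] at h6
  calc C * L * (Y / S.card) * ∑ x ∈ walks (n + m) H, cyc (ker S) x *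
        (S.card : ℝ) ^ ret a (fun i : Fin (n + 1) => x (Fin.castLE (by omega) i))
      ≤ C * L * (Y / S.card) * (A * (1 + (n + 1) * (k : ℝ) ^ 2) ^ n) :=
        mul_le_mul_of_nonneg_left (h4.trans h6) (mul_nonneg (mul_nonneg hC hL) hYM)
    _ = _ := by ring

private theorem cbb_spread {k : ℕ} (a : Fin k → ℕ) {n : ℕ} (l : Fin (n + 1)) (x : Fin (n + 1) → ℕ) :
    spread a (fun i => x (i + l)) ↔ spread a x := by
  constructor
  · intro h i j hij
    have h1 := h (i - l) (j - l) (fun h2 => hij (sub_left_injective h2))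
    simpa only [sub_add_cancel] using h1
  · intro h i j hij
    exact h (i + l) (j + l) (fun h2 => hij (add_right_cancel h2))

theorem caseB1 {k : ℕ} (hk : 1 ≤ k) (a : Fin k → ℕ) (ha : Function.Injective a) (r : ℕ) (hr : 1 ≤ r)
    (A : ℝ) (hA : 0 ≤ A) (n : ℕ) (hn : r ≤ n + 1) :
    ∃ q N0 : ℕ, ∀ N : ℕ, N0 ≤ N → ∃ C : ℝ, 0 ≤ C ∧ ∃ X0 : ℕ, ∀ X : ℕ, X0 ≤ X → ∀ z : ℕ, z ^ 120 ≤ X →
    ∀ (S : Finset ℕ) (H : ℕ), S ⊆ Icc 1 H → S.Nonempty → H ≤ X →
    (energy r S : ℝ) * H ≤ A * (S.card : ℝ) ^ (2 * r) → (VV N z)⁻¹ ^ k ≤ S.card →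
    ∑ x ∈ walks n H, cyc (ker S) x * |TT a N z X x| * ind (¬ spread a x ∧ run a r x) ≤
      C * LL X ^ q * ((VV N z)⁻¹ ^ k / S.card) := by
  obtain ⟨m, rfl⟩ : ∃ m, r = m + 1 := ⟨r - 1, by omega⟩
  obtain ⟨n', rfl⟩ : ∃ n', n = n' + m := ⟨n - m, by omega⟩
  obtain ⟨q, N0, hq⟩ := T_deg a ha (n' + m + 1)
  refine ⟨q, N0, fun N hN => ?_⟩
  obtain ⟨C, hC, X0, hX⟩ := hq N hN
  refine ⟨((n' + m + 1 : ℕ) : ℝ) * (C * A * (1 + (n' + 1) * (k : ℝ) ^ 2) ^ n'), by positivity, X0,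
    fun X hX0 z hz S H hSH hS hHX hE hY => ?_⟩
  have hL : 0 ≤ LL X ^ q := pow_nonneg (cbb_LL X) q
  have hYM : 0 ≤ (VV N z)⁻¹ ^ k / (S.card : ℝ) := div_nonneg (cbb_Y k N z) (Nat.cast_nonneg _)
  have hend := cbb_end a n' m N z X C (LL X ^ q) A ((VV N z)⁻¹ ^ k) hC hL hA S H hSH hS hHX hE
    (cbb_Y k N z) hY (hX X hX0 z hz)
  set F : (Fin (n' + m + 1) → ℕ) → ℝ := fun x => cyc (ker S) x * |TT a N z X x| *
      ind (¬ spread a x ∧ ∀ i : Fin (n' + m + 1), n' < i.val → ∀ j, j ≠ i →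
        ¬ close a (x i) (x j)) with hF
  have h1 : ∀ x ∈ walks (n' + m) H,
      cyc (ker S) x * |TT a N z X x| * ind (¬ spread a x ∧ run a (m + 1) x) ≤
        ∑ l : Fin (n' + m + 1), F (fun i => x (i + l)) := by
    intro x _
    have hcyc := cyc_nonneg (ker S) (ker_nonneg S) x
    have hnn : ∀ y : Fin (n' + m + 1) → ℕ, 0 ≤ F y := fun y =>
      mul_nonneg (mul_nonneg (cyc_nonneg (ker S) (ker_nonneg S) y) (abs_nonneg _)) (ind_nonneg _)
    by_cases hev : ¬ spread a x ∧ run a (m + 1) x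
    · obtain ⟨l, hl⟩ := hev.2
      have h2 : F (fun i => x (i + l)) = cyc (ker S) x * |TT a N z X x| := by
        have h3 : ¬ spread a (fun i => x (i + l)) ∧ ∀ i : Fin (n' + m + 1), n' < i.val →
            ∀ j, j ≠ i → ¬ close a (x (i + l)) (x (j + l)) := by
          refine ⟨fun h4 => hev.1 ((cbb_spread a l x).1 h4), fun i hi j hj => hl i ?_ j hj⟩
          omega
        simp only [hF]
        rw [ind_of h3, mul_one, cyc_rot, TT_rot]
      rw [ind_of hev, mul_one, ← h2]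
      exact Finset.single_le_sum (f := fun l : Fin (n' + m + 1) => F (fun i => x (i + l)))
        (fun l _ => hnn _) (Finset.mem_univ l)
    · rw [ind_of_not hev, mul_zero]
      exact Finset.sum_nonneg fun l _ => hnn _
  refine (Finset.sum_le_sum h1).trans ?_
  rw [Finset.sum_comm]
  have h2 : ∀ l ∈ (Finset.univ : Finset (Fin (n' + m + 1))),
      ∑ x ∈ walks (n' + m) H, F (fun i => x (i + l)) ≤
        C * A * (1 + (n' + 1) * (k : ℝ) ^ 2) ^ n' * LL X ^ q * ((VV N z)⁻¹ ^ k / S.card) := by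
    intro l _
    rw [rot_sum (n' + m) H l F]
    exact hend
  refine (Finset.sum_le_sum h2).trans ?_
  rw [Finset.sum_const, Finset.card_univ, Fintype.card_fin, nsmul_eq_mul]
  apply le_of_eq
  ring

theorem caseB2 {k : ℕ} (hk : 1 ≤ k) (a : Fin k → ℕ) (ha : Function.Injective a) (r : ℕ) (hr : 1 ≤ r)
    (c n : ℕ) (hn : r * ((1 + k ^ 2) * (c + 1)) ≤ n + 1) :
    ∃ q N0 : ℕ, ∀ N : ℕ, N0 ≤ N → ∃ C : ℝ, 0 ≤ C ∧ ∃ X0 : ℕ, ∀ X : ℕ, X0 ≤ X → ∀ z : ℕ, z ^ 120 ≤ X →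
    ∀ (S : Finset ℕ) (H : ℕ), S ⊆ Icc 1 H → S.Nonempty → H ≤ X → (VV N z)⁻¹ ^ k ≤ S.card →
    ∑ x ∈ walks n H, cyc (ker S) x * |TT a N z X x| * ind (¬ run a r x) ≤
      C * LL X ^ q * (H / S.card * ((VV N z)⁻¹ ^ k / S.card) ^ c) := by
  obtain ⟨q, N0, hq⟩ := T_deg a ha (n + 1)
  refine ⟨q, N0, fun N hN => ?_⟩
  obtain ⟨C, hC, X0, hX⟩ := hq N hN
  refine ⟨C * (1 + (n + 1) * (k : ℝ) ^ 2) ^ n, by positivity, X0,
    fun X hX0 z hz S H hSH hS hHX hY => ?_⟩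
  have hL : 0 ≤ LL X ^ q := pow_nonneg (cbb_LL X) q
  have hM := cbb_card hS
  have hM0 : (0 : ℝ) < S.card := by linarith
  have hY0 := cbb_Y k N z
  have hYM : 0 ≤ (VV N z)⁻¹ ^ k / (S.card : ℝ) := div_nonneg hY0 hM0.le
  have h1 : ∀ x ∈ walks n H,
      cyc (ker S) x * |TT a N z X x| * ind (¬ run a r x) ≤
        C * LL X ^ q * ((VV N z)⁻¹ ^ k / S.card) ^ c * (1 / S.card) *
          (opn (ker S) x * (S.card : ℝ) ^ ret a x) := by
    intro x hx
    have hcyc := cyc_nonneg (ker S) (ker_nonneg S) x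
    have hopn := opn_nonneg (ker S) (ker_nonneg S) x
    by_cases hev : ¬ run a r x
    · rw [ind_of hev, mul_one]
      obtain ⟨I, hI, hcard⟩ := exists_nonret a x
      have hc := ret_large hk a r hr c n hn x hev
      have h2 := hX X hX0 z hz x (fun i => (cbb_walk hx i).le.trans hHX) I hI
      rw [hcard] at h2
      have h3 := cbb_pow hY0 hM hY hc
      have h4 : |TT a N z X x| ≤ C * LL X ^ q * (((VV N z)⁻¹ ^ k / S.card) ^ c *
          (S.card : ℝ) ^ ret a x) :=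
        h2.trans (mul_le_mul_of_nonneg_left h3 (mul_nonneg hC hL))
      have h5 : cyc (ker S) x ≤ opn (ker S) x * (1 / S.card) := by
        rw [cyc_eq]
        exact mul_le_mul_of_nonneg_left (ker_le S _ _) hopn
      have h6 : 0 ≤ opn (ker S) x * (1 / (S.card : ℝ)) := mul_nonneg hopn (by positivity)
      calc cyc (ker S) x * |TT a N z X x| ≤ (opn (ker S) x * (1 / S.card)) *
            (C * LL X ^ q * (((VV N z)⁻¹ ^ k / S.card) ^ c * (S.card : ℝ) ^ ret a x)) :=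
            mul_le_mul h5 h4 (abs_nonneg _) h6
        _ = _ := by ring
    · rw [ind_of_not hev, mul_zero]
      exact mul_nonneg (mul_nonneg (mul_nonneg (mul_nonneg hC hL) (pow_nonneg hYM c))
        (by positivity)) (mul_nonneg hopn (by positivity))
  refine (Finset.sum_le_sum h1).trans ?_
  rw [← Finset.mul_sum]
  have h5 := open_ret a (ker S) H (ker_nonneg S) (fun s => sum_ker_le S (range H) s) S.card hM
    (cbb_kM hS) n
  calc C * LL X ^ q * ((VV N z)⁻¹ ^ k / S.card) ^ c * (1 / S.card) *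
        ∑ x ∈ walks n H, opn (ker S) x * (S.card : ℝ) ^ ret a x
      ≤ C * LL X ^ q * ((VV N z)⁻¹ ^ k / S.card) ^ c * (1 / S.card) *
        (H * (1 + (n + 1) * (k : ℝ) ^ 2) ^ n) :=
        mul_le_mul_of_nonneg_left h5 (mul_nonneg (mul_nonneg (mul_nonneg hC hL)
          (pow_nonneg hYM c)) (by positivity))
    _ = _ := by ring

end Pool.Agent.Helper39.SP
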