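import Pool.Agent.Helper39.SP.Defs
import Pool.Agent.Helper40.DB.Fund

/-!
# SP-09: the correlations of the sifted sets for a fixed set of shifts

MODEL: `Pool/Agent/Helper40/DB/Corr.lean` (theorem `corr`), which is the same for cubes; the private lemmas there (`forb`, `forb_card`, `mem_forb`,
`VV_pos`, `VV_le_one`) can be copied.
PROOF. `C` is the constant of `Helper40.DB.fund t`; `P = PP N z`, `t ≤ N < p` for `p ∈ P`. With `m = a - 1 + x`, `x ∈ [1, L]`:
`nuD N z W D m = V^(-|D|)` if no `p ∈ P` divides one of the `W (a - 1 + x) + d`, and `0` otherwise. Let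
`Z p = {x < p | ∃ d ∈ D, p ∣ W (a - 1 + x) + d}`; the condition on `x` depends on `x % p` only, and `(Z p).card = rhoD D p`, since
`c ↦ - W⁻¹ c - (a - 1)` in `ZMod p` is a bijection (`W` is invertible mod `p`) which maps the classes of `D` to `Z p`.
`rhoD ≤ D.card ≤ t`. Multiply `fund` by `V^(-|D|) ≤ V^(-t)` (`0 < V ≤ 1`); `V^(-|D|) ∏ (1 - rhoD/p) = SSD N z D`.
-/

set_option autoImplicit false

namespace Pool.Agent.Helper39.SP

open Finset
open Pool.Agent.Helper40.DB (PP VV DD)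

/-- The forbidden residue classes. -/
private noncomputable def forb (W : ℕ) (a : ℤ) (D : Finset ℤ) (p : ℕ) : Finset ℕ :=
  open Classical in ((D.image fun d => ((d : ℤ) : ZMod p)).image
    fun c => (-((W : ZMod p)⁻¹ * c) - ((a - 1 : ℤ) : ZMod p)).val)

private lemma forb_sub (W : ℕ) (a : ℤ) (D : Finset ℤ) {p : ℕ} (hp : p.Prime) :
    forb W a D p ⊆ range p := by
  classical
  have : Fact p.Prime := ⟨hp⟩
  intro x hx
  unfold forb at hx
  rw [mem_image] at hx
  obtain ⟨c, -, rfl⟩ := hx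
  exact mem_range.2 (ZMod.val_lt _)

private lemma forb_card {W : ℕ} (a : ℤ) (D : Finset ℤ) {p : ℕ} (hp : p.Prime) (hpW : ¬ p ∣ W) :
    (forb W a D p).card = rhoD D p := by
  classical
  have : Fact p.Prime := ⟨hp⟩
  have hW : (W : ZMod p) ≠ 0 := by
    rwa [Ne, ZMod.natCast_eq_zero_iff]
  unfold forb rhoD
  rw [card_image_of_injective]
  intro c c' hcc
  have h1 := ZMod.val_injective p hcc
  have h2 := sub_left_injective h1
  have h3 := neg_injective h2
  exact mul_left_cancel₀ (inv_ne_zero hW) h3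

private lemma mem_forb {W : ℕ} (a : ℤ) (D : Finset ℤ) {p : ℕ} (hp : p.Prime) (hpW : ¬ p ∣ W)
    (x : ℕ) : x % p ∈ forb W a D p ↔ ∃ d ∈ D, (p : ℤ) ∣ W * (a - 1 + x) + d := by
  classical
  have : Fact p.Prime := ⟨hp⟩
  have hW : (W : ZMod p) ≠ 0 := by
    rwa [Ne, ZMod.natCast_eq_zero_iff]
  unfold forb
  rw [mem_image]
  constructor
  · rintro ⟨c, hc, hx⟩
    rw [mem_image] at hc
    obtain ⟨d, hd, rfl⟩ := hc
    refine ⟨d, hd, ?_⟩
    rw [← ZMod.val_natCast] at hx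
    have h1 := ZMod.val_injective p hx
    rw [← ZMod.intCast_zmod_eq_zero_iff_dvd]
    push_cast at h1 ⊢
    rw [← h1]
    field_simp
    ring
  · rintro ⟨d, hd, hdv⟩
    refine ⟨_, mem_image.2 ⟨d, hd, rfl⟩, ?_⟩
    rw [← ZMod.val_natCast]
    congr 1
    rw [← ZMod.intCast_zmod_eq_zero_iff_dvd] at hdv
    push_cast at hdv ⊢
    have h2 : (d : ZMod p) = -((W : ZMod p) * ((a : ZMod p) - 1 + x)) := by
      linear_combination hdv
    rw [h2]
    field_simp
    ring

private lemma rhoD_le (D : Finset ℤ) (p : ℕ) : rhoD D p ≤ D.card := by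
  classical
  unfold rhoD
  exact card_image_le

private lemma VV_pos' (N z : ℕ) : 0 < VV N z := by
  unfold VV
  apply prod_pos
  intro p hp
  have h1 : p.Prime := (mem_filter.1 hp).2
  have h2 : (2 : ℝ) ≤ p := by exact_mod_cast h1.two_le
  have h3 : 1 / (p : ℝ) ≤ 1 / 2 := one_div_le_one_div_of_le (by norm_num) h2
  linarith

private lemma VV_le_one' (N z : ℕ) : VV N z ≤ 1 := by
  unfold VV
  apply prod_le_one
  · intro p hp
    have h1 : p.Prime := (mem_filter.1 hp).2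
    have h2 : (2 : ℝ) ≤ p := by exact_mod_cast h1.two_le
    have h3 : 1 / (p : ℝ) ≤ 1 / 2 := one_div_le_one_div_of_le (by norm_num) h2
    linarith
  · intro p _
    have : 0 ≤ 1 / (p : ℝ) := by positivity
    linarith

theorem corrD (t : ℕ) : ∃ C : ℝ, 0 ≤ C ∧ ∀ (N z W : ℕ), t ≤ N → (∀ p ∈ PP N z, ¬ p ∣ W) →
    ∀ E : ℕ, Nat.log 2 z ≤ E → ∀ D : Finset ℤ, D.card ≤ t → ∀ b : ℕ, 1 ≤ b → ∀ (a : ℤ) (L : ℕ),
    |∑ m ∈ Ico a (a + L), nuD N z W D m - L * SSD N z D| ≤
      C * (1 / 4) ^ b * (L * SSD N z D) + (VV N z)⁻¹ ^ t * ((2 * E + 3) * 2 ^ (20 * E * (b + 2))) := by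
  classical
  obtain ⟨C, hC0, hC⟩ := Pool.Agent.Helper40.DB.fund t
  refine ⟨C, hC0, ?_⟩
  intro N z W hN hW E hE D hD b hb a L
  have hP : ∀ p ∈ PP N z, p.Prime ∧ t < p := by
    intro p hp
    unfold PP at hp
    rw [mem_filter, mem_Ioc] at hp
    exact ⟨hp.2, lt_of_le_of_lt hN hp.1.1⟩
  have hlog : ∀ p ∈ PP N z, Nat.log 2 p ≤ E := by
    intro p hp
    unfold PP at hp
    rw [mem_filter, mem_Ioc] at hp
    exact (Nat.log_mono_right hp.1.2).trans hE
  have hZ : ∀ p ∈ PP N z, forb W a D p ⊆ range p ∧ (forb W a D p).card ≤ t := by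
    intro p hp
    refine ⟨forb_sub W a D (hP p hp).1, ?_⟩
    rw [forb_card a D (hP p hp).1 (hW p hp)]
    exact (rhoD_le D p).trans hD
  have hf := hC (PP N z) hP E hlog (forb W a D) hZ b hb L
  set S : Finset ℕ := (Icc 1 L).filter (fun m => ∀ p ∈ PP N z, m % p ∉ forb W a D p) with hS
  have hprod : ∏ p ∈ PP N z, (1 - ((forb W a D p).card : ℝ) / p) =
      ∏ p ∈ PP N z, (1 - (rhoD D p : ℝ) / p) := by
    apply prod_congr rfl
    intro p hp
    rw [forb_card a D (hP p hp).1 (hW p hp)]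
  rw [hprod] at hf
  have hsum : ∑ m ∈ Ico a (a + L), nuD N z W D m = (VV N z)⁻¹ ^ D.card * S.card := by
    have h1 : ∑ m ∈ Ico a (a + L), nuD N z W D m =
        ∑ x ∈ Icc 1 L, nuD N z W D (a - 1 + (x : ℤ)) := by
      refine sum_nbij' (fun m => (m - a + 1).toNat) (fun x => a - 1 + (x : ℤ)) ?_ ?_ ?_ ?_ ?_
      · intro m hm
        rw [mem_Ico] at hm
        rw [mem_Icc]
        omega
      · intro x hx
        rw [mem_Icc] at hx
        rw [mem_Ico]
        omega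
      · intro m hm
        rw [mem_Ico] at hm
        omega
      · intro x hx
        rw [mem_Icc] at hx
        omega
      · intro m hm
        rw [mem_Ico] at hm
        congr 1
        omega
    rw [h1]
    have h2 : ∀ x ∈ Icc 1 L, nuD N z W D (a - 1 + (x : ℤ)) =
        if ∀ p ∈ PP N z, x % p ∉ forb W a D p then (VV N z)⁻¹ ^ D.card else 0 := by
      intro x _
      unfold nuD
      have h3 : (∀ p ∈ PP N z, ∀ d ∈ D, ¬ (p : ℤ) ∣ W * (a - 1 + (x : ℤ)) + d) ↔
          ∀ p ∈ PP N z, x % p ∉ forb W a D p := by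
        constructor
        · intro h p hp hx
          obtain ⟨d, hd, hdv⟩ := (mem_forb a D (hP p hp).1 (hW p hp) x).1 hx
          exact h p hp d hd hdv
        · intro h p hp d hd hdv
          exact h p hp ((mem_forb a D (hP p hp).1 (hW p hp) x).2 ⟨d, hd, hdv⟩)
      by_cases h4 : ∀ p ∈ PP N z, x % p ∉ forb W a D p
      · rw [if_pos h4, if_pos (h3.2 h4)]
      · rw [if_neg h4, if_neg (fun h => h4 (h3.1 h))]
    rw [sum_congr rfl h2, ← sum_filter, sum_const, nsmul_eq_mul, mul_comm]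
  have hSS : SSD N z D = (VV N z)⁻¹ ^ D.card * ∏ p ∈ PP N z, (1 - (rhoD D p : ℝ) / p) := by
    unfold SSD VV
    rw [prod_div_distrib, prod_pow, inv_pow, div_eq_mul_inv, mul_comm]
  have hV := VV_pos' N z
  have hV1 : 1 ≤ (VV N z)⁻¹ := (one_le_inv₀ hV).2 (VV_le_one' N z)
  rw [hsum, hSS]
  set U : ℝ := (VV N z)⁻¹ ^ D.card with hU
  have hU0 : 0 < U := by positivity
  have hUle : U ≤ (VV N z)⁻¹ ^ t := pow_le_pow_right₀ hV1 hD
  set R : ℝ := ∏ p ∈ PP N z, (1 - (rhoD D p : ℝ) / p) with hR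
  have e1 : U * (S.card : ℝ) - L * (U * R) = U * ((S.card : ℝ) - L * R) := by ring
  rw [e1, abs_mul, abs_of_pos hU0]
  calc U * |(S.card : ℝ) - L * R|
      ≤ U * (C * (1 / 4) ^ b * (L * R) + (2 * E + 3) * 2 ^ (20 * E * (b + 2))) :=
        mul_le_mul_of_nonneg_left hf hU0.le
    _ = C * (1 / 4) ^ b * (L * (U * R)) + U * ((2 * E + 3) * 2 ^ (20 * E * (b + 2))) := by ring
    _ ≤ _ := by
        gcongr

end Pool.Agent.Helper39.SP
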