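import Mathlib

/-!
# SP-05: powers of a quadratic form and a trace

PROOF. Let `T = Aᵀ * diagonal Φ * A`, a symmetric matrix; the left side is `|v ⬝ᵥ T v| ^ (2 ^ j)`.
(1) By induction on `j ≥ 1`: `|v ⬝ T v| ^ (2 ^ j) ≤ (v ⬝ v) ^ (2 ^ j - 1) * (v ⬝ T ^ (2 ^ j) v)`. `j = 1`: Cauchy-Schwarz and symmetry,
`(v ⬝ T v) ^ 2 ≤ (v ⬝ v) (T v ⬝ T v) = (v ⬝ v) (v ⬝ T ^ 2 v)`. Step: square, and `(v ⬝ B v) ^ 2 ≤ (v ⬝ v) (v ⬝ B ^ 2 v)` for the symmetric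
`B = T ^ (2 ^ j)`.
(2) For symmetric `B = T ^ (2 ^ (j - 1))`: `v ⬝ B ^ 2 v = B v ⬝ B v ≤ (∑_(r, r') B r r' ^ 2) (v ⬝ v) = trace (B * B) (v ⬝ v)` (Cauchy-Schwarz in
every coordinate).
(3) `trace ((Aᵀ D A) ^ N) = trace ((D (A Aᵀ)) ^ N)` for `N ≥ 1`: `(Aᵀ (D A)) ^ N = Aᵀ ((D A) Aᵀ) ^ (N - 1) (D A)` (induction) and
`Matrix.trace_mul_comm`. (There may be a Mathlib lemma `Matrix.trace_mul_pow..`/`mul_pow_mul`: `mul_mul_pow_..`.)
-/

set_option autoImplicit false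

namespace Pool.Agent.Helper39.SP

open Finset

private lemma spc_cyc {ι ρ : Type} [Fintype ι] [DecidableEq ι] [Fintype ρ] [DecidableEq ρ]
    (X : Matrix ρ ι ℝ) (Y : Matrix ι ρ ℝ) (n : ℕ) :
    (X * Y) ^ (n + 1) = X * ((Y * X) ^ n * Y) := by
  induction n with
  | zero => simp
  | succ n ih =>
    rw [pow_succ, ih, pow_succ]
    simp only [Matrix.mul_assoc]

private lemma spc_trace_cyc {ι ρ : Type} [Fintype ι] [DecidableEq ι] [Fintype ρ] [DecidableEq ρ]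
    (X : Matrix ρ ι ℝ) (Y : Matrix ι ρ ℝ) (n : ℕ) (hn : n ≠ 0) :
    Matrix.trace ((Y * X) ^ n) = Matrix.trace ((X * Y) ^ n) := by
  obtain ⟨m, rfl⟩ := Nat.exists_eq_succ_of_ne_zero hn
  rw [Nat.succ_eq_add_one, spc_cyc X Y m, Matrix.trace_mul_comm, Matrix.mul_assoc, ← pow_succ]

private lemma spc_trace_sq {ρ : Type} [Fintype ρ] [DecidableEq ρ] (T : Matrix ρ ρ ℝ)
    (hT : T.transpose = T) : Matrix.trace (T * T) = ∑ r, ∑ s, T r s ^ 2 := by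
  rw [Matrix.trace]
  refine Finset.sum_congr rfl fun r _ => ?_
  rw [Matrix.diag_apply, Matrix.mul_apply]
  refine Finset.sum_congr rfl fun s _ => ?_
  have : T s r = T r s := by
    conv_lhs => rw [← hT]
    rfl
  rw [this]
  ring

private lemma spc_q {ρ : Type} [Fintype ρ] [DecidableEq ρ] (T : Matrix ρ ρ ℝ)
    (hT : T.transpose = T) (v : ρ → ℝ) :
    ∑ r, (T.mulVec v r) ^ 2 = ∑ r, v r * (T * T).mulVec v r := by
  have h : T.mulVec v ⬝ᵥ T.mulVec v = v ⬝ᵥ (T * T).mulVec v := by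
    rw [← Matrix.mulVec_mulVec, Matrix.dotProduct_mulVec v, ← Matrix.mulVec_transpose, hT]
  simp only [dotProduct] at h
  rw [← h]
  refine Finset.sum_congr rfl fun r _ => ?_
  ring

private lemma spc_cs {ρ : Type} [Fintype ρ] [DecidableEq ρ] (T : Matrix ρ ρ ℝ)
    (hT : T.transpose = T) (v : ρ → ℝ) :
    (∑ r, v r * T.mulVec v r) ^ 2 ≤ (∑ r, v r ^ 2) * ∑ r, v r * (T * T).mulVec v r := by
  rw [← spc_q T hT v]
  exact Finset.sum_mul_sq_le_sq_mul_sq _ _ _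

private lemma spc_base {ρ : Type} [Fintype ρ] [DecidableEq ρ] (T : Matrix ρ ρ ℝ)
    (hT : T.transpose = T) (v : ρ → ℝ) :
    (∑ r, v r * T.mulVec v r) ^ 2 ≤ (∑ r, v r ^ 2) ^ 2 * Matrix.trace (T * T) := by
  have h1 := spc_cs T hT v
  rw [← spc_q T hT v] at h1
  have h2 : ∑ r, (T.mulVec v r) ^ 2 ≤ (∑ r, ∑ s, T r s ^ 2) * ∑ r, v r ^ 2 := by
    rw [Finset.sum_mul]
    refine Finset.sum_le_sum fun r _ => ?_
    rw [Matrix.mulVec, dotProduct]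
    exact Finset.sum_mul_sq_le_sq_mul_sq _ _ _
  have h3 : (0 : ℝ) ≤ ∑ r, v r ^ 2 := Finset.sum_nonneg fun r _ => sq_nonneg _
  rw [spc_trace_sq T hT]
  calc (∑ r, v r * T.mulVec v r) ^ 2 ≤ (∑ r, v r ^ 2) * ∑ r, (T.mulVec v r) ^ 2 := h1
    _ ≤ (∑ r, v r ^ 2) * ((∑ r, ∑ s, T r s ^ 2) * ∑ r, v r ^ 2) :=
        mul_le_mul_of_nonneg_left h2 h3
    _ = (∑ r, v r ^ 2) ^ 2 * ∑ r, ∑ s, T r s ^ 2 := by ring

private lemma spc_main {ρ : Type} [Fintype ρ] [DecidableEq ρ] (v : ρ → ℝ) (j : ℕ) :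
    ∀ T : Matrix ρ ρ ℝ, T.transpose = T →
      |∑ r, v r * T.mulVec v r| ^ (2 ^ (j + 1)) ≤
        (∑ r, v r ^ 2) ^ (2 ^ (j + 1)) * Matrix.trace (T ^ (2 ^ (j + 1))) := by
  have h3 : (0 : ℝ) ≤ ∑ r, v r ^ 2 := Finset.sum_nonneg fun r _ => sq_nonneg _
  induction j with
  | zero =>
    intro T hT
    have h := spc_base T hT v
    rw [zero_add, pow_one, sq_abs, pow_two T]
    exact h
  | succ j ih =>
    intro T hT
    have hTT : (T * T).transpose = T * T := by rw [Matrix.transpose_mul, hT]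
    have h1 := ih (T * T) hTT
    have h2 := spc_cs T hT v
    have h4 : 0 ≤ ∑ r, v r * (T * T).mulVec v r := by
      rw [← spc_q T hT v]
      exact Finset.sum_nonneg fun r _ => sq_nonneg _
    rw [abs_of_nonneg h4] at h1
    have e : 2 ^ (j + 1 + 1) = 2 * 2 ^ (j + 1) := by ring
    rw [e, pow_mul, sq_abs, pow_mul T, pow_two T]
    calc ((∑ r, v r * T.mulVec v r) ^ 2) ^ (2 ^ (j + 1))
        ≤ ((∑ r, v r ^ 2) * ∑ r, v r * (T * T).mulVec v r) ^ (2 ^ (j + 1)) :=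
          pow_le_pow_left₀ (sq_nonneg _) h2 _
      _ = (∑ r, v r ^ 2) ^ (2 ^ (j + 1)) * (∑ r, v r * (T * T).mulVec v r) ^ (2 ^ (j + 1)) := by
          rw [mul_pow]
      _ ≤ (∑ r, v r ^ 2) ^ (2 ^ (j + 1)) * ((∑ r, v r ^ 2) ^ (2 ^ (j + 1)) *
            Matrix.trace ((T * T) ^ (2 ^ (j + 1)))) :=
          mul_le_mul_of_nonneg_left h1 (pow_nonneg h3 _)
      _ = (∑ r, v r ^ 2) ^ (2 * 2 ^ (j + 1)) * Matrix.trace ((T * T) ^ (2 ^ (j + 1))) := by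
          rw [← mul_assoc, ← pow_add, two_mul]

private lemma spc_symm {ι ρ : Type} [Fintype ι] [DecidableEq ι] [Fintype ρ] [DecidableEq ρ]
    (Φ : ι → ℝ) (A : Matrix ι ρ ℝ) :
    (A.transpose * (Matrix.diagonal Φ * A)).transpose = A.transpose * (Matrix.diagonal Φ * A) := by
  rw [Matrix.transpose_mul, Matrix.transpose_mul, Matrix.transpose_transpose,
    Matrix.diagonal_transpose, Matrix.mul_assoc]

private lemma spc_trace_eq {ι ρ : Type} [Fintype ι] [DecidableEq ι] [Fintype ρ] [DecidableEq ρ]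
    (Φ : ι → ℝ) (A : Matrix ι ρ ℝ) (n : ℕ) (hn : n ≠ 0) :
    Matrix.trace ((Matrix.diagonal Φ * (A * A.transpose)) ^ n) =
      Matrix.trace ((A.transpose * (Matrix.diagonal Φ * A)) ^ n) := by
  rw [← Matrix.mul_assoc]
  exact spc_trace_cyc A.transpose (Matrix.diagonal Φ * A) n hn

private lemma spc_form {ι ρ : Type} [Fintype ι] [DecidableEq ι] [Fintype ρ] [DecidableEq ρ]
    (Φ : ι → ℝ) (A : Matrix ι ρ ℝ) (v : ρ → ℝ) :
    ∑ i, Φ i * (A.mulVec v i) ^ 2 =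
      ∑ r, v r * (A.transpose * (Matrix.diagonal Φ * A)).mulVec v r := by
  have h : v ⬝ᵥ (A.transpose * (Matrix.diagonal Φ * A)).mulVec v =
      A.mulVec v ⬝ᵥ (Matrix.diagonal Φ).mulVec (A.mulVec v) := by
    rw [← Matrix.mulVec_mulVec, ← Matrix.mulVec_mulVec, Matrix.dotProduct_mulVec v,
      Matrix.vecMul_transpose]
  simp only [dotProduct] at h
  rw [h]
  refine Finset.sum_congr rfl fun i _ => ?_
  rw [Matrix.mulVec_diagonal]
  ring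

theorem trace_ineq {ι ρ : Type} [Fintype ι] [DecidableEq ι] [Fintype ρ] [DecidableEq ρ] (Φ : ι → ℝ)
    (A : Matrix ι ρ ℝ) (v : ρ → ℝ) (j : ℕ) (hj : 1 ≤ j) :
    |∑ i, Φ i * (A.mulVec v i) ^ 2| ^ (2 ^ j) ≤
      (∑ r, v r ^ 2) ^ (2 ^ j) * Matrix.trace ((Matrix.diagonal Φ * (A * A.transpose)) ^ (2 ^ j)) := by
  obtain ⟨k, rfl⟩ := Nat.exists_eq_add_of_le' hj
  rw [spc_form, spc_trace_eq Φ A _ (by positivity)]
  exact spc_main v k _ (spc_symm Φ A)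

/-- The trace is nonnegative (it is the trace of `B * B` for the symmetric matrix `B = (Aᵀ D A) ^ (2 ^ (j - 1))`). -/
theorem trace_nonneg {ι ρ : Type} [Fintype ι] [DecidableEq ι] [Fintype ρ] [DecidableEq ρ] (Φ : ι → ℝ)
    (A : Matrix ι ρ ℝ) (j : ℕ) (hj : 1 ≤ j) :
    0 ≤ Matrix.trace ((Matrix.diagonal Φ * (A * A.transpose)) ^ (2 ^ j)) := by
  obtain ⟨k, rfl⟩ := Nat.exists_eq_add_of_le' hj
  rw [spc_trace_eq Φ A _ (by positivity)]
  have e : 2 ^ (k + 1) = 2 ^ k + 2 ^ k := by ring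
  rw [e, pow_add, spc_trace_sq]
  · exact Finset.sum_nonneg fun r _ => Finset.sum_nonneg fun s _ => sq_nonneg _
  · rw [Matrix.transpose_pow, spc_symm Φ A]

end Pool.Agent.Helper39.SP
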