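import Pool.Agent.Helper40.DB.Defs
import Pool.Agent.Helper83.HLC.Defs

/-!
# Project SP (MP_e6fa8b): Hardy-Littlewood-Chowla on average over sparse sets of shifts: definitions
-/

set_option autoImplicit false

namespace Pool.Agent.Helper39.SP

open Finset
open Pool.Agent.Helper40.DB (PP VV DD)

/-- The number of pairs of `r`-tuples of elements of `S` with equal sums. -/
def energy (r : ℕ) (S : Finset ℕ) : ℕ :=
  (((Fintype.piFinset fun _ : Fin r => S) ×ˢ (Fintype.piFinset fun _ : Fin r => S)).filter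
    fun u => ∑ i, u.1 i = ∑ i, u.2 i).card

/-- The normalised autocorrelation of the signs `e` on `S`. -/
noncomputable def kap (S : Finset ℕ) (e : ℕ → ℝ) (t : ℤ) : ℝ :=
  (∑ u ∈ (S ×ˢ S).filter (fun u => (u.1 : ℤ) - u.2 = t), e u.1 * e u.2) / (S.card : ℝ) ^ 2

/-- The autocorrelation of `S` as a kernel. -/
noncomputable def ker (S : Finset ℕ) (s t : ℕ) : ℝ := kap S (fun _ => 1) ((t : ℤ) - s)

/-- The average of `f` over the translate of `S`, with the signs `e`. -/
noncomputable def av (S : Finset ℕ) (e f : ℕ → ℝ) (n : ℕ) : ℝ :=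
  (∑ h ∈ S, e h * f (n + h)) / S.card

/-- The sum over the paths of `m + 1` steps from `s` to `t` with intermediate points in `J`. -/
noncomputable def path (K : ℕ → ℕ → ℝ) (J : Finset ℕ) : ℕ → ℕ → ℕ → ℝ
  | 0, s, t => K s t
  | m + 1, s, t => ∑ z ∈ J, K s z * path K J m z t

/-- The weight of a closed walk. -/
noncomputable def cyc (K : ℕ → ℕ → ℝ) {n : ℕ} (x : Fin (n + 1) → ℕ) : ℝ := ∏ i, K (x i) (x (i + 1))

/-- The weight of an open walk. -/
noncomputable def opn (K : ℕ → ℕ → ℝ) {n : ℕ} (x : Fin (n + 1) → ℕ) : ℝ :=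
  ∏ i : Fin n, K (x i.castSucc) (x i.succ)

/-- The walks with `n + 1` points in `{0, ..., H - 1}`. -/
def walks (n H : ℕ) : Finset (Fin (n + 1) → ℕ) := Fintype.piFinset fun _ => range H

/-- The normalised indicator function of the `n` such that no `n + a i` has a prime factor in `(N, z]`. -/
noncomputable def nuA {k : ℕ} (a : Fin k → ℕ) (N z n : ℕ) : ℝ :=
  open Classical in if ∀ p ∈ PP N z, ∀ i, ¬ p ∣ n + a i then (VV N z)⁻¹ ^ k else 0

/-- The difference of the sieve weight and of its part at the primes up to `N`. -/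
noncomputable def phi {k : ℕ} (a : Fin k → ℕ) (N z n : ℕ) : ℝ := nuA a 0 N n * (nuA a N z n - 1)

/-- The correlation of `phi` at the points of `x`. -/
noncomputable def TT {k : ℕ} (a : Fin k → ℕ) (N z X : ℕ) {m : ℕ} (x : Fin m → ℕ) : ℝ :=
  (∑ y ∈ Icc 1 X, ∏ i, phi a N z (y + x i)) / X

/-- `s + a i = t + a j` for some `i` and `j`. -/
def close {k : ℕ} (a : Fin k → ℕ) (s t : ℕ) : Prop := ∃ i j, s + a i = t + a j

/-- The number of the indices `i` for which `x i` is close to an earlier point. -/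
noncomputable def ret {k : ℕ} (a : Fin k → ℕ) {m : ℕ} (x : Fin m → ℕ) : ℕ :=
  open Classical in (univ.filter fun i => ∃ j, j < i ∧ close a (x j) (x i)).card

/-- The normalised indicator function of the `m` such that no `W m + d`, `d ∈ D`, has a prime factor in `(N, z]`. -/
noncomputable def nuD (N z W : ℕ) (D : Finset ℤ) (m : ℤ) : ℝ :=
  open Classical in if ∀ p ∈ PP N z, ∀ d ∈ D, ¬ (p : ℤ) ∣ W * m + d then (VV N z)⁻¹ ^ D.card else 0

/-- The number of residue classes modulo `p` of the elements of `D`. -/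
noncomputable def rhoD (D : Finset ℤ) (p : ℕ) : ℕ :=
  open Classical in (D.image fun d => ((d : ℤ) : ZMod p)).card

/-- The singular series of `D` over the primes in `(N, z]`. -/
noncomputable def SSD (N z : ℕ) (D : Finset ℤ) : ℝ :=
  ∏ p ∈ PP N z, ((1 - (rhoD D p : ℝ) / p) / (1 - 1 / (p : ℝ)) ^ D.card)

/-- The local factor of a difference, minus one. -/
noncomputable def gg (C : ℝ) (N z : ℕ) (t : ℤ) : ℝ := ∏ p ∈ DD N z t, (1 + C / (p : ℝ)) - 1

/-- The iterated logarithm. -/
noncomputable def LL (X : ℝ) : ℝ := 1 + Real.log (1 + Real.log X)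

end Pool.Agent.Helper39.SP
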