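import Pool.Agent.Helper39.SP.Defs

/-!
# Project SP: more definitions
-/

set_option autoImplicit false

namespace Pool.Agent.Helper39.SP

open Finset

open Classical in
/-- The indicator function. -/
noncomputable def ind (p : Prop) : ℝ := if p then 1 else 0

theorem ind_of {p : Prop} (h : p) : ind p = 1 := by unfold ind; rw [if_pos h]

theorem ind_of_not {p : Prop} (h : ¬ p) : ind p = 0 := by unfold ind; rw [if_neg h]

theorem ind_nonneg (p : Prop) : 0 ≤ ind p := by unfold ind; split_ifs <;> norm_num

theorem ind_le_one (p : Prop) : ind p ≤ 1 := by unfold ind; split_ifs <;> norm_num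

/-- No two points of the walk are close. -/
def spread {k : ℕ} (a : Fin k → ℕ) {n : ℕ} (x : Fin (n + 1) → ℕ) : Prop :=
  ∀ i j, i ≠ j → ¬ close a (x i) (x j)

/-- There are `r - 1` cyclically consecutive points each of which is close to no other point. -/
def run {k : ℕ} (a : Fin k → ℕ) (r : ℕ) {n : ℕ} (x : Fin (n + 1) → ℕ) : Prop :=
  ∃ l : Fin (n + 1), ∀ i : Fin (n + 1), n + 1 - r < i.val → ∀ j, j ≠ i → ¬ close a (x (i + l)) (x (j + l))

theorem close_symm {k : ℕ} {a : Fin k → ℕ} {s t : ℕ} (h : close a s t) : close a t s := by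
  obtain ⟨i, j, hij⟩ := h
  exact ⟨j, i, hij.symm⟩

end Pool.Agent.Helper39.SP
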