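import Pool.Agent.Helper39.SP.Main

/-!
# SP-26: the theorem for sets of shifts with small energy

PROOF. Let `u n = (∏ Λ (n + a i)) * g n`, `|Re u|, |Im u| ≤ GG a n`; `‖A_h‖ ≤ |Re A_h| + |Im A_h|`, `Re A_h = ∑_n (Re u n) f (n + h)`.
With the signs `e h = ±1`, `|Re A_h| = e h * Re A_h`: `∑_(h ∈ S) |Re A_h| = ∑_n Re u n ∑_h e h f (n + h) = |S| ∑_n Re u n av S e f n
≤ |S| ∑_n GG a n |av S e f n| ≤ |S| (∑ GG)^(1/2) (∑ GG av^2)^(1/2) ≤ |S| (C X)^(1/2) (ε' X)^(1/2)` (Cauchy-Schwarz; `Helper83.HLC.sum_GG`, `main`);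
`ε' = ε^2 / (4 C)`. The same for `Im`. (For `S = ∅` the left side is `0`.)
-/

set_option autoImplicit false

namespace Pool.Agent.Helper39.SP

open Finset
open Pool.Agent.Helper83.HLC (GG)

private theorem fi_real {k : ℕ} (a : Fin k → ℕ) (S : Finset ℕ) (f u : ℕ → ℝ) (X : ℕ)
    (C E ε : ℝ) (hε : 0 < ε) (hCE : C * E = (ε / 2) ^ 2)
    (hu : ∀ n, |u n| ≤ GG a n) (hG : ∑ n ∈ Icc 1 X, GG a n ≤ C * X)
    (hE0 : 0 ≤ E)
    (hM : ∀ e : ℕ → ℝ, (∀ h, |e h| ≤ 1) → ∑ n ∈ Icc 1 X, GG a n * av S e f n ^ 2 ≤ E * X) :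
    ∑ h ∈ S, |∑ n ∈ Icc 1 X, u n * f (n + h)| ≤ S.card * (ε / 2 * X) := by
  classical
  have hGG : ∀ n, 0 ≤ GG a n := fun n => (abs_nonneg _).trans (hu n)
  obtain ⟨e, he⟩ : ∃ e : ℕ → ℝ, ∀ h, |e h| ≤ 1 ∧
      |∑ n ∈ Icc 1 X, u n * f (n + h)| = e h * ∑ n ∈ Icc 1 X, u n * f (n + h) := by
    refine ⟨fun h => if 0 ≤ ∑ n ∈ Icc 1 X, u n * f (n + h) then 1 else -1, fun h => ?_⟩
    by_cases h0 : 0 ≤ ∑ n ∈ Icc 1 X, u n * f (n + h)
    · simp only [if_pos h0]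
      exact ⟨by norm_num, by rw [abs_of_nonneg h0, one_mul]⟩
    · simp only [if_neg h0]
      exact ⟨by norm_num, by rw [abs_of_neg (not_le.1 h0)]; ring⟩
  have hM' := hM e fun h => (he h).1
  have hav : ∀ n, ∑ h ∈ S, e h * f (n + h) = S.card * av S e f n := by
    intro n
    unfold av
    rcases S.eq_empty_or_nonempty with h0 | h0
    · rw [h0]; simp
    · have h1 : (S.card : ℝ) ≠ 0 := by
        exact_mod_cast (Finset.card_pos.2 h0).ne'
      rw [mul_div_cancel₀ _ h1]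
  have h1 : ∑ h ∈ S, |∑ n ∈ Icc 1 X, u n * f (n + h)| =
      ∑ n ∈ Icc 1 X, u n * (S.card * av S e f n) := by
    rw [Finset.sum_congr rfl fun h _ => (he h).2]
    simp only [Finset.mul_sum]
    rw [Finset.sum_comm]
    refine Finset.sum_congr rfl fun n _ => ?_
    rw [← hav n, Finset.mul_sum]
    refine Finset.sum_congr rfl fun h _ => ?_
    ring
  have h2 : ∑ n ∈ Icc 1 X, u n * (S.card * av S e f n) ≤
      S.card * ∑ n ∈ Icc 1 X, GG a n * |av S e f n| := by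
    rw [Finset.mul_sum]
    refine Finset.sum_le_sum fun n _ => ?_
    have h3 : u n * (S.card * av S e f n) ≤ |u n| * (S.card * |av S e f n|) := by
      calc u n * (S.card * av S e f n) ≤ |u n * (S.card * av S e f n)| := le_abs_self _
        _ = |u n| * (S.card * |av S e f n|) := by
            rw [abs_mul, abs_mul, Nat.abs_cast]
    have h4 : |u n| * (S.card * |av S e f n|) ≤ GG a n * (S.card * |av S e f n|) :=
      mul_le_mul_of_nonneg_right (hu n) (by positivity)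
    calc u n * (S.card * av S e f n) ≤ GG a n * (S.card * |av S e f n|) := h3.trans h4
      _ = _ := by ring
  have h5 : (∑ n ∈ Icc 1 X, GG a n * |av S e f n|) ^ 2 ≤
      (∑ n ∈ Icc 1 X, GG a n) * ∑ n ∈ Icc 1 X, GG a n * av S e f n ^ 2 := by
    apply Finset.sum_sq_le_sum_mul_sum_of_sq_eq_mul
    · intro n _; exact hGG n
    · intro n _; exact mul_nonneg (hGG n) (sq_nonneg _)
    · intro n _
      rw [mul_pow, sq_abs]; ring
  have h6 : (∑ n ∈ Icc 1 X, GG a n) * ∑ n ∈ Icc 1 X, GG a n * av S e f n ^ 2 ≤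
      (ε / 2 * X) ^ 2 := by
    have h7 : 0 ≤ ∑ n ∈ Icc 1 X, GG a n * av S e f n ^ 2 :=
      Finset.sum_nonneg fun n _ => mul_nonneg (hGG n) (sq_nonneg _)
    have h8 : 0 ≤ ∑ n ∈ Icc 1 X, GG a n := Finset.sum_nonneg fun n _ => hGG n
    calc (∑ n ∈ Icc 1 X, GG a n) * ∑ n ∈ Icc 1 X, GG a n * av S e f n ^ 2
        ≤ (C * X) * (E * X) := mul_le_mul hG hM' h7 (h8.trans hG)
      _ = (C * E) * (X : ℝ) ^ 2 := by ring
      _ = (ε / 2 * X) ^ 2 := by rw [hCE]; ring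
  have h9 : ∑ n ∈ Icc 1 X, GG a n * |av S e f n| ≤ ε / 2 * X := by
    have h10 : 0 ≤ ∑ n ∈ Icc 1 X, GG a n * |av S e f n| :=
      Finset.sum_nonneg fun n _ => mul_nonneg (hGG n) (abs_nonneg _)
    exact (sq_le_sq₀ h10 (by positivity)).1 (h5.trans h6)
  rw [h1]
  exact h2.trans (mul_le_mul_of_nonneg_left h9 (Nat.cast_nonneg _))

theorem final (hT : TwoPt) (k : ℕ) (a : Fin k → ℕ) (ha : Function.Injective a) (r : ℕ) (hr : 1 ≤ r) (A : ℝ)
    (hA : 0 ≤ A) (δ : ℝ) (hδ : 0 < δ) (ε : ℝ) (hε : 0 < ε) :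
    ∃ K X0 : ℕ, ∀ X : ℕ, X0 ≤ X → ∀ (S : Finset ℕ) (H : ℕ), S ⊆ Icc 1 H →
    K * Real.log X ^ (k * (1 + δ)) ≤ S.card → K * H ≤ X →
    (energy r S : ℝ) * H ≤ A * (S.card : ℝ) ^ (2 * r) →
    ∀ f : ℕ → ℝ, Cen X f → ∀ g : ℕ → ℂ, (∀ n, ‖g n‖ ≤ 1) →
    ∑ h ∈ S, ‖∑ n ∈ Icc 1 X, (∏ i, (ArithmeticFunction.vonMangoldt (n + a i) : ℂ)) * g n * (f (n + h) : ℂ)‖ ≤
      ε * S.card * X := by
  obtain ⟨C, hC, X1, hS⟩ := Pool.Agent.Helper83.HLC.sum_GG a ha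
  have hE : 0 < ε ^ 2 / (4 * C) := by positivity
  have hCE : C * (ε ^ 2 / (4 * C)) = (ε / 2) ^ 2 := by
    field_simp
    ring
  obtain ⟨K, X2, hM⟩ := main hT a ha r hr A hA δ hδ (ε ^ 2 / (4 * C)) hE
  refine ⟨K, max X1 X2, fun X hX S H hSH hK hKH hen f hf g hg => ?_⟩
  have hG := hS X ((le_max_left _ _).trans hX)
  have hM' : ∀ e : ℕ → ℝ, (∀ h, |e h| ≤ 1) →
      ∑ n ∈ Icc 1 X, GG a n * av S e f n ^ 2 ≤ ε ^ 2 / (4 * C) * X := fun e he =>
    hM X ((le_max_right _ _).trans hX) S H hSH hK hKH hen e he f hf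
  have hGG : ∀ n, 0 ≤ GG a n := fun n =>
    Finset.prod_nonneg fun i _ => ArithmeticFunction.vonMangoldt_nonneg
  have hre := fi_real a S f (fun n => GG a n * (g n).re) X C _ ε hε hCE
    (fun n => by
      rw [abs_mul, abs_of_nonneg (hGG n)]
      exact mul_le_of_le_one_right (hGG n) ((Complex.abs_re_le_norm _).trans (hg n)))
    hG hE.le hM'
  have him := fi_real a S f (fun n => GG a n * (g n).im) X C _ ε hε hCE
    (fun n => by
      rw [abs_mul, abs_of_nonneg (hGG n)]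
      exact mul_le_of_le_one_right (hGG n) ((Complex.abs_im_le_norm _).trans (hg n)))
    hG hE.le hM'
  have hkey : ∀ h, ‖∑ n ∈ Icc 1 X, (∏ i, (ArithmeticFunction.vonMangoldt (n + a i) : ℂ)) * g n *
      (f (n + h) : ℂ)‖ ≤ |∑ n ∈ Icc 1 X, GG a n * (g n).re * f (n + h)| +
      |∑ n ∈ Icc 1 X, GG a n * (g n).im * f (n + h)| := by
    intro h
    have h1 : ∀ n, (∏ i, (ArithmeticFunction.vonMangoldt (n + a i) : ℂ)) * g n *
        (f (n + h) : ℂ) = ((GG a n : ℝ) : ℂ) * g n * (f (n + h) : ℂ) := by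
      intro n
      unfold GG
      push_cast
      rfl
    have h2 := Complex.norm_le_abs_re_add_abs_im (∑ n ∈ Icc 1 X,
      (∏ i, (ArithmeticFunction.vonMangoldt (n + a i) : ℂ)) * g n * (f (n + h) : ℂ))
    rw [Complex.re_sum, Complex.im_sum] at h2
    have h3 : ∀ n, ((∏ i, (ArithmeticFunction.vonMangoldt (n + a i) : ℂ)) * g n *
        (f (n + h) : ℂ)).re = GG a n * (g n).re * f (n + h) := by
      intro n
      rw [h1 n]
      simp
    have h4 : ∀ n, ((∏ i, (ArithmeticFunction.vonMangoldt (n + a i) : ℂ)) * g n *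
        (f (n + h) : ℂ)).im = GG a n * (g n).im * f (n + h) := by
      intro n
      rw [h1 n]
      simp
    rw [Finset.sum_congr rfl fun n _ => h3 n, Finset.sum_congr rfl fun n _ => h4 n] at h2
    exact h2
  calc ∑ h ∈ S, ‖∑ n ∈ Icc 1 X, (∏ i, (ArithmeticFunction.vonMangoldt (n + a i) : ℂ)) * g n *
      (f (n + h) : ℂ)‖ ≤ ∑ h ∈ S, (|∑ n ∈ Icc 1 X, GG a n * (g n).re * f (n + h)| +
      |∑ n ∈ Icc 1 X, GG a n * (g n).im * f (n + h)|) := Finset.sum_le_sum fun h _ => hkey h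
    _ = ∑ h ∈ S, |∑ n ∈ Icc 1 X, GG a n * (g n).re * f (n + h)| +
      ∑ h ∈ S, |∑ n ∈ Icc 1 X, GG a n * (g n).im * f (n + h)| := Finset.sum_add_distrib
    _ ≤ S.card * (ε / 2 * X) + S.card * (ε / 2 * X) := add_le_add hre him
    _ = ε * S.card * X := by ring

end Pool.Agent.Helper39.SP
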