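import Pool.Agent.Helper39.SP.Energy

/-!
# SP-27: the energy of the values of a polynomial

`Linnik P` is the elementary estimate of Linnik (proved by helper83 in `Helper83/LB`).
PROOF of `poly_energy`. Let `d = natDegree P`. There is `m0` such that for `m > m0`: `P.eval m ≥ 1`, `P.eval (m + 1) > P.eval m` (the leading coefficient is positive and
`d ≥ 1`, so also `P.eval (m + 1) - P.eval m → ∞` or is constant positive; `Polynomial.tendsto_atTop_of_leadingCoeff_nonneg`), and `P.eval m ≤ P.eval M` for all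
`1 ≤ m ≤ M` as soon as `M > M1`; `P.eval M ≤ C M ^ d` for all `M ≥ 1`.
`S = {(P.eval m).toNat | m0 < m ≤ M}`: the map is injective, `|S| = M - m0 ≥ M / 2`, `S ⊆ Icc 1 H` with `H = (P.eval M).toNat`. An `r`-tuple of elements of `S` comes from
exactly one `r`-tuple of the `m`, so `energy r S ≤` the number in `Linnik` `≤ A' M ^ (2 r) / M ^ d`; `H ≤ C M ^ d`; `energy r S * H ≤ A' C M ^ (2 r) ≤ A' C 2^(2r) |S| ^ (2 r)`.
-/

set_option autoImplicit false

namespace Pool.Agent.Helper39.SP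

open Finset

/-- The number of solutions of `∑ P (m_i) = ∑ P (m'_i)` with `1 ≤ m_i, m'_i ≤ M`. -/
def Linnik (P : Polynomial ℤ) : Prop :=
  ∃ r A : ℕ, 1 ≤ r ∧ ∀ M : ℕ, 1 ≤ M →
    (((Fintype.piFinset fun _ : Fin r => Icc 1 M) ×ˢ (Fintype.piFinset fun _ : Fin r => Icc 1 M)).filter
      fun u => ∑ i, P.eval ((u.1 i : ℕ) : ℤ) = ∑ i, P.eval ((u.2 i : ℕ) : ℤ)).card * M ^ P.natDegree ≤
      A * M ^ (2 * r)

private theorem pe_event (R : Polynomial ℝ) (h : 0 < R.leadingCoeff) :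
    ∀ᶠ x : ℝ in Filter.atTop, 0 < R.eval x := by
  rcases Nat.eq_zero_or_pos R.natDegree with h0 | h0
  · have h1 : R = Polynomial.C R.leadingCoeff := by
      conv_lhs => rw [Polynomial.eq_C_of_natDegree_eq_zero h0]
      rw [Polynomial.leadingCoeff, h0]
    rw [h1]
    simp only [Polynomial.eval_C]
    exact Filter.Eventually.of_forall fun _ => h
  · exact (R.tendsto_atTop_of_leadingCoeff_nonneg (Polynomial.natDegree_pos_iff_degree_pos.1 h0)
      h.le).eventually_gt_atTop 0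

private theorem pe_mono (P : Polynomial ℤ) (hP : 1 ≤ P.natDegree) (hl : 0 < P.leadingCoeff) :
    ∃ m0 : ℕ, (∀ m : ℕ, m0 ≤ m → 1 ≤ P.eval (m : ℤ)) ∧
      ∀ m n : ℕ, m0 ≤ m → m < n → P.eval (m : ℤ) < P.eval (n : ℤ) := by
  set R : Polynomial ℝ := P.map (Int.castRingHom ℝ) with hR
  have hinj : Function.Injective (Int.castRingHom ℝ) := Int.cast_injective
  have hRl : R.leadingCoeff = (P.leadingCoeff : ℝ) := by
    rw [hR, Polynomial.leadingCoeff_map_of_injective hinj]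
    rfl
  have hRd : R.natDegree = P.natDegree := by
    rw [hR, Polynomial.natDegree_map_eq_of_injective hinj]
  have hRpos : 0 < R.leadingCoeff := by
    rw [hRl]
    exact_mod_cast hl
  have hDpos : 0 < R.derivative.leadingCoeff := by
    rw [Polynomial.leadingCoeff_derivative, hRd]
    have : (0 : ℝ) < (P.natDegree : ℝ) := by exact_mod_cast hP
    positivity
  obtain ⟨x0, hx0⟩ := Filter.eventually_atTop.1 ((pe_event R hRpos).and (pe_event _ hDpos))
  have hmono : StrictMonoOn (fun x => R.eval x) (Set.Ici x0) := by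
    refine strictMonoOn_of_deriv_pos (convex_Ici x0) R.continuous.continuousOn fun x hx => ?_
    rw [interior_Ici, Set.mem_Ioi] at hx
    rw [Polynomial.deriv]
    exact (hx0 x hx.le).2
  have hcast : ∀ m : ℕ, ((P.eval (m : ℤ) : ℤ) : ℝ) = R.eval (m : ℝ) := by
    intro m
    have h := Polynomial.eval_intCast_map (Int.castRingHom ℝ) P (m : ℤ)
    rw [hR]
    simp
  have hge : ∀ m : ℕ, ⌈x0⌉₊ ≤ m → x0 ≤ (m : ℝ) := fun m hm =>
    le_trans (Nat.le_ceil x0) (by exact_mod_cast hm)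
  refine ⟨⌈x0⌉₊, fun m hm => ?_, fun m n hm hmn => ?_⟩
  · have h1 : (0 : ℝ) < ((P.eval (m : ℤ) : ℤ) : ℝ) := by
      rw [hcast]
      exact (hx0 _ (hge m hm)).1
    have h2 : 0 < P.eval (m : ℤ) := by exact_mod_cast h1
    omega
  · have h1 : ((P.eval (m : ℤ) : ℤ) : ℝ) < ((P.eval (n : ℤ) : ℤ) : ℝ) := by
      rw [hcast, hcast]
      exact hmono (hge m hm) (hge n (hm.trans hmn.le)) (by exact_mod_cast hmn)
    exact_mod_cast h1

private theorem pe_upper (P : Polynomial ℤ) :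
    ∃ C : ℝ, 0 ≤ C ∧ ∀ M : ℕ, 1 ≤ M → (((P.eval (M : ℤ)).toNat : ℕ) : ℝ) ≤ C * (M : ℝ) ^ P.natDegree := by
  refine ⟨∑ i ∈ range (P.natDegree + 1), |(P.coeff i : ℝ)|, sum_nonneg fun _ _ => abs_nonneg _,
    fun M hM => ?_⟩
  have hM1 : (1 : ℝ) ≤ M := by exact_mod_cast hM
  have h1 : (((P.eval (M : ℤ)).toNat : ℕ) : ℝ) ≤ |((P.eval (M : ℤ) : ℤ) : ℝ)| := by
    have h2 : (((P.eval (M : ℤ)).toNat : ℕ) : ℤ) ≤ |P.eval (M : ℤ)| := by
      rw [Int.toNat_eq_max]
      exact max_le (le_abs_self _) (abs_nonneg _)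
    exact_mod_cast h2
  refine h1.trans ?_
  rw [Polynomial.eval_eq_sum_range, sum_mul]
  push_cast
  refine (abs_sum_le_sum_abs _ _).trans (sum_le_sum fun i hi => ?_)
  rw [abs_mul, abs_pow, Nat.abs_cast]
  have hi' : i ≤ P.natDegree := by
    have := mem_range.1 hi
    omega
  exact mul_le_mul_of_nonneg_left (pow_le_pow_right₀ hM1 hi') (abs_nonneg _)

theorem poly_energy (P : Polynomial ℤ) (hP : 1 ≤ P.natDegree) (hl : 0 < P.leadingCoeff) (hL : Linnik P) :
    ∃ r m0 M1 : ℕ, 1 ≤ r ∧ 2 * m0 ≤ M1 ∧ ∃ A : ℝ, 0 ≤ A ∧ ∀ M : ℕ, M1 ≤ M →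
      Set.InjOn (fun m : ℕ => (P.eval (m : ℤ)).toNat) (Ioc m0 M) ∧
      (Ioc m0 M).image (fun m : ℕ => (P.eval (m : ℤ)).toNat) ⊆ Icc 1 (P.eval (M : ℤ)).toNat ∧
      (energy r ((Ioc m0 M).image (fun m : ℕ => (P.eval (m : ℤ)).toNat)) : ℝ) * (P.eval (M : ℤ)).toNat ≤
        A * (((Ioc m0 M).image (fun m : ℕ => (P.eval (m : ℤ)).toNat)).card : ℝ) ^ (2 * r) := by
  obtain ⟨m0, hpos, hlt⟩ := pe_mono P hP hl
  obtain ⟨C, hC0, hC⟩ := pe_upper P
  obtain ⟨r, A', hr, hlin⟩ := hL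
  refine ⟨r, m0, 2 * m0 + 1, hr, by omega, A' * C * 2 ^ (2 * r), by positivity, fun M hM => ?_⟩
  set f : ℕ → ℕ := fun m => (P.eval (m : ℤ)).toNat with hf
  have hfc : ∀ m : ℕ, m0 < m → ((f m : ℕ) : ℤ) = P.eval (m : ℤ) := by
    intro m hm
    rw [hf]
    exact Int.toNat_of_nonneg (le_trans zero_le_one (hpos m hm.le))
  have hinj : Set.InjOn f (Ioc m0 M) := by
    intro m hm n hn hmn
    rw [mem_coe, mem_Ioc] at hm hn
    have h1 : P.eval (m : ℤ) = P.eval (n : ℤ) := by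
      rw [← hfc m hm.1, ← hfc n hn.1, hmn]
    rcases lt_trichotomy m n with h | h | h
    · exact absurd h1 (hlt m n hm.1.le h).ne
    · exact h
    · exact absurd h1 (hlt n m hn.1.le h).ne'
  refine ⟨hinj, ?_, ?_⟩
  · intro u hu
    rw [mem_image] at hu
    obtain ⟨m, hm, rfl⟩ := hu
    rw [mem_Ioc] at hm
    rw [mem_Icc]
    have h1 := hpos m hm.1.le
    have h2 : P.eval (m : ℤ) ≤ P.eval (M : ℤ) := by
      rcases hm.2.lt_or_eq with h | h
      · exact (hlt m M hm.1.le h).le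
      · rw [h]
    refine ⟨?_, Int.toNat_le_toNat h2⟩
    have h3 := hfc m hm.1
    omega
  · set S : Finset ℕ := (Ioc m0 M).image f with hS
    have hcard : S.card = M - m0 := by
      rw [hS, card_image_of_injOn hinj, Nat.card_Ioc]
    have hMS : (M : ℝ) ≤ 2 * (S.card : ℝ) := by
      have : M ≤ 2 * S.card := by
        rw [hcard]
        omega
      exact_mod_cast this
    have hM1 : 1 ≤ M := by omega
    have hen : energy r S ≤
        (((Fintype.piFinset fun _ : Fin r => Icc 1 M) ×ˢ (Fintype.piFinset fun _ : Fin r => Icc 1 M)).filter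
          fun u => ∑ i, P.eval ((u.1 i : ℕ) : ℤ) = ∑ i, P.eval ((u.2 i : ℕ) : ℤ)).card := by
      unfold energy
      refine le_trans (card_le_card (t := ((((Fintype.piFinset fun _ : Fin r => Icc 1 M) ×ˢ
        (Fintype.piFinset fun _ : Fin r => Icc 1 M)).filter
          fun u => ∑ i, P.eval ((u.1 i : ℕ) : ℤ) = ∑ i, P.eval ((u.2 i : ℕ) : ℤ)).image
            fun u : (Fin r → ℕ) × (Fin r → ℕ) => ((fun i => f (u.1 i)), fun i => f (u.2 i)))) ?_)
        card_image_le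
      intro u hu
      rw [mem_filter, mem_product, Fintype.mem_piFinset, Fintype.mem_piFinset] at hu
      obtain ⟨⟨hu1, hu2⟩, hu3⟩ := hu
      have hc1 : ∀ i, ∃ m, m ∈ Ioc m0 M ∧ f m = u.1 i := fun i => mem_image.1 (hu1 i)
      have hc2 : ∀ i, ∃ m, m ∈ Ioc m0 M ∧ f m = u.2 i := fun i => mem_image.1 (hu2 i)
      choose a ha hau using hc1
      choose b hb hbu using hc2
      rw [mem_image]
      refine ⟨(a, b), ?_, ?_⟩
      · rw [mem_filter, mem_product, Fintype.mem_piFinset, Fintype.mem_piFinset]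
        refine ⟨⟨fun i => ?_, fun i => ?_⟩, ?_⟩
        · have := mem_Ioc.1 (ha i)
          exact mem_Icc.2 ⟨show 1 ≤ a i by omega, this.2⟩
        · have := mem_Ioc.1 (hb i)
          exact mem_Icc.2 ⟨show 1 ≤ b i by omega, this.2⟩
        · show ∑ i, P.eval ((a i : ℕ) : ℤ) = ∑ i, P.eval ((b i : ℕ) : ℤ)
          have h1 : ∑ i, P.eval ((a i : ℕ) : ℤ) = ((∑ i, u.1 i : ℕ) : ℤ) := by
            push_cast
            refine sum_congr rfl fun i _ => ?_
            rw [← hau i, hfc _ (mem_Ioc.1 (ha i)).1]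
          have h2 : ∑ i, P.eval ((b i : ℕ) : ℤ) = ((∑ i, u.2 i : ℕ) : ℤ) := by
            push_cast
            refine sum_congr rfl fun i _ => ?_
            rw [← hbu i, hfc _ (mem_Ioc.1 (hb i)).1]
          rw [h1, h2, hu3]
      · ext i
        · exact hau i
        · exact hbu i
    have hlin' := hlin M hM1
    have h1 : (energy r S : ℝ) * (M : ℝ) ^ P.natDegree ≤ A' * (M : ℝ) ^ (2 * r) := by
      have h2 : energy r S * M ^ P.natDegree ≤ A' * M ^ (2 * r) :=
        le_trans (Nat.mul_le_mul_right _ hen) hlin'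
      exact_mod_cast h2
    have h3 : (M : ℝ) ^ (2 * r) ≤ (2 * (S.card : ℝ)) ^ (2 * r) :=
      pow_le_pow_left₀ (by positivity) hMS _
    calc (energy r S : ℝ) * ((P.eval (M : ℤ)).toNat : ℝ)
        ≤ (energy r S : ℝ) * (C * (M : ℝ) ^ P.natDegree) :=
          mul_le_mul_of_nonneg_left (hC M hM1) (by positivity)
      _ = C * ((energy r S : ℝ) * (M : ℝ) ^ P.natDegree) := by ring
      _ ≤ C * (A' * (M : ℝ) ^ (2 * r)) := mul_le_mul_of_nonneg_left h1 hC0
      _ ≤ C * (A' * (2 * (S.card : ℝ)) ^ (2 * r)) :=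
          mul_le_mul_of_nonneg_left (mul_le_mul_of_nonneg_left h3 (by positivity)) hC0
      _ = A' * C * 2 ^ (2 * r) * (S.card : ℝ) ^ (2 * r) := by
          rw [mul_pow]
          ring

end Pool.Agent.Helper39.SP
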