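import Pool.Agent.Helper39.SP.Final
import Pool.Agent.Helper39.SP.PolyEn

/-!
# SP-28: polynomial shifts

PROOF. `poly_energy` gives `r`, `m0`, `M1`, `A`; apply `final` with `ε / 2` to `S = {(P.eval m).toNat | m0 < m ≤ M}`, `H = (P.eval M).toNat`, `|S| = M - m0 ≥ M / 2`
(`K` twice as large), for `M ≥ M1`. The `m ≤ m0` contribute at most `m0 * 2 ∑ GG ≤ 2 m0 C X ≤ (ε / 2) M X` if `M ≥ K ≥ 4 m0 C / ε` (`|f| ≤ 2`, `Centred_le`;
`Helper83.HLC.sum_GG`; `‖∏ Λ‖ = GG a n`). `K * log X ^ _ ≤ M` gives `K ≤ M` for `X ≥ 3`.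
-/

set_option autoImplicit false

namespace Pool.Agent.Helper39.SP

open Finset
open Pool.Agent.Helper83.HLC (GG)

private theorem norm_term {k : ℕ} (a : Fin k → ℕ) (X : ℕ) (f : ℕ → ℝ) (hf : ∀ n, |f n| ≤ 2) (g : ℕ → ℂ)
    (hg : ∀ n, ‖g n‖ ≤ 1) (s : ℕ) :
    ‖∑ n ∈ Icc 1 X, (∏ i, (ArithmeticFunction.vonMangoldt (n + a i) : ℂ)) * g n * (f (n + s) : ℂ)‖ ≤
      2 * ∑ n ∈ Icc 1 X, GG a n := by
  refine (norm_sum_le _ _).trans ?_
  rw [mul_sum]
  refine sum_le_sum fun n _ => ?_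
  have h1 : ‖∏ i, (ArithmeticFunction.vonMangoldt (n + a i) : ℂ)‖ = GG a n := by
    unfold Helper83.HLC.GG
    rw [norm_prod]
    refine prod_congr rfl fun i _ => ?_
    rw [Complex.norm_real, Real.norm_eq_abs, abs_of_nonneg ArithmeticFunction.vonMangoldt_nonneg]
  rw [norm_mul, norm_mul, h1, Complex.norm_real, Real.norm_eq_abs]
  have h0 := Helper83.HLC.GG_nonneg a n
  calc GG a n * ‖g n‖ * |f (n + s)| ≤ GG a n * 1 * 2 :=
        mul_le_mul (mul_le_mul_of_nonneg_left (hg n) h0) (hf _) (abs_nonneg _) (by linarith)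
    _ = 2 * GG a n := by ring

theorem final_poly (hT : TwoPt) (k : ℕ) (a : Fin k → ℕ) (ha : Function.Injective a) (P : Polynomial ℤ)
    (hP : 1 ≤ P.natDegree) (hl : 0 < P.leadingCoeff) (hL : Linnik P)
    (δ : ℝ) (hδ : 0 < δ) (ε : ℝ) (hε : 0 < ε) :
    ∃ K X0 : ℕ, ∀ X M : ℕ, X0 ≤ X → K * Real.log X ^ (k * (1 + δ)) ≤ M → K * P.eval (M : ℤ) ≤ X →
    ∀ f : ℕ → ℝ, Cen X f → ∀ g : ℕ → ℂ, (∀ n, ‖g n‖ ≤ 1) →
    ∑ m ∈ Icc 1 M, ‖∑ n ∈ Icc 1 X, (∏ i, (ArithmeticFunction.vonMangoldt (n + a i) : ℂ)) * g n *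
      (f (n + (P.eval (m : ℤ)).toNat) : ℂ)‖ ≤ ε * M * X := by
  obtain ⟨r, m0, M1, hr, hm0, A, hA, hen⟩ := poly_energy P hP hl hL
  obtain ⟨K', X0', hfin⟩ := final hT k a ha r hr A hA δ hδ (ε / 2) (by positivity)
  obtain ⟨C, hC, X1, hsum⟩ := Helper83.HLC.sum_GG a ha
  refine ⟨2 * K' + M1 + ⌈4 * m0 * C / ε⌉₊ + 1, max (max X0' X1) 3, ?_⟩
  intro X M hX hM hPX f hf g hg
  set K := 2 * K' + M1 + ⌈4 * m0 * C / ε⌉₊ + 1 with hK
  have hX0 : X0' ≤ X := (le_max_left _ _).trans ((le_max_left _ _).trans hX)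
  have hX1 : X1 ≤ X := (le_max_right _ _).trans ((le_max_left _ _).trans hX)
  have hX3 : 3 ≤ X := (le_max_right _ _).trans hX
  have hXR : (3 : ℝ) ≤ X := by exact_mod_cast hX3
  have hlog : 1 ≤ Real.log X := by
    rw [Real.le_log_iff_exp_le (by linarith)]
    have := Real.exp_one_lt_d9
    linarith
  set L := Real.log X ^ (k * (1 + δ)) with hLdef
  have hL1 : 1 ≤ L := Real.one_le_rpow hlog (by positivity)
  have hKM : K ≤ M := by
    have h1 : (K : ℝ) * 1 ≤ K * L := mul_le_mul_of_nonneg_left hL1 (Nat.cast_nonneg _)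
    have h2 : (K : ℝ) ≤ M := by linarith
    exact_mod_cast h2
  have hM1 : M1 ≤ M := by omega
  have hm0M : 2 * m0 ≤ M := hm0.trans hM1
  have hMR : (0 : ℝ) ≤ M := Nat.cast_nonneg _
  obtain ⟨hinj, hsub, hE⟩ := hen M hM1
  set S := (Ioc m0 M).image (fun m : ℕ => (P.eval (m : ℤ)).toNat) with hS
  have hcard : S.card = M - m0 := by
    rw [hS, card_image_of_injOn hinj, Nat.card_Ioc]
  have hcard2 : (M : ℝ) / 2 ≤ S.card := by
    have h1 : M ≤ 2 * S.card := by omega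
    have h2 : (M : ℝ) ≤ 2 * S.card := by exact_mod_cast h1
    linarith
  have hcard3 : (S.card : ℝ) ≤ M := by
    have h1 : S.card ≤ M := by omega
    exact_mod_cast h1
  have hKS : (K' : ℝ) * L ≤ S.card := by
    have h1 : (2 * K' : ℝ) * L ≤ K * L := by
      refine mul_le_mul_of_nonneg_right ?_ (by linarith)
      have : 2 * K' ≤ K := by omega
      exact_mod_cast this
    linarith
  have hKH : K' * (P.eval (M : ℤ)).toNat ≤ X := by
    rcases le_total 0 (P.eval (M : ℤ)) with h0 | h0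
    · have h1 : ((K' * (P.eval (M : ℤ)).toNat : ℕ) : ℤ) ≤ X := by
        push_cast
        rw [Int.toNat_of_nonneg h0]
        refine le_trans (mul_le_mul_of_nonneg_right ?_ h0) hPX
        have : K' ≤ K := by omega
        exact_mod_cast this
      exact_mod_cast h1
    · rw [Int.toNat_of_nonpos h0, mul_zero]
      exact Nat.zero_le _
  have hmain := hfin X hX0 S (P.eval (M : ℤ)).toNat hsub hKS hKH hE f hf g hg
  rw [hS, sum_image hinj, ← hS] at hmain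
  have hsplit : Icc 1 M = Icc 1 m0 ∪ Ioc m0 M := by
    ext x
    simp only [mem_union, mem_Icc, mem_Ioc]
    omega
  have hdisj : Disjoint (Icc 1 m0) (Ioc m0 M) := by
    rw [disjoint_left]
    intro x hx hx'
    rw [mem_Icc] at hx
    rw [mem_Ioc] at hx'
    omega
  rw [hsplit, sum_union hdisj]
  have hXR0 : (0 : ℝ) ≤ X := by linarith
  have hsmall : ∑ m ∈ Icc 1 m0, ‖∑ n ∈ Icc 1 X, (∏ i, (ArithmeticFunction.vonMangoldt (n + a i) : ℂ)) *
      g n * (f (n + (P.eval (m : ℤ)).toNat) : ℂ)‖ ≤ ε / 2 * M * X := by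
    calc _ ≤ ∑ _m ∈ Icc 1 m0, 2 * ∑ n ∈ Icc 1 X, GG a n :=
          sum_le_sum fun m _ => norm_term a X f (Centred_le hf) g hg _
      _ = m0 * (2 * ∑ n ∈ Icc 1 X, GG a n) := by
          rw [sum_const, Nat.card_Icc, Nat.add_sub_cancel, nsmul_eq_mul]
      _ ≤ m0 * (2 * (C * X)) :=
          mul_le_mul_of_nonneg_left (mul_le_mul_of_nonneg_left (hsum X hX1) (by norm_num))
            (Nat.cast_nonneg _)
      _ ≤ ε / 2 * M * X := by
          have h1 : 4 * m0 * C / ε ≤ M := by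
            refine (Nat.le_ceil _).trans ?_
            have : ⌈4 * m0 * C / ε⌉₊ ≤ M := by omega
            exact_mod_cast this
          rw [div_le_iff₀ hε] at h1
          have h2 : 2 * m0 * C ≤ ε / 2 * M := by linarith
          calc (m0 : ℝ) * (2 * (C * X)) = 2 * m0 * C * X := by ring
            _ ≤ ε / 2 * M * X := mul_le_mul_of_nonneg_right h2 hXR0
  have hbig : ε / 2 * (S.card : ℝ) * X ≤ ε / 2 * M * X :=
    mul_le_mul_of_nonneg_right (mul_le_mul_of_nonneg_left hcard3 (by positivity)) hXR0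
  calc _ ≤ ε / 2 * M * X + ε / 2 * M * X := add_le_add hsmall (hmain.trans hbig)
    _ = ε * M * X := by ring

end Pool.Agent.Helper39.SP
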