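import Pool.Agent.Helper39.SP.Defs
import Pool.Agent.Helper39.SP.Energy

/-!
# SP-23: Hölder's inequality for the Fourier coefficients

PROOF. Let `f₁ = f` on `[1, X]` and `0` elsewhere, `Q = 2 * (X + r * H) + 1`, characters `ξ ∈ ZMod Q`, `e(x) = exp(2 π i x / Q)` (Mathlib: `ZMod.stdAddChar`, or
`ZMod.toCircle`); `D ξ = ∑_(h ∈ S) e h * e(h ξ)`, `U ξ = ∑_n f₁ n * e(n ξ)`. (If `X ≤ H` the left side is `0 ^ r = 0` and the right side is nonnegative.)
(1) For `n ∈ [1, X - H]` and `h ∈ S`: `1 ≤ n + h ≤ X`. By orthogonality (Parseval in `ZMod Q`) for `F₁(n) = ∑_h e h f₁(n + h)`, `n` in `ZMod Q`: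
`∑_(n ≤ X - H) (∑_h e h f(n + h))^2 ≤ ∑_(n mod Q) |F₁(n)|^2 = (1/Q) ∑_ξ |D ξ|^2 |U ξ|^2`.
(2) Jensen with the weights `|U ξ|^2 / Q` (`inner_le_nnorm_mul_nnorm` is not needed: `Real.pow_arith_mean_le_arith_mean_pow`):
`((1/Q) ∑ |D|^2 |U|^2)^r ≤ ((1/Q) ∑ |U|^2)^(r - 1) (1/Q) ∑_ξ |D ξ|^(2r) |U ξ|^2`, and `(1/Q) ∑ |U|^2 = ∑_(n ≤ X) f n ^ 2`.
(3) `(1/Q) ∑_ξ |D ξ|^(2r) |U ξ|^2 = ∑_(u, v ∈ S^r) ∏ e(u i) ∏ e(v i) c(∑ u - ∑ v)` where `c(τ) = ∑_(n - m = ±τ mod Q) f₁ n f₁ m`; as `|τ| ≤ r H` and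
`|n - m| < X` the congruence is an equality and `c(τ) = c(-τ) = ∑_(n ∈ Icc 1 (X - |τ|)) f n f (n + |τ|)`. So the left side is at most
`∑_(|τ| ≤ r H) #{(u, v) | ∑ u - ∑ v = τ} |c(τ)| ≤ energy r S ∑_(|τ| ≤ r H) |c(τ)|` (`count_le_energy`). This is the right side of the statement.
(Any other proof is fine, for instance with the integral over the circle, or with powers of the circulant matrix.)
-/

set_option autoImplicit false

namespace Pool.Agent.Helper39.SP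

open Finset

/-- The averaging operator on functions on the integers modulo `Q`. -/
private noncomputable def opT {Q : ℕ} (S : Finset ℕ) (e : ℕ → ℝ) (g : ZMod Q → ℝ) : ZMod Q → ℝ :=
  fun x => ∑ h ∈ S, e h * g (x + (h : ZMod Q))

/-- Its adjoint. -/
private noncomputable def opA {Q : ℕ} (S : Finset ℕ) (e : ℕ → ℝ) (g : ZMod Q → ℝ) : ZMod Q → ℝ :=
  fun x => ∑ h ∈ S, e h * g (x - (h : ZMod Q))

private theorem sum_shift {Q : ℕ} [NeZero Q] (G : ZMod Q → ℝ) (a : ZMod Q) :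
    ∑ x, G (x + a) = ∑ x, G x :=
  Equiv.sum_comp (Equiv.addRight a) G

private theorem opT_adj {Q : ℕ} [NeZero Q] (S : Finset ℕ) (e : ℕ → ℝ) (g k : ZMod Q → ℝ) :
    ∑ x, opT S e g x * k x = ∑ x, g x * opA S e k x := by
  have h1 : ∑ x, opT S e g x * k x = ∑ h ∈ S, ∑ x, e h * g (x + (h : ZMod Q)) * k x := by
    rw [Finset.sum_comm]
    apply Finset.sum_congr rfl
    intro x _
    unfold opT
    rw [Finset.sum_mul]
  have h2 : ∑ x, g x * opA S e k x = ∑ h ∈ S, ∑ x, e h * g x * k (x - (h : ZMod Q)) := by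
    rw [Finset.sum_comm]
    apply Finset.sum_congr rfl
    intro x _
    unfold opA
    rw [Finset.mul_sum]
    apply Finset.sum_congr rfl
    intro h _
    ring
  rw [h1, h2]
  apply Finset.sum_congr rfl
  intro h _
  rw [← sum_shift (fun x => e h * g x * k (x - (h : ZMod Q))) (h : ZMod Q)]
  apply Finset.sum_congr rfl
  intro x _
  simp only [add_sub_cancel_right]

private theorem opT_norm {Q : ℕ} [NeZero Q] (S : Finset ℕ) (e : ℕ → ℝ) (g : ZMod Q → ℝ) :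
    ∑ x, opA S e g x ^ 2 = ∑ x, opT S e g x ^ 2 := by
  have h1 : ∑ x, opT S e g x ^ 2 =
      ∑ h ∈ S, ∑ h' ∈ S, ∑ x, (e h * e h') * (g (x + (h : ZMod Q)) * g (x + (h' : ZMod Q))) := by
    have : ∀ x : ZMod Q, opT S e g x ^ 2 = ∑ h ∈ S, ∑ h' ∈ S,
        (e h * e h') * (g (x + (h : ZMod Q)) * g (x + (h' : ZMod Q))) := by
      intro x
      unfold opT
      rw [sq, Finset.sum_mul_sum]
      apply Finset.sum_congr rfl
      intro h _
      apply Finset.sum_congr rfl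
      intro h' _
      ring
    rw [Finset.sum_congr rfl fun x _ => this x, Finset.sum_comm]
    apply Finset.sum_congr rfl
    intro h _
    rw [Finset.sum_comm]
  have h2 : ∑ x, opA S e g x ^ 2 =
      ∑ h ∈ S, ∑ h' ∈ S, ∑ x, (e h * e h') * (g (x - (h : ZMod Q)) * g (x - (h' : ZMod Q))) := by
    have : ∀ x : ZMod Q, opA S e g x ^ 2 = ∑ h ∈ S, ∑ h' ∈ S,
        (e h * e h') * (g (x - (h : ZMod Q)) * g (x - (h' : ZMod Q))) := by
      intro x
      unfold opA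
      rw [sq, Finset.sum_mul_sum]
      apply Finset.sum_congr rfl
      intro h _
      apply Finset.sum_congr rfl
      intro h' _
      ring
    rw [Finset.sum_congr rfl fun x _ => this x, Finset.sum_comm]
    apply Finset.sum_congr rfl
    intro h _
    rw [Finset.sum_comm]
  rw [h1, h2]
  apply Finset.sum_congr rfl
  intro h _
  apply Finset.sum_congr rfl
  intro h' _
  rw [← sum_shift (fun x => (e h * e h') * (g (x - (h : ZMod Q)) * g (x - (h' : ZMod Q))))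
    ((h : ZMod Q) + (h' : ZMod Q))]
  apply Finset.sum_congr rfl
  intro x _
  have e1 : x + ((h : ZMod Q) + (h' : ZMod Q)) - (h : ZMod Q) = x + (h' : ZMod Q) := by ring
  have e2 : x + ((h : ZMod Q) + (h' : ZMod Q)) - (h' : ZMod Q) = x + (h : ZMod Q) := by ring
  simp only [e1, e2]
  ring

/-- Log-convexity of the moments. -/
private theorem opT_log {Q : ℕ} [NeZero Q] (S : Finset ℕ) (e : ℕ → ℝ) (g : ZMod Q → ℝ) :
    (∑ x, opT S e g x ^ 2) ^ 2 ≤ (∑ x, g x ^ 2) * ∑ x, opT S e (opT S e g) x ^ 2 := by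
  have h1 : ∑ x, opT S e g x ^ 2 = ∑ x, g x * opA S e (opT S e g) x := by
    rw [← opT_adj]
    apply Finset.sum_congr rfl
    intro x _
    ring
  rw [h1, ← opT_norm S e (opT S e g)]
  exact Finset.sum_mul_sq_le_sq_mul_sq _ _ _

private theorem log_conv (b : ℕ → ℝ) (h0 : ∀ k, 0 ≤ b k) (hb : ∀ k, b (k + 1) ^ 2 ≤ b k * b (k + 2))
    (r : ℕ) : b 1 ^ (r + 1) ≤ b 0 ^ r * b (r + 1) := by
  have key : ∀ k, b 1 * b k ≤ b 0 * b (k + 1) := by
    intro k
    induction k with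
    | zero => exact le_of_eq (by ring)
    | succ k ih =>
      rcases (h0 (k + 1)).eq_or_lt with h | h
      · rw [← h, mul_zero]
        exact mul_nonneg (h0 0) (h0 _)
      · have h1 := hb k
        have h2 : 0 < b (k + 1) ^ 2 := by positivity
        have h3 : 0 < b k := by
          rcases (h0 k).eq_or_lt with h' | h'
          · rw [← h', zero_mul] at h1
            linarith
          · exact h'
        refine le_of_mul_le_mul_left ?_ h3
        calc b k * (b 1 * b (k + 1)) = (b 1 * b k) * b (k + 1) := by ring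
          _ ≤ (b 0 * b (k + 1)) * b (k + 1) := mul_le_mul_of_nonneg_right ih h.le
          _ = b 0 * b (k + 1) ^ 2 := by ring
          _ ≤ b 0 * (b k * b (k + 2)) := mul_le_mul_of_nonneg_left h1 (h0 0)
          _ = b k * (b 0 * b (k + 1 + 1)) := by ring
  induction r with
  | zero => simp
  | succ r ih =>
    calc b 1 ^ (r + 1 + 1) = b 1 ^ (r + 1) * b 1 := by ring
      _ ≤ (b 0 ^ r * b (r + 1)) * b 1 := mul_le_mul_of_nonneg_right ih (h0 1)
      _ = b 0 ^ r * (b 1 * b (r + 1)) := by ring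
      _ ≤ b 0 ^ r * (b 0 * b (r + 1 + 1)) :=
          mul_le_mul_of_nonneg_left (key (r + 1)) (pow_nonneg (h0 0) r)
      _ = b 0 ^ (r + 1) * b (r + 1 + 1) := by ring

private theorem sum_cons (r : ℕ) (S : Finset ℕ) (Φ : (Fin (r + 1) → ℕ) → ℝ) :
    ∑ u ∈ Fintype.piFinset (fun _ : Fin (r + 1) => S), Φ u =
      ∑ h ∈ S, ∑ u ∈ Fintype.piFinset (fun _ : Fin r => S), Φ (Fin.cons h u) := by
  rw [← Finset.sum_product']
  symm
  refine Finset.sum_nbij' (fun p => Fin.cons p.1 p.2) (fun w => (w 0, Fin.tail w)) ?_ ?_ ?_ ?_ ?_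
  · rintro ⟨h, u⟩ hp
    rw [Finset.mem_product] at hp
    have h2 := Fintype.mem_piFinset.mp hp.2
    rw [Fintype.mem_piFinset]
    intro i
    refine Fin.cases ?_ (fun j => ?_) i
    · simpa using hp.1
    · simpa using h2 j
  · intro w hw
    rw [Fintype.mem_piFinset] at hw
    rw [Finset.mem_product]
    exact ⟨hw 0, Fintype.mem_piFinset.mpr fun j => hw j.succ⟩
  · rintro ⟨h, u⟩ _
    simp
  · intro w _
    simp
  · rintro ⟨h, u⟩ _
    rfl

private theorem opT_iter {Q : ℕ} [NeZero Q] (S : Finset ℕ) (e : ℕ → ℝ) (g : ZMod Q → ℝ) (r : ℕ) :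
    ∀ x, (opT S e)^[r] g x = ∑ u ∈ Fintype.piFinset (fun _ : Fin r => S),
      (∏ i, e (u i)) * g (x + ∑ i, ((u i : ℕ) : ZMod Q)) := by
  induction r with
  | zero =>
    intro x
    have h1 : Fintype.piFinset (fun _ : Fin 0 => S) = {Fin.elim0} := by
      ext u
      simp [Fintype.mem_piFinset, eq_iff_true_of_subsingleton]
    rw [h1, Finset.sum_singleton]
    simp
  | succ r ih =>
    intro x
    rw [Function.iterate_succ_apply', sum_cons]
    show ∑ h ∈ S, e h * (opT S e)^[r] g (x + (h : ZMod Q)) = _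
    apply Finset.sum_congr rfl
    intro h _
    rw [ih, Finset.mul_sum]
    apply Finset.sum_congr rfl
    intro u _
    rw [Fin.prod_univ_succ, Fin.sum_univ_succ]
    simp only [Fin.cons_zero, Fin.cons_succ]
    rw [add_assoc, mul_assoc]

private theorem opT_pow {Q : ℕ} [NeZero Q] (S : Finset ℕ) (e : ℕ → ℝ) (g : ZMod Q → ℝ) (r : ℕ) :
    (∑ x, opT S e g x ^ 2) ^ (r + 1) ≤ (∑ x, g x ^ 2) ^ r * ∑ x, (opT S e)^[r + 1] g x ^ 2 := by
  have h := log_conv (fun k => ∑ x, (opT S e)^[k] g x ^ 2)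
    (fun k => Finset.sum_nonneg fun x _ => sq_nonneg _) (fun k => by
      have h1 := opT_log S e ((opT S e)^[k] g)
      simp only [Function.iterate_succ_apply'] at h1 ⊢
      exact h1) r
  simpa using h

/-- The correlation. -/
private noncomputable def cor {Q : ℕ} [NeZero Q] (g : ZMod Q → ℝ) (τ : ℤ) : ℝ :=
  ∑ x, g x * g (x + (τ : ZMod Q))

private theorem cor_neg {Q : ℕ} [NeZero Q] (g : ZMod Q → ℝ) (τ : ℤ) : cor g (-τ) = cor g τ := by
  unfold cor
  rw [← sum_shift (fun x => g x * g (x + ((-τ : ℤ) : ZMod Q))) (τ : ZMod Q)]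
  apply Finset.sum_congr rfl
  intro x _
  have e1 : x + (τ : ZMod Q) + ((-τ : ℤ) : ZMod Q) = x := by push_cast; ring
  simp only [e1]
  ring

private theorem opT_expand {Q : ℕ} [NeZero Q] (S : Finset ℕ) (e : ℕ → ℝ) (g : ZMod Q → ℝ) (r : ℕ) :
    ∑ x, (opT S e)^[r] g x ^ 2 = ∑ u ∈ (Fintype.piFinset fun _ : Fin r => S) ×ˢ
      (Fintype.piFinset fun _ : Fin r => S), (∏ i, e (u.1 i)) * (∏ i, e (u.2 i)) *
        cor g ((∑ i, (u.1 i : ℤ)) - ∑ i, (u.2 i : ℤ)) := by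
  have h1 : ∀ x : ZMod Q, (opT S e)^[r] g x ^ 2 = ∑ u ∈ (Fintype.piFinset fun _ : Fin r => S) ×ˢ
      (Fintype.piFinset fun _ : Fin r => S), (∏ i, e (u.1 i)) * (∏ i, e (u.2 i)) *
        (g (x + ∑ i, ((u.1 i : ℕ) : ZMod Q)) * g (x + ∑ i, ((u.2 i : ℕ) : ZMod Q))) := by
    intro x
    rw [opT_iter, sq, Finset.sum_mul_sum, Finset.sum_product]
    apply Finset.sum_congr rfl
    intro u _
    apply Finset.sum_congr rfl
    intro v _
    ring
  rw [Finset.sum_congr rfl fun x _ => h1 x, Finset.sum_comm]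
  apply Finset.sum_congr rfl
  intro u _
  rw [← Finset.mul_sum]
  congr 1
  unfold cor
  rw [← sum_shift (fun x => g x * g (x + (((∑ i, (u.1 i : ℤ)) - ∑ i, (u.2 i : ℤ) : ℤ) : ZMod Q)))
    (∑ i, ((u.2 i : ℕ) : ZMod Q))]
  apply Finset.sum_congr rfl
  intro x _
  have e1 : x + ∑ i, ((u.2 i : ℕ) : ZMod Q) + (((∑ i, (u.1 i : ℤ)) - ∑ i, (u.2 i : ℤ) : ℤ) : ZMod Q) =
      x + ∑ i, ((u.1 i : ℕ) : ZMod Q) := by
    push_cast
    ring
  simp only [e1]
  ring

private theorem sum_symm (R : ℕ) (c : ℤ → ℝ) (hc : ∀ τ, c (-τ) = c τ) :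
    ∑ τ ∈ Icc (-(R : ℤ)) R, c τ = c 0 + 2 * ∑ t ∈ Icc 1 R, c (t : ℤ) := by
  induction R with
  | zero => simp
  | succ R ih =>
    have h1 : Icc (-((R + 1 : ℕ) : ℤ)) ((R + 1 : ℕ) : ℤ) =
        insert ((R + 1 : ℕ) : ℤ) (insert (-((R + 1 : ℕ) : ℤ)) (Icc (-(R : ℤ)) R)) := by
      ext τ
      simp only [Finset.mem_insert, Finset.mem_Icc]
      push_cast
      omega
    rw [h1, Finset.sum_insert, Finset.sum_insert, ih, Finset.sum_Icc_succ_top (by omega), hc]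
    · ring
    · simp only [Finset.mem_Icc]
      push_cast
      omega
    · simp only [Finset.mem_insert, Finset.mem_Icc]
      push_cast
      omega

private theorem opT_bound {Q : ℕ} [NeZero Q] (S : Finset ℕ) (H r : ℕ) (hS : S ⊆ Icc 1 H) (e : ℕ → ℝ)
    (he : ∀ h, |e h| ≤ 1) (g : ZMod Q → ℝ) :
    ∑ x, (opT S e)^[r] g x ^ 2 ≤ energy r S *
      (|cor g 0| + 2 * ∑ t ∈ Icc 1 (r * H), |cor g (t : ℤ)|) := by
  rw [opT_expand]
  set P := Fintype.piFinset fun _ : Fin r => S with hP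
  have h1 : ∀ u ∈ P ×ˢ P, (∏ i, e (u.1 i)) * (∏ i, e (u.2 i)) *
        cor g ((∑ i, (u.1 i : ℤ)) - ∑ i, (u.2 i : ℤ)) ≤
        |cor g ((∑ i, (u.1 i : ℤ)) - ∑ i, (u.2 i : ℤ))| := by
    intro u _
    have hp : ∀ v : Fin r → ℕ, |∏ i, e (v i)| ≤ 1 := by
      intro v
      rw [Finset.abs_prod]
      exact Finset.prod_le_one (fun i _ => abs_nonneg _) (fun i _ => he _)
    refine (le_abs_self _).trans ?_
    rw [abs_mul, abs_mul]
    have h2 : |∏ i, e (u.1 i)| * |∏ i, e (u.2 i)| ≤ 1 :=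
      mul_le_one₀ (hp _) (abs_nonneg _) (hp _)
    calc |∏ i, e (u.1 i)| * |∏ i, e (u.2 i)| * |cor g ((∑ i, (u.1 i : ℤ)) - ∑ i, (u.2 i : ℤ))|
        ≤ 1 * |cor g ((∑ i, (u.1 i : ℤ)) - ∑ i, (u.2 i : ℤ))| :=
          mul_le_mul_of_nonneg_right h2 (abs_nonneg _)
      _ = _ := one_mul _
  refine (Finset.sum_le_sum h1).trans ?_
  have hmaps : ∀ u ∈ P ×ˢ P, (∑ i, (u.1 i : ℤ)) - ∑ i, (u.2 i : ℤ) ∈
      Icc (-((r * H : ℕ) : ℤ)) ((r * H : ℕ) : ℤ) := by
    intro u hu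
    rw [Finset.mem_product] at hu
    have hb : ∀ v ∈ P, 0 ≤ ∑ i, (v i : ℤ) ∧ ∑ i, (v i : ℤ) ≤ ((r * H : ℕ) : ℤ) := by
      intro v hv
      have hv' := Fintype.mem_piFinset.mp hv
      constructor
      · exact Finset.sum_nonneg fun i _ => Int.natCast_nonneg _
      · calc ∑ i, (v i : ℤ) ≤ ∑ _i : Fin r, (H : ℤ) := by
              apply Finset.sum_le_sum
              intro i _
              have := (Finset.mem_Icc.mp (hS (hv' i))).2
              exact_mod_cast this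
          _ = ((r * H : ℕ) : ℤ) := by simp
    have h2 := hb _ hu.1
    have h3 := hb _ hu.2
    rw [Finset.mem_Icc]
    constructor
    · linarith [h2.1, h3.2]
    · linarith [h2.2, h3.1]
  rw [← Finset.sum_fiberwise_of_maps_to hmaps]
  have h4 : ∀ τ ∈ Icc (-((r * H : ℕ) : ℤ)) ((r * H : ℕ) : ℤ),
      ∑ u ∈ (P ×ˢ P).filter (fun u => (∑ i, (u.1 i : ℤ)) - ∑ i, (u.2 i : ℤ) = τ),
        |cor g ((∑ i, (u.1 i : ℤ)) - ∑ i, (u.2 i : ℤ))| ≤ (energy r S : ℝ) * |cor g τ| := by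
    intro τ _
    have h5 : ∑ u ∈ (P ×ˢ P).filter (fun u => (∑ i, (u.1 i : ℤ)) - ∑ i, (u.2 i : ℤ) = τ),
        |cor g ((∑ i, (u.1 i : ℤ)) - ∑ i, (u.2 i : ℤ))| =
        ∑ u ∈ (P ×ˢ P).filter (fun u => (∑ i, (u.1 i : ℤ)) - ∑ i, (u.2 i : ℤ) = τ), |cor g τ| := by
      apply Finset.sum_congr rfl
      intro u hu
      rw [(Finset.mem_filter.mp hu).2]
    rw [h5, Finset.sum_const, nsmul_eq_mul]
    apply mul_le_mul_of_nonneg_right _ (abs_nonneg _)
    exact_mod_cast count_le_energy r S τ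
  refine (Finset.sum_le_sum h4).trans ?_
  rw [← Finset.mul_sum, sum_symm (r * H) (fun τ => |cor g τ|) (fun τ => by rw [cor_neg])]

/-- The extension of `f` by zero. -/
private noncomputable def ext0 (Q X : ℕ) (f : ℕ → ℝ) : ZMod Q → ℝ :=
  fun x => if 1 ≤ x.val ∧ x.val ≤ X then f x.val else 0

private theorem ext0_cast (Q X : ℕ) (hQ : X < Q) (f : ℕ → ℝ) (n : ℕ) (h1 : 1 ≤ n) (h2 : n ≤ X) :
    ext0 Q X f (n : ZMod Q) = f n := by
  unfold ext0
  have h3 : (n : ZMod Q).val = n := ZMod.val_natCast_of_lt (by omega)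
  rw [h3, if_pos ⟨h1, h2⟩]

private theorem ext0_cast' (Q X : ℕ) (f : ℕ → ℝ) (n : ℕ) (h1 : X < n) (h2 : n < Q) :
    ext0 Q X f (n : ZMod Q) = 0 := by
  unfold ext0
  have h3 : (n : ZMod Q).val = n := ZMod.val_natCast_of_lt h2
  rw [h3, if_neg (by omega)]

/-- The sum of a function supported on the residue classes of `1, ..., X`. -/
private theorem sum_ext0 (Q X : ℕ) [NeZero Q] (hQ : X < Q) (f : ℕ → ℝ) (G : ZMod Q → ℝ) :
    ∑ x, ext0 Q X f x * G x = ∑ n ∈ Icc 1 X, f n * G (n : ZMod Q) := by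
  have h1 : ∑ x, ext0 Q X f x * G x =
      ∑ x ∈ Finset.univ.filter (fun x : ZMod Q => 1 ≤ x.val ∧ x.val ≤ X), f x.val * G x := by
    rw [Finset.sum_filter]
    apply Finset.sum_congr rfl
    intro x _
    unfold ext0
    split_ifs
    · rfl
    · rw [zero_mul]
  rw [h1]
  refine Finset.sum_nbij' (fun x => x.val) (fun n => (n : ZMod Q)) ?_ ?_ ?_ ?_ ?_
  · intro x hx
    rw [Finset.mem_filter] at hx
    rw [Finset.mem_Icc]
    exact hx.2
  · intro n hn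
    rw [Finset.mem_Icc] at hn
    rw [Finset.mem_filter]
    have h3 : (n : ZMod Q).val = n := ZMod.val_natCast_of_lt (by omega)
    rw [h3]
    exact ⟨Finset.mem_univ _, hn⟩
  · intro x _
    exact ZMod.natCast_zmod_val x
  · intro n hn
    rw [Finset.mem_Icc] at hn
    exact ZMod.val_natCast_of_lt (by omega)
  · intro x _
    rw [ZMod.natCast_zmod_val]

private theorem cor_ext0 (Q X t : ℕ) [NeZero Q] (hQ : X + t < Q) (f : ℕ → ℝ) :
    cor (ext0 Q X f) (t : ℤ) = ∑ n ∈ Icc 1 (X - t), f n * f (n + t) := by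
  unfold cor
  rw [sum_ext0 Q X (by omega) f (fun x => ext0 Q X f (x + (((t : ℕ) : ℤ) : ZMod Q)))]
  have h1 : ∀ n ∈ Icc 1 X, f n * ext0 Q X f ((n : ZMod Q) + (((t : ℕ) : ℤ) : ZMod Q)) =
      if n ∈ Icc 1 (X - t) then f n * f (n + t) else 0 := by
    intro n hn
    rw [Finset.mem_Icc] at hn
    have e1 : (n : ZMod Q) + (((t : ℕ) : ℤ) : ZMod Q) = ((n + t : ℕ) : ZMod Q) := by push_cast; ring
    rw [e1]
    by_cases h : n + t ≤ X
    · rw [ext0_cast Q X (by omega) f (n + t) (by omega) h, if_pos]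
      rw [Finset.mem_Icc]
      omega
    · rw [ext0_cast' Q X f (n + t) (by omega) (by omega), if_neg, mul_zero]
      rw [Finset.mem_Icc]
      omega
  rw [Finset.sum_congr rfl h1, ← Finset.sum_filter]
  apply Finset.sum_congr _ fun _ _ => rfl
  ext n
  simp only [Finset.mem_filter, Finset.mem_Icc]
  omega

theorem four_hol (S : Finset ℕ) (H X r : ℕ) (hr : 1 ≤ r) (hS : S ⊆ Icc 1 H) (e f : ℕ → ℝ)
    (he : ∀ h, |e h| ≤ 1) :
    (∑ n ∈ Icc 1 (X - H), (∑ h ∈ S, e h * f (n + h)) ^ 2) ^ r ≤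
      (∑ n ∈ Icc 1 X, f n ^ 2) ^ (r - 1) * (energy r S *
        (∑ n ∈ Icc 1 X, f n ^ 2 + 2 * ∑ t ∈ Icc 1 (r * H), |∑ n ∈ Icc 1 (X - t), f n * f (n + t)|)) := by
  obtain ⟨r, rfl⟩ : ∃ r', r = r' + 1 := ⟨r - 1, by omega⟩
  rw [Nat.add_sub_cancel]
  set Q : ℕ := X + (r + 1) * H + 1 with hQ
  haveI : NeZero Q := ⟨by omega⟩
  set g : ZMod Q → ℝ := ext0 Q X f with hg
  have hb0 : ∑ x, g x ^ 2 = ∑ n ∈ Icc 1 X, f n ^ 2 := by
    have h1 := sum_ext0 Q X (by omega) f g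
    have h2 : ∑ x, g x ^ 2 = ∑ x, ext0 Q X f x * g x := by
      apply Finset.sum_congr rfl
      intro x _
      rw [sq]
    rw [h2, h1]
    apply Finset.sum_congr rfl
    intro n hn
    rw [Finset.mem_Icc] at hn
    rw [hg, ext0_cast Q X (by omega) f n hn.1 hn.2]
    ring
  have hb1 : ∑ n ∈ Icc 1 (X - H), (∑ h ∈ S, e h * f (n + h)) ^ 2 ≤ ∑ x, opT S e g x ^ 2 := by
    have h1 : ∑ n ∈ Icc 1 (X - H), (∑ h ∈ S, e h * f (n + h)) ^ 2 =
        ∑ n ∈ Icc 1 (X - H), opT S e g (n : ZMod Q) ^ 2 := by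
      apply Finset.sum_congr rfl
      intro n hn
      rw [Finset.mem_Icc] at hn
      congr 1
      unfold opT
      apply Finset.sum_congr rfl
      intro h hh
      have hh' := Finset.mem_Icc.mp (hS hh)
      have e1 : (n : ZMod Q) + (h : ZMod Q) = ((n + h : ℕ) : ZMod Q) := by push_cast; ring
      rw [e1, hg, ext0_cast Q X (by omega) f (n + h) (by omega) (by omega)]
    rw [h1]
    have hinj : Set.InjOn (fun n : ℕ => (n : ZMod Q)) (Icc 1 (X - H) : Finset ℕ) := by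
      intro a ha b hb hab
      rw [Finset.coe_Icc, Set.mem_Icc] at ha hb
      have h2 : (a : ZMod Q).val = (b : ZMod Q).val := congrArg _ hab
      rwa [ZMod.val_natCast_of_lt (by omega), ZMod.val_natCast_of_lt (by omega)] at h2
    rw [← Finset.sum_image (g := fun n : ℕ => (n : ZMod Q)) (f := fun x => opT S e g x ^ 2) hinj]
    exact Finset.sum_le_sum_of_subset_of_nonneg (Finset.subset_univ _) fun _ _ _ => sq_nonneg _
  have hb00 : 0 ≤ ∑ n ∈ Icc 1 X, f n ^ 2 := Finset.sum_nonneg fun _ _ => sq_nonneg _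
  have hpow := opT_pow S e g r
  rw [hb0] at hpow
  have hbd := opT_bound S H (r + 1) hS e he g
  have hc0 : |cor g 0| = ∑ n ∈ Icc 1 X, f n ^ 2 := by
    have h1 := cor_ext0 Q X 0 (by omega) f
    rw [Nat.cast_zero, Nat.sub_zero] at h1
    rw [hg, h1]
    have h2 : ∑ n ∈ Icc 1 X, f n * f (n + 0) = ∑ n ∈ Icc 1 X, f n ^ 2 := by
      apply Finset.sum_congr rfl
      intro n _
      rw [add_zero]
      ring
    rw [h2, abs_of_nonneg hb00]
  have hct : ∀ t ∈ Icc 1 ((r + 1) * H), |cor g (t : ℤ)| = |∑ n ∈ Icc 1 (X - t), f n * f (n + t)| := by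
    intro t ht
    rw [Finset.mem_Icc] at ht
    rw [hg, cor_ext0 Q X t (by omega) f]
  rw [hc0, Finset.sum_congr rfl hct] at hbd
  calc (∑ n ∈ Icc 1 (X - H), (∑ h ∈ S, e h * f (n + h)) ^ 2) ^ (r + 1)
      ≤ (∑ x, opT S e g x ^ 2) ^ (r + 1) :=
        pow_le_pow_left₀ (Finset.sum_nonneg fun _ _ => sq_nonneg _) hb1 _
    _ ≤ (∑ n ∈ Icc 1 X, f n ^ 2) ^ r * ∑ x, (opT S e)^[r + 1] g x ^ 2 := hpow
    _ ≤ _ := mul_le_mul_of_nonneg_left hbd (pow_nonneg hb00 r)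

end Pool.Agent.Helper39.SP
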