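import Pool.Agent.Helper39.SP.Defs3
import Pool.Agent.Helper39.SP.FourHol

/-!
# SP-24: the averages over sparse sets of shifts without primes

PROOF. `M = |S| ≥ K ≥ 1`, `H ≥ M ≥ K` (`S ⊆ Icc 1 H`), `K H ≤ X`, `K ≥ r`, so `r H ≤ X`; `|f| ≤ 2` (`Centred_le`), `av ^ 2 ≤ 4` (`av_sq_le`).
`TwoPt` with `ε' ` and the length `r H`: `∑_(t ≤ r H) |∑_(n ≤ X) f n f (n + t)| ≤ ε' r H X`, and the sums over `Icc 1 (X - t)` and over `Icc 1 X` differ by at most `4 t ≤ 4 r H`.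
So `four_hol` gives `(M ^ 2 ∑_(n ≤ X - H) av ^ 2) ^ r ≤ (4 X)^(r - 1) energy r S (4 X + 2 (ε' r H X + 4 r^2 H^2))`, and `energy r S ≤ A M^(2r) / H`:
`(∑_(n ≤ X - H) av^2)^r ≤ (4 X)^(r-1) A (4 X / H + 2 ε' r X + 8 r^2 H) ≤ (4 X)^(r-1) A X (4 / K + 2 ε' r + 8 r^2 / K) ≤ (ε X / 2)^r` for suitable `ε'`, `K`.
The `n ∈ (X - H, X]` contribute at most `4 H ≤ 4 X / K ≤ ε X / 2`.
-/

set_option autoImplicit false

namespace Pool.Agent.Helper39.SP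

open Finset

private theorem sm_split (g : ℕ → ℝ) (a X : ℕ) (h : a ≤ X) :
    ∑ n ∈ Icc 1 X, g n = ∑ n ∈ Icc 1 a, g n + ∑ n ∈ Ioc a X, g n := by
  rw [← Finset.sum_union]
  · congr 1
    ext n
    simp only [Finset.mem_union, Finset.mem_Icc, Finset.mem_Ioc]
    omega
  · rw [Finset.disjoint_left]
    intro n hn hn'
    rw [Finset.mem_Icc] at hn
    rw [Finset.mem_Ioc] at hn'
    omega

private theorem sm_tail (g : ℕ → ℝ) (B : ℝ) (hB : ∀ n, |g n| ≤ B) (a X : ℕ) (h : a ≤ X) :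
    |∑ n ∈ Ioc a X, g n| ≤ B * ((X : ℝ) - a) := by
  calc |∑ n ∈ Ioc a X, g n| ≤ ∑ n ∈ Ioc a X, |g n| := abs_sum_le_sum_abs _ _
    _ ≤ ∑ _n ∈ Ioc a X, B := Finset.sum_le_sum fun n _ => hB n
    _ = B * ((X : ℝ) - a) := by
        rw [Finset.sum_const, Nat.card_Ioc, nsmul_eq_mul, Nat.cast_sub h, mul_comm]

private theorem sm_corr (f : ℕ → ℝ) (hf : ∀ n, |f n| ≤ 2) (X t : ℕ) (ht : t ≤ X) :
    |∑ n ∈ Icc 1 (X - t), f n * f (n + t)| ≤ |∑ n ∈ Icc 1 X, f n * f (n + t)| + 4 * t := by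
  have h1 := sm_split (fun n => f n * f (n + t)) (X - t) X (Nat.sub_le _ _)
  have h2 := sm_tail (fun n => f n * f (n + t)) 4 (fun n => by
    rw [abs_mul]
    have := hf n
    have := hf (n + t)
    have := abs_nonneg (f n)
    have := abs_nonneg (f (n + t))
    nlinarith) (X - t) X (Nat.sub_le _ _)
  rw [Nat.cast_sub ht] at h2
  have h3 : ∑ n ∈ Icc 1 (X - t), f n * f (n + t) =
      ∑ n ∈ Icc 1 X, f n * f (n + t) - ∑ n ∈ Ioc (X - t) X, f n * f (n + t) := by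
    linarith
  rw [h3]
  have h4 := abs_sub (∑ n ∈ Icc 1 X, f n * f (n + t)) (∑ n ∈ Ioc (X - t) X, f n * f (n + t))
  linarith

private theorem sm_corr_sum (f : ℕ → ℝ) (hf : ∀ n, |f n| ≤ 2) (X L : ℕ) (hL : L ≤ X) :
    ∑ t ∈ Icc 1 L, |∑ n ∈ Icc 1 (X - t), f n * f (n + t)| ≤
      ∑ t ∈ Icc 1 L, |∑ n ∈ Icc 1 X, f n * f (n + t)| + 4 * (L : ℝ) ^ 2 := by
  have h1 : ∑ t ∈ Icc 1 L, |∑ n ∈ Icc 1 (X - t), f n * f (n + t)| ≤
      ∑ t ∈ Icc 1 L, (|∑ n ∈ Icc 1 X, f n * f (n + t)| + 4 * (L : ℝ)) := by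
    refine Finset.sum_le_sum fun t ht => ?_
    rw [Finset.mem_Icc] at ht
    have h2 := sm_corr f hf X t (by omega)
    have h3 : (t : ℝ) ≤ L := by exact_mod_cast ht.2
    linarith
  rw [Finset.sum_add_distrib, Finset.sum_const, Nat.card_Icc, nsmul_eq_mul] at h1
  have h4 : ((L + 1 - 1 : ℕ) : ℝ) * (4 * (L : ℝ)) = 4 * (L : ℝ) ^ 2 := by
    rw [Nat.add_sub_cancel]; ring
  linarith

private theorem sm_sq_sum (f : ℕ → ℝ) (hf : ∀ n, |f n| ≤ 2) (X : ℕ) :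
    ∑ n ∈ Icc 1 X, f n ^ 2 ≤ 4 * X := by
  calc ∑ n ∈ Icc 1 X, f n ^ 2 ≤ ∑ _n ∈ Icc 1 X, (4 : ℝ) := by
        refine Finset.sum_le_sum fun n _ => ?_
        rw [← sq_abs]
        have := hf n
        have := abs_nonneg (f n)
        nlinarith
    _ = 4 * X := by
        rw [Finset.sum_const, Nat.card_Icc, nsmul_eq_mul, Nat.add_sub_cancel, mul_comm]

theorem smooth (hT : TwoPt) (r : ℕ) (hr : 1 ≤ r) (A : ℝ) (hA : 0 ≤ A) (ε : ℝ) (hε : 0 < ε) :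
    ∃ K X0 : ℕ, ∀ X : ℕ, X0 ≤ X → ∀ (S : Finset ℕ) (H : ℕ), S ⊆ Icc 1 H → K ≤ S.card → K * H ≤ X →
    (energy r S : ℝ) * H ≤ A * (S.card : ℝ) ^ (2 * r) → ∀ e : ℕ → ℝ, (∀ h, |e h| ≤ 1) →
    ∀ f : ℕ → ℝ, Cen X f →
    ∑ n ∈ Icc 1 X, av S e f n ^ 2 ≤ ε * X := by
  have hr0 : (0 : ℝ) < r := by exact_mod_cast hr
  obtain ⟨δ, hδ⟩ : ∃ δ : ℝ, δ = (ε / 2) ^ r / (4 ^ r * (A + 1)) := ⟨_, rfl⟩
  have hA1 : 0 < A + 1 := by linarith
  have h4r : (0 : ℝ) < 4 ^ r := by positivity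
  have hδ0 : 0 < δ := by rw [hδ]; positivity
  have hδA : 4 ^ r * A * δ ≤ (ε / 2) ^ r := by
    have h1 : 4 ^ r * (A + 1) * δ = (ε / 2) ^ r := by
      rw [hδ]; field_simp
    have h2 : 0 < 4 ^ r * δ := by positivity
    nlinarith
  obtain ⟨K1, X0, hK1⟩ := hT (δ / (4 * r)) (by positivity)
  obtain ⟨K2, hK2⟩ := exists_nat_ge (8 / ε)
  obtain ⟨K3, hK3⟩ := exists_nat_ge (2 * (4 + 8 * (r : ℝ) ^ 2) / δ)
  refine ⟨K1 + K2 + K3 + r, X0, ?_⟩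
  intro X hX S H hS hK hKH hE e he f hf
  obtain ⟨K, hKdef⟩ : ∃ K : ℕ, K = K1 + K2 + K3 + r := ⟨_, rfl⟩
  rw [← hKdef] at hK hKH
  have hf2 := Centred_le hf
  have hK0 : 1 ≤ K := by omega
  have hMH : S.card ≤ H := by
    have := Finset.card_le_card hS
    rwa [Nat.card_Icc, Nat.add_sub_cancel] at this
  have hKH' : K ≤ H := hK.trans hMH
  have hHX : H ≤ X := by
    calc H = 1 * H := (one_mul H).symm
      _ ≤ K * H := Nat.mul_le_mul_right _ hK0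
      _ ≤ X := hKH
  have hrHX : r * H ≤ X := (Nat.mul_le_mul_right _ (by omega)).trans hKH
  have hKr : (1 : ℝ) ≤ K := by exact_mod_cast hK0
  have hHr : (K : ℝ) ≤ H := by exact_mod_cast hKH'
  have hH0 : (0 : ℝ) < H := by linarith
  have hKHr : (K : ℝ) * H ≤ X := by exact_mod_cast hKH
  have hX0 : (0 : ℝ) < X := by nlinarith
  have hMK : (K : ℝ) ≤ S.card := by exact_mod_cast hK
  have hM0 : (0 : ℝ) < S.card := by linarith
  have hK2' : 8 / ε ≤ K := by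
    refine hK2.trans ?_
    have : K2 ≤ K := by omega
    exact_mod_cast this
  have hK3' : 2 * (4 + 8 * (r : ℝ) ^ 2) / δ ≤ K := by
    refine hK3.trans ?_
    have : K3 ≤ K := by omega
    exact_mod_cast this
  -- the two-point bound
  have htp := hK1 X (r * H) hX (by
    have : H ≤ r * H := by
      calc H = 1 * H := (one_mul H).symm
        _ ≤ r * H := Nat.mul_le_mul_right _ hr
    omega) hrHX f hf
  have hcs := sm_corr_sum f hf2 X (r * H) hrHX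
  have hsq := sm_sq_sum f hf2 X
  have hsq0 : 0 ≤ ∑ n ∈ Icc 1 X, f n ^ 2 := Finset.sum_nonneg fun n _ => sq_nonneg _
  obtain ⟨U, hU⟩ : ∃ U : ℝ, U = ∑ n ∈ Icc 1 (X - H), av S e f n ^ 2 := ⟨_, rfl⟩
  have hU0 : 0 ≤ U := by rw [hU]; exact Finset.sum_nonneg fun n _ => sq_nonneg _
  have hT1 : ∑ n ∈ Icc 1 (X - H), (∑ h ∈ S, e h * f (n + h)) ^ 2 = (S.card : ℝ) ^ 2 * U := by
    rw [hU, Finset.mul_sum]
    refine Finset.sum_congr rfl fun n _ => ?_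
    unfold av
    field_simp
  have hfour := four_hol S H X r hr hS e f he
  rw [hT1] at hfour
  obtain ⟨E, hEdef⟩ : ∃ E : ℝ, E = (energy r S : ℝ) := ⟨_, rfl⟩
  rw [← hEdef] at hfour hE
  have hE0 : 0 ≤ E := by rw [hEdef]; exact Nat.cast_nonneg _
  have hbr : ∑ n ∈ Icc 1 X, f n ^ 2 +
      2 * ∑ t ∈ Icc 1 (r * H), |∑ n ∈ Icc 1 (X - t), f n * f (n + t)| ≤ δ * (H * X) := by
    have h1 : ((r * H : ℕ) : ℝ) = (r : ℝ) * H := by push_cast; ring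
    rw [h1] at htp hcs
    have h2 : δ / (4 * r) * (r * H) * X = δ / 4 * (H * X) := by
      field_simp
    rw [h2] at htp
    have h3 : (H : ℝ) * K ≤ X := by linarith [mul_comm (K : ℝ) H]
    have h4 : 2 * (4 + 8 * (r : ℝ) ^ 2) ≤ K * δ := by
      rwa [div_le_iff₀ hδ0] at hK3'
    -- 4 X + 8 r^2 H^2 ≤ (4 + 8 r^2) H X / K
    have h5 : (K : ℝ) * (4 * X + 8 * (r : ℝ) ^ 2 * (H : ℝ) ^ 2) ≤
        (4 + 8 * (r : ℝ) ^ 2) * (H * X) := by
      have h6 : (K : ℝ) * (4 * X) ≤ 4 * (H * X) := by nlinarith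
      have h7 : (K : ℝ) * (8 * (r : ℝ) ^ 2 * (H : ℝ) ^ 2) ≤ 8 * (r : ℝ) ^ 2 * (H * X) := by
        have h8 : (K : ℝ) * H * H ≤ X * H := mul_le_mul_of_nonneg_right hKHr hH0.le
        have h9 : (0 : ℝ) ≤ 8 * (r : ℝ) ^ 2 := by positivity
        have h10 := mul_le_mul_of_nonneg_left h8 h9
        nlinarith
      linarith
    have h11 : (4 + 8 * (r : ℝ) ^ 2) * (H * X) ≤ K * (δ / 2 * (H * X)) := by
      have h12 : (0 : ℝ) ≤ H * X := by positivity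
      have h13 := mul_le_mul_of_nonneg_right h4 h12
      nlinarith
    have h14 : 4 * X + 8 * (r : ℝ) ^ 2 * (H : ℝ) ^ 2 ≤ δ / 2 * (H * X) := by
      have hKpos : (0 : ℝ) < K := by linarith
      exact le_of_mul_le_mul_left (h5.trans h11) hKpos
    nlinarith
  have hbr0 : 0 ≤ ∑ n ∈ Icc 1 X, f n ^ 2 +
      2 * ∑ t ∈ Icc 1 (r * H), |∑ n ∈ Icc 1 (X - t), f n * f (n + t)| := by
    have : 0 ≤ ∑ t ∈ Icc 1 (r * H), |∑ n ∈ Icc 1 (X - t), f n * f (n + t)| :=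
      Finset.sum_nonneg fun t _ => abs_nonneg _
    linarith
  have hmain : ((S.card : ℝ) ^ 2 * U) ^ r ≤ (4 * X) ^ (r - 1) * (E * (δ * (H * X))) := by
    refine hfour.trans ?_
    refine mul_le_mul (pow_le_pow_left₀ hsq0 hsq _) ?_ ?_ (by positivity)
    · exact mul_le_mul_of_nonneg_left hbr hE0
    · exact mul_nonneg hE0 hbr0
  have hUr : U ^ r ≤ (ε / 2 * X) ^ r := by
    have hMr : (0 : ℝ) < (S.card : ℝ) ^ (2 * r) := by positivity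
    have h1 : ((S.card : ℝ) ^ 2 * U) ^ r = (S.card : ℝ) ^ (2 * r) * U ^ r := by
      rw [mul_pow, ← pow_mul]
    have h2 : (4 * (X : ℝ)) ^ (r - 1) * (E * (δ * (H * X))) ≤
        (S.card : ℝ) ^ (2 * r) * ((4 * (X : ℝ)) ^ (r - 1) * (A * (δ * X))) := by
      have h3 : (0 : ℝ) ≤ (4 * (X : ℝ)) ^ (r - 1) * (δ * X) := by positivity
      calc (4 * (X : ℝ)) ^ (r - 1) * (E * (δ * (H * X)))
          = (4 * (X : ℝ)) ^ (r - 1) * (δ * X) * (E * H) := by ring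
        _ ≤ (4 * (X : ℝ)) ^ (r - 1) * (δ * X) * (A * (S.card : ℝ) ^ (2 * r)) :=
            mul_le_mul_of_nonneg_left hE h3
        _ = _ := by ring
    have h4 : U ^ r ≤ (4 * (X : ℝ)) ^ (r - 1) * (A * (δ * X)) := by
      rw [h1] at hmain
      exact le_of_mul_le_mul_left (hmain.trans h2) hMr
    refine h4.trans ?_
    have h5 : (4 * (X : ℝ)) ^ (r - 1) * (A * (δ * X)) ≤ 4 ^ r * A * δ * (X : ℝ) ^ r := by
      obtain ⟨q, rfl⟩ : ∃ q, r = q + 1 := ⟨r - 1, by omega⟩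
      rw [Nat.add_sub_cancel, mul_pow, pow_succ (4 : ℝ), pow_succ (X : ℝ)]
      have h6 : (0 : ℝ) ≤ 4 ^ q * A * δ * ((X : ℝ) ^ q * X) := by positivity
      nlinarith
    have h7 : 4 ^ r * A * δ * (X : ℝ) ^ r ≤ (ε / 2) ^ r * (X : ℝ) ^ r :=
      mul_le_mul_of_nonneg_right hδA (by positivity)
    rw [mul_pow (ε / 2)]
    exact h5.trans h7
  have hUle : U ≤ ε / 2 * X := by
    by_contra hc
    push Not at hc
    have := pow_lt_pow_left₀ hc (by positivity) (by omega : r ≠ 0)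
    linarith
  have hsplit := sm_split (fun n => av S e f n ^ 2) (X - H) X (Nat.sub_le _ _)
  have htail := sm_tail (fun n => av S e f n ^ 2) 4 (fun n => by
    rw [abs_of_nonneg (sq_nonneg _)]
    exact av_sq_le hf S e he n) (X - H) X (Nat.sub_le _ _)
  rw [Nat.cast_sub hHX] at htail
  have htail' := (le_abs_self _).trans htail
  have h8 : 4 * (H : ℝ) ≤ ε / 2 * X := by
    rw [div_le_iff₀ hε] at hK2'
    have h9 : 8 * (H : ℝ) ≤ K * ε * H := mul_le_mul_of_nonneg_right hK2' hH0.le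
    have h10 : (K : ℝ) * H * ε ≤ X * ε := mul_le_mul_of_nonneg_right hKHr hε.le
    nlinarith
  rw [hsplit, ← hU]
  linarith

end Pool.Agent.Helper39.SP
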