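import Pool.Agent.Helper39.SP.Total
import Pool.Agent.Helper39.SP.Major
import Pool.Agent.Helper39.SP.Smooth
import Pool.Agent.Helper39.SP.Avg2
import Pool.Agent.Helper83.HLC.RSum
import Pool.Agent.Helper40.DB.Major

/-!
# SP-25: the mean square with the weight of the prime tuples

PROOF. `k = 0`: `GG a n = 1` (empty product): `smooth`. Let `k ≥ 1`, `F = av S e f`, `0 ≤ F^2 ≤ 4`, `|f| ≤ 2`. `K` is a large natural number, `X0` too; `H ≥ |S| ≥ 1`.
`total` gives `j`, `n`; let `η` be small (`4^k * 12 * η ≤ ε / 5`), then `b`, `N`, and `s = 40 (b + 2)`; `z` from `Helper40.DB.exists_z` (`1 ≤ z`, `z^s ≤ X < (z + 1)^s`).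
(1) `∑_(m < H) GG a m F^2 ≤ 4 ∑_(m ≤ H) GG a m ≤ 4 C max(H, X2) ≤ ε X / 5` (`Helper83.HLC.sum_GG`, monotone in the upper limit; `K H ≤ X`).
(2) `majorant` applied to `m ↦ F m ^ 2` for `m ≥ H` and `0` for `m < H`:
`∑_(m ∈ Icc H X) GG a m F^2 ≤ (4 s)^k ∑_(m ∈ Icc H X) nuA a 0 N m nuA a N z m F^2 + ε X / 5`.
(3) `nuA a 0 N m * nuA a N z m = phi a N z m + nuA a 0 N m`; `average2` with `φ = phi a N z`, `ψ = nuA a 0 N`, `B = 2` and `η / s^k` in place of `η`
(`total`: `∑ cyc |TT| ≤ (η / s^k)^(n + 1)`; `TT a N z X x = (∑_y ∏ phi ..) / X`):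
the sum is at most `12 X η / s^k + ∑_(m ≤ X + H) nuA a 0 N m F^2 ≤ 12 X η / s^k + Λ (∑_(m ≤ X) F^2 + 4 H)`, `Λ = (VV 0 N)⁻¹ ^ k` (`nuA_le`).
(4) `smooth` with `ε' = ε / (5 (4 s)^k Λ)`-like and `K` large: `(4 s)^k Λ (∑_(m ≤ X) F^2 + 4 H) ≤ ε X / 5 + ε X / 5`.
(`Real.log X ^ (k * (1 + δ)) ≥ 1` for `X ≥ 3`, so `K ≤ |S|` and `Real.log X ^ (k * (1 + δ)) ≤ |S|`.)
-/

set_option autoImplicit false

namespace Pool.Agent.Helper39.SP

open Finset
open Pool.Agent.Helper83.HLC (GG)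

private theorem sum_shift_le (g : ℕ → ℝ) (B : ℝ) (hg : ∀ m, g m ≤ B) (X H : ℕ) :
    ∑ m ∈ Icc 1 (X + H), g m ≤ ∑ m ∈ Icc 1 X, g m + B * H := by
  induction H with
  | zero => simp
  | succ H ih =>
    rw [← add_assoc, Finset.sum_Icc_succ_top (by omega)]
    have := hg (X + H + 1)
    push_cast
    linarith

private theorem icc_sum (g F : ℕ → ℝ) (H X : ℕ) (hH : 1 ≤ H) :
    ∑ n ∈ Icc 1 X, g n * (if H ≤ n then F n else 0) = ∑ n ∈ Icc H X, g n * F n := by
  have h : Icc H X = (Icc 1 X).filter (fun n => H ≤ n) := by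
    ext n
    simp only [mem_Icc, mem_filter]
    omega
  rw [h, Finset.sum_filter]
  refine Finset.sum_congr rfl fun n _ => ?_
  split_ifs
  · rfl
  · rw [mul_zero]

private theorem split_sum (g F : ℕ → ℝ) (hg : ∀ m, 0 ≤ g m)
    (hF4 : ∀ m, F m ≤ 4) (H X Y : ℕ) (hH : H ≤ Y + 1) :
    ∑ n ∈ Icc 1 X, g n * F n ≤
      ∑ n ∈ Icc 1 X, g n * (if H ≤ n then F n else 0) + 4 * ∑ n ∈ Icc 1 Y, g n := by
  have h1 : ∑ n ∈ Icc 1 X, g n * F n = ∑ n ∈ Icc 1 X, g n * (if H ≤ n then F n else 0) +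
      ∑ n ∈ Icc 1 X, (if H ≤ n then 0 else g n * F n) := by
    rw [← Finset.sum_add_distrib]
    refine Finset.sum_congr rfl fun n _ => ?_
    split_ifs
    · rw [add_zero]
    · rw [mul_zero, zero_add]
  rw [h1]
  refine add_le_add le_rfl ?_
  have h2 : ∑ n ∈ Icc 1 X, (if H ≤ n then 0 else g n * F n) =
      ∑ n ∈ (Icc 1 X).filter (fun n => ¬ H ≤ n), g n * F n := by
    rw [Finset.sum_filter]
    refine Finset.sum_congr rfl fun n _ => ?_
    split_ifs <;> rfl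
  rw [h2]
  calc ∑ n ∈ (Icc 1 X).filter (fun n => ¬ H ≤ n), g n * F n
      ≤ ∑ n ∈ (Icc 1 X).filter (fun n => ¬ H ≤ n), g n * 4 :=
        Finset.sum_le_sum fun n _ => mul_le_mul_of_nonneg_left (hF4 n) (hg n)
    _ ≤ ∑ n ∈ Icc 1 Y, g n * 4 := by
        refine Finset.sum_le_sum_of_subset_of_nonneg (fun n hn => ?_) fun n _ _ =>
          mul_nonneg (hg n) (by norm_num)
        rw [mem_filter, mem_Icc] at hn
        rw [mem_Icc]
        omega
    _ = 4 * ∑ n ∈ Icc 1 Y, g n := by rw [← Finset.sum_mul, mul_comm]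

theorem main (hT : TwoPt) {k : ℕ} (a : Fin k → ℕ) (ha : Function.Injective a) (r : ℕ) (hr : 1 ≤ r) (A : ℝ)
    (hA : 0 ≤ A) (δ : ℝ) (hδ : 0 < δ) (ε : ℝ) (hε : 0 < ε) :
    ∃ K X0 : ℕ, ∀ X : ℕ, X0 ≤ X → ∀ (S : Finset ℕ) (H : ℕ), S ⊆ Icc 1 H →
    K * Real.log X ^ (k * (1 + δ)) ≤ S.card → K * H ≤ X →
    (energy r S : ℝ) * H ≤ A * (S.card : ℝ) ^ (2 * r) → ∀ e : ℕ → ℝ, (∀ h, |e h| ≤ 1) →
    ∀ f : ℕ → ℝ, Cen X f →
    ∑ n ∈ Icc 1 X, GG a n * av S e f n ^ 2 ≤ ε * X := by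
  rcases Nat.eq_zero_or_pos k with hk0 | hk
  · subst hk0
    obtain ⟨K, X0, h⟩ := smooth hT r hr A hA ε hε
    refine ⟨K, X0, fun X hX S H hS hK hKH hE e he f hf => ?_⟩
    have hK' : K ≤ S.card := by
      have h2 : (K : ℝ) ≤ S.card := by
        simpa using hK
      exact_mod_cast h2
    have h1 := h X hX S H hS hK' hKH hE e he f hf
    have h2 : ∀ n : ℕ, GG a n = 1 := fun n => by
      unfold Pool.Agent.Helper83.HLC.GG
      exact Finset.prod_of_isEmpty _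
    simp only [h2, one_mul]
    exact h1
  · obtain ⟨j, n, hj, hn, htot⟩ := total hk a ha r hr A hA δ hδ
    obtain ⟨η, hη⟩ : ∃ η : ℝ, η = ε / (60 * 4 ^ k) := ⟨_, rfl⟩
    have hη0 : 0 < η := by rw [hη]; positivity
    obtain ⟨b, N, hN, X1, htot⟩ := htot η hη0
    obtain ⟨s, hs⟩ : ∃ s : ℕ, s = 40 * (b + 2) := ⟨_, rfl⟩
    rw [← hs] at htot
    have hs4 : 4 ≤ s := by omega
    have hs0 : (0 : ℝ) < s := by exact_mod_cast (show 0 < s by omega)
    obtain ⟨X2, hmaj⟩ := majorant a s N hs4 (ε / 5) (by positivity)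
    obtain ⟨C, hC, X3, hGG⟩ := Pool.Agent.Helper83.HLC.sum_GG a ha
    have hVV := Pool.Agent.Helper40.DB.VV_pos 0 N
    obtain ⟨Λ, hΛ⟩ : ∃ Λ : ℝ, Λ = (Pool.Agent.Helper40.DB.VV 0 N)⁻¹ ^ k := ⟨_, rfl⟩
    have hΛ0 : 0 < Λ := by rw [hΛ]; positivity
    obtain ⟨P, hP⟩ : ∃ P : ℝ, P = (4 * (s : ℝ)) ^ k * Λ := ⟨_, rfl⟩
    have hP0 : 0 < P := by rw [hP]; positivity
    obtain ⟨K4, X4, hsm⟩ := smooth hT r hr A hA (ε / (5 * P)) (by positivity)
    obtain ⟨K1, hK1⟩ := exists_nat_ge (40 * C / ε)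
    obtain ⟨K2, hK2⟩ := exists_nat_ge (20 * P / ε)
    obtain ⟨X5, hX5⟩ := exists_nat_ge (40 * C * X3 / ε)
    refine ⟨K1 + K2 + K4 + 1, X1 + X2 + X4 + X5 + 3, fun X hX S H hS hK hKH hE e he f hf => ?_⟩
    have hX3r : (3 : ℝ) ≤ X := by exact_mod_cast (show 3 ≤ X by omega)
    have hX0 : (0 : ℝ) < X := by linarith
    have hlog : 1 ≤ Real.log X := by
      rw [Real.le_log_iff_exp_le (by linarith)]
      exact (Real.exp_one_lt_d9.le.trans (by norm_num)).trans hX3r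
    have hL : 1 ≤ Real.log X ^ ((k : ℝ) * (1 + δ)) :=
      Real.one_le_rpow hlog (by positivity)
    have hKr : (((K1 + K2 + K4 + 1 : ℕ) : ℝ)) * 1 ≤ S.card :=
      le_trans (mul_le_mul_of_nonneg_left hL (Nat.cast_nonneg _)) hK
    have hKc : K1 + K2 + K4 + 1 ≤ S.card := by
      rw [mul_one] at hKr
      exact_mod_cast hKr
    have hlogS : Real.log X ^ ((k : ℝ) * (1 + δ)) ≤ S.card := by
      refine le_trans ?_ hK
      refine le_mul_of_one_le_left (by linarith) ?_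
      exact_mod_cast (show 1 ≤ K1 + K2 + K4 + 1 by omega)
    have hSne : S.Nonempty := Finset.card_pos.1 (by omega)
    have hH1 : 1 ≤ H := by
      obtain ⟨x, hx⟩ := hSne
      have := Finset.mem_Icc.1 (hS hx)
      omega
    have hKH1 : K1 * H ≤ X := le_trans (Nat.mul_le_mul_right H (by omega)) hKH
    have hKH2 : K2 * H ≤ X := le_trans (Nat.mul_le_mul_right H (by omega)) hKH
    have hKH4 : K4 * H ≤ X := le_trans (Nat.mul_le_mul_right H (by omega)) hKH
    have hHX : H ≤ X := by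
      have h1 : 1 * H ≤ X := le_trans (Nat.mul_le_mul_right H (by omega)) hKH
      omega
    obtain ⟨z, hz0, hz1, hz2⟩ := _root_.DG.exists_z s X (by omega) (by omega)
    have hG0 : ∀ m, 0 ≤ GG a m := fun m => Pool.Agent.Helper83.HLC.GG_nonneg a m
    have hav0 : ∀ m, 0 ≤ av S e f m ^ 2 := fun m => sq_nonneg _
    have hav4 : ∀ m, av S e f m ^ 2 ≤ 4 := fun m => av_sq_le hf S e he m
    -- (1)
    have e1 := split_sum (fun m => GG a m) (fun m => av S e f m ^ 2) hG0 hav4 H X (H + X3)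
      (by omega)
    have e2 : 4 * ∑ m ∈ Icc 1 (H + X3), GG a m ≤ ε / 5 * X := by
      have h1 := hGG (H + X3) (by omega)
      have h2 : 40 * C * H ≤ ε * X := by
        have h3 : 40 * C ≤ ε * K1 := by
          rw [div_le_iff₀ hε] at hK1
          linarith
        have h4 : ((K1 : ℝ)) * H ≤ X := by exact_mod_cast hKH1
        have h5 : (0 : ℝ) ≤ H := Nat.cast_nonneg _
        calc 40 * C * H ≤ ε * K1 * H := mul_le_mul_of_nonneg_right h3 h5
          _ = ε * (K1 * H) := by ring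
          _ ≤ ε * X := mul_le_mul_of_nonneg_left h4 hε.le
      have h3 : 40 * C * X3 ≤ ε * X := by
        rw [div_le_iff₀ hε] at hX5
        have h4 : ((X5 : ℝ)) ≤ X := by exact_mod_cast (show X5 ≤ X by omega)
        calc 40 * C * X3 ≤ X5 * ε := hX5
          _ ≤ X * ε := mul_le_mul_of_nonneg_right h4 hε.le
          _ = ε * X := mul_comm _ _
      push_cast at h1
      linarith
    -- (2)
    have e3 := hmaj X (by omega) z hz1 hz2 (fun m => if H ≤ m then av S e f m ^ 2 else 0)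
      (fun m => by
        constructor
        · split_ifs
          · exact hav0 m
          · exact le_rfl
        · split_ifs
          · exact hav4 m
          · norm_num)
    have e4 := icc_sum (fun m => nuA a 0 N m * nuA a N z m) (fun m => av S e f m ^ 2) H X hH1
    rw [e4] at e3
    -- (3)
    have hw : ∑ x ∈ walks n H, cyc (ker S) x *
        |(∑ y ∈ Icc 1 X, ∏ i, phi a N z (y + x i)) / X| ≤ (η / (s : ℝ) ^ k) ^ (n + 1) := by
      have h1 := htot X (by omega) z hz1 hz2 S H hS hSne hHX hE hlogS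
      have h2 : (0 : ℝ) < (s : ℝ) ^ (k * (n + 1)) := by positivity
      rw [div_pow, ← pow_mul, le_div_iff₀ h2, mul_comm]
      exact h1
    have e5 := average2 S H hS hH1 e f (phi a N z) (nuA a 0 N) he 2 (Centred_le hf)
      (nuA_nonneg a 0 N) (fun m => by
        have h1 := nuA_nonneg a 0 N m
        have h2 := nuA_nonneg a N z m
        have h3 : phi a N z m + nuA a 0 N m = nuA a 0 N m * nuA a N z m := by
          unfold phi
          ring
        rw [h3]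
        exact mul_nonneg h1 h2) j n hj hn X (by omega) (η / (s : ℝ) ^ k) (by positivity) hw
    have e6 : ∑ m ∈ Icc H X, (phi a N z m + nuA a 0 N m) * av S e f m ^ 2 =
        ∑ m ∈ Icc H X, nuA a 0 N m * nuA a N z m * av S e f m ^ 2 := by
      refine Finset.sum_congr rfl fun m _ => ?_
      unfold phi
      ring
    rw [e6] at e5
    -- (4)
    have e7 : ∑ m ∈ Icc 1 (X + H), nuA a 0 N m * av S e f m ^ 2 ≤
        Λ * (ε / (5 * P) * X + 4 * H) := by
      have h1 := hsm X (by omega) S H hS (by omega) hKH4 hE e he f hf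
      have h2 := sum_shift_le (fun m => av S e f m ^ 2) 4 hav4 X H
      calc ∑ m ∈ Icc 1 (X + H), nuA a 0 N m * av S e f m ^ 2
          ≤ ∑ m ∈ Icc 1 (X + H), Λ * av S e f m ^ 2 := by
            refine Finset.sum_le_sum fun m _ => ?_
            rw [hΛ]
            exact mul_le_mul_of_nonneg_right (nuA_le a 0 N m) (hav0 m)
        _ = Λ * ∑ m ∈ Icc 1 (X + H), av S e f m ^ 2 := by rw [Finset.mul_sum]
        _ ≤ _ := mul_le_mul_of_nonneg_left (by linarith) hΛ0.le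
    have hS4 : (0 : ℝ) < (4 * (s : ℝ)) ^ k := by positivity
    have e8 : (4 * (s : ℝ)) ^ k * ∑ m ∈ Icc H X, nuA a 0 N m * nuA a N z m * av S e f m ^ 2 ≤
        ε / 5 * X + ε / 5 * X + 4 * P * H := by
      have h1 : (4 * (s : ℝ)) ^ k * (3 * 2 ^ 2 * X * (η / (s : ℝ) ^ k)) = ε / 5 * X := by
        rw [hη, mul_pow]
        field_simp
        ring
      have h2 : (4 * (s : ℝ)) ^ k * (Λ * (ε / (5 * P) * X + 4 * H)) = ε / 5 * X + 4 * P * H := by
        rw [← mul_assoc, ← hP]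
        field_simp
      calc _ ≤ (4 * (s : ℝ)) ^ k * (3 * 2 ^ 2 * X * (η / (s : ℝ) ^ k) +
            Λ * (ε / (5 * P) * X + 4 * H)) :=
            mul_le_mul_of_nonneg_left (e5.trans (by linarith)) hS4.le
        _ = _ := by rw [mul_add, h1, h2]; ring
    have e9 : 4 * P * H ≤ ε / 5 * X := by
      have h3 : 20 * P ≤ ε * K2 := by
        rw [div_le_iff₀ hε] at hK2
        linarith
      have h4 : ((K2 : ℝ)) * H ≤ X := by exact_mod_cast hKH2
      have h5 : (0 : ℝ) ≤ H := Nat.cast_nonneg _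
      have h6 : 20 * P * H ≤ ε * X := by
        calc 20 * P * H ≤ ε * K2 * H := mul_le_mul_of_nonneg_right h3 h5
          _ = ε * (K2 * H) := by ring
          _ ≤ ε * X := mul_le_mul_of_nonneg_left h4 hε.le
      linarith
    calc ∑ n ∈ Icc 1 X, GG a n * av S e f n ^ 2
        ≤ ∑ n ∈ Icc 1 X, GG a n * (if H ≤ n then av S e f n ^ 2 else 0) +
          4 * ∑ n ∈ Icc 1 (H + X3), GG a n := e1
      _ ≤ ((4 * (s : ℝ)) ^ k * ∑ m ∈ Icc H X, nuA a 0 N m * nuA a N z m * av S e f m ^ 2 +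
          ε / 5 * X) + ε / 5 * X := add_le_add e3 e2
      _ ≤ ε * X := by linarith

end Pool.Agent.Helper39.SP
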