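import Pool.Agent.Helper39.SP.Defs2

/-!
# SP-15: sums over walks: elimination of the last point

PROOFS. `sum_snoc`: `Fin.snocEquiv` / `Fintype.piFinset` (the map `x ↦ (Fin.init x, x (Fin.last _))` is a bijection of `walks (n + 1) H` with
`walks n H ×ˢ range H`). `opn_snoc`: `Fin.prod_univ_castSucc`, `Fin.snoc_castSucc`, `Fin.snoc_last`. `cyc_eq`: `Fin.prod_univ_castSucc`,
`Fin.coeSucc_eq_succ`, `Fin.last_add_one`.
`close_block`: by induction on `m` (with `n` fixed) for a general nonnegative closing kernel is most convenient: for every `P : ℕ → ℕ → ℝ`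
`∑_(x ∈ walks (n + m) H) opn K x * P (x last) (x 0) * G(first n + 1 points) = ∑_(x ∈ walks n H) opn K x * (K^m P)(x last, x 0) * G x`, where
`K^0 P = P`, `(K^(m+1) P) s t = ∑_(z < H) K s z (K^m P) z t`; for `P = K` this is `path K (range H) m`. Step: `sum_snoc`, `opn_snoc`.
`open_mass`: induction, `sum_snoc`, `opn_snoc`; `walks 0 H` has `H` elements. `open_pair`: induction on `n` with `l` fixed: if `l` is the last index
(`l ≠ 0`) use `hψ` for the sum over the last point and then `open_mass`; otherwise `hK` and induction.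
`open_ret`: induction; `ret a (snoc x z) = ret a x + (1 if some close a (x j) z, else 0)`, so the sum over `z` of
`K (x last) z * M ^ (0 or 1)` is at most `∑_z K + #{z | ∃ j, close a (x j) z} * (M K) ≤ 1 + (n + 1) k^2` (`close a s t` determines `t` from the two indices).
`rot_sum`, `cyc_rot`, `TT_rot`: reindexing with `Equiv.addRight l` on `Fin (n + 1)`.
-/

set_option autoImplicit false

namespace Pool.Agent.Helper39.SP

open Finset

theorem sum_snoc (n H : ℕ) (F : (Fin (n + 1 + 1) → ℕ) → ℝ) :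
    ∑ x ∈ walks (n + 1) H, F x =
      ∑ x ∈ walks n H, ∑ z ∈ range H, F (Fin.snoc (α := fun _ => ℕ) x z) := by
  rw [← sum_product']
  refine sum_nbij' (fun x => (Fin.init (α := fun _ => ℕ) x, x (Fin.last _)))
    (fun u => Fin.snoc (α := fun _ => ℕ) u.1 u.2) ?_ ?_ ?_ ?_ ?_
  · intro x hx
    have h := Fintype.mem_piFinset.1 hx
    exact mem_product.2 ⟨Fintype.mem_piFinset.2 fun i => h _, h _⟩
  · intro u hu
    obtain ⟨h1, h2⟩ := mem_product.1 hu
    refine Fintype.mem_piFinset.2 fun i => ?_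
    refine Fin.lastCases ?_ (fun j => ?_) i
    · rw [Fin.snoc_last]
      exact h2
    · rw [Fin.snoc_castSucc]
      exact Fintype.mem_piFinset.1 h1 j
  · intro x _
    exact Fin.snoc_init_self _
  · intro u _
    refine Prod.ext ?_ ?_
    · change Fin.init (α := fun _ => ℕ) (Fin.snoc (α := fun _ => ℕ) u.1 u.2) = u.1
      rw [Fin.init_snoc]
    · change (Fin.snoc (α := fun _ => ℕ) u.1 u.2 : Fin (n + 1 + 1) → ℕ) (Fin.last (n + 1)) = u.2
      rw [Fin.snoc_last]
  · intro x _
    exact congrArg F (Fin.snoc_init_self _).symm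

theorem opn_snoc (K : ℕ → ℕ → ℝ) {n : ℕ} (x : Fin (n + 1) → ℕ) (z : ℕ) :
    opn K (n := n + 1) (Fin.snoc (α := fun _ => ℕ) x z) = opn K x * K (x (Fin.last n)) z := by
  unfold opn
  rw [Fin.prod_univ_castSucc]
  congr 1
  · refine prod_congr rfl fun i _ => ?_
    rw [Fin.succ_castSucc, Fin.snoc_castSucc, Fin.snoc_castSucc]
  · rw [Fin.succ_last, Fin.snoc_castSucc, Fin.snoc_last]

theorem cyc_eq (K : ℕ → ℕ → ℝ) {n : ℕ} (x : Fin (n + 1) → ℕ) :
    cyc K x = opn K x * K (x (Fin.last n)) (x 0) := by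
  unfold cyc opn
  rw [Fin.prod_univ_castSucc]
  congr 1
  · refine prod_congr rfl fun i _ => ?_
    rw [Fin.coeSucc_eq_succ]
  · rw [Fin.last_add_one]

theorem opn_nonneg (K : ℕ → ℕ → ℝ) (hK : ∀ s t, 0 ≤ K s t) {n : ℕ} (x : Fin (n + 1) → ℕ) :
    0 ≤ opn K x := prod_nonneg fun _ _ => hK _ _

theorem cyc_nonneg (K : ℕ → ℕ → ℝ) (hK : ∀ s t, 0 ≤ K s t) {n : ℕ} (x : Fin (n + 1) → ℕ) :
    0 ≤ cyc K x := prod_nonneg fun _ _ => hK _ _

private theorem snoc_zero' {n : ℕ} (x : Fin (n + 1) → ℕ) (z : ℕ) :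
    (Fin.snoc (α := fun _ => ℕ) x z : Fin (n + 1 + 1) → ℕ) 0 = x 0 := by
  have h : (0 : Fin (n + 1 + 1)) = Fin.castSucc 0 := rfl
  rw [h, Fin.snoc_castSucc]

private theorem block (K : ℕ → ℕ → ℝ) (n H : ℕ) (G : (Fin (n + 1) → ℕ) → ℝ) (m : ℕ) :
    ∀ j, ∑ x ∈ walks (n + m) H, opn K x * path K (range H) j (x (Fin.last (n + m))) (x 0) *
      G (fun i : Fin (n + 1) => x (Fin.castLE (by omega) i)) =
      ∑ x ∈ walks n H, opn K x * path K (range H) (j + m) (x (Fin.last n)) (x 0) * G x := by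
  induction m with
  | zero =>
    intro j
    rfl
  | succ m ih =>
    intro j
    have h1 : j + (m + 1) = (j + 1) + m := by omega
    rw [h1, ← ih (j + 1)]
    refine (sum_snoc (n + m) H _).trans ?_
    refine sum_congr rfl fun x _ => ?_
    have h2 : ∀ z, opn K (n := n + m + 1) (Fin.snoc (α := fun _ => ℕ) x z) *
        path K (range H) j ((Fin.snoc (α := fun _ => ℕ) x z : Fin (n + m + 1 + 1) → ℕ)
          (Fin.last (n + m + 1))) ((Fin.snoc (α := fun _ => ℕ) x z : Fin (n + m + 1 + 1) → ℕ) 0) *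
        G (fun i : Fin (n + 1) => (Fin.snoc (α := fun _ => ℕ) x z : Fin (n + m + 1 + 1) → ℕ)
          (Fin.castLE (by omega) i)) =
        opn K x * (K (x (Fin.last (n + m))) z * path K (range H) j z (x 0)) *
        G (fun i : Fin (n + 1) => x (Fin.castLE (by omega) i)) := by
      intro z
      have h3 : (fun i : Fin (n + 1) => (Fin.snoc (α := fun _ => ℕ) x z :
          Fin (n + m + 1 + 1) → ℕ) (Fin.castLE (by omega) i)) =
          fun i : Fin (n + 1) => x (Fin.castLE (by omega) i) := by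
        funext i
        have h4 : (Fin.castLE (by omega) i : Fin (n + m + 1 + 1)) =
            Fin.castSucc (Fin.castLE (by omega) i : Fin (n + m + 1)) := Fin.ext rfl
        rw [h4, Fin.snoc_castSucc]
      rw [opn_snoc, snoc_zero', Fin.snoc_last, h3]
      ring
    refine (sum_congr rfl fun z _ => h2 z).trans ?_
    rw [← sum_mul, ← mul_sum]
    rfl

theorem close_block (K : ℕ → ℕ → ℝ) (hK : ∀ s t, 0 ≤ K s t) (n m H : ℕ) (P : ℝ)
    (hP : ∀ s t, path K (range H) m s t ≤ P) (G : (Fin (n + 1) → ℕ) → ℝ) (hG : ∀ x, 0 ≤ G x) :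
    ∑ x ∈ walks (n + m) H, cyc K x * G (fun i : Fin (n + 1) => x (Fin.castLE (by omega) i)) ≤
      P * ∑ x ∈ walks n H, opn K x * G x := by
  have h1 := block K n H G m 0
  have h2 : ∑ x ∈ walks (n + m) H,
      cyc K x * G (fun i : Fin (n + 1) => x (Fin.castLE (by omega) i)) =
      ∑ x ∈ walks (n + m) H, opn K x * path K (range H) 0 (x (Fin.last (n + m))) (x 0) *
      G (fun i : Fin (n + 1) => x (Fin.castLE (by omega) i)) := by
    refine sum_congr rfl fun x _ => ?_
    rw [cyc_eq]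
    rfl
  rw [h2, h1, mul_sum, Nat.zero_add]
  refine sum_le_sum fun x _ => ?_
  calc opn K x * path K (range H) m (x (Fin.last n)) (x 0) * G x ≤ opn K x * P * G x :=
        mul_le_mul_of_nonneg_right (mul_le_mul_of_nonneg_left (hP _ _) (opn_nonneg K hK x)) (hG x)
    _ = P * (opn K x * G x) := by ring

private theorem card_walks_zero (H : ℕ) : (walks 0 H).card = H := by
  unfold walks
  rw [Fintype.card_piFinset_const, card_range, pow_one]

theorem open_mass (K : ℕ → ℕ → ℝ) (H : ℕ) (hK0 : ∀ s t, 0 ≤ K s t)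
    (hK : ∀ s, ∑ z ∈ range H, K s z ≤ 1) (n : ℕ) : ∑ x ∈ walks n H, opn K x ≤ H := by
  induction n with
  | zero =>
    have h : ∀ x : Fin (0 + 1) → ℕ, opn K x = 1 := fun x => by
      unfold opn
      exact Fin.prod_univ_zero _
    rw [sum_congr rfl fun x _ => h x, sum_const, card_walks_zero, nsmul_eq_mul, mul_one]
  | succ n ih =>
    rw [sum_snoc]
    refine le_trans (sum_le_sum fun x _ => ?_) ih
    rw [sum_congr rfl fun z _ => opn_snoc K x z, ← mul_sum]
    exact mul_le_of_le_one_right (opn_nonneg K hK0 x) (hK _)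

private theorem mem_walks_lt {n H : ℕ} {x : Fin (n + 1) → ℕ} (hx : x ∈ walks n H)
    (i : Fin (n + 1)) : x i < H := mem_range.1 (Fintype.mem_piFinset.1 hx i)

theorem open_pair (K : ℕ → ℕ → ℝ) (H : ℕ) (hK0 : ∀ s t, 0 ≤ K s t)
    (hK : ∀ s, ∑ z ∈ range H, K s z ≤ 1) (ψ : ℕ → ℕ → ℝ) (hψ0 : ∀ s t, 0 ≤ ψ s t) (g : ℝ)
    (hψ : ∀ s u, s < H → u < H → ∑ z ∈ range H, K s z * ψ u z ≤ g) (n : ℕ) (l : Fin (n + 1))
    (hl : l ≠ 0) : ∑ x ∈ walks n H, opn K x * ψ (x 0) (x l) ≤ H * g := by
  rcases Nat.eq_zero_or_pos H with h0 | h0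
  · have h1 : walks n H = ∅ := by
      refine eq_empty_of_forall_notMem fun x hx => ?_
      have := mem_walks_lt hx 0
      omega
    rw [h1, h0]
    simp
  have hg : 0 ≤ g := le_trans
    (sum_nonneg fun z _ => mul_nonneg (hK0 _ _) (hψ0 _ _)) (hψ 0 0 h0 h0)
  induction n with
  | zero => exact absurd (Subsingleton.elim (α := Fin 1) l 0) hl
  | succ n ih =>
    rw [sum_snoc]
    revert hl
    refine Fin.lastCases ?_ (fun j => ?_) l
    · intro _
      calc ∑ x ∈ walks n H, ∑ z ∈ range H, opn K (n := n + 1) (Fin.snoc (α := fun _ => ℕ) x z) *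
            ψ ((Fin.snoc (α := fun _ => ℕ) x z : Fin (n + 1 + 1) → ℕ) 0)
              ((Fin.snoc (α := fun _ => ℕ) x z : Fin (n + 1 + 1) → ℕ) (Fin.last (n + 1)))
          ≤ ∑ x ∈ walks n H, opn K x * g := by
            refine sum_le_sum fun x hx => ?_
            have h1 : ∀ z, opn K (n := n + 1) (Fin.snoc (α := fun _ => ℕ) x z) *
                ψ ((Fin.snoc (α := fun _ => ℕ) x z : Fin (n + 1 + 1) → ℕ) 0)
                ((Fin.snoc (α := fun _ => ℕ) x z : Fin (n + 1 + 1) → ℕ) (Fin.last (n + 1))) =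
                opn K x * (K (x (Fin.last n)) z * ψ (x 0) z) := by
              intro z
              rw [opn_snoc, snoc_zero', Fin.snoc_last]
              ring
            rw [sum_congr rfl fun z _ => h1 z, ← mul_sum]
            exact mul_le_mul_of_nonneg_left (hψ _ _ (mem_walks_lt hx _) (mem_walks_lt hx _))
              (opn_nonneg K hK0 x)
        _ = (∑ x ∈ walks n H, opn K x) * g := by rw [sum_mul]
        _ ≤ H * g := mul_le_mul_of_nonneg_right (open_mass K H hK0 hK n) hg
    · intro hj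
      have hj0 : j ≠ 0 := by
        rintro rfl
        exact hj rfl
      refine le_trans (sum_le_sum fun x _ => ?_) (ih j hj0)
      have h1 : ∀ z, opn K (n := n + 1) (Fin.snoc (α := fun _ => ℕ) x z) *
          ψ ((Fin.snoc (α := fun _ => ℕ) x z : Fin (n + 1 + 1) → ℕ) 0)
          ((Fin.snoc (α := fun _ => ℕ) x z : Fin (n + 1 + 1) → ℕ) (Fin.castSucc j)) =
          opn K x * ψ (x 0) (x j) * K (x (Fin.last n)) z := by
        intro z
        rw [opn_snoc, snoc_zero', Fin.snoc_castSucc]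
        ring
      rw [sum_congr rfl fun z _ => h1 z, ← mul_sum]
      exact mul_le_of_le_one_right (mul_nonneg (opn_nonneg K hK0 x) (hψ0 _ _)) (hK _)

open Classical in
private theorem ret_snoc {k : ℕ} (a : Fin k → ℕ) {n : ℕ} (x : Fin (n + 1) → ℕ) (z : ℕ) :
    ret a (Fin.snoc (α := fun _ => ℕ) x z : Fin (n + 1 + 1) → ℕ) =
      ret a x + (if ∃ j, close a (x j) z then 1 else 0) := by
  unfold ret
  rw [card_filter, card_filter, Fin.sum_univ_castSucc]
  congr 1
  · refine sum_congr rfl fun i _ => ?_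
    refine if_congr ⟨?_, ?_⟩ rfl rfl
    · rintro ⟨j, hj, hc⟩
      revert hj hc
      refine Fin.lastCases ?_ (fun j' => ?_) j
      · intro hj
        exact absurd hj (not_lt.2 (Fin.le_last _))
      · intro hj hc
        rw [Fin.snoc_castSucc, Fin.snoc_castSucc] at hc
        exact ⟨j', Fin.castSucc_lt_castSucc_iff.1 hj, hc⟩
    · rintro ⟨j, hj, hc⟩
      refine ⟨Fin.castSucc j, Fin.castSucc_lt_castSucc_iff.2 hj, ?_⟩
      rw [Fin.snoc_castSucc, Fin.snoc_castSucc]
      exact hc
  · refine if_congr ⟨?_, ?_⟩ rfl rfl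
    · rintro ⟨j, hj, hc⟩
      revert hj hc
      refine Fin.lastCases ?_ (fun j' => ?_) j
      · intro hj
        exact absurd hj (lt_irrefl _)
      · intro _ hc
        rw [Fin.snoc_castSucc, Fin.snoc_last] at hc
        exact ⟨j', hc⟩
    · rintro ⟨j, hc⟩
      refine ⟨Fin.castSucc j, Fin.castSucc_lt_last j, ?_⟩
      rw [Fin.snoc_castSucc, Fin.snoc_last]
      exact hc

open Classical in
private theorem card_close {k : ℕ} (a : Fin k → ℕ) {n : ℕ} (x : Fin (n + 1) → ℕ) (H : ℕ) :
    ((range H).filter fun z => ∃ j, close a (x j) z).card ≤ (n + 1) * k ^ 2 := by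
  have h1 : (range H).filter (fun z => ∃ j, close a (x j) z) ⊆
      (univ : Finset (Fin (n + 1) × Fin k × Fin k)).image
        (fun u => x u.1 + a u.2.1 - a u.2.2) := by
    intro z hz
    obtain ⟨_, j, i, i', h⟩ := mem_filter.1 hz
    refine mem_image.2 ⟨(j, i, i'), mem_univ _, ?_⟩
    change x j + a i - a i' = z
    omega
  refine (card_le_card h1).trans (card_image_le.trans ?_)
  rw [card_univ, Fintype.card_prod, Fintype.card_prod, Fintype.card_fin, Fintype.card_fin, sq]

theorem open_ret {k : ℕ} (a : Fin k → ℕ) (K : ℕ → ℕ → ℝ) (H : ℕ) (hK0 : ∀ s t, 0 ≤ K s t)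
    (hK : ∀ s, ∑ z ∈ range H, K s z ≤ 1) (M : ℝ) (hM : 1 ≤ M) (hKM : ∀ s t, M * K s t ≤ 1) (n : ℕ) :
    ∑ x ∈ walks n H, opn K x * M ^ ret a x ≤ H * (1 + (n + 1) * (k : ℝ) ^ 2) ^ n := by
  classical
  have hM0 : (0 : ℝ) ≤ M := by linarith
  induction n with
  | zero =>
    have h : ∀ x : Fin (0 + 1) → ℕ, opn K x * M ^ ret a x = 1 := fun x => by
      have h1 : ret a x = 0 := by
        unfold ret
        refine card_eq_zero.2 (filter_eq_empty_iff.2 fun i _ => ?_)
        rintro ⟨j, hj, _⟩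
        have hji : j = i := Subsingleton.elim (α := Fin 1) j i
        rw [hji] at hj
        exact absurd hj (lt_irrefl _)
      rw [h1, pow_zero, mul_one]
      unfold opn
      exact Fin.prod_univ_zero _
    rw [sum_congr rfl fun x _ => h x, sum_const, card_walks_zero, nsmul_eq_mul, mul_one,
      pow_zero, mul_one]
  | succ n ih =>
    rw [sum_snoc]
    have hc : (0 : ℝ) ≤ (n + 1) * (k : ℝ) ^ 2 := by positivity
    calc ∑ x ∈ walks n H, ∑ z ∈ range H, opn K (n := n + 1) (Fin.snoc (α := fun _ => ℕ) x z) *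
          M ^ ret a (Fin.snoc (α := fun _ => ℕ) x z : Fin (n + 1 + 1) → ℕ)
        ≤ ∑ x ∈ walks n H, (opn K x * M ^ ret a x) * (1 + (n + 1) * (k : ℝ) ^ 2) := by
          refine sum_le_sum fun x _ => ?_
          have h1 : ∀ z, opn K (n := n + 1) (Fin.snoc (α := fun _ => ℕ) x z) *
              M ^ ret a (Fin.snoc (α := fun _ => ℕ) x z : Fin (n + 1 + 1) → ℕ) ≤
              (opn K x * M ^ ret a x) * (K (x (Fin.last n)) z +
                if ∃ j, close a (x j) z then 1 else 0) := by
            intro z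
            rw [opn_snoc, ret_snoc, pow_add]
            have h2 : K (x (Fin.last n)) z * M ^ (if ∃ j, close a (x j) z then 1 else 0) ≤
                K (x (Fin.last n)) z + if ∃ j, close a (x j) z then 1 else 0 := by
              split_ifs
              · rw [pow_one, mul_comm]
                have h3 := hKM (x (Fin.last n)) z
                have h4 := hK0 (x (Fin.last n)) z
                linarith
              · rw [pow_zero, mul_one, add_zero]
            calc opn K x * K (x (Fin.last n)) z *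
                  (M ^ ret a x * M ^ (if ∃ j, close a (x j) z then 1 else 0))
                = (opn K x * M ^ ret a x) *
                  (K (x (Fin.last n)) z * M ^ (if ∃ j, close a (x j) z then 1 else 0)) := by ring
              _ ≤ _ := mul_le_mul_of_nonneg_left h2
                  (mul_nonneg (opn_nonneg K hK0 x) (pow_nonneg hM0 _))
          refine (sum_le_sum fun z _ => h1 z).trans ?_
          rw [← mul_sum, sum_add_distrib]
          refine mul_le_mul_of_nonneg_left (add_le_add (hK _) ?_)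
            (mul_nonneg (opn_nonneg K hK0 x) (pow_nonneg hM0 _))
          rw [← sum_filter, sum_const, nsmul_eq_mul, mul_one]
          exact_mod_cast card_close a x H
      _ = (∑ x ∈ walks n H, opn K x * M ^ ret a x) * (1 + (n + 1) * (k : ℝ) ^ 2) := by
          rw [sum_mul]
      _ ≤ (H * (1 + (n + 1) * (k : ℝ) ^ 2) ^ n) * (1 + (n + 1) * (k : ℝ) ^ 2) :=
          mul_le_mul_of_nonneg_right ih (by linarith)
      _ = H * (1 + (n + 1) * (k : ℝ) ^ 2) ^ (n + 1) := by rw [pow_succ]; ring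
      _ ≤ H * (1 + ((n + 1 : ℕ) + 1) * (k : ℝ) ^ 2) ^ (n + 1) := by
          refine mul_le_mul_of_nonneg_left ?_ (Nat.cast_nonneg _)
          refine pow_le_pow_left₀ (by linarith) ?_ _
          push_cast
          nlinarith [sq_nonneg (k : ℝ)]

theorem rot_sum (n H : ℕ) (l : Fin (n + 1)) (F : (Fin (n + 1) → ℕ) → ℝ) :
    ∑ x ∈ walks n H, F (fun i => x (i + l)) = ∑ x ∈ walks n H, F x := by
  refine sum_nbij' (fun x i => x (i + l)) (fun x i => x (i - l)) ?_ ?_ ?_ ?_ ?_
  · intro x hx
    exact Fintype.mem_piFinset.2 fun i => Fintype.mem_piFinset.1 hx _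
  · intro x hx
    exact Fintype.mem_piFinset.2 fun i => Fintype.mem_piFinset.1 hx _
  · intro x _
    funext i
    change x (i - l + l) = x i
    rw [sub_add_cancel]
  · intro x _
    funext i
    change x (i + l - l) = x i
    rw [add_sub_cancel_right]
  · intro x _
    rfl

theorem cyc_rot (K : ℕ → ℕ → ℝ) {n : ℕ} (l : Fin (n + 1)) (x : Fin (n + 1) → ℕ) :
    cyc K (fun i => x (i + l)) = cyc K x := by
  unfold cyc
  refine Fintype.prod_equiv (Equiv.addRight l) _ _ fun i => ?_
  change K (x (i + l)) (x (i + 1 + l)) = K (x (i + l)) (x (i + l + 1))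
  rw [add_right_comm]

theorem TT_rot {k : ℕ} (a : Fin k → ℕ) (N z X : ℕ) {n : ℕ} (l : Fin (n + 1)) (x : Fin (n + 1) → ℕ) :
    TT a N z X (fun i => x (i + l)) = TT a N z X x := by
  unfold TT
  congr 1
  refine sum_congr rfl fun y _ => ?_
  exact Fintype.prod_equiv (Equiv.addRight l) _ _ fun i => rfl

end Pool.Agent.Helper39.SP
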