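import Pool.Agent.Helper39.SP.Kap
import Pool.Agent.Helper39.SP.Energy

/-!
# SP-03: the elements of `S` in a residue class

PROOF. Let `q` be the largest number of elements of `S` in a residue class modulo `d`. For fixed `h'` the `h ∈ S` with `d ∣ h - h' - a`
are in one residue class, so the sum on the left is at most `|S| q / |S| ^ 2 = q / |S|` (for `S = ∅` it is `0`, and `0 ^ (2 r) = 0`).
Let `S'` be the elements of `S` in a class with `q` elements. The sums `∑ u`, `u ∈ S' ^ r`, are in one residue class modulo `d` and in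
`[0, r H]`: there are at most `r H / d + 1` of them. Cauchy-Schwarz: `(q ^ r) ^ 2 = (∑_s R s) ^ 2 ≤ (r H / d + 1) ∑_s R s ^ 2
= (r H / d + 1) energy r S' ≤ (r H / d + 1) energy r S`. Multiply by `d ≤ c H`:
`q ^ (2 r) d ≤ (r H + d) energy r S ≤ (r + c) H energy r S ≤ (r + c) A |S| ^ (2 r)`.
(Use `sq_sum_le_card_mul_sum_sq` or `Finset.sum_mul_sq_le_sq_mul_sq`, `Finset.card_eq_sum_card_fiberwise`; the number of the multiples
of `d` shifted: `Nat.count_modEq_card` or a direct injection `s ↦ s / d` into `range (r * H / d + 1)`.)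
-/

set_option autoImplicit false

namespace Pool.Agent.Helper39.SP

open Finset

/-- The pairs with difference in a residue class. -/
theorem resid_pairs (S : Finset ℕ) (d : ℕ) (hd : 1 ≤ d) (a : ℤ) (q : ℕ)
    (hq : ∀ ρ, ρ < d → (S.filter fun h => h % d = ρ).card ≤ q) :
    ((S ×ˢ S).filter fun u => (d : ℤ) ∣ (u.1 : ℤ) - u.2 - a).card ≤ S.card * q := by
  classical
  rw [card_eq_sum_card_fiberwise (f := Prod.snd) (t := S)
    (fun u hu => (mem_product.1 (mem_filter.1 (mem_coe.1 hu)).1).2), ← smul_eq_mul]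
  refine sum_le_card_nsmul _ _ _ fun b _ => ?_
  have hd0 : (0 : ℤ) < d := by exact_mod_cast hd
  have h0 : 0 ≤ ((b : ℤ) + a) % d := Int.emod_nonneg _ hd0.ne'
  have h1 : (((b : ℤ) + a) % d).toNat < d := by
    have h2 := Int.emod_lt_of_pos ((b : ℤ) + a) hd0
    omega
  refine le_trans ?_ (hq _ h1)
  refine card_le_card_of_injOn Prod.fst ?_ ?_
  · intro u hu
    obtain ⟨hu1, hu2⟩ := mem_filter.1 (mem_coe.1 hu)
    obtain ⟨hu3, hu4⟩ := mem_filter.1 hu1
    refine mem_coe.2 (mem_filter.2 ⟨(mem_product.1 hu3).1, ?_⟩)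
    have h2 : (u.1 : ℤ) % d = ((b : ℤ) + a) % d := by
      have h3 : (u.1 : ℤ) - ((b : ℤ) + a) = (u.1 : ℤ) - u.2 - a := by rw [hu2]; ring
      exact Int.emod_eq_emod_iff_emod_sub_eq_zero.2 (Int.emod_eq_zero_of_dvd (h3 ▸ hu4))
    have h3 : ((u.1 % d : ℕ) : ℤ) = ((b : ℤ) + a) % d := by
      rw [Int.natCast_mod]
      exact h2
    omega
  · intro u hu v hv huv
    obtain ⟨_, hu2⟩ := mem_filter.1 (mem_coe.1 hu)
    obtain ⟨_, hv2⟩ := mem_filter.1 (mem_coe.1 hv)
    exact Prod.ext huv (hu2.trans hv2.symm)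

/-- Cauchy-Schwarz for the elements of one residue class. -/
theorem resid_energy (r : ℕ) (S : Finset ℕ) (H : ℕ) (hS : S ⊆ Icc 1 H) (d : ℕ) (hd : 1 ≤ d)
    (ρ : ℕ) : ((S.filter fun h => h % d = ρ).card ^ r) ^ 2 ≤ (r * H / d + 1) * energy r S := by
  classical
  set S' := S.filter fun h => h % d = ρ with hS'
  set P := Fintype.piFinset fun _ : Fin r => S' with hP
  have hPm : ∀ u ∈ P, ∀ i, u i ∈ S ∧ u i % d = ρ := by
    intro u hu i
    exact mem_filter.1 (Fintype.mem_piFinset.1 hu i)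
  have h1 : S'.card ^ r = ∑ s ∈ range (r * H / d + 1), (P.filter fun u => (∑ i, u i) / d = s).card := by
    rw [← Fintype.card_piFinset_const S' r]
    refine card_eq_sum_card_fiberwise (fun u hu => ?_)
    refine mem_coe.2 (mem_range.2 (Nat.lt_succ_of_le (Nat.div_le_div_right ?_)))
    calc ∑ i, u i ≤ ∑ _i : Fin r, H :=
          sum_le_sum fun i _ => (mem_Icc.1 (hS (hPm u (mem_coe.1 hu) i).1)).2
      _ = r * H := by simp
  have h2 : ∑ s ∈ range (r * H / d + 1), (P.filter fun u => (∑ i, u i) / d = s).card ^ 2 ≤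
      energy r S := by
    have h3 : ∑ s ∈ range (r * H / d + 1), (P.filter fun u => (∑ i, u i) / d = s).card ^ 2 =
        ((range (r * H / d + 1)).biUnion fun s =>
          (P.filter fun u => (∑ i, u i) / d = s) ×ˢ (P.filter fun u => (∑ i, u i) / d = s)).card := by
      rw [card_biUnion]
      · exact sum_congr rfl fun s _ => by rw [card_product, sq]
      · intro s _ s' _ hss
        refine Finset.disjoint_left.2 fun u hu hu' => hss ?_
        exact ((mem_filter.1 (mem_product.1 hu).1).2).symm.trans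
          (mem_filter.1 (mem_product.1 hu').1).2
    rw [h3, energy]
    refine card_le_card fun u hu => ?_
    obtain ⟨s, _, hu⟩ := mem_biUnion.1 hu
    obtain ⟨hu1, hu2⟩ := mem_product.1 hu
    obtain ⟨hu3, hu4⟩ := mem_filter.1 hu1
    obtain ⟨hu5, hu6⟩ := mem_filter.1 hu2
    refine mem_filter.2 ⟨mem_product.2 ⟨Fintype.mem_piFinset.2 fun i => (hPm _ hu3 i).1,
      Fintype.mem_piFinset.2 fun i => (hPm _ hu5 i).1⟩, ?_⟩
    have h4 : (∑ i, u.1 i) % d = (∑ i, u.2 i) % d := by
      rw [sum_nat_mod, sum_nat_mod (f := u.2)]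
      congr 1
      exact sum_congr rfl fun i _ => (hPm _ hu3 i).2.trans (hPm _ hu5 i).2.symm
    rw [← Nat.div_add_mod (∑ i, u.1 i) d, ← Nat.div_add_mod (∑ i, u.2 i) d, hu4, hu6, h4]
  calc (S'.card ^ r) ^ 2 =
        (∑ s ∈ range (r * H / d + 1), (P.filter fun u => (∑ i, u i) / d = s).card) ^ 2 := by
          rw [h1]
    _ ≤ (range (r * H / d + 1)).card *
        ∑ s ∈ range (r * H / d + 1), (P.filter fun u => (∑ i, u i) / d = s).card ^ 2 :=
          sq_sum_le_card_mul_sum_sq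
    _ ≤ (r * H / d + 1) * energy r S := by
          rw [card_range]
          exact Nat.mul_le_mul_left _ h2

theorem resid (r : ℕ) (hr : 1 ≤ r) (A : ℝ) (hA : 0 ≤ A) (S : Finset ℕ) (H : ℕ) (hS : S ⊆ Icc 1 H)
    (hE : (energy r S : ℝ) * H ≤ A * (S.card : ℝ) ^ (2 * r)) (c d : ℕ) (hd : 1 ≤ d) (hdc : d ≤ c * H)
    (a : ℤ) (T : Finset ℤ) :
    (∑ t ∈ T.filter (fun t => (d : ℤ) ∣ t - a), kap S (fun _ => 1) t) ^ (2 * r) * d ≤ A * (r + c) := by
  classical
  rcases S.eq_empty_or_nonempty with hem | hne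
  · have h1 : ∀ t, kap S (fun _ => 1) t = 0 := by
      intro t
      simp [kap, hem]
    simp only [h1, sum_const_zero]
    rw [zero_pow (by omega), zero_mul]
    positivity
  have hSc : (0 : ℝ) < S.card := by exact_mod_cast hne.card_pos
  obtain ⟨ρ, _, hmax⟩ := exists_max_image (range d)
    (fun ρ => (S.filter fun h => h % d = ρ).card) ⟨0, mem_range.2 hd⟩
  set q := (S.filter fun h => h % d = ρ).card with hqd
  have h1 := resid_pairs S d hd a q fun ρ' hρ' => hmax ρ' (mem_range.2 hρ')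
  have h2 := resid_energy r S H hS d hd ρ
  rw [← hqd] at h2
  set X := ∑ t ∈ T.filter (fun t => (d : ℤ) ∣ t - a), kap S (fun _ => 1) t with hX
  have hX0 : 0 ≤ X := sum_nonneg fun t _ => kap_one_nonneg S t
  have h3 : X * S.card ≤ q := by
    have h4 : ∀ t, kap S (fun _ => 1) t =
        (((S ×ˢ S).filter fun u => (u.1 : ℤ) - u.2 = t).card : ℝ) / (S.card : ℝ) ^ 2 := by
      intro t
      simp [kap]
    have h5 : ∑ t ∈ T.filter (fun t => (d : ℤ) ∣ t - a),
        ((S ×ˢ S).filter fun u => (u.1 : ℤ) - u.2 = t).card ≤ S.card * q := by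
      refine le_trans ?_ h1
      rw [← card_biUnion]
      · refine card_le_card fun u hu => ?_
        obtain ⟨t, ht, hu⟩ := mem_biUnion.1 hu
        obtain ⟨hu1, hu2⟩ := mem_filter.1 hu
        refine mem_filter.2 ⟨hu1, ?_⟩
        rw [hu2]
        exact (mem_filter.1 ht).2
      · intro t _ t' _ htt
        refine Finset.disjoint_left.2 fun u hu hu' => htt ?_
        exact ((mem_filter.1 hu).2).symm.trans (mem_filter.1 hu').2
    have h6 : X * (S.card : ℝ) ^ 2 ≤ S.card * q := by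
      rw [hX, sum_congr rfl fun t _ => h4 t, ← sum_div, div_mul_cancel₀ _ (by positivity)]
      exact_mod_cast h5
    have h7 : (X * S.card) * S.card ≤ q * S.card := by nlinarith
    exact le_of_mul_le_mul_right h7 hSc
  have h4 : (X * S.card) ^ (2 * r) ≤ (q : ℝ) ^ (2 * r) :=
    pow_le_pow_left₀ (mul_nonneg hX0 hSc.le) h3 _
  have h5 : (q : ℝ) ^ (2 * r) * d ≤ (r + c) * H * energy r S := by
    have h6 : (q ^ r) ^ 2 * d ≤ (r * H + c * H) * energy r S := by
      calc (q ^ r) ^ 2 * d ≤ (r * H / d + 1) * energy r S * d := Nat.mul_le_mul_right _ h2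
        _ = (r * H / d * d + d) * energy r S := by ring
        _ ≤ (r * H + c * H) * energy r S :=
          Nat.mul_le_mul_right _ (Nat.add_le_add (Nat.div_mul_le_self _ _) hdc)
    have h7 : (((q ^ r) ^ 2 * d : ℕ) : ℝ) ≤ (((r * H + c * H) * energy r S : ℕ) : ℝ) := by
      exact_mod_cast h6
    push_cast at h7
    calc (q : ℝ) ^ (2 * r) * d = ((q : ℝ) ^ r) ^ 2 * d := by rw [← pow_mul, mul_comm r 2]
      _ ≤ (r * H + c * H) * energy r S := h7
      _ = (r + c) * H * energy r S := by ring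
  have h6 : (S.card : ℝ) ^ (2 * r) * (X ^ (2 * r) * d) ≤
      (S.card : ℝ) ^ (2 * r) * (A * (r + c)) := by
    calc (S.card : ℝ) ^ (2 * r) * (X ^ (2 * r) * d) = (X * S.card) ^ (2 * r) * d := by
          rw [mul_pow]; ring
      _ ≤ (q : ℝ) ^ (2 * r) * d := mul_le_mul_of_nonneg_right h4 (Nat.cast_nonneg _)
      _ ≤ (r + c) * H * energy r S := h5
      _ = (r + c) * (energy r S * H) := by ring
      _ ≤ (r + c) * (A * (S.card : ℝ) ^ (2 * r)) :=
          mul_le_mul_of_nonneg_left hE (by positivity)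
      _ = (S.card : ℝ) ^ (2 * r) * (A * (r + c)) := by ring
  exact le_of_mul_le_mul_left h6 (pow_pos hSc _)

end Pool.Agent.Helper39.SP
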