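import Pool.Agent.Helper39.SP.CaseA
import Pool.Agent.Helper39.SP.CaseB
import Pool.Agent.Helper39.SP.Merten

/-!
# SP-21: the sum over all closed walks

PROOF. Choose `c` with `c δ ≥ r (1 + δ)` (`c ≥ 1`), then `j ≥ 1`, `n + 1 = 2 ^ j` with `n + 1 ≥ 2 r` and `n + 1 ≥ r (1 + k^2) (c + 1)`. Let `C_A`, `N_A` be the constants of
`caseA` (they depend only on `a, r, A, n`), `N_B`, `q` those of `caseB1`, `caseB2`. Take `N = 2 ^ b`. As `(VV 0 N)⁻¹ ≤ C log N ≤ C b` (`VV_inv_le_log`), the product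
`(40 (b + 2))^(k (n + 1)) (VV 0 N)⁻¹^(k (n + 1)) C_A ((1/4)^b + N^(-1/(2r)))` tends to `0` as `b → ∞` (`N^(-1/(2r)) = (2^(-1/(2r)))^b`; polynomial times exponential);
choose `b` with this `≤ η^(n + 1) / 3`, `b ≥ 1`, `N = 2^b ≥ N_A, N_B`. Now `b`, `N` are fixed, and the constants `C` of `caseB1`, `caseB2` too (`120 ≤ 40 (b + 2)`, so
`z ^ 120 ≤ z ^ (40 (b + 2)) ≤ X`; `z ≥ 1` may be assumed as `X < (z + 1) ^ _`, and `z ≥ 3` for large `X`).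
`Y := (VV N z)⁻¹ ^ k ≤ (C log z)^k ≤ (C log X)^k ≤ C^k (log X)^k`, `M = |S| ≥ (log X)^(k (1 + δ))`, `k ≥ 1`. Hence for large `X`: `Y ≤ M`,
`Y / M ≤ C^k (log X)^(-k δ)`; `LL X ^ q (Y / M) → 0` (uniformly: bounded by `C^k LL X ^ q (log X)^(-δ)`);
`Y ≤ C^k M^(1/(1 + δ))`, so `(H / M) (Y / M)^c ≤ A M^(r - 1) C^(k c) M^(-c δ/(1 + δ)) ≤ A C^(k c) M^(-1) ≤ A C^(k c) / log X` (`H_le`), and `LL X ^ q / log X → 0`.
Finally `1 ≤ ind (spread) + ind (¬ spread ∧ run) + ind (¬ run)` for every walk.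
(`LL X = 1 + log (1 + log X)`; for the limits it is convenient to use `LL X ^ q ≤ C_(q,σ) (log X)^σ` for `X ≥ 3`, or `isLittleO_pow_log_id_atTop`.)
-/

set_option autoImplicit false

namespace Pool.Agent.Helper39.SP

open Finset
open Pool.Agent.Helper40.DB (PP VV DD)

private theorem tot_LL (q : ℕ) (σ κ ε : ℝ) (hσ : 0 < σ) (hκ : 0 ≤ κ) (hε : 0 < ε) :
    ∃ X0 : ℕ, ∀ X : ℕ, X0 ≤ X → κ * LL X ^ q ≤ ε * Real.log X ^ σ := by
  set τ : ℝ := σ / (2 * (q + 1)) with hτ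
  have hτ0 : 0 < τ := by positivity
  set K : ℝ := (1 + 1 / τ) ^ q * (2 : ℝ) ^ (σ / 2) with hK
  have hK0 : 0 ≤ K := by positivity
  have h1 : Filter.Tendsto (fun n : ℕ => Real.log (n : ℝ)) Filter.atTop Filter.atTop :=
    Real.tendsto_log_atTop.comp tendsto_natCast_atTop_atTop
  have h2 : Filter.Tendsto (fun n : ℕ => (Real.log (n : ℝ)) ^ (σ / 2)) Filter.atTop Filter.atTop :=
    (tendsto_rpow_atTop (half_pos hσ)).comp h1
  obtain ⟨X0, hX0⟩ := Filter.eventually_atTop.1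
    ((h1.eventually_ge_atTop 1).and (h2.eventually_ge_atTop (κ * K / ε)))
  refine ⟨X0, fun X hX => ?_⟩
  obtain ⟨h3, h4⟩ := hX0 X hX
  set L : ℝ := Real.log (X : ℝ) with hL
  have hL0 : 0 < L := by linarith
  have h5 : Real.log (1 + L) ≤ (1 + L) ^ τ / τ := Real.log_le_rpow_div (by linarith) hτ0
  have h6 : (1 + L) ^ τ ≤ (2 * L) ^ τ := Real.rpow_le_rpow (by linarith) (by linarith) hτ0.le
  have h7 : (1 : ℝ) ≤ (2 * L) ^ τ := Real.one_le_rpow (by linarith) hτ0.le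
  have h8 : LL X ≤ (1 + 1 / τ) * (2 * L) ^ τ := by
    unfold LL
    have h9 : (1 + L) ^ τ / τ ≤ (2 * L) ^ τ / τ := div_le_div_of_nonneg_right h6 hτ0.le
    have e1 : (1 + 1 / τ) * (2 * L) ^ τ = (2 * L) ^ τ + (2 * L) ^ τ / τ := by ring
    rw [e1]
    linarith
  have hLL0 : 0 ≤ LL X := by
    unfold LL
    have : 0 ≤ Real.log (1 + L) := Real.log_nonneg (by linarith)
    linarith
  have h10 : LL X ^ q ≤ K * L ^ (σ / 2) := by
    refine (pow_le_pow_left₀ hLL0 h8 q).trans ?_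
    rw [mul_pow, hK, mul_assoc]
    apply mul_le_mul_of_nonneg_left _ (by positivity)
    rw [← Real.rpow_natCast ((2 * L) ^ τ) q, ← Real.rpow_mul (by linarith),
      ← Real.mul_rpow (by norm_num) hL0.le]
    apply Real.rpow_le_rpow_of_exponent_le (by linarith)
    rw [hτ, div_mul_eq_mul_div, div_le_div_iff₀ (by positivity) (by norm_num)]
    have hq0 : (0 : ℝ) ≤ q := Nat.cast_nonneg q
    nlinarith
  have h11 : L ^ σ = L ^ (σ / 2) * L ^ (σ / 2) := by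
    rw [← Real.rpow_add hL0]
    congr 1
    ring
  have h12 : κ * K ≤ ε * L ^ (σ / 2) := by
    rw [div_le_iff₀ hε] at h4
    linarith
  have h13 : 0 ≤ L ^ (σ / 2) := Real.rpow_nonneg hL0.le _
  calc κ * LL X ^ q ≤ κ * (K * L ^ (σ / 2)) := mul_le_mul_of_nonneg_left h10 hκ
    _ = κ * K * L ^ (σ / 2) := by ring
    _ ≤ ε * L ^ (σ / 2) * L ^ (σ / 2) := mul_le_mul_of_nonneg_right h12 h13
    _ = ε * L ^ σ := by rw [h11]; ring

private theorem tot_exp (K : ℕ) (C CA : ℝ) (hC : 0 ≤ C) (hCA : 0 ≤ CA) (r : ℕ) (hr : 1 ≤ r) (ε : ℝ)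
    (hε : 0 < ε) (B0 : ℕ) :
    ∃ b : ℕ, B0 ≤ b ∧ 2 ≤ b ∧ ((40 * (b + 2) : ℕ) : ℝ) ^ K * ((C * b) ^ K *
      (CA * ((1 / 4) ^ b + ((2 ^ b : ℕ) : ℝ) ^ (-(1 / (2 * r : ℝ)))))) ≤ ε := by
  set ρ : ℝ := (2 : ℝ) ^ (-(1 / (2 * r : ℝ))) with hρ
  have hr0 : (0 : ℝ) < r := by exact_mod_cast hr
  have hρ0 : 0 < ρ := Real.rpow_pos_of_pos (by norm_num) _
  have hρ1 : ρ < 1 := by
    apply Real.rpow_lt_one_of_one_lt_of_neg (by norm_num)
    have : 0 < 1 / (2 * r : ℝ) := by positivity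
    linarith
  have h1 : Filter.Tendsto (fun b : ℕ => (b : ℝ) ^ (2 * K) * ρ ^ b) Filter.atTop (nhds 0) :=
    tendsto_pow_const_mul_const_pow_of_abs_lt_one _ (by rw [abs_of_pos hρ0]; exact hρ1)
  have h2 : Filter.Tendsto (fun b : ℕ => (b : ℝ) ^ (2 * K) * (1 / 4 : ℝ) ^ b) Filter.atTop (nhds 0) :=
    tendsto_pow_const_mul_const_pow_of_abs_lt_one _ (by rw [abs_of_pos (by norm_num)]; norm_num)
  have h3 : Filter.Tendsto (fun b : ℕ => (120 * C) ^ K * CA * ((b : ℝ) ^ (2 * K) * (1 / 4 : ℝ) ^ b +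
      (b : ℝ) ^ (2 * K) * ρ ^ b)) Filter.atTop (nhds 0) := by
    have := (h2.add h1).const_mul ((120 * C) ^ K * CA)
    simpa using this
  obtain ⟨b0, hb0⟩ := Filter.eventually_atTop.1 (h3.eventually_lt_const hε)
  refine ⟨max (max B0 2) b0, (le_max_left _ _).trans (le_max_left _ _),
    (le_max_right _ _).trans (le_max_left _ _), ?_⟩
  have hb := hb0 (max (max B0 2) b0) (le_max_right _ _)
  have hb2 : 2 ≤ max (max B0 2) b0 := (le_max_right _ _).trans (le_max_left _ _)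
  generalize max (max B0 2) b0 = b at hb hb2
  have hbR : (2 : ℝ) ≤ b := by exact_mod_cast hb2
  have e1 : ((2 ^ b : ℕ) : ℝ) ^ (-(1 / (2 * r : ℝ))) = ρ ^ b := by
    rw [hρ, Nat.cast_pow, Nat.cast_ofNat, ← Real.rpow_natCast (2 : ℝ) b,
      ← Real.rpow_natCast ((2 : ℝ) ^ (-(1 / (2 * r : ℝ)))) b, ← Real.rpow_mul (by norm_num),
      ← Real.rpow_mul (by norm_num), mul_comm]
  rw [e1]
  have h4 : ((40 * (b + 2) : ℕ) : ℝ) ^ K ≤ (120 * (b : ℝ)) ^ K := by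
    apply pow_le_pow_left₀ (by positivity)
    push_cast
    linarith
  have h5 : 0 ≤ (C * b) ^ K * (CA * ((1 / 4) ^ b + ρ ^ b)) := by positivity
  refine (mul_le_mul_of_nonneg_right h4 h5).trans (le_trans (le_of_eq ?_) hb.le)
  rw [mul_pow, mul_pow, mul_pow, pow_mul']
  ring

private theorem tot_B1 (k : ℕ) (hk : 1 ≤ k) (δ C0 L M Y : ℝ) (hL1 : 1 ≤ L) (hδ : 0 < δ)
    (hC0 : 0 ≤ C0) (hSc : L ^ ((k : ℝ) * (1 + δ)) ≤ M) (hY2 : Y ≤ C0 ^ k * L ^ k)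
    (hLδ : C0 ^ k ≤ L ^ δ) : L ≤ M ∧ Y ≤ M ∧ Y / M ≤ C0 ^ k / L ^ δ := by
  have hL0 : 0 < L := by linarith
  have hkR : (1 : ℝ) ≤ k := by exact_mod_cast hk
  have hLk : L ^ ((k : ℝ) * (1 + δ)) = L ^ k * L ^ ((k : ℝ) * δ) := by
    rw [mul_add, mul_one, Real.rpow_add hL0, Real.rpow_natCast]
  have hLkδ : L ^ δ ≤ L ^ ((k : ℝ) * δ) :=
    Real.rpow_le_rpow_of_exponent_le hL1 (by nlinarith)
  have hLk0 : 0 ≤ L ^ k := by positivity
  have hM1 : L ^ k * L ^ δ ≤ M := by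
    refine le_trans ?_ hSc
    rw [hLk]
    exact mul_le_mul_of_nonneg_left hLkδ hLk0
  have hLM : L ≤ M := by
    refine le_trans ?_ hSc
    calc L = L ^ (1 : ℝ) := (Real.rpow_one L).symm
      _ ≤ L ^ ((k : ℝ) * (1 + δ)) := Real.rpow_le_rpow_of_exponent_le hL1 (by nlinarith)
  have hM0 : 0 < M := by linarith
  have hLδ0 : 0 < L ^ δ := Real.rpow_pos_of_pos hL0 _
  refine ⟨hLM, ?_, ?_⟩
  · refine hY2.trans (le_trans ?_ hM1)
    rw [mul_comm]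
    exact mul_le_mul_of_nonneg_left hLδ hLk0
  · rw [div_le_div_iff₀ hM0 hLδ0]
    calc Y * L ^ δ ≤ C0 ^ k * L ^ k * L ^ δ := mul_le_mul_of_nonneg_right hY2 hLδ0.le
      _ = C0 ^ k * (L ^ k * L ^ δ) := by ring
      _ ≤ C0 ^ k * M := mul_le_mul_of_nonneg_left hM1 (by positivity)

private theorem tot_B2 (k c r : ℕ) (δ A C0 L M Y H : ℝ) (hL1 : 1 ≤ L) (hδ : 0 < δ) (hA : 0 ≤ A)
    (hC0 : 0 ≤ C0) (hSc : L ^ ((k : ℝ) * (1 + δ)) ≤ M) (hc : (r : ℝ) * (1 + δ) ≤ c * δ)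
    (hY0 : 0 ≤ Y) (hY2 : Y ≤ C0 ^ k * L ^ k) (hLM : L ≤ M) (hH : H ≤ A * M ^ r) :
    H / M * (Y / M) ^ c ≤ A * C0 ^ (k * c) / L := by
  have hL0 : 0 < L := by linarith
  have hM0 : 0 < M := by linarith
  have hM1' : 1 ≤ M := by linarith
  have hd : 0 < 1 + δ := by linarith
  have h1 : L ^ (k * c) * M ^ r ≤ M ^ c := by
    have e1 : L ^ (k * c) = (L ^ ((k : ℝ) * (1 + δ))) ^ ((c : ℝ) / (1 + δ)) := by
      rw [← Real.rpow_mul hL0.le, ← Real.rpow_natCast L (k * c)]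
      congr 1
      push_cast
      field_simp
    have h2 : L ^ (k * c) ≤ M ^ ((c : ℝ) / (1 + δ)) := by
      rw [e1]
      exact Real.rpow_le_rpow (Real.rpow_nonneg hL0.le _) hSc (by positivity)
    calc L ^ (k * c) * M ^ r ≤ M ^ ((c : ℝ) / (1 + δ)) * M ^ r :=
          mul_le_mul_of_nonneg_right h2 (by positivity)
      _ = M ^ ((c : ℝ) / (1 + δ) + r) := by rw [Real.rpow_add hM0, Real.rpow_natCast]
      _ ≤ M ^ (c : ℝ) := by
          apply Real.rpow_le_rpow_of_exponent_le hM1'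
          rw [← sub_nonneg]
          have e2 : (c : ℝ) - ((c : ℝ) / (1 + δ) + r) = (c * δ - r * (1 + δ)) / (1 + δ) := by
            field_simp
            ring
          rw [e2]
          exact div_nonneg (by linarith) hd.le
      _ = M ^ c := Real.rpow_natCast _ _
  have h4 : Y ^ c ≤ C0 ^ (k * c) * L ^ (k * c) := by
    rw [pow_mul, pow_mul, ← mul_pow]
    exact pow_le_pow_left₀ hY0 hY2 c
  have h5 : H * Y ^ c ≤ A * C0 ^ (k * c) * M ^ c := by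
    calc H * Y ^ c ≤ (A * M ^ r) * Y ^ c := mul_le_mul_of_nonneg_right hH (by positivity)
      _ ≤ (A * M ^ r) * (C0 ^ (k * c) * L ^ (k * c)) :=
          mul_le_mul_of_nonneg_left h4 (by positivity)
      _ = A * C0 ^ (k * c) * (L ^ (k * c) * M ^ r) := by ring
      _ ≤ A * C0 ^ (k * c) * M ^ c := mul_le_mul_of_nonneg_left h1 (by positivity)
  have e3 : H / M * (Y / M) ^ c = H * Y ^ c / (M * M ^ c) := by
    rw [div_pow, div_mul_div_comm]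
  rw [e3]
  calc H * Y ^ c / (M * M ^ c) ≤ A * C0 ^ (k * c) * M ^ c / (M * M ^ c) :=
        div_le_div_of_nonneg_right h5 (by positivity)
    _ = A * C0 ^ (k * c) / M := by
        field_simp
    _ ≤ A * C0 ^ (k * c) / L := div_le_div_of_nonneg_left (by positivity) hL0 hLM

private theorem tot_split {k : ℕ} (a : Fin k → ℕ) (r n : ℕ) (W : Finset (Fin (n + 1) → ℕ))
    (w : (Fin (n + 1) → ℕ) → ℝ) (hw : ∀ x, 0 ≤ w x) :
    ∑ x ∈ W, w x ≤ ∑ x ∈ W, w x * ind (spread a x) +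
      ∑ x ∈ W, w x * ind (¬ spread a x ∧ run a r x) + ∑ x ∈ W, w x * ind (¬ run a r x) := by
  rw [← sum_add_distrib, ← sum_add_distrib]
  apply sum_le_sum
  intro x _
  have h0 := hw x
  have h1 : 1 ≤ ind (spread a x) + ind (¬ spread a x ∧ run a r x) + ind (¬ run a r x) := by
    have i1 := ind_nonneg (spread a x)
    have i2 := ind_nonneg (¬ spread a x ∧ run a r x)
    have i3 := ind_nonneg (¬ run a r x)
    by_cases hs : spread a x
    · rw [ind_of hs]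
      linarith
    · by_cases hr' : run a r x
      · rw [ind_of (p := ¬ spread a x ∧ run a r x) ⟨hs, hr'⟩]
        linarith
      · rw [ind_of (p := ¬ run a r x) hr']
        linarith
  nlinarith

private theorem tot_log2 (b : ℕ) : Real.log ((2 ^ b : ℕ) : ℝ) ≤ b := by
  rw [Nat.cast_pow, Nat.cast_ofNat, Real.log_pow]
  have h1 : Real.log 2 ≤ 1 := by
    have := Real.log_two_lt_d9
    linarith
  have h2 : (0 : ℝ) ≤ b := Nat.cast_nonneg b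
  nlinarith

private theorem tot_z (e X z : ℕ) (he : 1 ≤ e) (h3 : 3 ^ e ≤ X) (hz' : X < (z + 1) ^ e) : 3 ≤ z := by
  by_contra hcon
  have h1 : (z + 1) ^ e ≤ 3 ^ e := Nat.pow_le_pow_left (by omega) _
  omega

theorem total {k : ℕ} (hk : 1 ≤ k) (a : Fin k → ℕ) (ha : Function.Injective a) (r : ℕ) (hr : 1 ≤ r)
    (A : ℝ) (hA : 0 ≤ A) (δ : ℝ) (hδ : 0 < δ) :
    ∃ j n : ℕ, 1 ≤ j ∧ n + 1 = 2 ^ j ∧ ∀ η : ℝ, 0 < η → ∃ b N : ℕ, 1 ≤ N ∧ ∃ X0 : ℕ, ∀ X : ℕ, X0 ≤ X →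
    ∀ z : ℕ, z ^ (40 * (b + 2)) ≤ X → X < (z + 1) ^ (40 * (b + 2)) →
    ∀ (S : Finset ℕ) (H : ℕ), S ⊆ Icc 1 H → S.Nonempty → H ≤ X →
    (energy r S : ℝ) * H ≤ A * (S.card : ℝ) ^ (2 * r) → Real.log X ^ (k * (1 + δ)) ≤ S.card →
    ((40 * (b + 2) : ℕ) : ℝ) ^ (k * (n + 1)) * ∑ x ∈ walks n H, cyc (ker S) x * |TT a N z X x| ≤
      η ^ (n + 1) := by
  obtain ⟨C0, hC0, hV⟩ := VV_inv_le_log
  obtain ⟨c, hc⟩ : ∃ c : ℕ, (r : ℝ) * (1 + δ) ≤ c * δ := by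
    obtain ⟨c', hc'⟩ := exists_nat_ge (r * (1 + δ) / δ)
    refine ⟨c', ?_⟩
    rwa [div_le_iff₀ hδ] at hc'
  obtain ⟨m, hm1, hm2, hm0⟩ : ∃ m : ℕ, 2 * r ≤ m ∧ r * ((1 + k ^ 2) * (c + 1)) ≤ m ∧ 1 ≤ m :=
    ⟨max (2 * r) (r * ((1 + k ^ 2) * (c + 1))), le_max_left _ _, le_max_right _ _,
      le_trans (by omega) (le_max_left _ _)⟩
  obtain ⟨n, hn1⟩ : ∃ n : ℕ, n + 1 = 2 ^ m := ⟨2 ^ m - 1, Nat.sub_add_cancel Nat.one_le_two_pow⟩
  have hm3 : m < n + 1 := by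
    rw [hn1]
    exact Nat.lt_two_pow_self
  refine ⟨m, n, hm0, hn1, fun η hη => ?_⟩
  obtain ⟨CA, hCA, NA, hA'⟩ := caseA a ha r hr A hA n (by omega)
  obtain ⟨q1, NB1, hB1⟩ := caseB1 hk a ha r hr A hA n (by omega)
  obtain ⟨q2, NB2, hB2⟩ := caseB2 hk a ha r hr c n (by omega)
  obtain ⟨η3, hη3, hηe⟩ : ∃ η3 : ℝ, 0 < η3 ∧ η3 + η3 + η3 = η ^ (n + 1) :=
    ⟨η ^ (n + 1) / 3, by positivity, by ring⟩
  obtain ⟨b, hb0, hb2, hbε⟩ := tot_exp (k * (n + 1)) C0 CA hC0.le hCA r hr η3 hη3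
    (max NA (max NB1 NB2))
  obtain ⟨N, hN⟩ : ∃ N : ℕ, N = 2 ^ b := ⟨_, rfl⟩
  rw [← hN] at hbε
  have hbN : b ≤ N := by
    rw [hN]
    exact Nat.lt_two_pow_self.le
  have hNA : NA ≤ N := (le_max_left _ _).trans (hb0.trans hbN)
  have hNB1 : NB1 ≤ N := ((le_max_left _ _).trans (le_max_right _ _)).trans (hb0.trans hbN)
  have hNB2 : NB2 ≤ N := ((le_max_right _ _).trans (le_max_right _ _)).trans (hb0.trans hbN)
  have hN4 : 3 ≤ N := by
    rw [hN]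
    calc 3 ≤ 2 ^ 2 := by norm_num
      _ ≤ 2 ^ b := Nat.pow_le_pow_right (by norm_num) hb2
  obtain ⟨XA, hXA⟩ := hA' N hNA b (by omega)
  obtain ⟨C1, hC1, X1, hX1⟩ := hB1 N hNB1
  obtain ⟨C2, hC2, X2, hX2⟩ := hB2 N hNB2
  have hlogN : Real.log (N : ℝ) ≤ b := by
    rw [hN]
    exact tot_log2 b
  obtain ⟨P, hP⟩ : ∃ P : ℝ, P = ((40 * (b + 2) : ℕ) : ℝ) ^ (k * (n + 1)) := ⟨_, rfl⟩
  have hP0 : 0 ≤ P := by
    rw [hP]
    positivity
  rw [← hP] at hbε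
  obtain ⟨X3, hX3⟩ := tot_LL q1 δ (P * C1 * C0 ^ k) η3 hδ (by positivity) hη3
  obtain ⟨X4, hX4⟩ := tot_LL q2 1 (P * C2 * (A * C0 ^ (k * c))) η3 one_pos (by positivity) hη3
  have hlog : Filter.Tendsto (fun n : ℕ => Real.log (n : ℝ)) Filter.atTop Filter.atTop :=
    Real.tendsto_log_atTop.comp tendsto_natCast_atTop_atTop
  obtain ⟨X5, hX5⟩ : ∃ X5 : ℕ, ∀ X : ℕ, X5 ≤ X → 1 ≤ Real.log (X : ℝ) ∧
      C0 ^ k ≤ Real.log (X : ℝ) ^ δ :=
    Filter.eventually_atTop.1 ((hlog.eventually_ge_atTop 1).and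
      (((tendsto_rpow_atTop hδ).comp hlog).eventually_ge_atTop (C0 ^ k)))
  obtain ⟨e, he⟩ : ∃ e : ℕ, e = 40 * (b + 2) := ⟨_, rfl⟩
  have he120 : 120 ≤ e := by omega
  refine ⟨b, N, by omega, max (max (max XA X1) (max X2 X3)) (max (max X4 X5) (3 ^ e)), ?_⟩
  rw [← hP, ← he]
  rw [← he] at hXA

  intro X hX z hz hz' S H hSH hS hHX hE hSc
  have gA : XA ≤ X :=
    le_trans (le_trans (le_trans (le_max_left _ _) (le_max_left _ _)) (le_max_left _ _)) hX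
  have g1 : X1 ≤ X :=
    le_trans (le_trans (le_trans (le_max_right _ _) (le_max_left _ _)) (le_max_left _ _)) hX
  have g2 : X2 ≤ X :=
    le_trans (le_trans (le_trans (le_max_left _ _) (le_max_right _ _)) (le_max_left _ _)) hX
  have g3 : X3 ≤ X :=
    le_trans (le_trans (le_trans (le_max_right _ _) (le_max_right _ _)) (le_max_left _ _)) hX
  have g4 : X4 ≤ X :=
    le_trans (le_trans (le_trans (le_max_left _ _) (le_max_left _ _)) (le_max_right _ _)) hX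
  have g5 : X5 ≤ X :=
    le_trans (le_trans (le_trans (le_max_right _ _) (le_max_left _ _)) (le_max_right _ _)) hX
  have g6 : 3 ^ e ≤ X := le_trans (le_trans (le_max_right _ _) (le_max_right _ _)) hX
  clear hX
  obtain ⟨hL1, hLδ⟩ := hX5 X g5
  have hL0 : 0 < Real.log (X : ℝ) := by linarith
  have hz3 : 3 ≤ z := tot_z e X z (by omega) g6 hz'
  have hz120 : z ^ 120 ≤ X := le_trans (Nat.pow_le_pow_right (by omega) he120) hz
  have hzX : z ≤ X := le_trans (Nat.le_self_pow (by omega) z) hz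
  have hlz : Real.log (z : ℝ) ≤ Real.log (X : ℝ) :=
    Real.log_le_log (by exact_mod_cast (by omega : 0 < z)) (by exact_mod_cast hzX)
  have hVV0 : 0 ≤ (VV N z)⁻¹ := inv_nonneg.2 (Pool.Agent.Helper40.DB.VV_pos N z).le
  have hY1 : (VV N z)⁻¹ ≤ C0 * Real.log (X : ℝ) :=
    (hV N z hz3).trans (mul_le_mul_of_nonneg_left hlz hC0.le)
  have hY0 : 0 ≤ (VV N z)⁻¹ ^ k := pow_nonneg hVV0 k
  have hY2 : (VV N z)⁻¹ ^ k ≤ C0 ^ k * Real.log (X : ℝ) ^ k := by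
    rw [← mul_pow]
    exact pow_le_pow_left₀ hVV0 hY1 k
  obtain ⟨hLM, hYM, hYM'⟩ := tot_B1 k hk δ C0 (Real.log (X : ℝ)) (S.card : ℝ) _ hL1 hδ hC0.le hSc
    hY2 hLδ
  have hB2' := tot_B2 k c r δ A C0 (Real.log (X : ℝ)) (S.card : ℝ) _ (H : ℝ) hL1 hδ hA hC0.le hSc
    hc hY0 hY2 hLM (H_le r S hS H A hE)
  have hLδ0 : 0 < Real.log (X : ℝ) ^ δ := Real.rpow_pos_of_pos hL0 _
  have hLL0 : 0 ≤ LL X := by
    unfold LL
    have : 0 ≤ Real.log (1 + Real.log (X : ℝ)) := Real.log_nonneg (by linarith)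
    linarith
  have sA := mul_le_mul_of_nonneg_left (hXA X gA z hz S H hSH hS hE) hP0
  have sB1 := mul_le_mul_of_nonneg_left (hX1 X g1 z hz120 S H hSH hS hHX hE hYM) hP0
  have sB2 := mul_le_mul_of_nonneg_left (hX2 X g2 z hz120 S H hSH hS hHX hYM) hP0
  have tA : P * ((VV 0 N)⁻¹ ^ (k * (n + 1)) *
      (CA * ((1 / 4) ^ b + (N : ℝ) ^ (-(1 / (2 * r : ℝ)))))) ≤ η3 := by
    refine le_trans (mul_le_mul_of_nonneg_left (mul_le_mul_of_nonneg_right ?_ (by positivity))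
      hP0) hbε
    apply pow_le_pow_left₀ (inv_nonneg.2 (Pool.Agent.Helper40.DB.VV_pos 0 N).le)
    exact (hV 0 N hN4).trans (mul_le_mul_of_nonneg_left hlogN hC0.le)
  have tB1 : P * (C1 * LL X ^ q1 * ((VV N z)⁻¹ ^ k / S.card)) ≤ η3 := by
    calc P * (C1 * LL X ^ q1 * ((VV N z)⁻¹ ^ k / S.card))
        ≤ P * (C1 * LL X ^ q1 * (C0 ^ k / Real.log (X : ℝ) ^ δ)) := by
          apply mul_le_mul_of_nonneg_left _ hP0
          exact mul_le_mul_of_nonneg_left hYM' (by positivity)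
      _ = P * C1 * C0 ^ k * LL X ^ q1 / Real.log (X : ℝ) ^ δ := by ring
      _ ≤ η3 := by
          rw [div_le_iff₀ hLδ0]
          exact hX3 X g3
  have tB2 : P * (C2 * LL X ^ q2 * ((H : ℝ) / S.card * ((VV N z)⁻¹ ^ k / S.card) ^ c)) ≤ η3 := by
    calc P * (C2 * LL X ^ q2 * ((H : ℝ) / S.card * ((VV N z)⁻¹ ^ k / S.card) ^ c))
        ≤ P * (C2 * LL X ^ q2 * (A * C0 ^ (k * c) / Real.log (X : ℝ))) := by
          apply mul_le_mul_of_nonneg_left _ hP0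
          exact mul_le_mul_of_nonneg_left hB2' (by positivity)
      _ = P * C2 * (A * C0 ^ (k * c)) * LL X ^ q2 / Real.log (X : ℝ) := by ring
      _ ≤ η3 := by
          rw [div_le_iff₀ hL0]
          have h6 := hX4 X g4
          rw [Real.rpow_one] at h6
          exact h6
  have hsum := mul_le_mul_of_nonneg_left (tot_split a r n (walks n H)
    (fun x => cyc (ker S) x * |TT a N z X x|)
    (fun x => mul_nonneg (cyc_nonneg _ (ker_nonneg S) x) (abs_nonneg _))) hP0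
  rw [mul_add, mul_add] at hsum
  linarith

end Pool.Agent.Helper39.SP
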