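import Mathlib

/-!
# SP-06: the trace of a power as a sum over closed walks

PROOF. By induction on `n`: `(B ^ (n + 1)) a b = ∑_(x : Fin n → ι) B a (x 0) B (x 0) (x 1) ⋯ B (x (n-1)) b`; more convenient:
`(B ^ n * C) a b`-type statements, e.g. for all `a, b`:
`(B ^ (n + 1)) a b = ∑_(x : Fin (n + 1) → ι with x 0 = a) (∏_(i : Fin n) B (x i.castSucc) (x i.succ)) * B (x (Fin.last n)) b`
(`Fin.snoc`/`Fin.cons` decomposition: `Fin.consEquiv`, `Fin.snocEquiv`, `Fintype.sum_equiv`, `pow_succ`). Then sum over `a = b` and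
`∏_(i : Fin (n + 1)) B (x i) (x (i + 1)) = (∏_(i : Fin n) B (x i.castSucc) (x i.succ)) * B (x (Fin.last n)) (x 0)`
(`Fin.prod_univ_castSucc`, `Fin.coeSucc_eq_succ`, `Fin.last_add_one`).
-/

set_option autoImplicit false

namespace Pool.Agent.Helper39.SP

open Finset

private lemma spw_walk {ι : Type} [Fintype ι] [DecidableEq ι] (B : Matrix ι ι ℝ) (n : ℕ) :
    ∀ g : ι → ι → ℝ, ∑ x : Fin (n + 1) → ι,
      (∏ i : Fin n, B (x i.castSucc) (x i.succ)) * g (x 0) (x (Fin.last n)) =
      ∑ a, ∑ b, g a b * (B ^ n) a b := by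
  induction n with
  | zero =>
    intro g
    have h : ∑ x : Fin (0 + 1) → ι,
        (∏ i : Fin 0, B (x i.castSucc) (x i.succ)) * g (x 0) (x (Fin.last 0)) = ∑ a, g a a := by
      rw [← (Equiv.funUnique (Fin 1) ι).symm.sum_comp]
      refine Finset.sum_congr rfl fun a _ => ?_
      simp
    rw [h]
    refine Finset.sum_congr rfl fun a _ => ?_
    rw [pow_zero, Finset.sum_eq_single a]
    · simp
    · intro b _ hb
      rw [Matrix.one_apply_ne (Ne.symm hb), mul_zero]
    · intro ha
      exact absurd (Finset.mem_univ a) ha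
  | succ n ih =>
    intro g
    rw [← (Fin.consEquiv (fun _ : Fin (n + 1 + 1) => ι)).sum_comp, Fintype.sum_prod_type]
    refine Finset.sum_congr rfl fun a _ => ?_
    have h1 := ih (fun c b => B a c * g a b)
    have h2 : ∑ y : Fin (n + 1) → ι,
        (∏ i : Fin (n + 1), B ((Fin.consEquiv (fun _ : Fin (n + 1 + 1) => ι)) (a, y) i.castSucc)
          ((Fin.consEquiv (fun _ : Fin (n + 1 + 1) => ι)) (a, y) i.succ)) *
          g ((Fin.consEquiv (fun _ : Fin (n + 1 + 1) => ι)) (a, y) 0)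
            ((Fin.consEquiv (fun _ : Fin (n + 1 + 1) => ι)) (a, y) (Fin.last (n + 1))) =
        ∑ y : Fin (n + 1) → ι, (∏ i : Fin n, B (y i.castSucc) (y i.succ)) *
          (B a (y 0) * g a (y (Fin.last n))) := by
      refine Finset.sum_congr rfl fun y _ => ?_
      have e0 : (Fin.consEquiv (fun _ : Fin (n + 1 + 1) => ι)) (a, y) 0 = a := rfl
      have es : ∀ i : Fin (n + 1),
          (Fin.consEquiv (fun _ : Fin (n + 1 + 1) => ι)) (a, y) i.succ = y i := fun i => rfl
      rw [Fin.prod_univ_succ, ← Fin.succ_last, es, e0]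
      have ec : ∀ i : Fin n, (Fin.consEquiv (fun _ : Fin (n + 1 + 1) => ι)) (a, y)
          (i.succ).castSucc = y i.castSucc := fun i => rfl
      have ez : (Fin.consEquiv (fun _ : Fin (n + 1 + 1) => ι)) (a, y)
          ((0 : Fin (n + 1)).castSucc) = a := rfl
      rw [ez, es]
      simp only [ec, es]
      ring
    rw [h2, h1, Finset.sum_comm]
    refine Finset.sum_congr rfl fun b _ => ?_
    rw [pow_succ', Matrix.mul_apply, Finset.mul_sum]
    refine Finset.sum_congr rfl fun c _ => ?_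
    ring

theorem trace_walk {ι : Type} [Fintype ι] [DecidableEq ι] (B : Matrix ι ι ℝ) (n : ℕ) :
    Matrix.trace (B ^ (n + 1)) = ∑ x : Fin (n + 1) → ι, ∏ i, B (x i) (x (i + 1)) := by
  have h := spw_walk B n (fun a b => B b a)
  have h1 : ∑ x : Fin (n + 1) → ι, ∏ i, B (x i) (x (i + 1)) =
      ∑ x : Fin (n + 1) → ι,
        (∏ i : Fin n, B (x i.castSucc) (x i.succ)) * B (x (Fin.last n)) (x 0) := by
    refine Finset.sum_congr rfl fun x _ => ?_
    rw [Fin.prod_univ_castSucc]
    congr 1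
    · refine Finset.prod_congr rfl fun i _ => ?_
      rw [Fin.coeSucc_eq_succ]
    · rw [Fin.last_add_one]
  rw [h1, h, Matrix.trace, Finset.sum_comm]
  refine Finset.sum_congr rfl fun b _ => ?_
  rw [Matrix.diag_apply, pow_succ', Matrix.mul_apply]

end Pool.Agent.Helper39.SP
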