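import Pool.Agent.Helper39.SP.Defs3
import Pool.Agent.Helper13.MRF.Final

/-!
# SP-22: the two-point averages

PROOF. `Helper83.HLC.final` with `k = 0` (the product of the `Λ` is `1`), `y = 0`, `g n = f n / 2` (`|f n| ≤ 2`, `Centred_le`), `ε / 2`;
`Ioc 0 (0 + H) = Icc 1 H`. (`hE := MRC.expx_bridge MRP.mrchi0x_holds MRP.mrchi1x_holds MRP.lawx`, `hL := MRP.lawx` as in
`Pool/Agent/Results/MP_e6fa8b_nt/AverageCriticalRange.lean`.)
-/

set_option autoImplicit false

namespace Pool.Agent.Helper39.SP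

open Finset

theorem twoPt : TwoPt := by
  intro ε hε
  obtain ⟨K, X₀, h⟩ := Helper83.HLC.final
    (MRC.expx_bridge MRP.mrchi0x_holds MRP.mrchi1x_holds MRP.lawx) MRP.lawx 0 Fin.elim0
    (fun i => i.elim0) (ε / 2) (by positivity)
  refine ⟨⌈K⌉₊, X₀, fun X H hX hK hH f hf => ?_⟩
  have hK' : K * Real.log X ^ 0 ≤ H := by
    rw [pow_zero, mul_one]
    exact (Nat.le_ceil K).trans (by exact_mod_cast hK)
  have hf2 := Centred_le hf
  obtain ⟨f', y, hc, hy, hff⟩ := hf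
  have h1 := h X H y hX hK' hH hy f' hc (fun n => ((f n / 2 : ℝ) : ℂ)) (fun n => by
    rw [Complex.norm_real, Real.norm_eq_abs, abs_div, abs_two]
    have := hf2 n
    linarith)
  have h2 : ∀ t, ‖∑ n ∈ Icc 1 X, (∏ i : Fin 0, (ArithmeticFunction.vonMangoldt
      (n + (Fin.elim0 i : ℕ)) : ℂ)) * ((f n / 2 : ℝ) : ℂ) * (f' (n + (t + y)) : ℂ)‖ =
      |∑ n ∈ Icc 1 X, f n * f (n + t)| / 2 := by
    intro t
    have e1 : ∑ n ∈ Icc 1 X, (∏ i : Fin 0, (ArithmeticFunction.vonMangoldt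
      (n + (Fin.elim0 i : ℕ)) : ℂ)) * ((f n / 2 : ℝ) : ℂ) * (f' (n + (t + y)) : ℂ) =
      (((∑ n ∈ Icc 1 X, f n * f (n + t)) / 2 : ℝ) : ℂ) := by
      push_cast
      rw [Finset.sum_div]
      refine Finset.sum_congr rfl fun n _ => ?_
      rw [hff (n + t), show n + (t + y) = n + t + y by ring]
      simp
      ring
    rw [e1, Complex.norm_real, Real.norm_eq_abs, abs_div, abs_two]
  have h3 : ∑ t ∈ Icc 1 H, |∑ n ∈ Icc 1 X, f n * f (n + t)| / 2 ≤ ε / 2 * H * X := by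
    refine le_trans (le_of_eq ?_) h1
    refine Finset.sum_nbij' (fun t => t + y) (fun t => t - y) ?_ ?_ ?_ ?_ ?_
    · intro t ht
      rw [mem_Icc] at ht
      rw [mem_Ioc]
      omega
    · intro t ht
      rw [mem_Ioc] at ht
      rw [mem_Icc]
      omega
    · intro t ht
      simp
    · intro t ht
      rw [mem_Ioc] at ht
      omega
    · intro t _
      exact (h2 t).symm
  rw [← Finset.sum_div] at h3
  linarith

end Pool.Agent.Helper39.SP
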