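import Pool.Agent.Helper39.SP.Defs
import Pool.Agent.Helper39.SP.CycPow
import Pool.Agent.Helper39.SP.TraceWalk

/-!
# SP-07: the inequality for one window

PROOF. `trace_ineq` with `ι = Fin H`, `ρ = Fin (2 H + 1)`, `Φ x = φ (y + x)`, `A x r = e (r - x) / |S|` if `x ≤ r` and `r - x ∈ S`, else `0`,
`v r = f (y + r)`. `(A v) x = av S e f (y + x)` (the `h ∈ S` have `1 ≤ h ≤ H`, so `x + h < 2 H + 1`; `r = x + h`).
`(A Aᵀ) x x' = ∑_r e (r - x) e (r - x') / |S| ^ 2 = kap S e (x' - x)`: `(h, h') = (r - x, r - x')`, `h - h' = x' - x`.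
`∑ v r ^ 2 ≤ B ^ 2 (2 H + 1)` and the trace is nonnegative (`trace_nonneg`). `trace_walk` for the matrix `φ (y + x) * kap S e (x' - x)`;
`∏ (Φ (x i) * K) = ∏ Φ * ∏ K`; the sum over `Fin (n + 1) → Fin H` is the sum over `walks n H` (`x ↦ fun i => (x i : ℕ)`).
-/

set_option autoImplicit false

namespace Pool.Agent.Helper39.SP

open Finset

private lemma spwin_sum (S : Finset ℕ) (H : ℕ) (hS : S ⊆ Icc 1 H) (x : Fin H)
    (G : ℕ → ℕ → ℝ) :
    ∑ r : Fin (2 * H + 1), (if (r : ℕ) - x ∈ S then G ((r : ℕ) - x) r else 0) =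
      ∑ h ∈ S, G h (x + h) := by
  rw [Fin.sum_univ_eq_sum_range
    (fun r : ℕ => if r - (x : ℕ) ∈ S then G (r - (x : ℕ)) r else 0) (2 * H + 1),
    ← Finset.sum_filter]
  symm
  refine Finset.sum_bij (fun h _ => (x : ℕ) + h) ?_ ?_ ?_ ?_
  · intro h hh
    have h1 := Finset.mem_Icc.1 (hS hh)
    have h2 := x.2
    rw [Finset.mem_filter, Finset.mem_range]
    refine ⟨by omega, ?_⟩
    rw [Nat.add_sub_cancel_left]
    exact hh
  · intro a _ b _ hab
    simpa using hab
  · intro r hr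
    rw [Finset.mem_filter] at hr
    have h1 := Finset.mem_Icc.1 (hS hr.2)
    exact ⟨r - x, hr.2, by omega⟩
  · intro h hh
    rw [Nat.add_sub_cancel_left]

private lemma spwin_kap (S : Finset ℕ) (H : ℕ) (hS : S ⊆ Icc 1 H) (e : ℕ → ℝ) (x x' : ℕ) :
    ∑ h ∈ S, e h / S.card * (if x + h - x' ∈ S then e (x + h - x') / S.card else 0) =
      kap S e ((x' : ℤ) - x) := by
  rw [kap, Finset.sum_filter, Finset.sum_product, Finset.sum_div]
  refine Finset.sum_congr rfl fun h hh => ?_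
  have h1 : ∀ h' ∈ S, (if ((h : ℕ) : ℤ) - (h' : ℕ) = (x' : ℤ) - x then e h * e h' else 0) =
      if h' = x + h - x' then e h * e h' else 0 := by
    intro h' hh'
    have h2 := Finset.mem_Icc.1 (hS hh')
    have h3 : (((h : ℕ) : ℤ) - (h' : ℕ) = (x' : ℤ) - x) ↔ h' = x + h - x' := by omega
    simp only [h3]
  rw [Finset.sum_congr rfl h1, Finset.sum_ite_eq']
  split_ifs
  · ring
  · simp

theorem window (S : Finset ℕ) (H : ℕ) (hS : S ⊆ Icc 1 H) (e f φ : ℕ → ℝ) (B : ℝ)
    (hf : ∀ n, |f n| ≤ B) (j n : ℕ) (hj : 1 ≤ j) (hn : n + 1 = 2 ^ j) (y : ℕ) :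
    |∑ x ∈ range H, φ (y + x) * av S e f (y + x) ^ 2| ^ (n + 1) ≤
      (B ^ 2 * (2 * H + 1)) ^ (n + 1) * ∑ x ∈ walks n H, (∏ i, φ (y + x i)) *
        ∏ i, kap S e ((x (i + 1) : ℤ) - x i) := by
  classical
  let A : Matrix (Fin H) (Fin (2 * H + 1)) ℝ := fun x r =>
    if (r : ℕ) - x ∈ S then e ((r : ℕ) - x) / S.card else 0
  let v : Fin (2 * H + 1) → ℝ := fun r => f (y + r)
  let Φ : Fin H → ℝ := fun x => φ (y + x)
  have hA : ∀ x : Fin H, A.mulVec v x = av S e f (y + x) := by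
    intro x
    have h1 := spwin_sum S H hS x (fun h r => e h / S.card * f (y + r))
    have h2 : A.mulVec v x = ∑ r : Fin (2 * H + 1), (if (r : ℕ) - x ∈ S then
        e ((r : ℕ) - x) / S.card * f (y + r) else 0) := by
      simp only [Matrix.mulVec, dotProduct, A, v]
      refine Finset.sum_congr rfl fun r _ => ?_
      split_ifs
      · rfl
      · rw [zero_mul]
    rw [h2, h1, av, Finset.sum_div]
    refine Finset.sum_congr rfl fun h _ => ?_
    rw [add_assoc]
    ring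
  have hAA : ∀ x x' : Fin H, (A * A.transpose) x x' = kap S e ((x' : ℤ) - (x : ℕ)) := by
    intro x x'
    rw [← spwin_kap S H hS e x x']
    have h1 := spwin_sum S H hS x (fun h r => e h / S.card *
      (if r - (x' : ℕ) ∈ S then e (r - (x' : ℕ)) / S.card else 0))
    rw [← h1, Matrix.mul_apply]
    refine Finset.sum_congr rfl fun r _ => ?_
    simp only [Matrix.transpose_apply, A]
    split_ifs <;> simp
  have h1 := trace_ineq Φ A v j hj
  have h2 := trace_nonneg Φ A j hj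
  have h3 : ∑ i, Φ i * (A.mulVec v i) ^ 2 = ∑ x ∈ range H, φ (y + x) * av S e f (y + x) ^ 2 := by
    rw [← Fin.sum_univ_eq_sum_range (fun x => φ (y + x) * av S e f (y + x) ^ 2) H]
    refine Finset.sum_congr rfl fun x _ => ?_
    rw [hA]
  have h4 : ∑ r, v r ^ 2 ≤ B ^ 2 * (2 * H + 1) := by
    calc ∑ r, v r ^ 2 ≤ ∑ r : Fin (2 * H + 1), B ^ 2 := by
          refine Finset.sum_le_sum fun r _ => ?_
          rw [← sq_abs]
          exact pow_le_pow_left₀ (abs_nonneg _) (hf _) 2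
      _ = B ^ 2 * (2 * H + 1) := by
          rw [Finset.sum_const, Finset.card_univ, Fintype.card_fin, nsmul_eq_mul]
          push_cast
          ring
  have h5 : Matrix.trace ((Matrix.diagonal Φ * (A * A.transpose)) ^ (n + 1)) =
      ∑ x ∈ walks n H, (∏ i, φ (y + x i)) * ∏ i, kap S e ((x (i + 1) : ℤ) - x i) := by
    rw [trace_walk]
    refine Finset.sum_bij (fun (x : Fin (n + 1) → Fin H) _ => fun i => (x i : ℕ)) ?_ ?_ ?_ ?_
    · intro x _
      rw [walks, Fintype.mem_piFinset]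
      intro i
      exact Finset.mem_range.2 (x i).2
    · intro a _ b _ hab
      funext i
      exact Fin.ext (congrFun hab i)
    · intro x hx
      rw [walks, Fintype.mem_piFinset] at hx
      exact ⟨fun i => ⟨x i, Finset.mem_range.1 (hx i)⟩, Finset.mem_univ _, rfl⟩
    · intro x _
      rw [← Finset.prod_mul_distrib]
      refine Finset.prod_congr rfl fun i _ => ?_
      rw [Matrix.diagonal_mul, hAA]
  rw [← hn, h3, h5] at h1
  rw [← hn, h5] at h2
  refine h1.trans (mul_le_mul_of_nonneg_right ?_ h2)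
  exact pow_le_pow_left₀ (Finset.sum_nonneg fun r _ => sq_nonneg _) h4 _

end Pool.Agent.Helper39.SP
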